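import Pool.Agent.Work.MP_ec1f6a_co.Comp

/-!
MP_ec1f6a_co: the counterexample.  Core: K_{3,3} on {0,1,2} and {3,4,5}, all weights 1/10.
The edge {6,7} carries the vector (2,-1,-1,-1,-1,2), the edge {8,9} the vector
(1,-2,-2,2,2,-1): the positive coordinates are joined to 6 (to 8), the negative ones to 7
(to 9), with weight |coordinate| / 1000.
-/

namespace Pool.Agent.ECF

open Pool.Agent.EC

set_option maxRecDepth 100000

/-- the edges: (tail, head, a, b), weight a / b -/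
def es : List (Fin 10 × Fin 10 × ℕ × ℕ) :=
  [(0, 3, 1, 10), (0, 4, 1, 10), (0, 5, 1, 10), (1, 3, 1, 10), (1, 4, 1, 10), (1, 5, 1, 10),
   (2, 3, 1, 10), (2, 4, 1, 10), (2, 5, 1, 10),
   (6, 0, 1, 500), (7, 1, 1, 1000), (7, 2, 1, 1000), (7, 3, 1, 1000), (7, 4, 1, 1000),
   (6, 5, 1, 500),
   (8, 0, 1, 1000), (9, 1, 1, 500), (9, 2, 1, 500), (8, 3, 1, 500), (8, 4, 1, 500),
   (9, 5, 1, 1000),
   (6, 7, 1, 1), (8, 9, 1, 1)]

/-- the same list as natural numbers, `x` and `y` are the absent weights of the two edges -/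
def ls (x y : ℕ) : List (ℕ × ℕ × ℕ × ℕ) :=
  [(0, 3, 1, 10), (0, 4, 1, 10), (0, 5, 1, 10), (1, 3, 1, 10), (1, 4, 1, 10), (1, 5, 1, 10),
   (2, 3, 1, 10), (2, 4, 1, 10), (2, 5, 1, 10),
   (6, 0, 1, 500), (7, 1, 1, 1000), (7, 2, 1, 1000), (7, 3, 1, 1000), (7, 4, 1, 1000),
   (6, 5, 1, 500),
   (8, 0, 1, 1000), (9, 1, 1, 500), (9, 2, 1, 500), (8, 3, 1, 500), (8, 4, 1, 500),
   (9, 5, 1, 1000),
   (6, 7, 1, x), (8, 9, 1, y)]

/-- the recursion -/
def rec0 (x y : ℕ) : ℕ :=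
  Tr.top (Tr.dv (trm [1, 2, 3, 4, 5, 6, 7, 8, 9] (Wm (ls x y)) 1)
    (trm [1, 2, 3, 4, 5, 6, 7, 8, 9] (Wm (ls x y)) 0))

def te : Fin 10 × Fin 10 × ℕ × ℕ := (6, 7, 1, 1)
def tf : Fin 10 × Fin 10 × ℕ × ℕ := (8, 9, 1, 1)

theorem es_nodup : (es.map key).Nodup := by decide +kernel
theorem es_loop : ∀ t ∈ es, t.1 ≠ t.2.1 := by decide +kernel
theorem es_pos : ∀ t ∈ es, t.2.2.2 ≠ 0 := by decide +kernel
theorem vs_nodup : ((0 : Fin 10) :: [1, 2, 3, 4, 5, 6, 7, 8, 9]).Nodup := by decide +kernel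
theorem vs_all : ∀ x, x ∈ ((0 : Fin 10) :: [1, 2, 3, 4, 5, 6, 7, 8, 9]) := by decide +kernel
theorem key_ne : key te ≠ key tf := by decide +kernel

theorem lst_ef : lst es {key te, key tf} = ls 0 0 := by decide +kernel
theorem lst_e : lst es {key te} = ls 0 1 := by decide +kernel
theorem lst_f : lst es {key tf} = ls 1 0 := by decide +kernel
theorem lst_0 : lst es ∅ = ls 1 1 := by decide +kernel

theorem rec_ef : rec0 0 0 = 1170005053841577810819112371031416691 := by decide +kernel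
theorem rec_0 : rec0 1 1 = 1175246961532833108873469413280166764 := by decide +kernel
theorem rec_e : rec0 0 1 = 1172913799222674527191585146562833382 := by decide +kernel
theorem rec_f : rec0 1 0 = 1172332430069918809098476927140083382 := by decide +kernel

theorem val_rec (F : Finset (Sym2 (Fin 10))) (x y : ℕ) (h : lst es F = ls x y) :
    val es 0 [1, 2, 3, 4, 5, 6, 7, 8, 9] F = rec0 x y := by
  unfold val rec0
  rw [h]
  rfl

theorem ineq : val es 0 [1, 2, 3, 4, 5, 6, 7, 8, 9] {key te}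
      * val es 0 [1, 2, 3, 4, 5, 6, 7, 8, 9] {key tf}
    < val es 0 [1, 2, 3, 4, 5, 6, 7, 8, 9] {key te, key tf}
      * val es 0 [1, 2, 3, 4, 5, 6, 7, 8, 9] ∅ := by
  rw [val_rec _ _ _ lst_e, val_rec _ _ _ lst_f, val_rec _ _ _ lst_ef, val_rec _ _ _ lst_0,
    rec_e, rec_f, rec_ef, rec_0]
  norm_num

end Pool.Agent.ECF
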