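import Pool.Agent.Work.MP_ec1f6a_co.Stable

/-!
Negative correlation of two edges with a common vertex, in the weighted forest measure.
-/

set_option autoImplicit false

namespace Pool.Agent.Work.MP_ec1f6a_co

open Matrix SimpleGraph Finset
open scoped Classical

variable {V : Type*}

/-- weighted sum over the subsets of `S` with a property -/
noncomputable def Z {R : Type*} [CommRing R] (w : Sym2 V → R) (S : Finset (Sym2 V))
    (Q : Finset (Sym2 V) → Prop) : R :=
  ∑ A ∈ S.powerset, if Q A then ∏ x ∈ A, w x else 0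

theorem Z_filter {R : Type*} [CommRing R] (w : Sym2 V → R) (S : Finset (Sym2 V))
    (Q : Finset (Sym2 V) → Prop) [DecidablePred Q] :
    ∑ A ∈ S.powerset.filter Q, ∏ x ∈ A, w x = Z w S Q := by
  rw [Finset.sum_filter, Z]
  apply Finset.sum_congr rfl
  intro A _
  split_ifs <;> rfl

theorem Z_split {R : Type*} [CommRing R] (w : Sym2 V → R) (S : Finset (Sym2 V))
    (e f : Sym2 V) (he : e ∉ S) (hf : f ∉ S) (hef : e ≠ f) (Q : Finset (Sym2 V) → Prop) :
    Z w (insert e (insert f S)) Q =
      Z w S Q + w e * Z w S (fun A => Q (insert e A)) + w f * Z w S (fun A => Q (insert f A)) +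
      w e * w f * Z w S (fun A => Q (insert e (insert f A))) := by
  have he' : e ∉ insert f S := by
    rw [Finset.mem_insert]; push Not; exact ⟨hef, he⟩
  simp only [Z]
  rw [Finset.sum_powerset_insert he', Finset.sum_powerset_insert hf,
    Finset.sum_powerset_insert hf]
  simp only [Finset.mul_sum, ← Finset.sum_add_distrib]
  apply Finset.sum_congr rfl
  intro A hA
  have hA' := Finset.mem_powerset.1 hA
  have h1 : e ∉ A := fun h => he (hA' h)
  have h2 : f ∉ A := fun h => hf (hA' h)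
  have h3 : e ∉ insert f A := by
    rw [Finset.mem_insert]; push Not; exact ⟨hef, h1⟩
  rw [Finset.prod_insert h1, Finset.prod_insert h3, Finset.prod_insert h2]
  split_ifs <;> ring

theorem Z_congr {R : Type*} [CommRing R] (w w' : Sym2 V → R) (S : Finset (Sym2 V))
    (h : ∀ x ∈ S, w x = w' x) (Q : Finset (Sym2 V) → Prop) : Z w S Q = Z w' S Q := by
  apply Finset.sum_congr rfl
  intro A hA
  have hA' := Finset.mem_powerset.1 hA
  have : ∏ g ∈ A, w g = ∏ g ∈ A, w' g := Finset.prod_congr rfl (fun g hg => h g (hA' hg))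
  rw [this]

theorem Z_cast (p : Sym2 V → ℝ) (S : Finset (Sym2 V)) (Q : Finset (Sym2 V) → Prop) :
    Z (fun x => ((p x : ℝ) : ℂ)) S Q = ((Z p S Q : ℝ) : ℂ) := by
  rw [Z, Z, Complex.ofReal_sum]
  apply Finset.sum_congr rfl
  intro A _
  split_ifs
  · rw [Complex.ofReal_prod]
  · simp

theorem Z_zero {R : Type*} [CommRing R] (w : Sym2 V → R) (S : Finset (Sym2 V))
    (Q : Finset (Sym2 V) → Prop) (h : ∀ A, A ⊆ S → ¬ Q A) : Z w S Q = 0 := by
  apply Finset.sum_eq_zero
  intro A hA
  rw [if_neg (h A (Finset.mem_powerset.1 hA))]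

variable [Fintype V]

theorem T_congr (a : V) (w w' : Sym2 V → ℂ) (S : Finset (Sym2 V)) (h : ∀ x ∈ S, w x = w' x)
    (N : Matrix V V ℂ) : T a w S N = T a w' S N := by
  apply Finset.sum_congr rfl
  intro A hA
  have hA' := Finset.mem_powerset.1 hA
  have : ∏ g ∈ A, w g = ∏ g ∈ A, w' g := Finset.prod_congr rfl (fun g hg => h g (hA' hg))
  rw [term, term, this]

theorem T_Z (a : V) (w : Sym2 V → ℂ) (S : Finset (Sym2 V)) :
    T a w S 0 = Z w S (fun A => (gr A).IsAcyclic) := by
  rw [T_zero, Z_filter]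

theorem T_continuous (a : V) (w : Sym2 V → ℂ) (S : Finset (Sym2 V)) (N : ℝ → Matrix V V ℂ)
    (hN : Continuous N) : Continuous (fun ε => T a w S (N ε)) := by
  unfold T
  apply continuous_finsetSum
  intro A _
  unfold term
  split_ifs
  · exact continuous_const.mul ((continuous_const.add (hN.mul continuous_const)).matrix_det)
  · exact continuous_const

/-- the forest function with two free root edges -/
theorem T_two (a b d : V) (hab : a ≠ b) (had : a ≠ d) (hbd : b ≠ d) (w : Sym2 V → ℂ)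
    (S : Finset (Sym2 V)) (hb : s(a, b) ∉ S) (hd : s(a, d) ∉ S) (s t : ℂ) :
    T a w S (s • E b + t • E d) =
      Z w S (fun A => (gr A).IsAcyclic) +
      s * Z w S (fun A => (gr (insert s(a, b) A)).IsAcyclic) +
      t * Z w S (fun A => (gr (insert s(a, d) A)).IsAcyclic) +
      s * t * Z w S (fun A => (gr (insert s(a, b) (insert s(a, d) A))).IsAcyclic) := by
  have hef : s(a, b) ≠ s(a, d) := by
    intro h
    rw [Sym2.eq_iff] at h
    rcases h with ⟨_, h⟩ | ⟨h, _⟩
    · exact hbd h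
    · exact had h
  obtain ⟨w', hw'⟩ : ∃ w' : Sym2 V → ℂ,
    w' = Function.update (Function.update w s(a, b) s) s(a, d) t := ⟨_, rfl⟩
  have hwe : w' s(a, b) = s := by
    rw [hw', Function.update_of_ne hef, Function.update_self]
  have hwf : w' s(a, d) = t := by
    rw [hw', Function.update_self]
  have hwS : ∀ x ∈ S, w x = w' x := by
    intro x hx
    have h1 : x ≠ s(a, b) := fun h => hb (h ▸ hx)
    have h2 : x ≠ s(a, d) := fun h => hd (h ▸ hx)
    rw [hw', Function.update_of_ne h2, Function.update_of_ne h1]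
  have hbd' : s(a, b) ∉ insert s(a, d) S := by
    rw [Finset.mem_insert]; push Not; exact ⟨hef, hb⟩
  have h1 := T_star a w' (insert s(a, d) S) 0 b hab hbd'
  have h2 := T_star a w' S (0 + w' s(a, b) • vecMulVec (Pi.single b 1) (Pi.single b 1)) d had hd
  rw [h2, T_Z, hwe, hwf, zero_add, Z_split w' S _ _ hb hd hef, hwe, hwf,
    ← Z_congr w w' S hwS, ← Z_congr w w' S hwS, ← Z_congr w w' S hwS, ← Z_congr w w' S hwS,
    ← T_congr a w w' S hwS] at h1
  exact h1.symm

omit [Fintype V] in
theorem diag_update (z : V → ℂ) (d : V) (t : ℂ) :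
    diagonal (Function.update z d t) = diagonal (Function.update z d 0) + t • E d := by
  ext k l
  rw [Matrix.add_apply, Matrix.smul_apply, E, vecMulVec_apply, diagonal_apply, diagonal_apply]
  by_cases hkl : k = l
  · subst hkl
    by_cases hkd : k = d
    · subst hkd; simp
    · simp [hkd]
  · by_cases hkd : k = d
    · subst hkd; simp [hkl, Ne.symm hkl]
    · simp [hkd, hkl]

/-- the core inequality -/
theorem core (a b d : V) (hab : a ≠ b) (had : a ≠ d) (hbd : b ≠ d) (p : Sym2 V → ℝ)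
    (S : Finset (Sym2 V)) (hb : s(a, b) ∉ S) (hd : s(a, d) ∉ S)
    (hS : ∀ g ∈ S, ¬ g.IsDiag) (hp : ∀ g ∈ S, a ∉ g → 0 ≤ p g) :
    Z p S (fun A => (gr A).IsAcyclic) *
      Z p S (fun A => (gr (insert s(a, b) (insert s(a, d) A))).IsAcyclic) ≤
      Z p S (fun A => (gr (insert s(a, b) A)).IsAcyclic) *
      Z p S (fun A => (gr (insert s(a, d) A)).IsAcyclic) := by
  obtain ⟨w, hw⟩ : ∃ w : Sym2 V → ℂ, w = fun x => ((p x : ℝ) : ℂ) := ⟨_, rfl⟩
  have hF := T_two a b d hab had hbd w S hb hd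
  rw [hw] at hF
  simp only [Z_cast] at hF
  rw [← hw] at hF
  obtain ⟨a0, ha0⟩ : ∃ x : ℝ, x = Z p S (fun A => (gr A).IsAcyclic) := ⟨_, rfl⟩
  obtain ⟨a1, ha1⟩ : ∃ x : ℝ, x = Z p S (fun A => (gr (insert s(a, b) A)).IsAcyclic) := ⟨_, rfl⟩
  obtain ⟨a2, ha2⟩ : ∃ x : ℝ, x = Z p S (fun A => (gr (insert s(a, d) A)).IsAcyclic) := ⟨_, rfl⟩
  obtain ⟨a3, ha3⟩ : ∃ x : ℝ, x = Z p S
    (fun A => (gr (insert s(a, b) (insert s(a, d) A))).IsAcyclic) := ⟨_, rfl⟩
  rw [← ha0, ← ha1, ← ha2, ← ha3]
  simp only [← ha0, ← ha1, ← ha2, ← ha3] at hF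
  by_contra hlt
  push Not at hlt
  -- the perturbed function
  obtain ⟨z, hz⟩ : ∃ z : ℝ → ℂ → V → ℂ, z = fun (ε : ℝ) (t : ℂ) =>
    Function.update (Function.update (fun _ => (ε : ℂ) * Complex.I) b Complex.I) d t := ⟨_, rfl⟩
  obtain ⟨G, hG⟩ : ∃ G : ℝ → ℂ → ℂ, G = fun ε t => T a w S (diagonal (z ε t)) := ⟨_, rfl⟩
  have hcont : ∀ t, Continuous (fun ε => G ε t) := by
    intro t
    rw [hG]
    apply T_continuous
    apply Continuous.matrix_diagonal
    rw [hz]
    apply continuous_pi
    intro k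
    by_cases hkd : k = d
    · subst hkd
      simp only [Function.update_self]
      exact continuous_const
    · simp only [Function.update_of_ne hkd]
      by_cases hkb : k = b
      · subst hkb
        simp only [Function.update_self]
        exact continuous_const
      · simp only [Function.update_of_ne hkb]
        exact (Complex.continuous_ofReal).mul continuous_const
  have haff : ∀ ε t, G ε t = G ε 0 + t * (G ε 1 - G ε 0) := by
    intro ε t
    have h1 : ∀ t, diagonal (z ε t) = diagonal (z ε 0) + t • E d := by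
      intro t
      rw [hz]
      exact diag_update _ d t
    rw [hG]
    simp only
    rw [h1 t, h1 1, one_smul]
    exact T_affine a w S (diagonal (z ε 0)) (Pi.single d 1) (Pi.single d 1) t
  have hzero : ∀ t, G 0 t = a0 + Complex.I * a1 + t * a2 + Complex.I * t * a3 := by
    intro t
    rw [← hF, hG]
    simp only
    congr 1
    rw [hz]
    ext k l
    rw [Matrix.add_apply, Matrix.smul_apply, Matrix.smul_apply, E, E, vecMulVec_apply,
      vecMulVec_apply, diagonal_apply]
    by_cases hkl : k = l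
    · subst hkl
      by_cases hkd : k = d
      · subst hkd; simp [Ne.symm hbd]
      · by_cases hkb : k = b
        · subst hkb; simp [hkd]
        · simp [hkd, hkb]
    · by_cases hkd : k = d
      · subst hkd; simp [hkl, Ne.symm hkl, Ne.symm hbd]
      · by_cases hkb : k = b
        · subst hkb; simp [hkl, Ne.symm hkl, hkd]
        · simp [hkd, hkb, hkl]
  have hne : ∀ ε : ℝ, 0 < ε → ∀ t : ℂ, 0 < t.im → G ε t ≠ 0 := by
    intro ε hε t ht
    rw [hG]
    simp only
    have := stable a w S hS (fun g hg hag => ⟨p g, hp g hg hag, by rw [hw]⟩)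
      (fun g _ _ => by rw [hw]; simp) 0 isHermitian_zero (z ε t) (by
        intro k
        rw [hz]
        simp only
        by_cases hkd : k = d
        · subst hkd; simpa using ht
        · rw [Function.update_of_ne hkd]
          by_cases hkb : k = b
          · subst hkb; simp
          · rw [Function.update_of_ne hkb]; simpa using hε)
    rwa [zero_add] at this
  have hB0 : G 0 1 - G 0 0 ≠ 0 := by
    rw [hzero, hzero]
    intro h
    have hre := congrArg Complex.re h
    have him := congrArg Complex.im h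
    simp at hre him
    rw [hre, him] at hlt
    simp at hlt
  have hlim : Filter.Tendsto (fun ε => -(G ε 0) / (G ε 1 - G ε 0)) (nhds 0)
      (nhds (-(G 0 0) / (G 0 1 - G 0 0))) := by
    apply Filter.Tendsto.div
    · exact ((hcont 0).tendsto 0).neg
    · exact ((hcont 1).tendsto 0).sub ((hcont 0).tendsto 0)
    · exact hB0
  have himpos : 0 < (-(G 0 0) / (G 0 1 - G 0 0)).im := by
    have h1 : G 0 1 - G 0 0 = a2 + Complex.I * a3 := by rw [hzero, hzero]; ring
    have h2 : G 0 0 = a0 + Complex.I * a1 := by rw [hzero]; ring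
    have hN : 0 < Complex.normSq ((a2 : ℂ) + Complex.I * a3) := by
      rw [Complex.normSq_pos]
      intro h
      exact hB0 (by rw [h1, h])
    rw [h1, h2, Complex.div_im, ← sub_div]
    apply div_pos _ hN
    simp
    nlinarith
  have hev1 : ∀ᶠ ε in nhds (0 : ℝ), 0 < (-(G ε 0) / (G ε 1 - G ε 0)).im :=
    ((Complex.continuous_im.tendsto _).comp hlim).eventually (lt_mem_nhds himpos)
  have hev2 : ∀ᶠ ε in nhds (0 : ℝ), G ε 1 - G ε 0 ≠ 0 :=
    (((hcont 1).tendsto 0).sub ((hcont 0).tendsto 0)).eventually (isOpen_ne.mem_nhds hB0)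
  obtain ⟨ε, ⟨h1, h2⟩, h3⟩ := (((hev1.and hev2).filter_mono nhdsWithin_le_nhds).and
    (self_mem_nhdsWithin : Set.Ioi (0 : ℝ) ∈ nhdsWithin 0 (Set.Ioi 0))).exists
  apply hne ε h3 _ h1
  rw [haff]
  field_simp
  ring

/-- adjacent edges are negatively correlated -/
theorem adjacent (E0 : Finset (Sym2 V)) (hE : ∀ g ∈ E0, ¬ g.IsDiag) (p : Sym2 V → ℝ) (a : V)
    (hp : ∀ g ∈ E0, a ∉ g → 0 ≤ p g) (e f : Sym2 V) (he : e ∈ E0) (hf : f ∈ E0) (hef : e ≠ f)
    (hae : a ∈ e) (haf : a ∈ f) (hpp : 0 ≤ p e * p f) :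
    Z p E0 (fun A => e ∈ A ∧ f ∈ A ∧ (gr A).IsAcyclic) * Z p E0 (fun A => (gr A).IsAcyclic) ≤
    Z p E0 (fun A => e ∈ A ∧ (gr A).IsAcyclic) * Z p E0 (fun A => f ∈ A ∧ (gr A).IsAcyclic) := by
  obtain ⟨b, rfl⟩ := hae
  obtain ⟨d, rfl⟩ := haf
  have hab : a ≠ b := by simpa using hE _ he
  have had : a ≠ d := by simpa using hE _ hf
  have hbd : b ≠ d := fun h => hef (by rw [h])
  obtain ⟨S, hS⟩ : ∃ S : Finset (Sym2 V), S = (E0.erase s(a, b)).erase s(a, d) := ⟨_, rfl⟩
  have hfe : s(a, d) ∈ E0.erase s(a, b) := Finset.mem_erase.2 ⟨hef.symm, hf⟩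
  have hE0 : E0 = insert s(a, b) (insert s(a, d) S) := by
    rw [hS, Finset.insert_erase hfe, Finset.insert_erase he]
  have hbS : s(a, b) ∉ S := by rw [hS]; simp
  have hdS : s(a, d) ∉ S := by rw [hS]; simp
  have hsub : ∀ g ∈ S, g ∈ E0 := by
    intro g hg
    rw [hE0]; simp [hg]
  have key := core a b d hab had hbd p S hbS hdS (fun g hg => hE g (hsub g hg))
    (fun g hg => hp g (hsub g hg))
  rw [hE0]
  rw [Z_split p S _ _ hbS hdS hef, Z_split p S _ _ hbS hdS hef,
    Z_split p S _ _ hbS hdS hef, Z_split p S _ _ hbS hdS hef]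
  rw [Z_zero p S (fun A => s(a, b) ∈ A ∧ s(a, d) ∈ A ∧ (gr A).IsAcyclic)
      (fun A hA h => hbS (hA h.1)),
    Z_zero p S (fun A => s(a, b) ∈ insert s(a, b) A ∧ s(a, d) ∈ insert s(a, b) A ∧
      (gr (insert s(a, b) A)).IsAcyclic) (fun A hA h => by
        rcases Finset.mem_insert.1 h.2.1 with h1 | h1
        · exact hef h1.symm
        · exact hdS (hA h1)),
    Z_zero p S (fun A => s(a, b) ∈ insert s(a, d) A ∧ s(a, d) ∈ insert s(a, d) A ∧
      (gr (insert s(a, d) A)).IsAcyclic) (fun A hA h => by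
        rcases Finset.mem_insert.1 h.1 with h1 | h1
        · exact hef h1
        · exact hbS (hA h1)),
    Z_zero p S (fun A => s(a, b) ∈ A ∧ (gr A).IsAcyclic) (fun A hA h => hbS (hA h.1)),
    Z_zero p S (fun A => s(a, b) ∈ insert s(a, d) A ∧ (gr (insert s(a, d) A)).IsAcyclic)
      (fun A hA h => by
        rcases Finset.mem_insert.1 h.1 with h1 | h1
        · exact hef h1
        · exact hbS (hA h1)),
    Z_zero p S (fun A => s(a, d) ∈ A ∧ (gr A).IsAcyclic) (fun A hA h => hdS (hA h.1)),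
    Z_zero p S (fun A => s(a, d) ∈ insert s(a, b) A ∧ (gr (insert s(a, b) A)).IsAcyclic)
      (fun A hA h => by
        rcases Finset.mem_insert.1 h.1 with h1 | h1
        · exact hef h1.symm
        · exact hdS (hA h1))]
  have m1 : ∀ A : Finset (Sym2 V), s(a, b) ∈ insert s(a, b) (insert s(a, d) A) := by
    intro A; simp
  have m2 : ∀ A : Finset (Sym2 V), s(a, d) ∈ insert s(a, b) (insert s(a, d) A) := by
    intro A; simp
  have m3 : ∀ A : Finset (Sym2 V), s(a, b) ∈ insert s(a, b) A := by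
    intro A; simp
  have m4 : ∀ A : Finset (Sym2 V), s(a, d) ∈ insert s(a, d) A := by
    intro A; simp
  simp only [m1, m2, m3, m4, true_and]
  nlinarith [mul_le_mul_of_nonneg_left key hpp]

end Pool.Agent.Work.MP_ec1f6a_co
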