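import Mathlib

/-!
MP_ec1f6a_co: the subset recursion for weighted sums over connected spanning subgraphs.
Weights are pairs: `a e` when the edge `e` is present, `b e` when it is absent.
-/

namespace Pool.Agent.ECF

open Finset Classical

variable {V : Type*} [Fintype V]

/-- edges of `E` inside `S` -/
noncomputable def ins (E : Finset (Sym2 V)) (S : Finset V) : Finset (Sym2 V) :=
  E.filter (fun e => ∀ x ∈ e, x ∈ S)

/-- edges of `E` with tail in `S` -/
noncomputable def own (E : Finset (Sym2 V)) (tl : Sym2 V → V) (S : Finset V) :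
    Finset (Sym2 V) :=
  E.filter (fun e => tl e ∈ S)

/-- weight of the edge set `A` among the edges of `F` -/
noncomputable def pw (a b : Sym2 V → ℕ) (F A : Finset (Sym2 V)) : ℕ :=
  ∏ e ∈ F, if e ∈ A then a e else b e

/-- component of `v` in the graph with edge set `A` -/
noncomputable def comp (A : Finset (Sym2 V)) (v : V) : Finset V :=
  univ.filter (fun w => (SimpleGraph.fromEdgeSet (A : Set (Sym2 V))).Reachable v w)

/-- all edge sets inside `S` -/
noncomputable def WS (E : Finset (Sym2 V)) (tl : Sym2 V → V) (a b : Sym2 V → ℕ)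
    (S : Finset V) : ℕ :=
  ∑ A ∈ (ins E S).powerset, pw a b (own E tl S) A

/-- edge sets inside `S` which connect `S` -/
noncomputable def CS (E : Finset (Sym2 V)) (tl : Sym2 V → V) (a b : Sym2 V → ℕ) (v : V)
    (S : Finset V) : ℕ :=
  ∑ A ∈ (ins E S).powerset.filter (fun A => comp A v = S), pw a b (own E tl S) A

variable {E : Finset (Sym2 V)} {tl : Sym2 V → V} {a b : Sym2 V → ℕ} {v : V}

theorem mem_ins {S : Finset V} {e : Sym2 V} : e ∈ ins E S ↔ e ∈ E ∧ ∀ x ∈ e, x ∈ S := by
  simp [ins]

theorem mem_own {S : Finset V} {e : Sym2 V} : e ∈ own E tl S ↔ e ∈ E ∧ tl e ∈ S := by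
  simp [own]

theorem mem_comp {A : Finset (Sym2 V)} {w : V} :
    w ∈ comp A v ↔ Relation.ReflTransGen (SimpleGraph.fromEdgeSet (A : Set (Sym2 V))).Adj v w := by
  simp [comp, SimpleGraph.reachable_iff_reflTransGen]

theorem self_mem_comp {A : Finset (Sym2 V)} : v ∈ comp A v := by
  rw [mem_comp]

theorem adj_iff {A : Finset (Sym2 V)} {x y : V} :
    (SimpleGraph.fromEdgeSet (A : Set (Sym2 V))).Adj x y ↔ s(x, y) ∈ A ∧ x ≠ y := by
  simp [SimpleGraph.fromEdgeSet_adj]

/-- a set closed under the edges of `A` which contains `v` contains the component -/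
theorem comp_subset {A : Finset (Sym2 V)} {T : Finset V} (hv : v ∈ T)
    (h : ∀ x y, s(x, y) ∈ A → x ∈ T → y ∈ T) : comp A v ⊆ T := by
  intro w hw
  rw [mem_comp] at hw
  induction hw with
  | refl => exact hv
  | tail _ hbc ih => exact h _ _ (adj_iff.1 hbc).1 ih

theorem comp_mono {A B : Finset (Sym2 V)} (h : A ⊆ B) : comp A v ⊆ comp B v := by
  intro w hw
  rw [mem_comp] at hw ⊢
  refine Relation.ReflTransGen.mono ?_ _ _ hw
  intro x y hxy
  rw [adj_iff] at hxy ⊢
  exact ⟨h hxy.1, hxy.2⟩

theorem ins_mono {S T : Finset V} (h : T ⊆ S) : ins E T ⊆ ins E S := by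
  intro e he
  rw [mem_ins] at he ⊢
  exact ⟨he.1, fun x hx => h (he.2 x hx)⟩

theorem ins_disj {S T : Finset V} {e : Sym2 V} (h1 : e ∈ ins E T) (h2 : e ∈ ins E (S \ T)) :
    False := by
  rw [mem_ins] at h1 h2
  have hx : e.out.1 ∈ e := Sym2.out_fst_mem e
  have := h2.2 _ hx
  rw [Finset.mem_sdiff] at this
  exact this.2 (h1.2 _ hx)

/-- the component of `v` is `T` -/
theorem comp_eq_iff {S T : Finset V} (hTS : T ⊆ S) (hv : v ∈ T) {A : Finset (Sym2 V)}
    (hA : A ⊆ ins E S) :
    comp A v = T ↔ A ⊆ ins E T ∪ ins E (S \ T) ∧ comp (A ∩ ins E T) v = T := by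
  constructor
  · intro h
    have hcl : ∀ x y, s(x, y) ∈ A → x ∈ T → y ∈ T := by
      intro x y hxy hx
      rw [← h, mem_comp] at hx ⊢
      by_cases hne : x = y
      · rw [← hne]; exact hx
      · exact hx.tail (adj_iff.2 ⟨hxy, hne⟩)
    refine ⟨?_, ?_⟩
    · intro e
      induction e using Sym2.ind with
      | _ x y =>
        intro he
        have heS := mem_ins.1 (hA he)
        rw [Finset.mem_union, mem_ins, mem_ins]
        by_cases hx : x ∈ T
        · left
          refine ⟨heS.1, ?_⟩
          intro z hz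
          rcases Sym2.mem_iff.1 hz with rfl | rfl
          · exact hx
          · exact hcl _ _ he hx
        · right
          refine ⟨heS.1, ?_⟩
          intro z hz
          rw [Finset.mem_sdiff]
          refine ⟨heS.2 z hz, ?_⟩
          rcases Sym2.mem_iff.1 hz with rfl | rfl
          · exact hx
          · intro hzT
            exact hx (hcl _ _ (by rw [Sym2.eq_swap]; exact he) hzT)
    · apply Finset.Subset.antisymm
      · calc comp (A ∩ ins E T) v ⊆ comp A v := comp_mono Finset.inter_subset_left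
          _ = T := h
      · intro w hw
        have hw' := hw
        rw [← h, mem_comp] at hw'
        rw [mem_comp]
        clear hw
        induction hw' with
        | refl => exact Relation.ReflTransGen.refl
        | @tail b c hb hbc ih =>
          refine ih.tail ?_
          have hbT : b ∈ T := by rw [← h, mem_comp]; exact hb
          have hcT : c ∈ T := by rw [← h, mem_comp]; exact hb.tail hbc
          rw [adj_iff] at hbc ⊢
          refine ⟨Finset.mem_inter.2 ⟨hbc.1, mem_ins.2 ⟨(mem_ins.1 (hA hbc.1)).1, ?_⟩⟩, hbc.2⟩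
          intro z hz
          rcases Sym2.mem_iff.1 hz with rfl | rfl
          · exact hbT
          · exact hcT
  · rintro ⟨h1, h2⟩
    apply Finset.Subset.antisymm
    · refine comp_subset hv ?_
      intro x y hxy hx
      rcases Finset.mem_union.1 (h1 hxy) with h3 | h3
      · exact (mem_ins.1 h3).2 y (Sym2.mem_mk_right x y)
      · have := (mem_ins.1 h3).2 x (Sym2.mem_mk_left x y)
        rw [Finset.mem_sdiff] at this
        exact absurd hx this.2
    · calc T = comp (A ∩ ins E T) v := h2.symm
        _ ⊆ comp A v := comp_mono Finset.inter_subset_left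

theorem pw_split (htl : ∀ e ∈ E, tl e ∈ e) {S T : Finset V} (hTS : T ⊆ S)
    {A : Finset (Sym2 V)} (hA : A ⊆ ins E T ∪ ins E (S \ T)) :
    pw a b (own E tl S) A
      = pw a b (own E tl T) (A ∩ ins E T) * pw a b (own E tl (S \ T)) (A ∩ ins E (S \ T)) := by
  have hown : own E tl S = own E tl T ∪ own E tl (S \ T) := by
    ext e
    simp only [mem_own, Finset.mem_union, Finset.mem_sdiff]
    constructor
    · rintro ⟨h1, h2⟩
      by_cases h3 : tl e ∈ T
      · exact Or.inl ⟨h1, h3⟩
      · exact Or.inr ⟨h1, h2, h3⟩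
    · rintro (⟨h1, h2⟩ | ⟨h1, h2, h3⟩)
      · exact ⟨h1, hTS h2⟩
      · exact ⟨h1, h2⟩
  have hdis : Disjoint (own E tl T) (own E tl (S \ T)) := by
    rw [Finset.disjoint_left]
    intro e h1 h2
    rw [mem_own] at h1 h2
    exact (Finset.mem_sdiff.1 h2.2).2 h1.2
  unfold pw
  rw [hown, Finset.prod_union hdis]
  congr 1
  · refine Finset.prod_congr rfl ?_
    intro e he
    have : e ∈ A ↔ e ∈ A ∩ ins E T := by
      rw [Finset.mem_inter]
      refine ⟨fun h => ⟨h, ?_⟩, fun h => h.1⟩
      rcases Finset.mem_union.1 (hA h) with h3 | h3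
      · exact h3
      · exfalso
        rw [mem_own] at he
        exact (Finset.mem_sdiff.1 ((mem_ins.1 h3).2 _ (htl e he.1))).2 he.2
    simp only [this]
  · refine Finset.prod_congr rfl ?_
    intro e he
    have : e ∈ A ↔ e ∈ A ∩ ins E (S \ T) := by
      rw [Finset.mem_inter]
      refine ⟨fun h => ⟨h, ?_⟩, fun h => h.1⟩
      rcases Finset.mem_union.1 (hA h) with h3 | h3
      · exfalso
        rw [mem_own] at he
        exact (Finset.mem_sdiff.1 he.2).2 ((mem_ins.1 h3).2 _ (htl e he.1))
      · exact h3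
    simp only [this]

theorem sum_comp_eq (htl : ∀ e ∈ E, tl e ∈ e) {S T : Finset V} (hTS : T ⊆ S) (hv : v ∈ T) :
    ∑ A ∈ (ins E S).powerset.filter (fun A => comp A v = T), pw a b (own E tl S) A
      = CS E tl a b v T * WS E tl a b (S \ T) := by
  unfold CS WS
  rw [Finset.sum_mul_sum, ← Finset.sum_product']
  refine Finset.sum_nbij' (fun A => (A ∩ ins E T, A ∩ ins E (S \ T))) (fun q => q.1 ∪ q.2)
    ?_ ?_ ?_ ?_ ?_
  · intro A hA
    rw [Finset.mem_filter, Finset.mem_powerset] at hA
    rw [Finset.mem_product, Finset.mem_filter, Finset.mem_powerset, Finset.mem_powerset]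
    exact ⟨⟨Finset.inter_subset_right, ((comp_eq_iff hTS hv hA.1).1 hA.2).2⟩,
      Finset.inter_subset_right⟩
  · intro q hq
    rw [Finset.mem_product, Finset.mem_filter, Finset.mem_powerset, Finset.mem_powerset] at hq
    obtain ⟨⟨h1, h2⟩, h3⟩ := hq
    rw [Finset.mem_filter, Finset.mem_powerset]
    have hsub : q.1 ∪ q.2 ⊆ ins E S := by
      refine Finset.union_subset (h1.trans (ins_mono hTS)) (h3.trans (ins_mono ?_))
      exact Finset.sdiff_subset
    refine ⟨hsub, (comp_eq_iff hTS hv hsub).2 ⟨Finset.union_subset_union h1 h3, ?_⟩⟩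
    have : (q.1 ∪ q.2) ∩ ins E T = q.1 := by
      ext e
      rw [Finset.mem_inter, Finset.mem_union]
      constructor
      · rintro ⟨h4 | h4, h5⟩
        · exact h4
        · exact (ins_disj h5 (h3 h4)).elim
      · intro h4
        exact ⟨Or.inl h4, h1 h4⟩
    rw [this]
    exact h2
  · intro A hA
    rw [Finset.mem_filter, Finset.mem_powerset] at hA
    have h1 := ((comp_eq_iff hTS hv hA.1).1 hA.2).1
    simp only
    rw [← Finset.inter_union_distrib_left]
    exact Finset.inter_eq_left.2 h1
  · intro q hq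
    rw [Finset.mem_product, Finset.mem_filter, Finset.mem_powerset, Finset.mem_powerset] at hq
    obtain ⟨⟨h1, h2⟩, h3⟩ := hq
    have e1 : (q.1 ∪ q.2) ∩ ins E T = q.1 := by
      ext e
      rw [Finset.mem_inter, Finset.mem_union]
      constructor
      · rintro ⟨h4 | h4, h5⟩
        · exact h4
        · exact (ins_disj h5 (h3 h4)).elim
      · intro h4
        exact ⟨Or.inl h4, h1 h4⟩
    have e2 : (q.1 ∪ q.2) ∩ ins E (S \ T) = q.2 := by
      ext e
      rw [Finset.mem_inter, Finset.mem_union]
      constructor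
      · rintro ⟨h4 | h4, h5⟩
        · exact (ins_disj (h1 h4) h5).elim
        · exact h4
      · intro h4
        exact ⟨Or.inr h4, h3 h4⟩
    exact Prod.ext e1 e2
  · intro A hA
    rw [Finset.mem_filter, Finset.mem_powerset] at hA
    exact pw_split htl hTS ((comp_eq_iff hTS hv hA.1).1 hA.2).1

/-- **The subset recursion.** -/
theorem WS_eq (htl : ∀ e ∈ E, tl e ∈ e) {S : Finset V} (hv : v ∈ S) :
    WS E tl a b S = ∑ T ∈ S.powerset.filter (fun T => v ∈ T),
      CS E tl a b v T * WS E tl a b (S \ T) := by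
  have hmaps : ∀ A ∈ (ins E S).powerset, comp A v ∈ S.powerset.filter (fun T => v ∈ T) := by
    intro A hA
    rw [Finset.mem_powerset] at hA
    rw [Finset.mem_filter, Finset.mem_powerset]
    refine ⟨comp_subset hv ?_, self_mem_comp⟩
    intro x y hxy _
    exact (mem_ins.1 (hA hxy)).2 y (Sym2.mem_mk_right x y)
  conv_lhs => rw [WS, ← Finset.sum_fiberwise_of_maps_to hmaps]
  refine Finset.sum_congr rfl ?_
  intro T hT
  rw [Finset.mem_filter, Finset.mem_powerset] at hT
  exact sum_comp_eq htl hT.1 hT.2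

/-- product formula -/
theorem WS_prod (htl : ∀ e ∈ E, tl e ∈ e) (S : Finset V) :
    WS E tl a b S = ∏ e ∈ own E tl S, (if ∀ x ∈ e, x ∈ S then a e + b e else b e) := by
  have hsub : ins E S ⊆ own E tl S := by
    intro e he
    rw [mem_ins] at he
    rw [mem_own]
    exact ⟨he.1, he.2 _ (htl e he.1)⟩
  have h1 : ∏ e ∈ own E tl S, (if ∀ x ∈ e, x ∈ S then a e + b e else b e)
      = (∏ e ∈ ins E S, (a e + b e)) * ∏ e ∈ own E tl S \ ins E S, b e := by
    rw [← Finset.prod_sdiff hsub, mul_comm]
    congr 1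
    · refine Finset.prod_congr rfl ?_
      intro e he
      rw [if_pos (mem_ins.1 he).2]
    · refine Finset.prod_congr rfl ?_
      intro e he
      rw [Finset.mem_sdiff, mem_own, mem_ins] at he
      rw [if_neg (fun h => he.2 ⟨he.1.1, h⟩)]
  rw [h1, Finset.prod_add, Finset.sum_mul]
  unfold WS
  refine Finset.sum_congr rfl ?_
  intro A hA
  rw [Finset.mem_powerset] at hA
  unfold pw
  rw [← Finset.prod_sdiff hsub, mul_comm]
  congr 1
  · rw [← Finset.prod_sdiff hA, mul_comm]
    congr 1
    · refine Finset.prod_congr rfl ?_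
      intro e he
      rw [if_pos he]
    · refine Finset.prod_congr rfl ?_
      intro e he
      rw [if_neg (Finset.mem_sdiff.1 he).2]
  · refine Finset.prod_congr rfl ?_
    intro e he
    rw [if_neg (fun h => (Finset.mem_sdiff.1 he).2 (hA h))]

theorem connected_iff {A : Finset (Sym2 V)} :
    (SimpleGraph.fromEdgeSet (A : Set (Sym2 V))).Connected ↔ comp A v = univ := by
  rw [SimpleGraph.connected_iff_exists_forall_reachable]
  constructor
  · rintro ⟨x, hx⟩
    ext w
    simp only [comp, Finset.mem_filter, Finset.mem_univ, true_and, iff_true]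
    exact (hx v).symm.trans (hx w)
  · intro h
    refine ⟨v, fun w => ?_⟩
    have : w ∈ comp A v := by rw [h]; exact Finset.mem_univ w
    simpa [comp] using this

/-- the value at the full vertex set -/
theorem CS_univ (E : Finset (Sym2 V)) (tl : Sym2 V → V) (a b : Sym2 V → ℕ) (v : V) :
    CS E tl a b v univ = ∑ A ∈ E.powerset.filter
      (fun A : Finset (Sym2 V) => (SimpleGraph.fromEdgeSet (A : Set (Sym2 V))).Connected),
        pw a b E A := by
  unfold CS
  have h1 : ins E univ = E := by
    ext e; simp [mem_ins]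
  have h2 : own E tl univ = E := by
    ext e; simp [mem_own]
  rw [h1, h2]
  refine Finset.sum_congr ?_ (fun _ _ => rfl)
  ext A
  simp only [Finset.mem_filter, connected_iff (v := v)]

end Pool.Agent.ECF
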