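import Pool.Agent.Work.MP_ec1f6a_co.MAdj

/-!
Transfer to connected spanning subgraphs of graphs that have a dual.
-/

set_option autoImplicit false

namespace Pool.Agent.Work.MP_ec1f6a_co

open Matrix SimpleGraph Finset
open scoped Classical

variable {V ι : Type*}

theorem mZ_compl (p q : ι → ℝ) (E0 : Finset ι) (hpq : ∀ x ∈ E0, p x * q x = 1)
    (Q : Finset ι → Prop) :
    mZ p E0 Q = (∏ x ∈ E0, p x) * mZ q E0 (fun A => Q (E0 \ A)) := by
  rw [mZ, mZ, Finset.mul_sum]
  apply Finset.sum_nbij' (fun A => E0 \ A) (fun A => E0 \ A)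
  · intro A _
    exact Finset.mem_powerset.2 Finset.sdiff_subset
  · intro A _
    exact Finset.mem_powerset.2 Finset.sdiff_subset
  · intro A hA
    exact Finset.sdiff_sdiff_eq_self (Finset.mem_powerset.1 hA)
  · intro A hA
    exact Finset.sdiff_sdiff_eq_self (Finset.mem_powerset.1 hA)
  · intro A hA
    have hA' := Finset.mem_powerset.1 hA
    rw [Finset.sdiff_sdiff_eq_self hA']
    split_ifs with h
    · have h1 : ∏ x ∈ E0, p x = (∏ x ∈ E0 \ A, p x) * ∏ x ∈ A, p x :=
        (Finset.prod_sdiff hA').symm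
      have h2 : (∏ x ∈ E0 \ A, p x) * ∏ x ∈ E0 \ A, q x = 1 := by
        rw [← Finset.prod_mul_distrib]
        apply Finset.prod_eq_one
        intro x hx
        exact hpq x (Finset.mem_sdiff.1 hx).1
      rw [h1]
      linear_combination (-(∏ x ∈ A, p x)) * h2
    · simp

theorem mZ_iff (p : ι → ℝ) (E0 : Finset ι) (Q Q' : Finset ι → Prop)
    (h : ∀ A, A ⊆ E0 → (Q A ↔ Q' A)) : mZ p E0 Q = mZ p E0 Q' := by
  rw [mZ, mZ]
  apply Finset.sum_congr rfl
  intro A hA
  by_cases h1 : Q A
  · rw [if_pos h1, if_pos ((h A (Finset.mem_powerset.1 hA)).1 h1)]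
  · rw [if_neg h1, if_neg (fun h2 => h1 ((h A (Finset.mem_powerset.1 hA)).2 h2))]

variable [Fintype V]

theorem conn_pos (ends : ι → Sym2 V) (E0 : Finset ι) (Cn : Finset ι → Prop)
    (hdual : ∀ A, A ⊆ E0 → (Cn A ↔ MF ends (E0 \ A))) (p : ι → ℝ) (hp : ∀ x ∈ E0, 0 < p x)
    (e f : ι) (he : e ∈ E0) (hf : f ∈ E0) (hef : e ≠ f) (a : V) (hae : a ∈ ends e)
    (haf : a ∈ ends f) :
    mZ p E0 (fun A => e ∈ A ∧ f ∈ A ∧ Cn A) * mZ p E0 Cn ≤
      mZ p E0 (fun A => e ∈ A ∧ Cn A) * mZ p E0 (fun A => f ∈ A ∧ Cn A) := by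
  obtain ⟨q, hq⟩ : ∃ q : ι → ℝ, q = fun x => (p x)⁻¹ := ⟨_, rfl⟩
  have hpq : ∀ x ∈ E0, p x * q x = 1 := by
    intro x hx
    rw [hq]
    exact mul_inv_cancel₀ (hp x hx).ne'
  have hq0 : ∀ x ∈ E0, 0 ≤ q x := by
    intro x hx
    rw [hq]
    exact inv_nonneg.2 (hp x hx).le
  have hdd : ∀ B, B ⊆ E0 → (Cn (E0 \ B) ↔ MF ends B) := by
    intro B hB
    rw [hdual _ Finset.sdiff_subset, Finset.sdiff_sdiff_eq_self hB]
  have c1 : mZ p E0 (fun A => e ∈ A ∧ f ∈ A ∧ Cn A) =
      (∏ x ∈ E0, p x) * mZ q E0 (fun B => e ∉ B ∧ f ∉ B ∧ MF ends B) := by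
    rw [mZ_compl p q E0 hpq]
    congr 1
    apply mZ_iff
    intro B hB
    rw [hdd B hB, Finset.mem_sdiff, Finset.mem_sdiff]
    tauto
  have c2 : mZ p E0 Cn = (∏ x ∈ E0, p x) * mZ q E0 (fun B => MF ends B) := by
    rw [mZ_compl p q E0 hpq]
    congr 1
    apply mZ_iff
    intro B hB
    rw [hdd B hB]
  have c3 : mZ p E0 (fun A => e ∈ A ∧ Cn A) =
      (∏ x ∈ E0, p x) * mZ q E0 (fun B => e ∉ B ∧ MF ends B) := by
    rw [mZ_compl p q E0 hpq]
    congr 1
    apply mZ_iff
    intro B hB
    rw [hdd B hB, Finset.mem_sdiff]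
    tauto
  have c4 : mZ p E0 (fun A => f ∈ A ∧ Cn A) =
      (∏ x ∈ E0, p x) * mZ q E0 (fun B => f ∉ B ∧ MF ends B) := by
    rw [mZ_compl p q E0 hpq]
    congr 1
    apply mZ_iff
    intro B hB
    rw [hdd B hB, Finset.mem_sdiff]
    tauto
  obtain ⟨P, hP⟩ : ∃ P : ℝ, P = ∏ x ∈ E0, p x := ⟨_, rfl⟩
  rw [c1, c2, c3, c4, ← hP]
  -- the inequality for the dual forests
  have main : mZ q E0 (fun B => e ∉ B ∧ f ∉ B ∧ MF ends B) * mZ q E0 (fun B => MF ends B) ≤
      mZ q E0 (fun B => e ∉ B ∧ MF ends B) * mZ q E0 (fun B => f ∉ B ∧ MF ends B) := by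
    obtain ⟨S, hS⟩ : ∃ S : Finset ι, S = (E0.erase e).erase f := ⟨_, rfl⟩
    have hfe : f ∈ E0.erase e := Finset.mem_erase.2 ⟨hef.symm, hf⟩
    have hE0 : E0 = insert e (insert f S) := by
      rw [hS, Finset.insert_erase hfe, Finset.insert_erase he]
    have heS : e ∉ S := by rw [hS]; simp
    have hfS : f ∉ S := by rw [hS]; simp
    have hsub : ∀ g ∈ S, g ∈ E0 := by
      intro g hg
      rw [hE0]; simp [hg]
    have nn : ∀ Q : Finset ι → Prop, 0 ≤ mZ q S Q := by
      intro Q
      rw [mZ]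
      apply Finset.sum_nonneg
      intro A hA
      split_ifs
      · exact Finset.prod_nonneg (fun g hg => hq0 g (hsub g (Finset.mem_powerset.1 hA hg)))
      · exact le_refl _
    have hqe := hq0 e he
    have hqf := hq0 f hf
    have key : mZ q S (fun A => MF ends A) *
        mZ q S (fun A => MF ends (insert e (insert f A))) ≤
        mZ q S (fun A => MF ends (insert e A)) * mZ q S (fun A => MF ends (insert f A)) := by
      obtain ⟨b, hb⟩ := hae
      obtain ⟨d, hd⟩ := haf
      by_cases hab : a = b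
      · have hz : mZ q S (fun A => MF ends (insert e (insert f A))) = 0 := by
          apply mZ_zero
          rintro A _ ⟨_, h, _⟩
          apply h e (Finset.mem_insert_self _ _)
          rw [hb, hab]
          exact Sym2.mk_isDiag_iff.2 rfl
        rw [hz, mul_zero]
        exact mul_nonneg (nn _) (nn _)
      by_cases had : a = d
      · have hz : mZ q S (fun A => MF ends (insert e (insert f A))) = 0 := by
          apply mZ_zero
          rintro A _ ⟨_, h, _⟩
          apply h f (Finset.mem_insert_of_mem (Finset.mem_insert_self _ _))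
          rw [hd, had]
          exact Sym2.mk_isDiag_iff.2 rfl
        rw [hz, mul_zero]
        exact mul_nonneg (nn _) (nn _)
      exact mcore ends a b d hab had q S e f hef heS hfS hb hd (fun g hg => hq0 g (hsub g hg))
    have me : ∀ A : Finset ι, ¬ (e ∉ insert e A) := fun A h => h (Finset.mem_insert_self _ _)
    have mf : ∀ A : Finset ι, ¬ (f ∉ insert f A) := fun A h => h (Finset.mem_insert_self _ _)
    have mf2 : ∀ A : Finset ι, ¬ (f ∉ insert e (insert f A)) := fun A h =>
      h (Finset.mem_insert_of_mem (Finset.mem_insert_self _ _))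
    have s1 : mZ q E0 (fun B => e ∉ B ∧ f ∉ B ∧ MF ends B) = mZ q S (fun A => MF ends A) := by
      rw [hE0, mZ_split q S e f heS hfS hef,
        mZ_zero q S (fun A => e ∉ insert e A ∧ f ∉ insert e A ∧ MF ends (insert e A))
          (fun A _ h => me A h.1),
        mZ_zero q S (fun A => e ∉ insert f A ∧ f ∉ insert f A ∧ MF ends (insert f A))
          (fun A _ h => mf A h.2.1),
        mZ_zero q S (fun A => e ∉ insert e (insert f A) ∧ f ∉ insert e (insert f A) ∧
          MF ends (insert e (insert f A))) (fun A _ h => me _ h.1)]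
      rw [mul_zero, mul_zero, mul_zero, add_zero, add_zero, add_zero]
      apply mZ_iff
      intro A hA
      have h1 : e ∉ A := fun h => heS (hA h)
      have h2 : f ∉ A := fun h => hfS (hA h)
      tauto
    have s2 : mZ q E0 (fun B => e ∉ B ∧ MF ends B) = mZ q S (fun A => MF ends A) +
        q f * mZ q S (fun A => MF ends (insert f A)) := by
      rw [hE0, mZ_split q S e f heS hfS hef,
        mZ_zero q S (fun A => e ∉ insert e A ∧ MF ends (insert e A))
          (fun A _ h => me A h.1),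
        mZ_zero q S (fun A => e ∉ insert e (insert f A) ∧
          MF ends (insert e (insert f A))) (fun A _ h => me _ h.1)]
      rw [mul_zero, mul_zero, add_zero, add_zero]
      congr 1
      · apply mZ_iff
        intro A hA
        have h1 : e ∉ A := fun h => heS (hA h)
        tauto
      · congr 1
        apply mZ_iff
        intro A hA
        have h1 : e ∉ insert f A := fun h => by
          rcases Finset.mem_insert.1 h with h | h
          · exact hef h
          · exact heS (hA h)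
        tauto
    have s3 : mZ q E0 (fun B => f ∉ B ∧ MF ends B) = mZ q S (fun A => MF ends A) +
        q e * mZ q S (fun A => MF ends (insert e A)) := by
      rw [hE0, mZ_split q S e f heS hfS hef,
        mZ_zero q S (fun A => f ∉ insert f A ∧ MF ends (insert f A))
          (fun A _ h => mf A h.1),
        mZ_zero q S (fun A => f ∉ insert e (insert f A) ∧
          MF ends (insert e (insert f A))) (fun A _ h => mf2 _ h.1)]
      rw [mul_zero, mul_zero, add_zero, add_zero]
      congr 1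
      · apply mZ_iff
        intro A hA
        have h1 : f ∉ A := fun h => hfS (hA h)
        tauto
      · congr 1
        apply mZ_iff
        intro A hA
        have h1 : f ∉ insert e A := fun h => by
          rcases Finset.mem_insert.1 h with h | h
          · exact hef h.symm
          · exact hfS (hA h)
        tauto
    have s4 : mZ q E0 (fun B => MF ends B) = mZ q S (fun A => MF ends A) +
        q e * mZ q S (fun A => MF ends (insert e A)) +
        q f * mZ q S (fun A => MF ends (insert f A)) +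
        q e * q f * mZ q S (fun A => MF ends (insert e (insert f A))) := by
      rw [hE0, mZ_split q S e f heS hfS hef]
    rw [s1, s2, s3, s4]
    nlinarith [mul_le_mul_of_nonneg_left key (mul_nonneg hqe hqf)]
  nlinarith [mul_le_mul_of_nonneg_left main (mul_self_nonneg P)]

theorem conn_nonneg (ends : ι → Sym2 V) (E0 : Finset ι) (Cn : Finset ι → Prop)
    (hdual : ∀ A, A ⊆ E0 → (Cn A ↔ MF ends (E0 \ A))) (p : ι → ℝ) (hp : ∀ x ∈ E0, 0 ≤ p x)
    (e f : ι) (he : e ∈ E0) (hf : f ∈ E0) (hef : e ≠ f) (a : V) (hae : a ∈ ends e)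
    (haf : a ∈ ends f) :
    mZ p E0 (fun A => e ∈ A ∧ f ∈ A ∧ Cn A) * mZ p E0 Cn ≤
      mZ p E0 (fun A => e ∈ A ∧ Cn A) * mZ p E0 (fun A => f ∈ A ∧ Cn A) := by
  obtain ⟨P, hP⟩ : ∃ P : ℝ → ι → ℝ, P = fun ε x => p x + ε := ⟨_, rfl⟩
  have hc : ∀ Q : Finset ι → Prop, Filter.Tendsto (fun ε : ℝ => mZ (P ε) E0 Q)
      (nhdsWithin 0 (Set.Ioi 0)) (nhds (mZ p E0 Q)) := by
    intro Q
    have h0 : mZ p E0 Q = mZ (P 0) E0 Q := by
      congr 1
      rw [hP]
      ext x
      simp
    have hcont : Continuous (fun ε : ℝ => mZ (P ε) E0 Q) := by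
      rw [hP]
      unfold mZ
      apply continuous_finsetSum
      intro A _
      split_ifs
      · apply continuous_finsetProd
        intro x _
        exact continuous_const.add continuous_id
      · exact continuous_const
    rw [h0]
    exact (hcont.tendsto 0).mono_left nhdsWithin_le_nhds
  apply le_of_tendsto_of_tendsto ((hc _).mul (hc _)) ((hc _).mul (hc _))
  filter_upwards [self_mem_nhdsWithin] with ε hε
  apply conn_pos ends E0 Cn hdual (P ε) _ e f he hf hef a hae haf
  intro x hx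
  rw [hP]
  have := hp x hx
  have h2 : (0 : ℝ) < ε := hε
  simp only
  linarith

theorem conn_nonneg' (ends : ι → Sym2 V) (E0 : Finset ι) (Cn : Finset ι → Prop)
    (hdual : ∀ A B : Finset ι, A ⊆ E0 → (∀ x, x ∈ B ↔ x ∈ E0 ∧ x ∉ A) → (Cn A ↔ MF ends B))
    (p : ι → ℝ) (hp : ∀ x ∈ E0, 0 ≤ p x)
    (e f : ι) (he : e ∈ E0) (hf : f ∈ E0) (hef : e ≠ f) (a : V) (hae : a ∈ ends e)
    (haf : a ∈ ends f) :
    mZ p E0 (fun A => e ∈ A ∧ f ∈ A ∧ Cn A) * mZ p E0 Cn ≤
      mZ p E0 (fun A => e ∈ A ∧ Cn A) * mZ p E0 (fun A => f ∈ A ∧ Cn A) :=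
  conn_nonneg ends E0 Cn (fun A hA => hdual A (E0 \ A) hA (fun _ => Finset.mem_sdiff)) p hp e f he
    hf hef a hae haf

end Pool.Agent.Work.MP_ec1f6a_co
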