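import Mathlib

/-!
# Tries indexed by subsets, subset convolution and its inverse

`Tr` is a binary tree with natural numbers at the leaves. `tr vs g S` is the tree of the values of
`g` on the sets `S ∪ U`, `U` a subset of the list `vs`; `conv` is the subset convolution,
`dv (conv c w) w = c` if the value of `w` on the empty set is `1`.
-/

set_option autoImplicit false

namespace Pool.Agent.EC

/-- binary trees with natural numbers at the leaves -/
inductive Tr
  | leaf (n : ℕ) : Tr
  | node (l r : Tr) : Tr

namespace Tr

/-- pointwise sum -/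
def add : Tr → Tr → Tr
  | leaf a, leaf b => leaf (a + b)
  | node a b, node c d => node (add a c) (add b d)
  | leaf _, node _ _ => leaf 0
  | node _ _, leaf _ => leaf 0

/-- pointwise truncated difference -/
def sub : Tr → Tr → Tr
  | leaf a, leaf b => leaf (a - b)
  | node a b, node c d => node (sub a c) (sub b d)
  | leaf _, node _ _ => leaf 0
  | node _ _, leaf _ => leaf 0

/-- subset convolution -/
def conv : Tr → Tr → Tr
  | leaf a, leaf b => leaf (a * b)
  | node a b, node c d => node (conv a c) (add (conv a d) (conv b c))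
  | leaf _, node _ _ => leaf 0
  | node _ _, leaf _ => leaf 0

/-- the inverse of `fun c => conv c w`, for `w` with value `1` on the empty set -/
def dv : Tr → Tr → Tr
  | leaf a, _ => leaf a
  | node a b, node c d => node (dv a c) (dv (sub b (conv (dv a c) d)) c)
  | node _ _, leaf _ => leaf 0

/-- the value on the full set -/
def top : Tr → ℕ
  | leaf a => a
  | node _ r => top r

/-- the value on the empty set -/
def bot : Tr → ℕ
  | leaf a => a
  | node l _ => bot l

/-- both trees are complete of the same depth -/
inductive Dep : ℕ → Tr → Prop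
  | leaf (a : ℕ) : Dep 0 (leaf a)
  | node {n : ℕ} {l r : Tr} (hl : Dep n l) (hr : Dep n r) : Dep (n + 1) (node l r)

theorem Dep.add {n : ℕ} : ∀ {s t : Tr}, Dep n s → Dep n t → Dep n (Tr.add s t) := by
  induction n with
  | zero =>
    intro s t hs ht
    cases hs
    cases ht
    exact Dep.leaf _
  | succ n ih =>
    intro s t hs ht
    cases hs with
    | node h1 h2 =>
      cases ht with
      | node h3 h4 => exact Dep.node (ih h1 h3) (ih h2 h4)

theorem Dep.conv {n : ℕ} : ∀ {s t : Tr}, Dep n s → Dep n t → Dep n (Tr.conv s t) := by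
  induction n with
  | zero =>
    intro s t hs ht
    cases hs
    cases ht
    exact Dep.leaf _
  | succ n ih =>
    intro s t hs ht
    cases hs with
    | node h1 h2 =>
      cases ht with
      | node h3 h4 => exact Dep.node (ih h1 h3) ((ih h1 h4).add (ih h2 h3))

theorem sub_add {n : ℕ} : ∀ {s t : Tr}, Dep n s → Dep n t → sub (add s t) s = t := by
  induction n with
  | zero =>
    intro s t hs ht
    cases hs
    cases ht
    simp [add, sub]
  | succ n ih =>
    intro s t hs ht
    cases hs with
    | node h1 h2 =>
      cases ht with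
      | node h3 h4 => simp only [add, sub, ih h1 h3, ih h2 h4]

/-- the division inverts the convolution -/
theorem dv_conv {n : ℕ} : ∀ {c w : Tr}, Dep n c → Dep n w → bot w = 1 → dv (conv c w) w = c := by
  induction n with
  | zero =>
    intro c w hc hw hb
    cases hc
    cases hw
    simp only [bot] at hb
    subst hb
    simp [conv, dv]
  | succ n ih =>
    intro c w hc hw hb
    cases hc with
    | node h1 h2 =>
      cases hw with
      | node h3 h4 =>
        simp only [bot] at hb
        simp only [conv, dv, ih h1 h3 hb]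
        rw [sub_add (h1.conv h4) (h2.conv h3), ih h2 h3 hb]

end Tr

section
variable {V : Type*} [DecidableEq V]

/-- the tree of the values `g (S ∪ U)`, `U ⊆ vs` -/
def tr : List V → (Finset V → ℕ) → Finset V → Tr
  | [], g, S => Tr.leaf (g S)
  | x :: vs, g, S => Tr.node (tr vs g S) (tr vs g (insert x S))

theorem tr_dep (vs : List V) (g : Finset V → ℕ) : ∀ S, Tr.Dep vs.length (tr vs g S) := by
  induction vs with
  | nil => exact fun S => Tr.Dep.leaf _
  | cons x vs ih => exact fun S => Tr.Dep.node (ih _) (ih _)

theorem bot_tr (vs : List V) (g : Finset V → ℕ) (S : Finset V) : Tr.bot (tr vs g S) = g S := by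
  induction vs with
  | nil => rfl
  | cons x vs ih => exact ih

theorem top_tr (vs : List V) (g : Finset V → ℕ) : ∀ S : Finset V,
    Tr.top (tr vs g S) = g (S ∪ vs.toFinset) := by
  induction vs with
  | nil => intro S; simp [tr, Tr.top]
  | cons x vs ih =>
    intro S
    simp only [tr, Tr.top]
    rw [ih]
    congr 1
    ext y
    simp only [Finset.mem_union, Finset.mem_insert, List.toFinset_cons, List.mem_toFinset]
    tauto

/-- only the values on the sets `S ∪ U`, `U ⊆ vs`, matter -/
theorem tr_congr (vs : List V) (g h : Finset V → ℕ) : ∀ S : Finset V,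
    (∀ T, S ⊆ T → T ⊆ S ∪ vs.toFinset → g T = h T) → tr vs g S = tr vs h S := by
  induction vs with
  | nil =>
    intro S H
    simp only [tr]
    rw [H S (Finset.Subset.refl _) Finset.subset_union_left]
  | cons x vs ih =>
    intro S H
    simp only [tr]
    have e1 : tr vs g S = tr vs h S := ih S fun T h1 h2 => H T h1 (h2.trans
      (Finset.union_subset_union_right (by
        intro y hy
        simp only [List.toFinset_cons, Finset.mem_insert]
        exact Or.inr hy)))
    have e2 : tr vs g (insert x S) = tr vs h (insert x S) := ih _ fun T h1 h2 =>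
      H T ((Finset.subset_insert x S).trans h1) (h2.trans (by
        intro y hy
        simp only [Finset.mem_union, Finset.mem_insert, List.toFinset_cons] at hy ⊢
        tauto))
    rw [e1, e2]

/-- moving the base set into the function -/
theorem tr_shift (vs : List V) (g : Finset V → ℕ) : ∀ A S : Finset V,
    tr vs g (A ∪ S) = tr vs (fun U => g (A ∪ U)) S := by
  induction vs with
  | nil => intro A S; rfl
  | cons x vs ih =>
    intro A S
    simp only [tr]
    rw [ih, ← Finset.union_insert, ih]

theorem tr_add (vs : List V) (g h : Finset V → ℕ) : ∀ S : Finset V,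
    Tr.add (tr vs g S) (tr vs h S) = tr vs (fun U => g U + h U) S := by
  induction vs with
  | nil => intro S; rfl
  | cons x vs ih =>
    intro S
    simp only [tr, Tr.add, ih]

/-- subset convolution of functions -/
def cv (g h : Finset V → ℕ) (U : Finset V) : ℕ := ∑ T ∈ U.powerset, g T * h (U \ T)

theorem tr_conv (vs : List V) (hv : vs.Nodup) : ∀ g h : Finset V → ℕ,
    Tr.conv (tr vs g ∅) (tr vs h ∅) = tr vs (cv g h) ∅ := by
  induction vs with
  | nil =>
    intro g h
    simp [tr, Tr.conv, cv]
  | cons x vs ih =>
    intro g h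
    rw [List.nodup_cons] at hv
    have e1 : ∀ k : Finset V → ℕ, tr vs k (insert x ∅) = tr vs (fun U => k ({x} ∪ U)) ∅ := by
      intro k
      have := tr_shift vs k {x} ∅
      rwa [Finset.union_empty] at this
    simp only [tr, Tr.conv, e1]
    rw [ih hv.2, ih hv.2, ih hv.2, tr_add]
    congr 1
    refine tr_congr vs _ _ ∅ fun U _ hU => ?_
    have hx : x ∉ U := by
      intro hxU
      have := hU hxU
      rw [Finset.empty_union, List.mem_toFinset] at this
      exact hv.1 this
    have e2 : {x} ∪ U = insert x U := rfl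
    simp only [cv]
    rw [e2, Finset.sum_powerset_insert hx]
    congr 1
    · refine Finset.sum_congr rfl fun T hT => ?_
      have hT' : x ∉ T := fun h => hx (Finset.mem_powerset.1 hT h)
      congr 2
      ext y
      simp only [Finset.mem_union, Finset.mem_singleton, Finset.mem_sdiff, Finset.mem_insert]
      constructor
      · rintro (rfl | ⟨h1, h2⟩)
        · exact ⟨Or.inl rfl, hT'⟩
        · exact ⟨Or.inr h1, h2⟩
      · rintro ⟨rfl | h1, h2⟩
        · exact Or.inl rfl
        · exact Or.inr ⟨h1, h2⟩
    · refine Finset.sum_congr rfl fun T hT => ?_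
      have e3 : insert x U \ insert x T = U \ T := by
        ext y
        simp only [Finset.mem_sdiff, Finset.mem_insert, not_or]
        constructor
        · rintro ⟨rfl | h1, h2, h3⟩
          · exact absurd rfl h2
          · exact ⟨h1, h3⟩
        · rintro ⟨h1, h2⟩
          exact ⟨Or.inr h1, fun h => hx (h ▸ h1), h2⟩
      rw [e3]
      rfl

/-- the form used: base set `S₀`, disjoint from the list -/
theorem tr_conv' (vs : List V) (hv : vs.Nodup) (g h : Finset V → ℕ) (S₀ : Finset V)
    (hd : ∀ x ∈ vs, x ∉ S₀) : Tr.conv (tr vs g S₀) (tr vs h ∅) =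
      tr vs (fun S => ∑ T ∈ S.powerset.filter (fun T => S₀ ⊆ T), g T * h (S \ T)) S₀ := by
  have e0 : ∀ k : Finset V → ℕ, tr vs k S₀ = tr vs (fun U => k (S₀ ∪ U)) ∅ := by
    intro k
    have := tr_shift vs k S₀ ∅
    rwa [Finset.union_empty] at this
  rw [e0 g, e0, tr_conv vs hv]
  refine tr_congr vs _ _ ∅ fun U _ hU => ?_
  have hdU : ∀ x ∈ U, x ∉ S₀ := by
    intro x hx
    have := hU hx
    rw [Finset.empty_union, List.mem_toFinset] at this
    exact hd x this
  simp only [cv]
  refine Finset.sum_bij (fun T _ => S₀ ∪ T) ?_ ?_ ?_ ?_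
  · intro T hT
    rw [Finset.mem_powerset] at hT
    rw [Finset.mem_filter, Finset.mem_powerset]
    exact ⟨Finset.union_subset_union_right hT, Finset.subset_union_left⟩
  · intro T hT T' hT' he
    rw [Finset.mem_powerset] at hT hT'
    have he' : S₀ ∪ T = S₀ ∪ T' := he
    ext y
    constructor
    · intro hy
      have : y ∈ S₀ ∪ T' := he' ▸ Finset.mem_union_right _ hy
      rcases Finset.mem_union.1 this with h | h
      · exact absurd h (hdU y (hT hy))
      · exact h
    · intro hy
      have : y ∈ S₀ ∪ T := he' ▸ Finset.mem_union_right _ hy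
      rcases Finset.mem_union.1 this with h | h
      · exact absurd h (hdU y (hT' hy))
      · exact h
  · intro T hT
    rw [Finset.mem_filter, Finset.mem_powerset] at hT
    refine ⟨T \ S₀, ?_, ?_⟩
    · rw [Finset.mem_powerset]
      intro y hy
      rw [Finset.mem_sdiff] at hy
      rcases Finset.mem_union.1 (hT.1 hy.1) with h | h
      · exact absurd h hy.2
      · exact h
    · exact Finset.union_sdiff_of_subset hT.2
  · intro T hT
    rw [Finset.mem_powerset] at hT
    have e3 : (S₀ ∪ U) \ (S₀ ∪ T) = U \ T := by
      ext y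
      simp only [Finset.mem_sdiff, Finset.mem_union, not_or]
      constructor
      · rintro ⟨h1 | h1, h2, h3⟩
        · exact absurd h1 h2
        · exact ⟨h1, h3⟩
      · rintro ⟨h1, h2⟩
        exact ⟨Or.inr h1, hdU y h1, h2⟩
    rw [e3]

/-- the computation of `g` from its convolution with `h` -/
theorem top_dv (vs : List V) (hv : vs.Nodup) (g h k : Finset V → ℕ) (S₀ : Finset V)
    (hd : ∀ x ∈ vs, x ∉ S₀) (h1 : h ∅ = 1)
    (hk : ∀ S, S₀ ⊆ S → k S = ∑ T ∈ S.powerset.filter (fun T => S₀ ⊆ T), g T * h (S \ T)) :
    Tr.top (Tr.dv (tr vs k S₀) (tr vs h ∅)) = g (S₀ ∪ vs.toFinset) := by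
  have e1 : tr vs k S₀ = Tr.conv (tr vs g S₀) (tr vs h ∅) := by
    rw [tr_conv' vs hv g h S₀ hd]
    exact tr_congr vs _ _ _ fun T hT _ => hk T hT
  rw [e1, Tr.dv_conv (tr_dep vs g S₀) (tr_dep vs h ∅) (by rw [bot_tr, h1]), top_tr]

end

/-! ### Subsets coded by natural numbers -/

/-- the tree of the values of `g` on masks -/
def trm : List ℕ → (ℕ → ℕ) → ℕ → Tr
  | [], g, m => Tr.leaf (g m)
  | x :: vs, g, m => Tr.node (trm vs g m) (trm vs g (m ||| (1 <<< x)))

/-- `m` codes `S` -/
def Rep {n : ℕ} (m : ℕ) (S : Finset (Fin n)) : Prop := ∀ i : Fin n, m.testBit i = decide (i ∈ S)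

theorem rep_zero {n : ℕ} : Rep (n := n) 0 ∅ := by
  intro i
  simp

theorem rep_insert {n : ℕ} {m : ℕ} {S : Finset (Fin n)} (h : Rep m S) (x : Fin n) :
    Rep (m ||| (1 <<< (x : ℕ))) (insert x S) := by
  intro i
  rw [Nat.testBit_or, h i, Nat.one_shiftLeft, Nat.testBit_two_pow]
  rw [Bool.eq_iff_iff]
  simp only [Bool.or_eq_true, decide_eq_true_eq, Finset.mem_insert]
  constructor
  · rintro (h1 | h1)
    · exact Or.inr h1
    · exact Or.inl (Fin.ext h1.symm)
  · rintro (rfl | h1)
    · exact Or.inr rfl
    · exact Or.inl h1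

theorem rep_one {n : ℕ} (x : Fin n) : Rep (1 <<< (x : ℕ)) ({x} : Finset (Fin n)) := by
  have h := rep_insert (rep_zero (n := n)) x
  rw [Nat.zero_or] at h
  exact h

theorem trm_eq {n : ℕ} (g' : ℕ → ℕ) (g : Finset (Fin n) → ℕ)
    (H : ∀ m S, Rep m S → g' m = g S) (vs : List (Fin n)) :
    ∀ m S, Rep m S → trm (vs.map Fin.val) g' m = tr vs g S := by
  induction vs with
  | nil =>
    intro m S h
    simp only [List.map_nil, trm, tr, H m S h]
  | cons x vs ih =>
    intro m S h
    simp only [List.map_cons, trm, tr]
    rw [ih m S h, ih _ _ (rep_insert h x)]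

end Pool.Agent.EC
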