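import Pool.Agent.Work.MP_ec1f6a_co.Glue
import Pool.Agent.Work.MP_ec1f6a_co.Trie

/-!
MP_ec1f6a_co: evaluation of `CS` for a graph given by a list of edges (tail, head, a, b).
-/

namespace Pool.Agent.ECF

open Finset Pool.Agent.EC

/-- the edge of a list entry `(tail, head, a, b)` -/
def key {n : ℕ} (t : Fin n × Fin n × ℕ × ℕ) : Sym2 (Fin n) := s(t.1, t.2.1)

/-- value of a function on list entries at an edge -/
def look {n : ℕ} {β : Type} (es : List (Fin n × Fin n × ℕ × ℕ)) (d : β)
    (f : Fin n × Fin n × ℕ × ℕ → β) (x : Sym2 (Fin n)) : β :=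
  ((es.find? (fun t => decide (key t = x))).map f).getD d

theorem look_key {n : ℕ} {β : Type} {es : List (Fin n × Fin n × ℕ × ℕ)} (d : β)
    (f : Fin n × Fin n × ℕ × ℕ → β) (hnd : (es.map key).Nodup) {t : Fin n × Fin n × ℕ × ℕ}
    (ht : t ∈ es) : look es d f (key t) = f t := by
  unfold look
  have h1 : (es.find? (fun t' => decide (key t' = key t))).isSome := by
    rw [List.find?_isSome]
    exact ⟨t, ht, by simp⟩
  obtain ⟨t', ht'⟩ := Option.isSome_iff_exists.1 h1
  have h2 := List.mem_of_find?_eq_some ht'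
  have h3 : key t' = key t := by simpa using List.find?_some ht'
  have h4 : t' = t := List.inj_on_of_nodup_map hnd h2 ht h3
  rw [ht', h4]
  rfl

/-- the product formula for masks -/
def Wm (l : List (ℕ × ℕ × ℕ × ℕ)) (m : ℕ) : ℕ :=
  l.foldr (fun t r => r * (bif m.testBit t.1 then
    (bif m.testBit t.2.1 then t.2.2.1 + t.2.2.2 else t.2.2.2) else 1)) 1

/-- the list for the forced edges `F` -/
def lst {n : ℕ} (es : List (Fin n × Fin n × ℕ × ℕ)) (F : Finset (Sym2 (Fin n))) :
    List (ℕ × ℕ × ℕ × ℕ) :=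
  es.map (fun t => ((t.1 : ℕ), (t.2.1 : ℕ), t.2.2.1, if key t ∈ F then 0 else t.2.2.2))

theorem Wm_eq {n : ℕ} {es : List (Fin n × Fin n × ℕ × ℕ)} (hnd : (es.map key).Nodup)
    (F : Finset (Sym2 (Fin n))) (d : Fin n) {m : ℕ} {S : Finset (Fin n)} (hm : Rep m S) :
    Wm (lst es F) m = WS (es.map key).toFinset (look es d (fun t => t.1))
      (look es 0 (fun t => t.2.2.1))
      (fun x => if x ∈ F then 0 else look es 0 (fun t => t.2.2.2) x) S := by
  classical
  have htl : ∀ e ∈ (es.map key).toFinset, look es d (fun t => t.1) e ∈ e := by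
    intro e he
    rw [List.mem_toFinset, List.mem_map] at he
    obtain ⟨t, ht, rfl⟩ := he
    rw [look_key _ _ hnd ht]
    exact Sym2.mem_mk_left _ _
  rw [WS_prod htl]
  unfold own
  rw [Finset.prod_filter, List.prod_toFinset _ hnd, List.map_map]
  unfold Wm lst
  rw [List.foldr_map]
  have key1 : ∀ f : Sym2 (Fin n) → ℕ, (∀ t ∈ es, f (key t)
      = bif m.testBit (t.1 : ℕ) then
        (bif m.testBit (t.2.1 : ℕ) then t.2.2.1 + (if key t ∈ F then 0 else t.2.2.2)
          else (if key t ∈ F then 0 else t.2.2.2)) else 1) →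
      ∀ l : List (Fin n × Fin n × ℕ × ℕ), (∀ t ∈ l, t ∈ es) →
      List.foldr (fun (t : Fin n × Fin n × ℕ × ℕ) (r : ℕ) => r * (bif m.testBit (t.1 : ℕ) then
        (bif m.testBit (t.2.1 : ℕ) then t.2.2.1 + (if key t ∈ F then 0 else t.2.2.2)
          else (if key t ∈ F then 0 else t.2.2.2)) else 1)) 1 l
      = (l.map (f ∘ key)).prod := by
    intro f hf l
    induction l with
    | nil => intro _; rfl
    | cons t l ih =>
      intro hl
      rw [List.foldr_cons, ih (fun t' ht' => hl t' (List.mem_cons_of_mem _ ht')), List.map_cons,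
        List.prod_cons, mul_comm]
      congr 1
      exact (hf t (hl t List.mem_cons_self)).symm
  refine key1 _ ?_ es (fun _ h => h)
  intro t ht
  rw [look_key _ _ hnd ht, look_key _ _ hnd ht, look_key _ _ hnd ht, hm t.1, hm t.2.1]
  by_cases h1 : t.1 ∈ S
  · by_cases h2 : t.2.1 ∈ S
    · have : ∀ x ∈ key t, x ∈ S := by
        intro x hx
        rcases Sym2.mem_iff.1 hx with rfl | rfl
        · exact h1
        · exact h2
      rw [if_pos h1, if_pos this]
      simp [h1, h2]
    · have : ¬ ∀ x ∈ key t, x ∈ S := fun h => h2 (h _ (Sym2.mem_mk_right _ _))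
      rw [if_pos h1, if_neg this]
      simp [h1, h2]
  · simp [h1]

/-- the value of `CS` -/
def val {n : ℕ} (es : List (Fin n × Fin n × ℕ × ℕ)) (v : Fin n) (vs : List (Fin n))
    (F : Finset (Sym2 (Fin n))) : ℕ :=
  Tr.top (Tr.dv (trm (vs.map Fin.val) (Wm (lst es F)) (1 <<< (v : ℕ)))
    (trm (vs.map Fin.val) (Wm (lst es F)) 0))

theorem val_eq {n : ℕ} {es : List (Fin n × Fin n × ℕ × ℕ)} (hnd : (es.map key).Nodup)
    (F : Finset (Sym2 (Fin n))) (d v : Fin n) (vs : List (Fin n)) (hvs : (v :: vs).Nodup)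
    (hall : ∀ x, x ∈ v :: vs) :
    CS (es.map key).toFinset (look es d (fun t => t.1)) (look es 0 (fun t => t.2.2.1))
      (fun x => if x ∈ F then 0 else look es 0 (fun t => t.2.2.2) x) v univ = val es v vs F := by
  have htl : ∀ e ∈ (es.map key).toFinset, look es d (fun t => t.1) e ∈ e := by
    intro e he
    rw [List.mem_toFinset, List.mem_map] at he
    obtain ⟨t, ht, rfl⟩ := he
    rw [look_key _ _ hnd ht]
    exact Sym2.mem_mk_left _ _
  rw [List.nodup_cons] at hvs
  unfold val
  have hW := fun m S hm => Wm_eq hnd F d (m := m) (S := S) hm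
  rw [trm_eq _ _ hW vs _ _ (rep_one v), trm_eq _ _ hW vs _ _ rep_zero]
  rw [top_dv vs hvs.2 (CS (es.map key).toFinset (look es d (fun t => t.1))
    (look es 0 (fun t => t.2.2.1))
      (fun x => if x ∈ F then 0 else look es 0 (fun t => t.2.2.2) x) v)]
  · congr 1
    ext x
    have := hall x
    simpa [List.mem_cons] using this
  · intro x hx h
    rw [Finset.mem_singleton] at h
    exact hvs.1 (h ▸ hx)
  · rw [← hW 0 ∅ rep_zero]
    have : ∀ l : List (ℕ × ℕ × ℕ × ℕ), Wm l 0 = 1 := by
      intro l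
      induction l with
      | nil => rfl
      | cons t l ih =>
        unfold Wm at ih ⊢
        rw [List.foldr_cons, ih]
        simp
    exact this _
  · intro S hS
    rw [WS_eq htl (v := v) (hS (Finset.mem_singleton_self v))]
    refine Finset.sum_congr ?_ ?_
    · ext T
      simp
    · intro T _
      congr 2
      ext x
      simp

/-- **The criterion.** -/
theorem criterion {n : ℕ} (es : List (Fin n × Fin n × ℕ × ℕ)) (hnd : (es.map key).Nodup)
    (hloop : ∀ t ∈ es, t.1 ≠ t.2.1) (hb : ∀ t ∈ es, t.2.2.2 ≠ 0) (v : Fin n)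
    (vs : List (Fin n)) (hvs : (v :: vs).Nodup) (hall : ∀ x, x ∈ v :: vs)
    (te tf : Fin n × Fin n × ℕ × ℕ) (he : te ∈ es) (hf : tf ∈ es) (hne : key te ≠ key tf)
    (hlt : val es v vs {key te} * val es v vs {key tf}
      < val es v vs {key te, key tf} * val es v vs ∅) :
    ∃ (E : Finset (Sym2 (Fin n))) (_ : ∀ x ∈ E, ¬ x.IsDiag) (tl : Sym2 (Fin n) → Fin n)
      (a b : Sym2 (Fin n) → ℕ) (v : Fin n) (_ : ∀ x ∈ E, b x ≠ 0) (e f : Sym2 (Fin n))
      (_ : e ∈ E) (_ : f ∈ E) (_ : e ≠ f),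
      CS E tl a (fun x => if x ∈ ({e} : Finset (Sym2 (Fin n))) then 0 else b x) v Finset.univ
        * CS E tl a (fun x => if x ∈ ({f} : Finset (Sym2 (Fin n))) then 0 else b x) v Finset.univ
      < CS E tl a (fun x => if x ∈ ({e, f} : Finset (Sym2 (Fin n))) then 0 else b x) v Finset.univ
        * CS E tl a (fun x => if x ∈ (∅ : Finset (Sym2 (Fin n))) then 0 else b x) v
          Finset.univ := by
  refine ⟨(es.map key).toFinset, ?_, look es v (fun t => t.1), look es 0 (fun t => t.2.2.1),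
    look es 0 (fun t => t.2.2.2), v, ?_, key te, key tf, ?_, ?_, hne, ?_⟩
  · intro x hx
    rw [List.mem_toFinset, List.mem_map] at hx
    obtain ⟨t, ht, rfl⟩ := hx
    intro h
    exact hloop t ht (by simpa [key] using h)
  · intro x hx
    rw [List.mem_toFinset, List.mem_map] at hx
    obtain ⟨t, ht, rfl⟩ := hx
    rw [look_key _ _ hnd ht]
    exact hb t ht
  · rw [List.mem_toFinset, List.mem_map]; exact ⟨te, he, rfl⟩
  · rw [List.mem_toFinset, List.mem_map]; exact ⟨tf, hf, rfl⟩
  · rw [val_eq hnd {key te} v v vs hvs hall, val_eq hnd {key tf} v v vs hvs hall,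
      val_eq hnd {key te, key tf} v v vs hvs hall, val_eq hnd ∅ v v vs hvs hall]
    exact hlt

end Pool.Agent.ECF
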