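import Mathlib

/-!
Determinant identities used for the forest polynomial.
-/

set_option autoImplicit false

namespace Pool.Agent.Work.MP_ec1f6a_co

open Matrix

variable {V : Type*} [Fintype V] [DecidableEq V]

/-- one-slot factorisation -/
theorem det_one_slot (C : Matrix V V ℂ) (i : V) (hCi : ∀ k, C k i = 0) (u p : V → ℂ) :
    (C + vecMulVec p u).det =
      (C.updateCol i p).det * ((1 : Matrix V V ℂ).updateRow i u).det := by
  rw [← det_mul]
  congr 1
  ext k l
  rw [mul_apply]
  have h : ∀ m, (C.updateCol i p) k m * ((1 : Matrix V V ℂ).updateRow i u) m l =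
      (if m = i then p k * u l else 0) + (if m = l then C k l else 0) := by
    intro m
    by_cases hm : m = i
    · subst hm
      by_cases hl : m = l
      · subst hl
        simp [hCi]
      · simp [hl]
    · by_cases hl : m = l
      · subst hl
        simp [hm]
      · simp [hm, hl]
  simp only [h, Finset.sum_add_distrib, Finset.sum_ite_eq', Finset.mem_univ, if_true]
  simp [vecMulVec_apply, add_comm]

/-- two-slot factorisation -/
theorem det_two_slot (C : Matrix V V ℂ) (i j : V) (hij : i ≠ j) (hCi : ∀ k, C k i = 0)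
    (hCj : ∀ k, C k j = 0) (u v p q : V → ℂ) :
    (C + vecMulVec p u + vecMulVec q v).det =
      ((C.updateCol i p).updateCol j q).det *
        (((1 : Matrix V V ℂ).updateRow i u).updateRow j v).det := by
  rw [← det_mul]
  congr 1
  ext k l
  rw [mul_apply]
  have h : ∀ m, ((C.updateCol i p).updateCol j q) k m *
      (((1 : Matrix V V ℂ).updateRow i u).updateRow j v) m l =
      (if m = i then p k * u l else 0) + (if m = j then q k * v l else 0) +
        (if m = l then C k l else 0) := by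
    intro m
    by_cases hm : m = i
    · subst hm
      by_cases hl : m = l
      · subst hl
        simp [hCi, hij]
      · simp [hl, hij]
    · by_cases hm' : m = j
      · subst hm'
        by_cases hl : m = l
        · subst hl
          simp [hCj, hm]
        · simp [hl, hm]
      · by_cases hl : m = l
        · subst hl
          simp [hm, hm']
        · simp [hm, hm', hl]
  simp only [h, Finset.sum_add_distrib, Finset.sum_ite_eq', Finset.mem_univ, if_true]
  simp [vecMulVec_apply]
  ring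

/-- the determinant with two column slots as a bilinear map -/
noncomputable def om (C : Matrix V V ℂ) (i j : V) (hij : i ≠ j) :
    (V → ℂ) →ₗ[ℂ] (V → ℂ) →ₗ[ℂ] ℂ :=
  LinearMap.mk₂ ℂ (fun p q => ((C.updateCol i p).updateCol j q).det)
    (fun p p' q => by
      rw [updateCol_comm _ hij, updateCol_comm _ hij, updateCol_comm _ hij, det_updateCol_add])
    (fun c p q => by
      rw [updateCol_comm _ hij, updateCol_comm _ hij, det_updateCol_smul, smul_eq_mul])
    (fun p q q' => by
      rw [det_updateCol_add])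
    (fun c p q => by
      rw [det_updateCol_smul, smul_eq_mul])

theorem om_apply (C : Matrix V V ℂ) (i j : V) (hij : i ≠ j) (p q : V → ℂ) :
    om C i j hij p q = ((C.updateCol i p).updateCol j q).det := rfl

theorem om_self (C : Matrix V V ℂ) (i j : V) (hij : i ≠ j) (p : V → ℂ) :
    om C i j hij p p = 0 := by
  rw [om_apply]
  apply det_zero_of_column_eq hij
  intro k
  simp [hij]

theorem abstract_merge {M : Type*} [AddCommGroup M] [Module ℂ M] (ω : M →ₗ[ℂ] M →ₗ[ℂ] ℂ)
    (halt : ∀ x, ω x x = 0) (p q x y : M) (w c : ℂ) (hc : c ^ 2 = w) :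
    ω (p + ((w + c) • x - w • y)) (q + (-(w • x) + (w - c) • y)) +
      ω (p + ((w + -c) • x - w • y)) (q + (-(w • x) + (w - -c) • y)) =
      2 * (ω p q + w * ω (p + (q - y)) (q + (p - x))) := by
  have skew : ∀ s t, ω s t = - ω t s := by
    intro s t
    have h := halt (s + t)
    simp only [map_add, LinearMap.add_apply, halt, zero_add, add_zero] at h
    linear_combination h
  simp only [map_add, map_sub, map_neg, map_smul, LinearMap.add_apply, LinearMap.sub_apply,
    LinearMap.smul_apply, smul_eq_mul, halt]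
  rw [skew y p, skew y x, skew q x, skew q p]
  subst hc
  ring

/-- the edge matrix -/
noncomputable def B (i j : V) (w c : ℂ) : Matrix V V ℂ :=
  vecMulVec ((w + c) • Pi.single i 1 - w • Pi.single j 1) (Pi.single i 1) +
    vecMulVec (-(w • Pi.single i 1) + (w - c) • Pi.single j 1) (Pi.single j 1)

theorem single_vecMul' (J : Matrix V V ℂ) (hJ : ∀ k l, J k l = J l k) (i : V) :
    (Pi.single i (1 : ℂ)) ᵥ* J = fun k => J k i := by
  ext k
  rw [single_one_vecMul]
  exact hJ i k

theorem B_mul (J : Matrix V V ℂ) (hJ : ∀ k l, J k l = J l k) (i j : V) (w c : ℂ) :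
    B i j w c * J =
      vecMulVec ((w + c) • Pi.single i 1 - w • Pi.single j 1) (fun k => J k i) +
      vecMulVec (-(w • Pi.single i 1) + (w - c) • Pi.single j 1) (fun k => J k j) := by
  rw [B, add_mul, vecMulVec_mul, vecMulVec_mul, single_vecMul' J hJ, single_vecMul' J hJ]

theorem claim_merge (N J : Matrix V V ℂ) (i j : V) (hij : i ≠ j) (hJ : ∀ k l, J k l = J l k)
    (hii : J i i = 1) (hjj : J j j = 1) (hij0 : J i j = 0) (w c : ℂ) (hc : c ^ 2 = w) :
    (1 + (N + B i j w c) * J).det + (1 + (N + B i j w (-c)) * J).det =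
      2 * ((1 + N * J).det + w * (1 + N * (J + vecMulVec (fun k => J k i) (fun k => J k j) +
        vecMulVec (fun k => J k j) (fun k => J k i))).det) := by
  obtain ⟨u, hu⟩ : ∃ u : V → ℂ, u = fun k => J k i := ⟨_, rfl⟩
  obtain ⟨v, hv⟩ : ∃ v : V → ℂ, v = fun k => J k j := ⟨_, rfl⟩
  have hji0 : J j i = 0 := by rw [hJ]; exact hij0
  obtain ⟨R, hR⟩ : ∃ R : Matrix V V ℂ, R = 1 + N * J := ⟨_, rfl⟩
  obtain ⟨ei, hei⟩ : ∃ ei : V → ℂ, ei = Pi.single i 1 := ⟨_, rfl⟩
  obtain ⟨ej, hej⟩ : ∃ ej : V → ℂ, ej = Pi.single j 1 := ⟨_, rfl⟩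
  obtain ⟨ri, hri⟩ : ∃ ri : V → ℂ, ri = fun k => R k i := ⟨_, rfl⟩
  obtain ⟨rj, hrj⟩ : ∃ rj : V → ℂ, rj = fun k => R k j := ⟨_, rfl⟩
  obtain ⟨C, hC⟩ : ∃ C : Matrix V V ℂ, C = R - vecMulVec ri u - vecMulVec rj v := ⟨_, rfl⟩
  have hCi : ∀ k, C k i = 0 := by
    intro k
    simp [hC, hri, hrj, vecMulVec_apply, hu, hv, hii, hij0]
  have hCj : ∀ k, C k j = 0 := by
    intro k
    simp [hC, hri, hrj, vecMulVec_apply, hu, hv, hjj, hji0]
  have hRC : R = C + vecMulVec ri u + vecMulVec rj v := by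
    rw [hC]; abel
  have hNu : N *ᵥ u = ri - ei := by
    have h1 : u = J *ᵥ ei := by rw [hei, mulVec_single_one]; exact hu
    have h2 : ri = R *ᵥ ei := by rw [hei, mulVec_single_one]; exact hri
    rw [h1, mulVec_mulVec, h2, hR, add_mulVec, one_mulVec]; abel
  have hNv : N *ᵥ v = rj - ej := by
    have h1 : v = J *ᵥ ej := by rw [hej, mulVec_single_one]; exact hv
    have h2 : rj = R *ᵥ ej := by rw [hej, mulVec_single_one]; exact hrj
    rw [h1, mulVec_mulVec, h2, hR, add_mulVec, one_mulVec]; abel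
  have key : ∀ p q : V → ℂ, (C + vecMulVec p u + vecMulVec q v).det =
      om C i j hij p q * (((1 : Matrix V V ℂ).updateRow i u).updateRow j v).det := by
    intro p q
    rw [det_two_slot C i j hij hCi hCj, om_apply]
  have h1 : ∀ c : ℂ, 1 + (N + B i j w c) * J =
      C + vecMulVec (ri + ((w + c) • ei - w • ej)) u +
        vecMulVec (rj + (-(w • ei) + (w - c) • ej)) v := by
    intro c
    rw [add_mul, B_mul J hJ, ← add_assoc, ← hR, hRC, ← hu, ← hv, ← hei, ← hej,
      add_vecMulVec ri, add_vecMulVec rj]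
    abel
  have h2 : 1 + N * (J + vecMulVec u v + vecMulVec v u) =
      C + vecMulVec (ri + (rj - ej)) u + vecMulVec (rj + (ri - ei)) v := by
    rw [mul_add, mul_add, mul_vecMulVec, mul_vecMulVec, hNu, hNv, ← add_assoc, ← add_assoc, ← hR,
      hRC, add_vecMulVec ri, add_vecMulVec rj]
    abel
  rw [← hu, ← hv, h1, h1, h2, ← hR, hRC, key, key, key, key]
  have := abstract_merge (om C i j hij) (om_self C i j hij) ri rj ei ej w c hc
  linear_combination (((1 : Matrix V V ℂ).updateRow i u).updateRow j v).det * this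

/-- rank one perturbations are affine -/
theorem det_affine (R : Matrix V V ℂ) (p u : V → ℂ) (t : ℂ) :
    (R + t • vecMulVec p u).det = R.det + t * ((R + vecMulVec p u).det - R.det) := by
  by_cases hu : ∃ m, u m ≠ 0
  · obtain ⟨m, hm⟩ := hu
    obtain ⟨q, hq⟩ : ∃ q : V → ℂ, q = (u m)⁻¹ • (fun k => R k m) := ⟨_, rfl⟩
    obtain ⟨C, hC⟩ : ∃ C : Matrix V V ℂ, C = R - vecMulVec q u := ⟨_, rfl⟩
    have hCm : ∀ k, C k m = 0 := by
      intro k
      simp only [hC, hq, Matrix.sub_apply, vecMulVec_apply, Pi.smul_apply, smul_eq_mul]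
      field_simp
      ring
    have hRC : R = C + vecMulVec q u := by rw [hC]; abel
    have h1 : R + t • vecMulVec p u = C + vecMulVec (q + t • p) u := by
      rw [hRC, add_vecMulVec, smul_vecMulVec]; abel
    have h2 : R + vecMulVec p u = C + vecMulVec (q + p) u := by
      rw [hRC, add_vecMulVec]; abel
    rw [h1, h2, hRC, det_one_slot C m hCm, det_one_slot C m hCm, det_one_slot C m hCm,
      det_updateCol_add, det_updateCol_add, det_updateCol_smul]
    ring
  · push Not at hu
    have : u = 0 := funext hu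
    subst this
    simp [vecMulVec_zero]

theorem claim_same (N J : Matrix V V ℂ) (i j : V) (hJ : ∀ k l, J k l = J l k)
    (hsame : ∀ k, J k i = J k j) (w c : ℂ) :
    (1 + (N + B i j w c) * J).det + (1 + (N + B i j w (-c)) * J).det =
      2 * (1 + N * J).det := by
  have h1 : ∀ c : ℂ, 1 + (N + B i j w c) * J =
      (1 + N * J) + c • vecMulVec (Pi.single i 1 - Pi.single j 1) (fun k => J k i) := by
    intro c
    rw [add_mul, B_mul J hJ, ← add_assoc]
    have h : (fun k => J k j) = (fun k => J k i) := by ext k; rw [hsame]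
    have h' : ((w + c) • (Pi.single i 1 : V → ℂ) - w • Pi.single j 1) +
        (-(w • Pi.single i 1) + (w - c) • Pi.single j 1) =
        c • ((Pi.single i 1 : V → ℂ) - Pi.single j 1) := by module
    rw [h, add_assoc, ← add_vecMulVec, ← smul_vecMulVec, h', ← add_assoc]
  rw [h1, h1, det_affine, det_affine]
  ring

theorem claim_root (N J : Matrix V V ℂ) (i j : V) (hij : i ≠ j) (hJ : ∀ k l, J k l = J l k)
    (hii : J i i = 1) (hj : ∀ k, J k j = 0) (w c : ℂ) :
    (1 + (N + B i j w c) * J).det + (1 + (N + B i j w (-c)) * J).det =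
      2 * ((1 + N * J).det + w * (1 + N * (J - vecMulVec (fun k => J k i) (fun k => J k i))).det)
      := by
  obtain ⟨u, hu⟩ : ∃ u : V → ℂ, u = fun k => J k i := ⟨_, rfl⟩
  obtain ⟨R, hR⟩ : ∃ R : Matrix V V ℂ, R = 1 + N * J := ⟨_, rfl⟩
  obtain ⟨ei, hei⟩ : ∃ ei : V → ℂ, ei = Pi.single i 1 := ⟨_, rfl⟩
  obtain ⟨ej, hej⟩ : ∃ ej : V → ℂ, ej = Pi.single j 1 := ⟨_, rfl⟩
  obtain ⟨ri, hri⟩ : ∃ ri : V → ℂ, ri = fun k => R k i := ⟨_, rfl⟩
  obtain ⟨C, hC⟩ : ∃ C : Matrix V V ℂ, C = R - vecMulVec ri u := ⟨_, rfl⟩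
  have hCi : ∀ k, C k i = 0 := by
    intro k
    simp [hC, hri, vecMulVec_apply, hu, hii]
  have hRC : R = C + vecMulVec ri u := by
    rw [hC]; abel
  have hNu : N *ᵥ u = ri - ei := by
    have h1 : u = J *ᵥ ei := by rw [hei, mulVec_single_one]; exact hu
    have h2 : ri = R *ᵥ ei := by rw [hei, mulVec_single_one]; exact hri
    rw [h1, mulVec_mulVec, h2, hR, add_mulVec, one_mulVec]; abel
  have hv0 : (fun k => J k j) = (0 : V → ℂ) := by ext k; simp [hj]
  have h1 : ∀ c : ℂ, 1 + (N + B i j w c) * J =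
      C + vecMulVec (ri + ((w + c) • ei - w • ej)) u := by
    intro c
    rw [add_mul, B_mul J hJ, ← add_assoc, ← hR, hv0, vecMulVec_zero, add_zero, hRC, ← hu, ← hei,
      ← hej, add_vecMulVec ri]
    abel
  have h2 : 1 + N * (J - vecMulVec u u) = C + vecMulVec ei u := by
    rw [mul_sub, mul_vecMulVec, hNu, ← add_sub_assoc, ← hR, hRC, sub_vecMulVec]
    abel
  have hej0 : (C.updateCol i ej).det = 0 := by
    apply det_zero_of_column_eq hij
    intro k
    have huj : u j = 0 := by rw [hu]; simp only; rw [hJ]; exact hj i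
    have : R k j = ej k := by
      rw [hR, Matrix.add_apply, mul_apply]
      simp [hj, hej, Matrix.one_apply, Pi.single_apply]
    rw [updateCol_self, updateCol_ne hij.symm, hC, Matrix.sub_apply, vecMulVec_apply, huj, this]
    simp
  rw [← hu, h1, h1, h2, ← hR, hRC, det_one_slot C i hCi, det_one_slot C i hCi,
    det_one_slot C i hCi, det_one_slot C i hCi,
    det_updateCol_add, det_updateCol_add, sub_eq_add_neg, sub_eq_add_neg, det_updateCol_add,
    det_updateCol_add, ← neg_smul, det_updateCol_smul, det_updateCol_smul, det_updateCol_smul,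
    hej0]
  ring

theorem claim_star (N J : Matrix V V ℂ) (j : V) (hJ : ∀ k l, J k l = J l k)
    (hjj : J j j = 1) (w : ℂ) :
    (1 + (N + w • vecMulVec (Pi.single j 1) (Pi.single j 1)) * J).det =
      (1 + N * J).det + w * (1 + N * (J - vecMulVec (fun k => J k j) (fun k => J k j))).det
      := by
  obtain ⟨u, hu⟩ : ∃ u : V → ℂ, u = fun k => J k j := ⟨_, rfl⟩
  obtain ⟨R, hR⟩ : ∃ R : Matrix V V ℂ, R = 1 + N * J := ⟨_, rfl⟩
  obtain ⟨ei, hei⟩ : ∃ ei : V → ℂ, ei = Pi.single j 1 := ⟨_, rfl⟩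
  obtain ⟨ri, hri⟩ : ∃ ri : V → ℂ, ri = fun k => R k j := ⟨_, rfl⟩
  obtain ⟨C, hC⟩ : ∃ C : Matrix V V ℂ, C = R - vecMulVec ri u := ⟨_, rfl⟩
  have hCi : ∀ k, C k j = 0 := by
    intro k
    simp [hC, hri, vecMulVec_apply, hu, hjj]
  have hRC : R = C + vecMulVec ri u := by
    rw [hC]; abel
  have hNu : N *ᵥ u = ri - ei := by
    have h1 : u = J *ᵥ ei := by rw [hei, mulVec_single_one]; exact hu
    have h2 : ri = R *ᵥ ei := by rw [hei, mulVec_single_one]; exact hri
    rw [h1, mulVec_mulVec, h2, hR, add_mulVec, one_mulVec]; abel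
  have h1 : 1 + (N + w • vecMulVec ei ei) * J = C + vecMulVec (ri + w • ei) u := by
    rw [add_mul, smul_mul_assoc, vecMulVec_mul, hei, single_vecMul' J hJ, ← hu, ← hei,
      ← add_assoc, ← hR, hRC, add_vecMulVec, smul_vecMulVec]
    abel
  have h2 : 1 + N * (J - vecMulVec u u) = C + vecMulVec ei u := by
    rw [mul_sub, mul_vecMulVec, hNu, ← add_sub_assoc, ← hR, hRC, sub_vecMulVec]
    abel
  rw [← hu, ← hei, h1, h2, ← hR, hRC, det_one_slot C j hCi, det_one_slot C j hCi,
    det_one_slot C j hCi, det_updateCol_add, det_updateCol_smul]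
  ring

theorem claim_star_zero (N J : Matrix V V ℂ) (j : V) (hJ : ∀ k l, J k l = J l k)
    (hj : ∀ k, J k j = 0) (w : ℂ) :
    (1 + (N + w • vecMulVec (Pi.single j 1) (Pi.single j 1)) * J).det = (1 + N * J).det := by
  have hv0 : (fun k => J k j) = (0 : V → ℂ) := by ext k; simp [hj]
  rw [add_mul, smul_mul_assoc, vecMulVec_mul, single_vecMul' J hJ, hv0, vecMulVec_zero, smul_zero,
    add_zero]

end Pool.Agent.Work.MP_ec1f6a_co
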