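import Pool.Agent.Work.MP_ec1f6a_co.Det

/-!
The forest polynomial with a root, as a function of a matrix, and its edge recursion.
-/

set_option autoImplicit false

namespace Pool.Agent.Work.MP_ec1f6a_co

open Matrix SimpleGraph Finset
open scoped Classical

variable {V : Type*}

/-- graph of an edge set -/
noncomputable def gr (A : Finset (Sym2 V)) : SimpleGraph V := fromEdgeSet (A : Set (Sym2 V))

theorem gr_insert (A : Finset (Sym2 V)) (i j : V) :
    gr (insert s(i, j) A) = gr A ⊔ edge i j := by
  rw [gr, gr, edge, ← fromEdgeSet_union, Finset.coe_insert, Set.insert_eq, Set.union_comm]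

theorem acyclic_insert (A : Finset (Sym2 V)) (i j : V) (hij : i ≠ j) (hA : s(i, j) ∉ A) :
    (gr (insert s(i, j) A)).IsAcyclic ↔ (gr A).IsAcyclic ∧ ¬ (gr A).Reachable i j := by
  rw [gr_insert, isAcyclic_sup_fromEdgeSet_iff]
  have : ¬ (gr A).Adj i j := by
    rw [gr, fromEdgeSet_adj]
    simp [hA]
  constructor
  · rintro ⟨h1, h2⟩
    refine ⟨h1, fun h => ?_⟩
    rcases h2 h with h | h
    · exact hij h
    · exact this h
  · rintro ⟨h1, h2⟩
    exact ⟨h1, fun h => absurd h h2⟩

theorem reach_sup_edge (G : SimpleGraph V) (i j : V) (x y : V) :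
    (G ⊔ edge i j).Reachable x y ↔ G.Reachable x y ∨ (G.Reachable x i ∧ G.Reachable j y) ∨
      (G.Reachable x j ∧ G.Reachable i y) := by
  constructor
  · rintro ⟨p⟩
    induction p with
    | nil => exact Or.inl (Reachable.refl _)
    | @cons a b c h p ih =>
      rw [sup_adj, edge_adj] at h
      rcases h with h | ⟨h, _⟩
      · have hab : G.Reachable a b := h.reachable
        rcases ih with h1 | ⟨h1, h2⟩ | ⟨h1, h2⟩
        · exact Or.inl (hab.trans h1)
        · exact Or.inr (Or.inl ⟨hab.trans h1, h2⟩)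
        · exact Or.inr (Or.inr ⟨hab.trans h1, h2⟩)
      · rcases h with ⟨rfl, rfl⟩ | ⟨rfl, rfl⟩
        · rcases ih with h1 | ⟨h1, h2⟩ | ⟨h1, h2⟩
          · exact Or.inr (Or.inl ⟨Reachable.refl _, h1⟩)
          · exact Or.inr (Or.inl ⟨Reachable.refl _, h2⟩)
          · exact Or.inl h2
        · rcases ih with h1 | ⟨h1, h2⟩ | ⟨h1, h2⟩
          · exact Or.inr (Or.inr ⟨Reachable.refl _, h1⟩)
          · exact Or.inl h2
          · exact Or.inr (Or.inr ⟨Reachable.refl _, h2⟩)
  · have hle : G ≤ G ⊔ edge i j := le_sup_left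
    have hij : (G ⊔ edge i j).Reachable i j := by
      by_cases h : i = j
      · rw [h]
      · apply Adj.reachable
        rw [sup_adj, edge_adj]
        exact Or.inr ⟨Or.inl ⟨rfl, rfl⟩, h⟩
    rintro (h | ⟨h1, h2⟩ | ⟨h1, h2⟩)
    · exact h.mono hle
    · exact ((h1.mono hle).trans hij).trans (h2.mono hle)
    · exact ((h1.mono hle).trans hij.symm).trans (h2.mono hle)

/-- indicator of being in the same component, which is not the component of the root -/
noncomputable def Jm (a : V) (G : SimpleGraph V) : Matrix V V ℂ :=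
  Matrix.of fun i j => if G.Reachable i j ∧ ¬ G.Reachable i a then 1 else 0

theorem Jm_symm (a : V) (G : SimpleGraph V) (k l : V) : Jm a G k l = Jm a G l k := by
  simp only [Jm, Matrix.of_apply]
  have : (G.Reachable k l ∧ ¬ G.Reachable k a) ↔ (G.Reachable l k ∧ ¬ G.Reachable l a) := by
    constructor
    · rintro ⟨h1, h2⟩
      exact ⟨h1.symm, fun h => h2 (h1.trans h)⟩
    · rintro ⟨h1, h2⟩
      exact ⟨h1.symm, fun h => h2 (h1.trans h)⟩
  simp only [this]

theorem Jm_self (a : V) (G : SimpleGraph V) (k : V) (h : ¬ G.Reachable k a) : Jm a G k k = 1 := by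
  simp [Jm, h]

theorem Jm_eq_zero (a : V) (G : SimpleGraph V) (k l : V) (h : ¬ G.Reachable k l) :
    Jm a G k l = 0 := by
  simp [Jm, h]

theorem Jm_root (a : V) (G : SimpleGraph V) (k l : V) (h : G.Reachable l a) :
    Jm a G k l = 0 := by
  simp only [Jm, Matrix.of_apply]
  rw [if_neg]
  rintro ⟨h1, h2⟩
  exact h2 (h1.trans h)

theorem Jm_same (a : V) (G : SimpleGraph V) (i j : V) (h : G.Reachable i j) (k : V) :
    Jm a G k i = Jm a G k j := by
  simp only [Jm, Matrix.of_apply]
  have : (G.Reachable k i ∧ ¬ G.Reachable k a) ↔ (G.Reachable k j ∧ ¬ G.Reachable k a) := by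
    constructor
    · rintro ⟨h1, h2⟩; exact ⟨h1.trans h, h2⟩
    · rintro ⟨h1, h2⟩; exact ⟨h1.trans h.symm, h2⟩
  simp only [this]

theorem Jm_merge (a : V) (G : SimpleGraph V) (i j : V) (hij : ¬ G.Reachable i j)
    (hi : ¬ G.Reachable i a) (hj : ¬ G.Reachable j a) :
    Jm a (G ⊔ edge i j) = Jm a G + vecMulVec (fun k => Jm a G k i) (fun k => Jm a G k j) +
        vecMulVec (fun k => Jm a G k j) (fun k => Jm a G k i) := by
  ext k l
  simp only [Matrix.add_apply, vecMulVec_apply, Jm, Matrix.of_apply, reach_sup_edge]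
  by_cases hka : G.Reachable k a
  · simp [hka]
  have h1 : ¬ (G.Reachable k i ∧ G.Reachable j a) := fun h => hj h.2
  have h2 : ¬ (G.Reachable k j ∧ G.Reachable i a) := fun h => hi h.2
  by_cases hki : G.Reachable k i
  · have hkj : ¬ G.Reachable k j := fun h => hij (hki.symm.trans h)
    by_cases hkl : G.Reachable k l
    · have hlj : ¬ G.Reachable l j := fun h => hkj (hkl.trans h)
      have hlj' : ¬ G.Reachable j l := fun h => hlj h.symm
      simp [hka, hki, hkj, hkl, hlj, hlj', hi, hj]
    · by_cases hlj : G.Reachable l j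
      · have hlj' : G.Reachable j l := hlj.symm
        have hla : ¬ G.Reachable l a := fun h => hj (hlj'.trans h)
        simp [hka, hki, hkj, hkl, hlj, hlj', hi, hj, hla]
      · have hlj' : ¬ G.Reachable j l := fun h => hlj h.symm
        simp [hka, hki, hkj, hkl, hlj, hlj', hi, hj]
  · by_cases hkj : G.Reachable k j
    · by_cases hkl : G.Reachable k l
      · have hli : ¬ G.Reachable l i := fun h => hki (hkl.trans h)
        have hli' : ¬ G.Reachable i l := fun h => hli h.symm
        simp [hka, hki, hkj, hkl, hli, hli', hi, hj]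
      · by_cases hli : G.Reachable l i
        · have hli' : G.Reachable i l := hli.symm
          have hla : ¬ G.Reachable l a := fun h => hi (hli'.trans h)
          simp [hka, hki, hkj, hkl, hli, hli', hi, hj, hla]
        · have hli' : ¬ G.Reachable i l := fun h => hli h.symm
          simp [hka, hki, hkj, hkl, hli, hli', hi, hj]
    · simp [hka, hki, hkj]

theorem Jm_merge_root (a : V) (G : SimpleGraph V) (i j : V)
    (hi : ¬ G.Reachable i a) (hj : G.Reachable j a) :
    Jm a (G ⊔ edge i j) = Jm a G - vecMulVec (fun k => Jm a G k i) (fun k => Jm a G k i) := by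
  ext k l
  simp only [Matrix.sub_apply, vecMulVec_apply, Jm, Matrix.of_apply, reach_sup_edge]
  have hij : ¬ G.Reachable i j := fun h => hi (h.trans hj)
  by_cases hka : G.Reachable k a
  · simp [hka]
  have hkj : ¬ G.Reachable k j := fun h => hka (h.trans hj)
  by_cases hki : G.Reachable k i
  · by_cases hkl : G.Reachable k l
    · have hli : G.Reachable l i := hkl.symm.trans hki
      have hla : ¬ G.Reachable l a := fun h => hka (hkl.trans h)
      simp [hka, hki, hkj, hkl, hli, hla, hj]
    · have hli : ¬ G.Reachable l i := fun h => hkl (hki.trans h.symm)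
      simp [hka, hki, hkj, hkl, hli, hj]
  · simp [hka, hki, hkj]

variable [Fintype V]

/-- summand of the rooted forest function -/
noncomputable def term (a : V) (w : Sym2 V → ℂ) (N : Matrix V V ℂ) (A : Finset (Sym2 V)) : ℂ :=
  if (gr A).IsAcyclic then (∏ g ∈ A, w g) * (1 + N * Jm a (gr A)).det else 0

/-- the rooted forest function -/
noncomputable def T (a : V) (w : Sym2 V → ℂ) (S : Finset (Sym2 V)) (N : Matrix V V ℂ) : ℂ :=
  ∑ A ∈ S.powerset, term a w N A

theorem T_zero (a : V) (w : Sym2 V → ℂ) (S : Finset (Sym2 V)) :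
    T a w S 0 = ∑ A ∈ S.powerset.filter (fun A => (gr A).IsAcyclic), ∏ g ∈ A, w g := by
  simp [T, term, Finset.sum_filter]

theorem term_rec (a : V) (w : Sym2 V → ℂ) (N : Matrix V V ℂ) (A : Finset (Sym2 V)) (i j : V)
    (hij : i ≠ j) (hA : s(i, j) ∉ A) (c : ℂ) (hc : c ^ 2 = w s(i, j)) :
    2 * (term a w N A + term a w N (insert s(i, j) A)) =
      term a w (N + B i j (w s(i, j)) c) A + term a w (N + B i j (w s(i, j)) (-c)) A := by
  simp only [term]
  by_cases hac : (gr A).IsAcyclic
  · rw [if_pos hac, if_pos hac, if_pos hac]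
    by_cases hr : (gr A).Reachable i j
    · rw [if_neg (by rw [acyclic_insert A i j hij hA]; tauto), add_zero]
      have := claim_same N (Jm a (gr A)) i j (Jm_symm a _) (Jm_same a _ i j hr) (w s(i, j)) c
      linear_combination (-(∏ g ∈ A, w g)) * this
    · rw [if_pos (by rw [acyclic_insert A i j hij hA]; exact ⟨hac, hr⟩), Finset.prod_insert hA,
        gr_insert]
      by_cases hi : (gr A).Reachable i a
      · have hj : ¬ (gr A).Reachable j a := fun h => hr (hi.trans h.symm)
        have hB : ∀ c, B i j (w s(i, j)) c = B j i (w s(i, j)) (-c) := by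
          intro c
          ext k l
          simp only [B, Matrix.add_apply, vecMulVec_apply, Pi.sub_apply, Pi.smul_apply,
            Pi.add_apply, Pi.neg_apply, smul_eq_mul]
          ring
        rw [hB c, hB (-c), edge_comm, Jm_merge_root a _ j i hj hi]
        have := claim_root N (Jm a (gr A)) j i (Ne.symm hij) (Jm_symm a _) (Jm_self a _ j hj)
          (fun k => Jm_root a _ k i hi) (w s(i, j)) (-c)
        linear_combination (-(∏ g ∈ A, w g)) * this
      · by_cases hj : (gr A).Reachable j a
        · rw [Jm_merge_root a _ i j hi hj]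
          have := claim_root N (Jm a (gr A)) i j hij (Jm_symm a _) (Jm_self a _ i hi)
            (fun k => Jm_root a _ k j hj) (w s(i, j)) c
          linear_combination (-(∏ g ∈ A, w g)) * this
        · rw [Jm_merge a _ i j hr hi hj]
          have := claim_merge N (Jm a (gr A)) i j hij (Jm_symm a _) (Jm_self a _ i hi)
            (Jm_self a _ j hj) (Jm_eq_zero a _ i j hr) (w s(i, j)) c hc
          linear_combination (-(∏ g ∈ A, w g)) * this
  · rw [if_neg hac, if_neg hac, if_neg hac, if_neg (by rw [acyclic_insert A i j hij hA]; tauto)]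
    ring

theorem term_star (a : V) (w : Sym2 V → ℂ) (N : Matrix V V ℂ) (A : Finset (Sym2 V)) (j : V)
    (haj : a ≠ j) (hA : s(a, j) ∉ A) :
    term a w N A + term a w N (insert s(a, j) A) =
      term a w (N + w s(a, j) • vecMulVec (Pi.single j 1) (Pi.single j 1)) A := by
  simp only [term]
  by_cases hac : (gr A).IsAcyclic
  · rw [if_pos hac, if_pos hac]
    by_cases hr : (gr A).Reachable a j
    · rw [if_neg (by rw [acyclic_insert A a j haj hA]; tauto), add_zero,
        claim_star_zero N (Jm a (gr A)) j (Jm_symm a _) (fun k => Jm_root a _ k j hr.symm)]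
    · have hj : ¬ (gr A).Reachable j a := fun h => hr h.symm
      rw [if_pos (by rw [acyclic_insert A a j haj hA]; exact ⟨hac, hr⟩), Finset.prod_insert hA,
        gr_insert, claim_star N (Jm a (gr A)) j (Jm_symm a _) (Jm_self a _ j hj), edge_comm,
        Jm_merge_root a _ j a hj (Reachable.refl _)]
      ring
  · rw [if_neg hac, if_neg hac, if_neg (by rw [acyclic_insert A a j haj hA]; tauto)]
    ring

theorem T_rec (a : V) (w : Sym2 V → ℂ) (S : Finset (Sym2 V)) (N : Matrix V V ℂ) (i j : V)
    (hij : i ≠ j) (hS : s(i, j) ∉ S) (c : ℂ) (hc : c ^ 2 = w s(i, j)) :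
    2 * T a w (insert s(i, j) S) N =
      T a w S (N + B i j (w s(i, j)) c) + T a w S (N + B i j (w s(i, j)) (-c)) := by
  rw [T, Finset.sum_powerset_insert hS, T, T, ← Finset.sum_add_distrib, ← Finset.sum_add_distrib,
    Finset.mul_sum]
  apply Finset.sum_congr rfl
  intro A hA
  exact term_rec a w N A i j hij (fun h => hS (Finset.mem_powerset.1 hA h)) c hc

theorem T_star (a : V) (w : Sym2 V → ℂ) (S : Finset (Sym2 V)) (N : Matrix V V ℂ) (j : V)
    (haj : a ≠ j) (hS : s(a, j) ∉ S) :
    T a w (insert s(a, j) S) N =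
      T a w S (N + w s(a, j) • vecMulVec (Pi.single j 1) (Pi.single j 1)) := by
  rw [T, Finset.sum_powerset_insert hS, T, ← Finset.sum_add_distrib]
  apply Finset.sum_congr rfl
  intro A hA
  exact term_star a w N A j haj (fun h => hS (Finset.mem_powerset.1 hA h))

theorem T_affine (a : V) (w : Sym2 V → ℂ) (S : Finset (Sym2 V)) (N : Matrix V V ℂ)
    (p q : V → ℂ) (t : ℂ) :
    T a w S (N + t • vecMulVec p q) =
      T a w S N + t * (T a w S (N + vecMulVec p q) - T a w S N) := by
  simp only [T, ← Finset.sum_sub_distrib, Finset.mul_sum, ← Finset.sum_add_distrib]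
  apply Finset.sum_congr rfl
  intro A _
  simp only [term]
  split_ifs
  · have := det_affine (1 + N * Jm a (gr A)) p (q ᵥ* Jm a (gr A)) t
    have h1 : (1 : Matrix V V ℂ) + (N + t • vecMulVec p q) * Jm a (gr A) =
        1 + N * Jm a (gr A) + t • vecMulVec p (q ᵥ* Jm a (gr A)) := by
      rw [add_mul, smul_mul_assoc, vecMulVec_mul, add_assoc]
    have h2 : (1 : Matrix V V ℂ) + (N + vecMulVec p q) * Jm a (gr A) =
        1 + N * Jm a (gr A) + vecMulVec p (q ᵥ* Jm a (gr A)) := by
      rw [add_mul, vecMulVec_mul, add_assoc]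
    rw [h1, h2, this]
    ring
  · ring

end Pool.Agent.Work.MP_ec1f6a_co
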