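import Pool.Agent.Work.MP_ec1f6a_co.Adjacent

/-!
The unrooted forest function of a matrix, and its stability in all positive definite directions.
-/

set_option autoImplicit false

namespace Pool.Agent.Work.MP_ec1f6a_co

open Matrix SimpleGraph Finset
open scoped Classical

variable {V : Type*}

/-- indicator of being in the same component -/
noncomputable def Ju (G : SimpleGraph V) : Matrix V V ℂ :=
  Matrix.of fun i j => if G.Reachable i j then 1 else 0

theorem Ju_symm (G : SimpleGraph V) (k l : V) : Ju G k l = Ju G l k := by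
  simp only [Ju, Matrix.of_apply, reachable_comm]

theorem Ju_self (G : SimpleGraph V) (k : V) : Ju G k k = 1 := by
  simp [Ju]

theorem Ju_eq_zero (G : SimpleGraph V) (k l : V) (h : ¬ G.Reachable k l) : Ju G k l = 0 := by
  simp [Ju, h]

theorem Ju_same (G : SimpleGraph V) (i j : V) (h : G.Reachable i j) (k : V) :
    Ju G k i = Ju G k j := by
  simp only [Ju, Matrix.of_apply]
  have : G.Reachable k i ↔ G.Reachable k j :=
    ⟨fun h1 => h1.trans h, fun h1 => h1.trans h.symm⟩
  simp only [this]

theorem Ju_merge (G : SimpleGraph V) (i j : V) (hij : ¬ G.Reachable i j) :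
    Ju (G ⊔ edge i j) = Ju G + vecMulVec (fun k => Ju G k i) (fun k => Ju G k j) +
        vecMulVec (fun k => Ju G k j) (fun k => Ju G k i) := by
  ext k l
  simp only [Matrix.add_apply, vecMulVec_apply, Ju, Matrix.of_apply, reach_sup_edge]
  by_cases hki : G.Reachable k i
  · have hkj : ¬ G.Reachable k j := fun h => hij (hki.symm.trans h)
    by_cases hkl : G.Reachable k l
    · have hlj : ¬ G.Reachable l j := fun h => hkj (hkl.trans h)
      have hlj' : ¬ G.Reachable j l := fun h => hlj h.symm
      simp [hki, hkj, hkl, hlj, hlj']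
    · by_cases hlj : G.Reachable l j
      · have hlj' : G.Reachable j l := hlj.symm
        simp [hki, hkj, hkl, hlj, hlj']
      · have hlj' : ¬ G.Reachable j l := fun h => hlj h.symm
        simp [hki, hkj, hkl, hlj, hlj']
  · by_cases hkj : G.Reachable k j
    · by_cases hkl : G.Reachable k l
      · have hli : ¬ G.Reachable l i := fun h => hki (hkl.trans h)
        have hli' : ¬ G.Reachable i l := fun h => hli h.symm
        simp [hki, hkj, hkl, hli, hli']
      · by_cases hli : G.Reachable l i
        · have hli' : G.Reachable i l := hli.symm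
          simp [hki, hkj, hkl, hli, hli']
        · have hli' : ¬ G.Reachable i l := fun h => hli h.symm
          simp [hki, hkj, hkl, hli, hli']
    · simp [hki, hkj]

theorem Ju_bot : Ju (⊥ : SimpleGraph V) = 1 := by
  ext k l
  rw [Ju, Matrix.of_apply, Matrix.one_apply]
  simp only [reachable_bot]

variable [Fintype V]

/-- summand of the unrooted forest function -/
noncomputable def termU (w : Sym2 V → ℂ) (N : Matrix V V ℂ) (A : Finset (Sym2 V)) : ℂ :=
  if (gr A).IsAcyclic then (∏ g ∈ A, w g) * (1 + N * Ju (gr A)).det else 0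

/-- the unrooted forest function -/
noncomputable def TU (w : Sym2 V → ℂ) (S : Finset (Sym2 V)) (N : Matrix V V ℂ) : ℂ :=
  ∑ A ∈ S.powerset, termU w N A

theorem termU_rec (w : Sym2 V → ℂ) (N : Matrix V V ℂ) (A : Finset (Sym2 V)) (i j : V)
    (hij : i ≠ j) (hA : s(i, j) ∉ A) (c : ℂ) (hc : c ^ 2 = w s(i, j)) :
    2 * (termU w N A + termU w N (insert s(i, j) A)) =
      termU w (N + B i j (w s(i, j)) c) A + termU w (N + B i j (w s(i, j)) (-c)) A := by
  simp only [termU]
  by_cases hac : (gr A).IsAcyclic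
  · rw [if_pos hac, if_pos hac, if_pos hac]
    by_cases hr : (gr A).Reachable i j
    · rw [if_neg (by rw [acyclic_insert A i j hij hA]; tauto), add_zero]
      have := claim_same N (Ju (gr A)) i j (Ju_symm _) (Ju_same _ i j hr) (w s(i, j)) c
      linear_combination (-(∏ g ∈ A, w g)) * this
    · rw [if_pos (by rw [acyclic_insert A i j hij hA]; exact ⟨hac, hr⟩), Finset.prod_insert hA,
        gr_insert, Ju_merge _ i j hr]
      have := claim_merge N (Ju (gr A)) i j hij (Ju_symm _) (Ju_self _ i)
        (Ju_self _ j) (Ju_eq_zero _ i j hr) (w s(i, j)) c hc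
      linear_combination (-(∏ g ∈ A, w g)) * this
  · rw [if_neg hac, if_neg hac, if_neg hac, if_neg (by rw [acyclic_insert A i j hij hA]; tauto)]
    ring

theorem TU_rec (w : Sym2 V → ℂ) (S : Finset (Sym2 V)) (N : Matrix V V ℂ) (i j : V)
    (hij : i ≠ j) (hS : s(i, j) ∉ S) (c : ℂ) (hc : c ^ 2 = w s(i, j)) :
    2 * TU w (insert s(i, j) S) N =
      TU w S (N + B i j (w s(i, j)) c) + TU w S (N + B i j (w s(i, j)) (-c)) := by
  rw [TU, Finset.sum_powerset_insert hS, TU, TU, ← Finset.sum_add_distrib,
    ← Finset.sum_add_distrib, Finset.mul_sum]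
  apply Finset.sum_congr rfl
  intro A hA
  exact termU_rec w N A i j hij (fun h => hS (Finset.mem_powerset.1 hA h)) c hc

theorem TU_affine (w : Sym2 V → ℂ) (S : Finset (Sym2 V)) (N : Matrix V V ℂ)
    (p q : V → ℂ) (t : ℂ) :
    TU w S (N + t • vecMulVec p q) =
      TU w S N + t * (TU w S (N + vecMulVec p q) - TU w S N) := by
  simp only [TU, ← Finset.sum_sub_distrib, Finset.mul_sum, ← Finset.sum_add_distrib]
  apply Finset.sum_congr rfl
  intro A _
  simp only [termU]
  split_ifs
  · have := det_affine (1 + N * Ju (gr A)) p (q ᵥ* Ju (gr A)) t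
    have h1 : (1 : Matrix V V ℂ) + (N + t • vecMulVec p q) * Ju (gr A) =
        1 + N * Ju (gr A) + t • vecMulVec p (q ᵥ* Ju (gr A)) := by
      rw [add_mul, smul_mul_assoc, vecMulVec_mul, add_assoc]
    have h2 : (1 : Matrix V V ℂ) + (N + vecMulVec p q) * Ju (gr A) =
        1 + N * Ju (gr A) + vecMulVec p (q ᵥ* Ju (gr A)) := by
      rw [add_mul, vecMulVec_mul, add_assoc]
    rw [h1, h2, this]
    ring
  · ring

theorem TU_biaffine (w : Sym2 V → ℂ) (S : Finset (Sym2 V)) (N : Matrix V V ℂ) (i j : V) :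
    ∃ α β γ δ : ℂ, ∀ s t : ℂ,
      TU w S (N + s • E i + t • E j) = α + β * s + γ * t + δ * (s * t) := by
  refine ⟨TU w S N, TU w S (N + E i) - TU w S N, TU w S (N + E j) - TU w S N,
    TU w S (N + E j + E i) - TU w S (N + E i) - TU w S (N + E j) + TU w S N, ?_⟩
  intro s t
  have h1 := TU_affine w S (N + s • E i) (Pi.single j 1) (Pi.single j 1) t
  have h2 := TU_affine w S N (Pi.single i 1) (Pi.single i 1) s
  have h3 := TU_affine w S (N + E j) (Pi.single i 1) (Pi.single i 1) s
  change TU w S (N + s • E i + t • E j) = _ + t * (TU w S (N + s • E i + E j) - _) at h1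
  change TU w S (N + s • E i) = _ + s * (TU w S (N + E i) - _) at h2
  change TU w S (N + E j + s • E i) = _ + s * (TU w S (N + E j + E i) - _) at h3
  have e1 : N + s • E i + E j = N + E j + s • E i := by abel
  rw [h1, e1, h3, h2]
  ring

/-- the imaginary part is positive definite, quantitatively -/
def Pos (N : Matrix V V ℂ) (ε : ℝ) : Prop :=
  ∀ x : V → ℂ, ε * ∑ k, Complex.normSq (x k) ≤ (star x ⬝ᵥ (N *ᵥ x)).im

theorem quad_E (x : V → ℂ) (s : ℂ) (i : V) :
    (star x ⬝ᵥ ((s • E i) *ᵥ x)).im = s.im * Complex.normSq (x i) := by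
  rw [E, smul_mulVec, vecMulVec_mulVec, single_dotProduct, one_mul, dotProduct_smul,
    dotProduct_smul]
  have : star x ⬝ᵥ (Pi.single i (1 : ℂ)) = (starRingEnd ℂ) (x i) := by
    rw [dotProduct_single, mul_one, Pi.star_apply, Complex.star_def]
  rw [this]
  simp only [MulOpposite.smul_eq_mul_unop, MulOpposite.unop_op, smul_eq_mul]
  rw [← Complex.normSq_eq_conj_mul_self, Complex.mul_im]
  simp

theorem im_quad_of_hermitian (X : Matrix V V ℂ) (hX : X.IsHermitian) (x : V → ℂ) :
    (star x ⬝ᵥ (X *ᵥ x)).im = 0 := hX.im_star_dotProduct_mulVec_self x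

theorem stableU (w : Sym2 V → ℂ) (S : Finset (Sym2 V)) :
    (∀ g ∈ S, ¬ g.IsDiag) → (∀ g ∈ S, ∃ r : ℝ, 0 ≤ r ∧ w g = r) →
    ∀ (N : Matrix V V ℂ) (ε : ℝ), 0 < ε → Pos N ε → TU w S N ≠ 0 := by
  induction S using Finset.induction_on with
  | empty =>
    intro _ _ N ε hε hN
    have h1 : gr (∅ : Finset (Sym2 V)) = ⊥ := by simp [gr]
    have h2 : TU w ∅ N = (1 + N).det := by
      rw [TU, Finset.powerset_empty, Finset.sum_singleton, termU, h1,
        if_pos isAcyclic_bot, Finset.prod_empty, one_mul, Ju_bot, mul_one]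
    rw [h2]
    intro h0
    obtain ⟨p, hp0, hp⟩ := Matrix.exists_mulVec_eq_zero_iff.2 h0
    have h3 := congrArg (fun y => (star p ⬝ᵥ y).im) hp
    simp only [add_mulVec, one_mulVec, dotProduct_add, Complex.add_im, dotProduct_zero,
      Complex.zero_im] at h3
    have h4 : star p ⬝ᵥ p = ((∑ k, Complex.normSq (p k) : ℝ) : ℂ) := by
      rw [dotProduct, Complex.ofReal_sum]
      apply Finset.sum_congr rfl
      intro k _
      rw [Pi.star_apply, Complex.star_def, Complex.normSq_eq_conj_mul_self]
    rw [h4, Complex.ofReal_im, zero_add] at h3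
    have h5 := hN p
    rw [h3] at h5
    have h6 : ∑ k, Complex.normSq (p k) ≤ 0 := by
      by_contra h
      push Not at h
      have := mul_pos hε h
      linarith
    have h7 : ∑ k, Complex.normSq (p k) = 0 :=
      le_antisymm h6 (Finset.sum_nonneg (fun k _ => Complex.normSq_nonneg _))
    apply hp0
    ext k
    have h8 := (Finset.sum_eq_zero_iff_of_nonneg (fun k _ => Complex.normSq_nonneg (p k))).1 h7 k
      (Finset.mem_univ k)
    exact Complex.normSq_eq_zero.1 h8
  | @insert g S hg ih =>
    intro hdiag hpos N ε hε hN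
    have ih' := ih (fun g hg => hdiag g (Finset.mem_insert_of_mem hg))
      (fun g hg => hpos g (Finset.mem_insert_of_mem hg))
    induction g with
    | _ i j =>
    have hij : i ≠ j := by
      have := hdiag _ (Finset.mem_insert_self _ _)
      simpa using this
    obtain ⟨r, hr, hwr⟩ := hpos _ (Finset.mem_insert_self _ _)
    have hc : ((Real.sqrt r : ℝ) : ℂ) ^ 2 = w s(i, j) := by
      rw [hwr, ← Complex.ofReal_pow, Real.sq_sqrt hr]
    have hrec := TU_rec w S N i j hij hg _ hc
    obtain ⟨c, hcdef⟩ : ∃ c : ℂ, c = ((Real.sqrt r : ℝ) : ℂ) := ⟨_, rfl⟩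
    rw [← hcdef] at hc hrec
    have hY : (B i j (w s(i, j)) 0).IsHermitian := by
      rw [hwr]
      ext k l
      rw [conjTranspose_apply]
      simp only [B, Matrix.add_apply, vecMulVec_apply, Pi.sub_apply, Pi.smul_apply,
        Pi.add_apply, Pi.neg_apply, smul_eq_mul, add_zero, sub_zero]
      simp only [Pi.single_apply]
      split_ifs <;> simp
    obtain ⟨s0, hs0⟩ : ∃ s0 : ℂ, s0 = ((ε / 2 : ℝ) : ℂ) * Complex.I := ⟨_, rfl⟩
    have hs0im : s0.im = ε / 2 := by rw [hs0]; simp
    obtain ⟨N', hN'⟩ : ∃ N' : Matrix V V ℂ, N' = N + B i j (w s(i, j)) 0 - s0 • E i - s0 • E j :=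
      ⟨_, rfl⟩
    obtain ⟨α, β, γ, δ, hF⟩ := TU_biaffine w S N' i j
    have hFne : ∀ s t : ℂ, 0 < s.im → 0 < t.im → α + β * s + γ * t + δ * (s * t) ≠ 0 := by
      intro s t hs ht
      rw [← hF]
      apply ih' _ (ε / 2) (by linarith)
      intro x
      have e1 : N' + s • E i + t • E j =
          N + B i j (w s(i, j)) 0 + (s - s0) • E i + (t - s0) • E j := by
        rw [hN', sub_smul, sub_smul]; abel
      rw [e1, add_mulVec, add_mulVec, add_mulVec, dotProduct_add, dotProduct_add, dotProduct_add,
        Complex.add_im, Complex.add_im, Complex.add_im, im_quad_of_hermitian _ hY, quad_E, quad_E,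
        Complex.sub_im, Complex.sub_im, hs0im]
      have h1 := hN x
      have h2 : Complex.normSq (x i) + Complex.normSq (x j) ≤ ∑ k, Complex.normSq (x k) := by
        have h3 : ∑ k ∈ ({i, j} : Finset V), Complex.normSq (x k) ≤
            ∑ k, Complex.normSq (x k) :=
          Finset.sum_le_sum_of_subset_of_nonneg (Finset.subset_univ _)
            (fun k _ _ => Complex.normSq_nonneg _)
        rwa [Finset.sum_pair hij] at h3
      have h4 := Complex.normSq_nonneg (x i)
      have h5 := Complex.normSq_nonneg (x j)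
      nlinarith [mul_nonneg hs.le h4, mul_nonneg ht.le h5]
    have hB : ∀ c : ℂ, N + B i j (w s(i, j)) c =
        N' + (s0 + c) • E i + (s0 - c) • E j := by
      intro c
      have h1 : B i j (w s(i, j)) c = B i j (w s(i, j)) 0 + c • E i - c • E j := by
        rw [B, B, E, E]
        ext k l
        simp only [Matrix.add_apply, Matrix.sub_apply, Matrix.smul_apply, vecMulVec_apply,
          Pi.sub_apply, Pi.smul_apply, Pi.add_apply, Pi.neg_apply, smul_eq_mul]
        ring
      rw [h1, hN', add_smul, sub_smul]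
      abel
    rw [hB, hB, hF, hF] at hrec
    have key := biaffine_shift α β γ δ hFne r hr s0 s0 (by rw [hs0im]; linarith)
      (by rw [hs0im]; linarith)
    intro h0
    apply key
    rw [h0] at hrec
    rw [hwr] at hc
    linear_combination (-(1 : ℂ) / 2) * hrec + δ * hc

end Pool.Agent.Work.MP_ec1f6a_co
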