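import Pool.Agent.Work.MP_ec1f6a_co.ForestU

/-!
A Rayleigh inequality for arbitrary pairs of edges, from stability in the directions
`(e_i - e_j)(e_i - e_j)ᵀ`.
-/

set_option autoImplicit false

namespace Pool.Agent.Work.MP_ec1f6a_co

open Matrix SimpleGraph Finset
open scoped Classical

/-- limits of functions affine in `t` without zeros in the upper half-plane -/
theorem limit_rayleigh (a0 a1 a2 a3 : ℝ) (G : ℝ → ℂ → ℂ) (hcont : ∀ t, Continuous (fun ε => G ε t))
    (haff : ∀ ε t, G ε t = G ε 0 + t * (G ε 1 - G ε 0))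
    (hzero : ∀ t, G 0 t = a0 + Complex.I * a1 + t * a2 + Complex.I * t * a3)
    (hne : ∀ ε : ℝ, 0 < ε → ∀ t : ℂ, 0 < t.im → G ε t ≠ 0) : a0 * a3 ≤ a1 * a2 := by
  by_contra hlt
  push Not at hlt
  have hB0 : G 0 1 - G 0 0 ≠ 0 := by
    rw [hzero, hzero]
    intro h
    have hre := congrArg Complex.re h
    have him := congrArg Complex.im h
    simp at hre him
    rw [hre, him] at hlt
    simp at hlt
  have hlim : Filter.Tendsto (fun ε => -(G ε 0) / (G ε 1 - G ε 0)) (nhds 0)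
      (nhds (-(G 0 0) / (G 0 1 - G 0 0))) := by
    apply Filter.Tendsto.div
    · exact ((hcont 0).tendsto 0).neg
    · exact ((hcont 1).tendsto 0).sub ((hcont 0).tendsto 0)
    · exact hB0
  have himpos : 0 < (-(G 0 0) / (G 0 1 - G 0 0)).im := by
    have h1 : G 0 1 - G 0 0 = a2 + Complex.I * a3 := by rw [hzero, hzero]; ring
    have h2 : G 0 0 = a0 + Complex.I * a1 := by rw [hzero]; ring
    have hN : 0 < Complex.normSq ((a2 : ℂ) + Complex.I * a3) := by
      rw [Complex.normSq_pos]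
      intro h
      exact hB0 (by rw [h1, h])
    rw [h1, h2, Complex.div_im, ← sub_div]
    apply div_pos _ hN
    simp
    nlinarith
  have hev1 : ∀ᶠ ε in nhds (0 : ℝ), 0 < (-(G ε 0) / (G ε 1 - G ε 0)).im :=
    ((Complex.continuous_im.tendsto _).comp hlim).eventually (lt_mem_nhds himpos)
  have hev2 : ∀ᶠ ε in nhds (0 : ℝ), G ε 1 - G ε 0 ≠ 0 :=
    (((hcont 1).tendsto 0).sub ((hcont 0).tendsto 0)).eventually (isOpen_ne.mem_nhds hB0)
  obtain ⟨ε, ⟨h1, h2⟩, h3⟩ := (((hev1.and hev2).filter_mono nhdsWithin_le_nhds).and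
    (self_mem_nhdsWithin : Set.Ioi (0 : ℝ) ∈ nhdsWithin 0 (Set.Ioi 0))).exists
  apply hne ε h3 _ h1
  rw [haff]
  field_simp
  ring

variable {V : Type*}

/-- the difference of two unit vectors -/
noncomputable def dv (i j : V) : V → ℂ := Pi.single i 1 - Pi.single j 1

theorem dv_star (i j : V) : star (dv i j) = dv i j := by
  ext k
  rw [Pi.star_apply, dv, Pi.sub_apply, Pi.single_apply, Pi.single_apply]
  split_ifs <;> simp

/-- real indicator of reachability -/
noncomputable def rr (A : Finset (Sym2 V)) (i j : V) : ℝ := if (gr A).Reachable i j then 1 else 0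

theorem rr_symm (A : Finset (Sym2 V)) (i j : V) : rr A i j = rr A j i := by
  rw [rr, rr]; simp only [reachable_comm]

theorem Ju_rr (A : Finset (Sym2 V)) (i j : V) : Ju (gr A) i j = ((rr A i j : ℝ) : ℂ) := by
  rw [Ju, Matrix.of_apply, rr]
  split_ifs <;> simp

/-- weighted sum over acyclic subsets, with a numerical factor -/
noncomputable def Y (p : Sym2 V → ℝ) (S : Finset (Sym2 V)) (φ : Finset (Sym2 V) → ℝ) : ℝ :=
  ∑ A ∈ S.powerset, if (gr A).IsAcyclic then (∏ g ∈ A, p g) * φ A else 0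

variable [Fintype V]

theorem det_two (J : Matrix V V ℂ) (hJ : ∀ k l, J k l = J l k) (u v : V → ℂ) (s t : ℂ) :
    (1 + (s • vecMulVec u u + t • vecMulVec v v) * J).det =
      1 + s * (u ⬝ᵥ (J *ᵥ u)) + t * (v ⬝ᵥ (J *ᵥ v)) +
        s * t * ((u ⬝ᵥ (J *ᵥ u)) * (v ⬝ᵥ (J *ᵥ v)) - (u ⬝ᵥ (J *ᵥ v)) ^ 2) := by
  obtain ⟨P, hP⟩ : ∃ P : Matrix V (Fin 2) ℂ, P = Matrix.of fun k => ![s * u k, t * v k] := ⟨_, rfl⟩
  obtain ⟨Q, hQ⟩ : ∃ Q : Matrix (Fin 2) V ℂ, Q = Matrix.of ![u ᵥ* J, v ᵥ* J] := ⟨_, rfl⟩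
  have hJt : Jᵀ = J := by ext k l; rw [transpose_apply, hJ]
  have h1 : (s • vecMulVec u u + t • vecMulVec v v) * J = P * Q := by
    rw [add_mul, smul_mul_assoc, smul_mul_assoc, vecMulVec_mul, vecMulVec_mul, hP, hQ]
    ext k l
    simp only [Matrix.add_apply, Matrix.smul_apply, vecMulVec_apply, smul_eq_mul, Matrix.mul_apply,
      Fin.sum_univ_two, Matrix.of_apply, Matrix.cons_val_zero, Matrix.cons_val_one]
    ring
  have hq : ∀ x y : V → ℂ, (x ᵥ* J) ⬝ᵥ y = x ⬝ᵥ (J *ᵥ y) := fun x y =>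
    (dotProduct_mulVec x J y).symm
  have hsym : v ⬝ᵥ (J *ᵥ u) = u ⬝ᵥ (J *ᵥ v) := by
    rw [dotProduct_mulVec, ← mulVec_transpose, hJt, dotProduct_comm]
  have e00 : (Q * P) 0 0 = s * (u ⬝ᵥ (J *ᵥ u)) := by
    rw [← hq, hP, hQ, Matrix.mul_apply, dotProduct, Finset.mul_sum]
    apply Finset.sum_congr rfl
    intro k _
    simp only [Matrix.of_apply, Matrix.cons_val_zero]
    ring
  have e01 : (Q * P) 0 1 = t * (u ⬝ᵥ (J *ᵥ v)) := by
    rw [← hq, hP, hQ, Matrix.mul_apply, dotProduct, Finset.mul_sum]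
    apply Finset.sum_congr rfl
    intro k _
    simp only [Matrix.of_apply, Matrix.cons_val_zero, Matrix.cons_val_one]
    ring
  have e10 : (Q * P) 1 0 = s * (u ⬝ᵥ (J *ᵥ v)) := by
    rw [← hsym, ← hq, hP, hQ, Matrix.mul_apply, dotProduct, Finset.mul_sum]
    apply Finset.sum_congr rfl
    intro k _
    simp only [Matrix.of_apply, Matrix.cons_val_zero, Matrix.cons_val_one]
    ring
  have e11 : (Q * P) 1 1 = t * (v ⬝ᵥ (J *ᵥ v)) := by
    rw [← hq, hP, hQ, Matrix.mul_apply, dotProduct, Finset.mul_sum]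
    apply Finset.sum_congr rfl
    intro k _
    change (v ᵥ* J) k * (t * v k) = t * ((v ᵥ* J) k * v k)
    ring
  rw [h1, det_one_add_mul_comm, det_fin_two, Matrix.add_apply, Matrix.add_apply, Matrix.add_apply,
    Matrix.add_apply, e00, e01, e10, e11]
  simp only [Matrix.one_apply_eq, ne_eq, zero_ne_one, not_false_eq_true, Matrix.one_apply_ne,
    one_ne_zero]
  ring

theorem dv_quad (J : Matrix V V ℂ) (i j k l : V) :
    dv i j ⬝ᵥ (J *ᵥ dv k l) = J i k - J i l - J j k + J j l := by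
  rw [dv, dv, mulVec_sub, mulVec_single_one, mulVec_single_one, sub_dotProduct,
    single_dotProduct, single_dotProduct]
  simp only [one_mul, Pi.sub_apply, col_apply]
  ring

theorem quad_rank_one (u : V → ℂ) (hu : star u = u) (x : V → ℂ) (s : ℂ) :
    (star x ⬝ᵥ ((s • vecMulVec u u) *ᵥ x)).im = s.im * Complex.normSq (u ⬝ᵥ x) := by
  rw [smul_mulVec, vecMulVec_mulVec, dotProduct_smul, dotProduct_smul]
  have : star x ⬝ᵥ u = (starRingEnd ℂ) (u ⬝ᵥ x) := by
    rw [← Complex.star_def, star_dotProduct, hu]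
  rw [this]
  simp only [MulOpposite.smul_eq_mul_unop, MulOpposite.unop_op, smul_eq_mul]
  rw [← Complex.normSq_eq_conj_mul_self, Complex.mul_im]
  simp

theorem TU_continuous (w : Sym2 V → ℂ) (S : Finset (Sym2 V)) (N : ℝ → Matrix V V ℂ)
    (hN : Continuous N) : Continuous (fun ε => TU w S (N ε)) := by
  unfold TU
  apply continuous_finsetSum
  intro A _
  unfold termU
  split_ifs
  · exact continuous_const.mul ((continuous_const.add (hN.mul continuous_const)).matrix_det)
  · exact continuous_const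

/-- the Rayleigh inequality in the directions of two differences of unit vectors -/
theorem rayleigh_dv (p : Sym2 V → ℝ) (S : Finset (Sym2 V)) (hS : ∀ g ∈ S, ¬ g.IsDiag)
    (hp : ∀ g ∈ S, 0 ≤ p g) (i j k l : V) :
    Y p S (fun _ => 1) *
      Y p S (fun A => (2 - 2 * rr A i j) * (2 - 2 * rr A k l) -
        (rr A i k - rr A i l - rr A j k + rr A j l) ^ 2) ≤
      Y p S (fun A => 2 - 2 * rr A i j) * Y p S (fun A => 2 - 2 * rr A k l) := by
  obtain ⟨w, hw⟩ : ∃ w : Sym2 V → ℂ, w = fun x => ((p x : ℝ) : ℂ) := ⟨_, rfl⟩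
  obtain ⟨u, hu⟩ : ∃ u : V → ℂ, u = dv i j := ⟨_, rfl⟩
  obtain ⟨v, hv⟩ : ∃ v : V → ℂ, v = dv k l := ⟨_, rfl⟩
  obtain ⟨N, hN⟩ : ∃ N : ℝ → ℂ → Matrix V V ℂ, N = fun (ε : ℝ) (t : ℂ) =>
    ((ε : ℂ) * Complex.I) • (1 : Matrix V V ℂ) + Complex.I • vecMulVec u u +
      t • vecMulVec v v := ⟨_, rfl⟩
  have hYc : ∀ φ : Finset (Sym2 V) → ℝ, ((Y p S φ : ℝ) : ℂ) =
      ∑ A ∈ S.powerset, if (gr A).IsAcyclic then (∏ g ∈ A, w g) * ((φ A : ℝ) : ℂ) else 0 := by
    intro φ
    rw [Y, Complex.ofReal_sum]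
    apply Finset.sum_congr rfl
    intro A _
    split_ifs
    · rw [Complex.ofReal_mul, Complex.ofReal_prod, hw]
    · simp
  apply limit_rayleigh _ _ _ _ (fun ε t => TU w S (N ε t))
  · intro t
    apply TU_continuous
    rw [hN]
    simp only
    apply Continuous.add
    · apply Continuous.add
      · exact ((Complex.continuous_ofReal).mul continuous_const).smul continuous_const
      · exact continuous_const
    · exact continuous_const
  · intro ε t
    have h0 : N ε 0 = ((ε : ℂ) * Complex.I) • (1 : Matrix V V ℂ) + Complex.I • vecMulVec u u := by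
      rw [hN]; simp
    have h1 : N ε t = N ε 0 + t • vecMulVec v v := by
      rw [h0, hN]
    have h2 : N ε 1 = N ε 0 + vecMulVec v v := by
      rw [h0, hN]; simp
    change TU w S (N ε t) = TU w S (N ε 0) + t * (TU w S (N ε 1) - TU w S (N ε 0))
    rw [h1, h2]
    exact TU_affine w S (N ε 0) v v t
  · intro t
    have h1 : N 0 t = Complex.I • vecMulVec u u + t • vecMulVec v v := by
      rw [hN]; simp
    change TU w S (N 0 t) = _
    rw [h1, TU, hYc, hYc, hYc, hYc, Finset.mul_sum, Finset.mul_sum, Finset.mul_sum,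
      ← Finset.sum_add_distrib, ← Finset.sum_add_distrib, ← Finset.sum_add_distrib]
    apply Finset.sum_congr rfl
    intro A _
    rw [termU]
    split_ifs
    · rw [det_two _ (Ju_symm _), hu, hv, dv_quad, dv_quad, dv_quad]
      simp only [Ju_rr]
      have h1 : ∀ x : V, rr A x x = 1 := by intro x; rw [rr]; simp
      rw [rr_symm A j i, rr_symm A l k, h1, h1, h1, h1]
      push_cast
      ring
    · simp
  · intro ε hε t ht
    apply stableU w S hS (fun g hg => ⟨p g, hp g hg, by rw [hw]⟩) _ ε hε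
    intro x
    have hNt : N ε t = ((ε : ℂ) * Complex.I) • (1 : Matrix V V ℂ) + Complex.I • vecMulVec u u +
      t • vecMulVec v v := by rw [hN]
    rw [hNt, add_mulVec, add_mulVec, dotProduct_add, dotProduct_add, Complex.add_im, Complex.add_im,
      quad_rank_one u (by rw [hu, dv_star]), quad_rank_one v (by rw [hv, dv_star]), smul_mulVec,
      one_mulVec, dotProduct_smul]
    have h4 : star x ⬝ᵥ x = ((∑ k, Complex.normSq (x k) : ℝ) : ℂ) := by
      rw [dotProduct, Complex.ofReal_sum]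
      apply Finset.sum_congr rfl
      intro k _
      rw [Pi.star_apply, Complex.star_def, Complex.normSq_eq_conj_mul_self]
    rw [h4]
    have h5 := Complex.normSq_nonneg (u ⬝ᵥ x)
    have h6 := mul_nonneg ht.le (Complex.normSq_nonneg (v ⬝ᵥ x))
    have h7 : ((((ε : ℂ) * Complex.I) • (((∑ k, Complex.normSq (x k) : ℝ) : ℂ))) : ℂ).im =
        ε * ∑ k, Complex.normSq (x k) := by
      rw [smul_eq_mul, Complex.mul_im]
      simp
    rw [h7]
    simp only [Complex.I_im, one_mul]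
    linarith

end Pool.Agent.Work.MP_ec1f6a_co
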