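import Pool.Agent.Work.MP_ec1f6a_co.FourThirds

/-!
The bound for arbitrary pairs of edges.
-/

set_option autoImplicit false

namespace Pool.Agent.Work.MP_ec1f6a_co

open Matrix SimpleGraph Finset
open scoped Classical

variable {V : Type*}

theorem acyclic_insert_two (A : Finset (Sym2 V)) (i j k l : V) (hij : i ≠ j) (hkl : k ≠ l)
    (hef : s(i, j) ≠ s(k, l)) (he : s(i, j) ∉ A) (hf : s(k, l) ∉ A) :
    (gr (insert s(i, j) (insert s(k, l) A))).IsAcyclic ↔
      (gr A).IsAcyclic ∧ ¬ (gr A).Reachable k l ∧ ¬ ((gr A).Reachable i j ∨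
        ((gr A).Reachable i k ∧ (gr A).Reachable l j) ∨
        ((gr A).Reachable i l ∧ (gr A).Reachable k j)) := by
  have he' : s(i, j) ∉ insert s(k, l) A := by
    rw [Finset.mem_insert]; push Not; exact ⟨hef, he⟩
  rw [acyclic_insert _ i j hij he', acyclic_insert _ k l hkl hf, gr_insert, reach_sup_edge]
  tauto

theorem pointwise (A : Finset (Sym2 V)) (i j k l : V) (hij : i ≠ j) (hkl : k ≠ l)
    (hef : s(i, j) ≠ s(k, l)) (he : s(i, j) ∉ A) (hf : s(k, l) ∉ A) :
    4 * (if (gr (insert s(i, j) (insert s(k, l) A))).IsAcyclic then (1 : ℝ) else 0) -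
      (if (gr (insert s(i, j) (insert s(k, l) A))).IsAcyclic ∧
        (gr (insert s(i, j) (insert s(k, l) A))).Reachable i k then (1 : ℝ) else 0) ≤
      (2 - 2 * rr A i j) * (2 - 2 * rr A k l) -
        (rr A i k - rr A i l - rr A j k + rr A j l) ^ 2 := by
  have hac := acyclic_insert_two A i j k l hij hkl hef he hf
  have hr1 : (gr A).Reachable i k ∨ (gr A).Reachable i l ∨ (gr A).Reachable j k ∨
      (gr A).Reachable j l → (gr (insert s(i, j) (insert s(k, l) A))).Reachable i k := by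
    intro h
    rw [gr_insert, reach_sup_edge, gr_insert, reach_sup_edge, reach_sup_edge]
    have hi : (gr A).Reachable i i := Reachable.refl _
    have hk : (gr A).Reachable k k := Reachable.refl _
    have hj : (gr A).Reachable j j := Reachable.refl _
    rcases h with h | h | h | h
    · tauto
    · tauto
    · right; left
      refine ⟨Or.inl hi, ?_⟩
      rw [reach_sup_edge]; tauto
    · right; left
      refine ⟨Or.inl hi, ?_⟩
      rw [reach_sup_edge]; tauto
  by_cases h1 : (gr A).Reachable i j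
  · -- both sides vanish
    have hn : ¬ (gr (insert s(i, j) (insert s(k, l) A))).IsAcyclic := by
      rw [hac]; tauto
    have e1 : rr A i k = rr A j k := by
      rw [rr, rr]
      have : (gr A).Reachable i k ↔ (gr A).Reachable j k :=
        ⟨fun h => h1.symm.trans h, fun h => h1.trans h⟩
      simp only [this]
    have e2 : rr A i l = rr A j l := by
      rw [rr, rr]
      have : (gr A).Reachable i l ↔ (gr A).Reachable j l :=
        ⟨fun h => h1.symm.trans h, fun h => h1.trans h⟩
      simp only [this]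
    have e3 : rr A i j = 1 := by rw [rr, if_pos h1]
    rw [e1, e2, e3, if_neg hn, if_neg (fun h => hn h.1)]
    ring_nf
    exact le_refl _
  by_cases h2 : (gr A).Reachable k l
  · have hn : ¬ (gr (insert s(i, j) (insert s(k, l) A))).IsAcyclic := by
      rw [hac]; tauto
    have e1 : rr A i k = rr A i l := by
      rw [rr, rr]
      have : (gr A).Reachable i k ↔ (gr A).Reachable i l :=
        ⟨fun h => h.trans h2, fun h => h.trans h2.symm⟩
      simp only [this]
    have e2 : rr A j k = rr A j l := by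
      rw [rr, rr]
      have : (gr A).Reachable j k ↔ (gr A).Reachable j l :=
        ⟨fun h => h.trans h2, fun h => h.trans h2.symm⟩
      simp only [this]
    have e3 : rr A k l = 1 := by rw [rr, if_pos h2]
    rw [e1, e2, e3, if_neg hn, if_neg (fun h => hn h.1)]
    ring_nf
    exact le_refl _
  have e1 : rr A i j = 0 := by rw [rr, if_neg h1]
  have e2 : rr A k l = 0 := by rw [rr, if_neg h2]
  rw [e1, e2]
  by_cases g1 : (gr A).Reachable i k
  · have g2 : ¬ (gr A).Reachable i l := fun h => h2 (g1.symm.trans h)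
    have g3 : ¬ (gr A).Reachable j k := fun h => h1 (g1.trans h.symm)
    have f1 : rr A i k = 1 := by rw [rr, if_pos g1]
    have f2 : rr A i l = 0 := by rw [rr, if_neg g2]
    have f3 : rr A j k = 0 := by rw [rr, if_neg g3]
    rw [f1, f2, f3]
    by_cases g4 : (gr A).Reachable j l
    · have hn : ¬ (gr (insert s(i, j) (insert s(k, l) A))).IsAcyclic := by
        rw [hac]
        have := g4.symm
        tauto
      have f4 : rr A j l = 1 := by rw [rr, if_pos g4]
      rw [f4, if_neg hn, if_neg (fun h => hn h.1)]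
      norm_num
    · have f4 : rr A j l = 0 := by rw [rr, if_neg g4]
      have hr := hr1 (Or.inl g1)
      rw [f4]
      by_cases hn : (gr (insert s(i, j) (insert s(k, l) A))).IsAcyclic
      · rw [if_pos hn, if_pos ⟨hn, hr⟩]; norm_num
      · rw [if_neg hn, if_neg (fun h => hn h.1)]; norm_num
  · have f1 : rr A i k = 0 := by rw [rr, if_neg g1]
    rw [f1]
    by_cases g2 : (gr A).Reachable i l
    · have g4 : ¬ (gr A).Reachable j l := fun h => h1 (g2.trans h.symm)
      have f2 : rr A i l = 1 := by rw [rr, if_pos g2]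
      have f4 : rr A j l = 0 := by rw [rr, if_neg g4]
      rw [f2, f4]
      by_cases g3 : (gr A).Reachable j k
      · have hn : ¬ (gr (insert s(i, j) (insert s(k, l) A))).IsAcyclic := by
          rw [hac]
          have := g3.symm
          tauto
        have f3 : rr A j k = 1 := by rw [rr, if_pos g3]
        rw [f3, if_neg hn, if_neg (fun h => hn h.1)]
        norm_num
      · have f3 : rr A j k = 0 := by rw [rr, if_neg g3]
        have hr := hr1 (Or.inr (Or.inl g2))
        rw [f3]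
        by_cases hn : (gr (insert s(i, j) (insert s(k, l) A))).IsAcyclic
        · rw [if_pos hn, if_pos ⟨hn, hr⟩]; norm_num
        · rw [if_neg hn, if_neg (fun h => hn h.1)]; norm_num
    · have f2 : rr A i l = 0 := by rw [rr, if_neg g2]
      rw [f2]
      by_cases g3 : (gr A).Reachable j k
      · have g4 : ¬ (gr A).Reachable j l := fun h => h2 (g3.symm.trans h)
        have f3 : rr A j k = 1 := by rw [rr, if_pos g3]
        have f4 : rr A j l = 0 := by rw [rr, if_neg g4]
        have hr := hr1 (Or.inr (Or.inr (Or.inl g3)))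
        rw [f3, f4]
        by_cases hn : (gr (insert s(i, j) (insert s(k, l) A))).IsAcyclic
        · rw [if_pos hn, if_pos ⟨hn, hr⟩]; norm_num
        · rw [if_neg hn, if_neg (fun h => hn h.1)]; norm_num
      · have f3 : rr A j k = 0 := by rw [rr, if_neg g3]
        rw [f3]
        by_cases g4 : (gr A).Reachable j l
        · have f4 : rr A j l = 1 := by rw [rr, if_pos g4]
          have hr := hr1 (Or.inr (Or.inr (Or.inr g4)))
          rw [f4]
          by_cases hn : (gr (insert s(i, j) (insert s(k, l) A))).IsAcyclic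
          · rw [if_pos hn, if_pos ⟨hn, hr⟩]; norm_num
          · rw [if_neg hn, if_neg (fun h => hn h.1)]; norm_num
        · have f4 : rr A j l = 0 := by rw [rr, if_neg g4]
          rw [f4]
          by_cases hn : (gr (insert s(i, j) (insert s(k, l) A))).IsAcyclic
          · rw [if_pos hn]
            split_ifs <;> norm_num
          · rw [if_neg hn, if_neg (fun h => hn h.1)]; norm_num

variable [Fintype V]

theorem core43 (p : Sym2 V → ℝ) (S : Finset (Sym2 V)) (hS : ∀ g ∈ S, ¬ g.IsDiag)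
    (hp : ∀ g ∈ S, 0 ≤ p g) (i j k l : V) (hij : i ≠ j) (hkl : k ≠ l)
    (hef : s(i, j) ≠ s(k, l)) (he : s(i, j) ∉ S) (hf : s(k, l) ∉ S) :
    4 * (Z p S (fun A => (gr A).IsAcyclic) *
      Z p S (fun A => (gr (insert s(i, j) (insert s(k, l) A))).IsAcyclic)) ≤
    4 * (Z p S (fun A => (gr (insert s(i, j) A)).IsAcyclic) *
      Z p S (fun A => (gr (insert s(k, l) A)).IsAcyclic)) +
    Z p S (fun A => (gr A).IsAcyclic) *
      Z p S (fun A => (gr (insert s(i, j) (insert s(k, l) A))).IsAcyclic ∧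
        (gr (insert s(i, j) (insert s(k, l) A))).Reachable i k) := by
  have key := rayleigh_dv p S hS hp i j k l
  have hpA : ∀ A ∈ S.powerset, 0 ≤ ∏ g ∈ A, p g := fun A hA =>
    Finset.prod_nonneg (fun g hg => hp g (Finset.mem_powerset.1 hA hg))
  have e0 : Y p S (fun _ => 1) = Z p S (fun A => (gr A).IsAcyclic) := by
    rw [Y, Z]
    apply Finset.sum_congr rfl
    intro A _
    simp only [mul_one]
  have e1 : ∀ x y : V, x ≠ y → s(x, y) ∉ S → Y p S (fun A => 2 - 2 * rr A x y) =
      2 * Z p S (fun A => (gr (insert s(x, y) A)).IsAcyclic) := by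
    intro x y hxy hxS
    rw [Y, Z, Finset.mul_sum]
    apply Finset.sum_congr rfl
    intro A hA
    have hxA : s(x, y) ∉ A := fun h => hxS (Finset.mem_powerset.1 hA h)
    rw [acyclic_insert A x y hxy hxA]
    by_cases h1 : (gr A).IsAcyclic
    · by_cases h2 : (gr A).Reachable x y
      · rw [if_pos h1, if_neg (by tauto), rr, if_pos h2]; ring
      · rw [if_pos h1, if_pos ⟨h1, h2⟩, rr, if_neg h2]; ring
    · rw [if_neg h1, if_neg (by tauto)]; ring
  have e3 : 4 * Z p S (fun A => (gr (insert s(i, j) (insert s(k, l) A))).IsAcyclic) -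
      Z p S (fun A => (gr (insert s(i, j) (insert s(k, l) A))).IsAcyclic ∧
        (gr (insert s(i, j) (insert s(k, l) A))).Reachable i k) ≤
      Y p S (fun A => (2 - 2 * rr A i j) * (2 - 2 * rr A k l) -
        (rr A i k - rr A i l - rr A j k + rr A j l) ^ 2) := by
    rw [Y, Z, Z, Finset.mul_sum, ← Finset.sum_sub_distrib]
    apply Finset.sum_le_sum
    intro A hA
    have heA : s(i, j) ∉ A := fun h => he (Finset.mem_powerset.1 hA h)
    have hfA : s(k, l) ∉ A := fun h => hf (Finset.mem_powerset.1 hA h)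
    have h := pointwise A i j k l hij hkl hef heA hfA
    have hac := acyclic_insert_two A i j k l hij hkl hef heA hfA
    have hnn := hpA A hA
    by_cases h1 : (gr A).IsAcyclic
    · rw [if_pos h1]
      have h3 := mul_le_mul_of_nonneg_left h hnn
      refine le_trans (le_of_eq ?_) h3
      split_ifs <;> ring
    · have h2 : ¬ (gr (insert s(i, j) (insert s(k, l) A))).IsAcyclic := by
        rw [hac]; tauto
      rw [if_neg h1, if_neg h2, if_neg (fun h => h2 h.1)]
      norm_num
  rw [e0, e1 i j hij he, e1 k l hkl hf] at key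
  have h0 : 0 ≤ Z p S (fun A => (gr A).IsAcyclic) := by
    rw [Z]
    apply Finset.sum_nonneg
    intro A hA
    split_ifs
    · exact hpA A hA
    · exact le_refl _
  nlinarith [mul_le_mul_of_nonneg_left e3 h0]

/-- any two edges are almost negatively correlated -/
theorem almost (E0 : Finset (Sym2 V)) (hE : ∀ g ∈ E0, ¬ g.IsDiag) (p : Sym2 V → ℝ)
    (hp : ∀ g ∈ E0, 0 ≤ p g) (e f : Sym2 V) (he : e ∈ E0) (hf : f ∈ E0) (hef : e ≠ f) :
    4 * (Z p E0 (fun A => e ∈ A ∧ f ∈ A ∧ (gr A).IsAcyclic) *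
      Z p E0 (fun A => (gr A).IsAcyclic)) ≤
    4 * (Z p E0 (fun A => e ∈ A ∧ (gr A).IsAcyclic) *
      Z p E0 (fun A => f ∈ A ∧ (gr A).IsAcyclic)) +
    Z p E0 (fun A => e ∉ A ∧ f ∉ A ∧ (gr A).IsAcyclic) *
      Z p E0 (fun A => e ∈ A ∧ f ∈ A ∧ (gr A).IsAcyclic ∧
        ∃ a ∈ e, ∃ b ∈ f, (gr A).Reachable a b) := by
  induction e with
  | _ i j =>
  induction f with
  | _ k l =>
  have hij : i ≠ j := by simpa using hE _ he
  have hkl : k ≠ l := by simpa using hE _ hf
  obtain ⟨S, hS⟩ : ∃ S : Finset (Sym2 V), S = (E0.erase s(i, j)).erase s(k, l) := ⟨_, rfl⟩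
  have hfe : s(k, l) ∈ E0.erase s(i, j) := Finset.mem_erase.2 ⟨hef.symm, hf⟩
  have hE0 : E0 = insert s(i, j) (insert s(k, l) S) := by
    rw [hS, Finset.insert_erase hfe, Finset.insert_erase he]
  have hbS : s(i, j) ∉ S := by rw [hS]; simp
  have hdS : s(k, l) ∉ S := by rw [hS]; simp
  have hsub : ∀ g ∈ S, g ∈ E0 := by
    intro g hg
    rw [hE0]; simp [hg]
  have key := core43 p S (fun g hg => hE g (hsub g hg)) (fun g hg => hp g (hsub g hg)) i j k l
    hij hkl hef hbS hdS
  have hpe := hp _ he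
  have hpf := hp _ hf
  rw [hE0]
  rw [Z_split p S _ _ hbS hdS hef, Z_split p S _ _ hbS hdS hef,
    Z_split p S _ _ hbS hdS hef, Z_split p S _ _ hbS hdS hef, Z_split p S _ _ hbS hdS hef,
    Z_split p S _ _ hbS hdS hef]
  have hn1 : ∀ A : Finset (Sym2 V), A ⊆ S → s(i, j) ∉ A := fun A hA h => hbS (hA h)
  have hn2 : ∀ A : Finset (Sym2 V), A ⊆ S → s(k, l) ∉ A := fun A hA h => hdS (hA h)
  have hn3 : ∀ A : Finset (Sym2 V), A ⊆ S → s(k, l) ∉ insert s(i, j) A := fun A hA h => by
    rcases Finset.mem_insert.1 h with h1 | h1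
    · exact hef h1.symm
    · exact hdS (hA h1)
  have hn4 : ∀ A : Finset (Sym2 V), A ⊆ S → s(i, j) ∉ insert s(k, l) A := fun A hA h => by
    rcases Finset.mem_insert.1 h with h1 | h1
    · exact hef h1
    · exact hbS (hA h1)
  have m1 : ∀ A : Finset (Sym2 V), s(i, j) ∈ insert s(i, j) (insert s(k, l) A) := by
    intro A; simp
  have m2 : ∀ A : Finset (Sym2 V), s(k, l) ∈ insert s(i, j) (insert s(k, l) A) := by
    intro A; simp
  have m3 : ∀ A : Finset (Sym2 V), s(i, j) ∈ insert s(i, j) A := by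
    intro A; simp
  have m4 : ∀ A : Finset (Sym2 V), s(k, l) ∈ insert s(k, l) A := by
    intro A; simp
  rw [Z_zero p S (fun A => s(i, j) ∈ A ∧ s(k, l) ∈ A ∧ (gr A).IsAcyclic)
      (fun A hA h => hn1 A hA h.1),
    Z_zero p S (fun A => s(i, j) ∈ insert s(i, j) A ∧ s(k, l) ∈ insert s(i, j) A ∧
      (gr (insert s(i, j) A)).IsAcyclic) (fun A hA h => hn3 A hA h.2.1),
    Z_zero p S (fun A => s(i, j) ∈ insert s(k, l) A ∧ s(k, l) ∈ insert s(k, l) A ∧
      (gr (insert s(k, l) A)).IsAcyclic) (fun A hA h => hn4 A hA h.1),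
    Z_zero p S (fun A => s(i, j) ∈ A ∧ (gr A).IsAcyclic) (fun A hA h => hn1 A hA h.1),
    Z_zero p S (fun A => s(i, j) ∈ insert s(k, l) A ∧ (gr (insert s(k, l) A)).IsAcyclic)
      (fun A hA h => hn4 A hA h.1),
    Z_zero p S (fun A => s(k, l) ∈ A ∧ (gr A).IsAcyclic) (fun A hA h => hn2 A hA h.1),
    Z_zero p S (fun A => s(k, l) ∈ insert s(i, j) A ∧ (gr (insert s(i, j) A)).IsAcyclic)
      (fun A hA h => hn3 A hA h.1),
    Z_zero p S (fun A => s(i, j) ∈ A ∧ s(k, l) ∈ A ∧ (gr A).IsAcyclic ∧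
        ∃ a ∈ s(i, j), ∃ b ∈ s(k, l), (gr A).Reachable a b)
      (fun A hA h => hn1 A hA h.1),
    Z_zero p S (fun A => s(i, j) ∈ insert s(i, j) A ∧ s(k, l) ∈ insert s(i, j) A ∧
      (gr (insert s(i, j) A)).IsAcyclic ∧
        ∃ a ∈ s(i, j), ∃ b ∈ s(k, l), (gr (insert s(i, j) A)).Reachable a b)
      (fun A hA h => hn3 A hA h.2.1),
    Z_zero p S (fun A => s(i, j) ∈ insert s(k, l) A ∧ s(k, l) ∈ insert s(k, l) A ∧
      (gr (insert s(k, l) A)).IsAcyclic ∧
        ∃ a ∈ s(i, j), ∃ b ∈ s(k, l), (gr (insert s(k, l) A)).Reachable a b)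
      (fun A hA h => hn4 A hA h.1),
    Z_zero p S (fun A => s(i, j) ∉ insert s(i, j) A ∧ s(k, l) ∉ insert s(i, j) A ∧
      (gr (insert s(i, j) A)).IsAcyclic) (fun A hA h => h.1 (m3 A)),
    Z_zero p S (fun A => s(i, j) ∉ insert s(k, l) A ∧ s(k, l) ∉ insert s(k, l) A ∧
      (gr (insert s(k, l) A)).IsAcyclic) (fun A hA h => h.2.1 (m4 A)),
    Z_zero p S (fun A => s(i, j) ∉ insert s(i, j) (insert s(k, l) A) ∧
      s(k, l) ∉ insert s(i, j) (insert s(k, l) A) ∧
      (gr (insert s(i, j) (insert s(k, l) A))).IsAcyclic) (fun A hA h => h.1 (m1 A))]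
  simp only [m1, m2, m3, m4, true_and]
  have e5 : Z p S (fun A => s(i, j) ∉ A ∧ s(k, l) ∉ A ∧ (gr A).IsAcyclic) =
      Z p S (fun A => (gr A).IsAcyclic) := by
    rw [Z, Z]
    apply Finset.sum_congr rfl
    intro A hA
    have hA' := Finset.mem_powerset.1 hA
    have : (s(i, j) ∉ A ∧ s(k, l) ∉ A ∧ (gr A).IsAcyclic) ↔ (gr A).IsAcyclic :=
      ⟨fun h => h.2.2, fun h => ⟨hn1 A hA', hn2 A hA', h⟩⟩
    simp only [this]
  have e6 : Z p S (fun A => (gr (insert s(i, j) (insert s(k, l) A))).IsAcyclic ∧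
      ∃ a ∈ s(i, j), ∃ b ∈ s(k, l), (gr (insert s(i, j) (insert s(k, l) A))).Reachable a b) =
      Z p S (fun A => (gr (insert s(i, j) (insert s(k, l) A))).IsAcyclic ∧
        (gr (insert s(i, j) (insert s(k, l) A))).Reachable i k) := by
    rw [Z, Z]
    apply Finset.sum_congr rfl
    intro A hA
    have r1 : (gr (insert s(i, j) (insert s(k, l) A))).Reachable i j := by
      apply Adj.reachable
      rw [gr, fromEdgeSet_adj]
      exact ⟨by simp, hij⟩
    have r2 : (gr (insert s(i, j) (insert s(k, l) A))).Reachable k l := by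
      apply Adj.reachable
      rw [gr, fromEdgeSet_adj]
      exact ⟨by simp, hkl⟩
    have : (∃ a ∈ s(i, j), ∃ b ∈ s(k, l),
        (gr (insert s(i, j) (insert s(k, l) A))).Reachable a b) ↔
        (gr (insert s(i, j) (insert s(k, l) A))).Reachable i k := by
      constructor
      · rintro ⟨a, ha, b, hb, h⟩
        have ha' : (gr (insert s(i, j) (insert s(k, l) A))).Reachable i a := by
          rcases Sym2.mem_iff.1 ha with rfl | rfl
          · exact Reachable.refl _
          · exact r1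
        have hb' : (gr (insert s(i, j) (insert s(k, l) A))).Reachable b k := by
          rcases Sym2.mem_iff.1 hb with rfl | rfl
          · exact Reachable.refl _
          · exact r2.symm
        exact (ha'.trans h).trans hb'
      · intro h
        exact ⟨i, by simp, k, by simp, h⟩
    by_cases h : (gr (insert s(i, j) (insert s(k, l) A))).IsAcyclic ∧
        (gr (insert s(i, j) (insert s(k, l) A))).Reachable i k
    · rw [if_pos h, if_pos ⟨h.1, this.2 h.2⟩]
    · rw [if_neg h, if_neg (fun h' => h ⟨h'.1, this.1 h'.2⟩)]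
  rw [e5, e6]
  nlinarith [mul_le_mul_of_nonneg_left key (mul_nonneg hpe hpf)]

/-- the consequence with a multiplicative constant -/
theorem four_thirds (E0 : Finset (Sym2 V)) (hE : ∀ g ∈ E0, ¬ g.IsDiag) (p : Sym2 V → ℝ)
    (hp : ∀ g ∈ E0, 0 ≤ p g) (e f : Sym2 V) (he : e ∈ E0) (hf : f ∈ E0) (hef : e ≠ f) :
    3 * (Z p E0 (fun A => e ∈ A ∧ f ∈ A ∧ (gr A).IsAcyclic) *
      Z p E0 (fun A => (gr A).IsAcyclic)) ≤
    4 * (Z p E0 (fun A => e ∈ A ∧ (gr A).IsAcyclic) *
      Z p E0 (fun A => f ∈ A ∧ (gr A).IsAcyclic)) := by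
  have key := almost E0 hE p hp e f he hf hef
  have mono : ∀ P Q : Finset (Sym2 V) → Prop, (∀ A, P A → Q A) → Z p E0 P ≤ Z p E0 Q := by
    intro P Q h
    rw [Z, Z]
    apply Finset.sum_le_sum
    intro A hA
    have h0 : 0 ≤ ∏ x ∈ A, p x :=
      Finset.prod_nonneg (fun g hg => hp g (Finset.mem_powerset.1 hA hg))
    by_cases h1 : P A
    · rw [if_pos h1, if_pos (h A h1)]
    · rw [if_neg h1]
      split_ifs
      · exact h0
      · exact le_refl _
  have nonneg : ∀ P : Finset (Sym2 V) → Prop, 0 ≤ Z p E0 P := by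
    intro P
    rw [Z]
    apply Finset.sum_nonneg
    intro A hA
    split_ifs
    · exact Finset.prod_nonneg (fun g hg => hp g (Finset.mem_powerset.1 hA hg))
    · exact le_refl _
  have h1 := mono (fun A => e ∉ A ∧ f ∉ A ∧ (gr A).IsAcyclic) (fun A => (gr A).IsAcyclic)
    (fun A h => h.2.2)
  have h2 := mono (fun A => e ∈ A ∧ f ∈ A ∧ (gr A).IsAcyclic ∧
        ∃ a ∈ e, ∃ b ∈ f, (gr A).Reachable a b) (fun A => e ∈ A ∧ f ∈ A ∧ (gr A).IsAcyclic)
    (fun A h => ⟨h.1, h.2.1, h.2.2.1⟩)
  have h3 := mul_le_mul h1 h2 (nonneg _) (nonneg _)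
  nlinarith

end Pool.Agent.Work.MP_ec1f6a_co
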