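import Pool.Agent.Work.MP_ec1f6a_co.Bridge

/-!
MP_ec1f6a_co: the four sums of the problem in terms of the natural numbers `CS`.
-/

namespace Pool.Agent.ECF

open Finset

section

open Classical

/-- sums over connected edge sets containing `F` -/
theorem sum_forced {V : Type*} [Fintype V] (E : Finset (Sym2 V)) (tl : Sym2 V → V)
    (a b : Sym2 V → ℕ) (v : V) (hb : ∀ x ∈ E, b x ≠ 0) (F : Finset (Sym2 V))
    (hF : F ⊆ E) (P : Finset (Sym2 V) → Prop) [DecidablePred P]
    (hP : ∀ A, P A ↔ F ⊆ A ∧ (SimpleGraph.fromEdgeSet (A : Set (Sym2 V))).Connected) :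
    (∑ A ∈ E.powerset.filter P, ∏ x ∈ A, ((a x : ℝ) / b x)) * ∏ x ∈ E, (b x : ℝ)
      = (CS E tl a (fun x => if x ∈ F then 0 else b x) v univ : ℕ) := by
  rw [CS_univ]
  push_cast
  rw [Finset.sum_mul]
  symm
  have hsub : E.powerset.filter P ⊆ E.powerset.filter
      (fun A : Finset (Sym2 V) =>
        (SimpleGraph.fromEdgeSet (A : Set (Sym2 V))).Connected) := by
    intro A hA
    rw [Finset.mem_filter] at hA ⊢
    exact ⟨hA.1, ((hP A).1 hA.2).2⟩
  rw [← Finset.sum_subset hsub]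
  · refine Finset.sum_congr rfl ?_
    intro A hA
    symm
    rw [Finset.mem_filter, Finset.mem_powerset] at hA
    obtain ⟨hAE, hPA⟩ := hA
    have hFA := ((hP A).1 hPA).1
    unfold pw
    rw [← Finset.prod_sdiff hAE, ← Finset.prod_sdiff hAE, mul_comm]
    push_cast
    rw [mul_assoc]
    congr 1
    · refine Finset.prod_congr rfl ?_
      intro x hx
      rw [Finset.mem_sdiff] at hx
      rw [if_neg hx.2, if_neg (fun h => hx.2 (hFA h))]
    · rw [← Finset.prod_mul_distrib]
      refine Finset.prod_congr rfl ?_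
      intro x hx
      rw [if_pos hx]
      have : (b x : ℝ) ≠ 0 := by exact_mod_cast hb x (hAE hx)
      field_simp
  · intro A hA hA2
    rw [Finset.mem_filter, Finset.mem_powerset] at hA hA2
    have : ¬ F ⊆ A := fun h => hA2 ⟨hA.1, (hP A).2 ⟨h, hA.2⟩⟩
    rw [Finset.not_subset] at this
    obtain ⟨x, hxF, hxA⟩ := this
    unfold pw
    have : ∏ e ∈ E, (if e ∈ A then a e else if e ∈ F then 0 else b e) = 0 := by
      refine Finset.prod_eq_zero (hF hxF) ?_
      rw [if_neg hxA, if_pos hxF]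
    rw [this]
    simp

end

open scoped Classical in
theorem sum_bind {n : ℕ} (s : Finset (Finset (Sym2 (Fin n)))) (P : Set (Sym2 (Fin n)) → Prop)
    [DecidablePred P] [∀ E' : Set (Sym2 (Fin n)), Fintype ↥E'] (g : Sym2 (Fin n) → ℝ) :
    (∑ E' ∈ (do let a ← s; pure (a : Set (Sym2 (Fin n))) : Finset (Set (Sym2 (Fin n)))).filter P,
      ∏ x ∈ E'.toFinset, g x)
      = ∑ A ∈ s.filter (fun A : Finset (Sym2 (Fin n)) => P (A : Set (Sym2 (Fin n)))),
        ∏ x ∈ A, g x := by
  symm
  refine Finset.sum_bij (fun A _ => (A : Set (Sym2 (Fin n)))) ?_ ?_ ?_ ?_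
  · intro A hA
    rw [Finset.mem_filter] at hA ⊢
    refine ⟨?_, hA.2⟩
    simp only [Finset.bind_def, Finset.pure_def, Finset.mem_sup, Finset.mem_singleton]
    exact ⟨A, hA.1, rfl⟩
  · intro A _ B _ h
    exact Finset.coe_injective h
  · intro E' hE'
    rw [Finset.mem_filter] at hE'
    simp only [Finset.bind_def, Finset.pure_def, Finset.mem_sup, Finset.mem_singleton] at hE'
    obtain ⟨⟨A, hA, rfl⟩, h2⟩ := hE'
    exact ⟨A, Finset.mem_filter.2 ⟨hA, h2⟩, rfl⟩
  · intro A _
    refine Finset.prod_congr ?_ (fun _ _ => rfl)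
    ext x
    simp

end Pool.Agent.ECF

namespace Pool.Agent.ECF

open scoped Classical in
theorem negation {n : ℕ} (E : Finset (Sym2 (Fin n))) (hE : ∀ x ∈ E, ¬ x.IsDiag)
    (tl : Sym2 (Fin n) → Fin n)
    (a b : Sym2 (Fin n) → ℕ) (v : Fin n) (hb : ∀ x ∈ E, b x ≠ 0)
    (e f : Sym2 (Fin n)) (he : e ∈ E) (hf : f ∈ E) (hef : e ≠ f)
    (hlt : CS E tl a (fun x => if x ∈ ({e} : Finset (Sym2 (Fin n))) then 0 else b x) v Finset.univ
        * CS E tl a (fun x => if x ∈ ({f} : Finset (Sym2 (Fin n))) then 0 else b x) v Finset.univ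
      < CS E tl a (fun x => if x ∈ ({e, f} : Finset (Sym2 (Fin n))) then 0 else b x) v Finset.univ
        * CS E tl a (fun x => if x ∈ (∅ : Finset (Sym2 (Fin n))) then 0 else b x) v Finset.univ) :
    ¬ (∀ (n : ℕ) (G : SimpleGraph (Fin n)) (p : Sym2 (Fin n) → ℝ), (∀ x, 0 ≤ p x) →
      ∀ e ∈ G.edgeFinset, ∀ f ∈ G.edgeFinset, e ≠ f →
        (∑ E' ∈ G.edgeFinset.powerset.filter
            (fun E' => e ∈ E' ∧ f ∈ E' ∧
              (SimpleGraph.fromEdgeSet (E' : Set (Sym2 (Fin n)))).Connected),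
            ∏ x ∈ E', p x) *
        (∑ E' ∈ G.edgeFinset.powerset.filter
            (fun E' => (SimpleGraph.fromEdgeSet (E' : Set (Sym2 (Fin n)))).Connected),
            ∏ x ∈ E', p x)
        ≤
        (∑ E' ∈ G.edgeFinset.powerset.filter
            (fun E' => e ∈ E' ∧
              (SimpleGraph.fromEdgeSet (E' : Set (Sym2 (Fin n)))).Connected),
            ∏ x ∈ E', p x) *
        (∑ E' ∈ G.edgeFinset.powerset.filter
            (fun E' => f ∈ E' ∧
              (SimpleGraph.fromEdgeSet (E' : Set (Sym2 (Fin n)))).Connected),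
            ∏ x ∈ E', p x)) := by
  intro h
  have hG : @SimpleGraph.edgeFinset (Fin n) (SimpleGraph.fromEdgeSet (E : Set (Sym2 (Fin n))))
      (@SimpleGraph.fintypeEdgeSet (Fin n) _ _ fun a b => Classical.propDecidable _) = E := by
    ext x
    simp only [SimpleGraph.mem_edgeFinset, SimpleGraph.edgeSet_fromEdgeSet]
    simp only [Set.mem_sdiff, Finset.mem_coe]
    exact ⟨fun hx => hx.1, fun hx => ⟨hx, hE x hx⟩⟩
  have h1 := h n (SimpleGraph.fromEdgeSet (E : Set (Sym2 (Fin n))))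
    (fun x => (a x : ℝ) / b x) (fun x => by positivity) e (by rw [hG]; exact he) f
    (by rw [hG]; exact hf) hef
  rw [hG, sum_bind, sum_bind, sum_bind, sum_bind] at h1
  simp only [Finset.mem_coe] at h1
  have hB : 0 < ∏ x ∈ E, (b x : ℝ) := by
    refine Finset.prod_pos ?_
    intro x hx
    have := hb x hx
    positivity
  have s1 := sum_forced E tl a b v hb {e, f} (by
    intro x hx
    rcases Finset.mem_insert.1 hx with rfl | hx
    · exact he
    · rw [Finset.mem_singleton.1 hx]; exact hf)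
    (fun E' => e ∈ E' ∧ f ∈ E' ∧ (SimpleGraph.fromEdgeSet (E' : Set (Sym2 (Fin n)))).Connected)
    (by
      intro A
      simp only [Finset.insert_subset_iff, Finset.singleton_subset_iff, and_assoc])
  have s2 := sum_forced E tl a b v hb ∅ (Finset.empty_subset _)
    (fun E' => (SimpleGraph.fromEdgeSet (E' : Set (Sym2 (Fin n)))).Connected)
    (by intro A; simp)
  have s3 := sum_forced E tl a b v hb {e} (Finset.singleton_subset_iff.2 he)
    (fun E' => e ∈ E' ∧ (SimpleGraph.fromEdgeSet (E' : Set (Sym2 (Fin n)))).Connected)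
    (by intro A; simp only [Finset.singleton_subset_iff])
  have s4 := sum_forced E tl a b v hb {f} (Finset.singleton_subset_iff.2 hf)
    (fun E' => f ∈ E' ∧ (SimpleGraph.fromEdgeSet (E' : Set (Sym2 (Fin n)))).Connected)
    (by intro A; simp only [Finset.singleton_subset_iff])
  have t : ∀ (x1 x2 x3 x4 B y1 y2 y3 y4 : ℝ), x1 * x2 ≤ x3 * x4 → 0 < B → x1 * B = y1 →
      x2 * B = y2 → x3 * B = y3 → x4 * B = y4 → y1 * y2 ≤ y3 * y4 := by
    intro x1 x2 x3 x4 B y1 y2 y3 y4 h hB e1 e2 e3 e4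
    rw [← e1, ← e2, ← e3, ← e4, mul_mul_mul_comm, mul_mul_mul_comm x3]
    exact mul_le_mul_of_nonneg_right h (mul_nonneg hB.le hB.le)
  have h2 : ((CS E tl a (fun x => if x ∈ ({e, f} : Finset (Sym2 (Fin n))) then 0 else b x) v
        Finset.univ : ℕ) : ℝ)
        * ((CS E tl a (fun x => if x ∈ (∅ : Finset (Sym2 (Fin n))) then 0 else b x) v
          Finset.univ : ℕ) : ℝ)
      ≤ ((CS E tl a (fun x => if x ∈ ({e} : Finset (Sym2 (Fin n))) then 0 else b x) v
        Finset.univ : ℕ) : ℝ)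
        * ((CS E tl a (fun x => if x ∈ ({f} : Finset (Sym2 (Fin n))) then 0 else b x) v
          Finset.univ : ℕ) : ℝ) := by
    refine t _ _ _ _ _ _ _ _ _ h1 hB ?_ ?_ ?_ ?_
    · convert s1
    · convert s2
    · convert s3
    · convert s4
  exact absurd hlt (not_lt.2 (by exact_mod_cast h2))

end Pool.Agent.ECF
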