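import Pool.Agent.Work.MP_ec1f6a_co.MForest
import Pool.Agent.Work.MP_ec1f6a_co.FourThirds

/-!
Negative correlation of two edges with a common vertex, in the weighted forest measure of a
multigraph.
-/

set_option autoImplicit false

namespace Pool.Agent.Work.MP_ec1f6a_co

open Matrix SimpleGraph Finset
open scoped Classical

variable {V ι : Type*}

/-- weighted sum over the subsets of `S` with a property -/
noncomputable def mZ {R : Type*} [CommRing R] (w : ι → R) (S : Finset ι)
    (Q : Finset ι → Prop) : R :=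
  ∑ A ∈ S.powerset, if Q A then ∏ x ∈ A, w x else 0

theorem mZ_filter {R : Type*} [CommRing R] (w : ι → R) (S : Finset ι)
    (Q : Finset ι → Prop) [DecidablePred Q] :
    ∑ A ∈ S.powerset.filter Q, ∏ x ∈ A, w x = mZ w S Q := by
  rw [Finset.sum_filter, mZ]
  apply Finset.sum_congr rfl
  intro A _
  split_ifs <;> rfl

theorem mZ_split {R : Type*} [CommRing R] (w : ι → R) (S : Finset ι)
    (e f : ι) (he : e ∉ S) (hf : f ∉ S) (hef : e ≠ f) (Q : Finset ι → Prop) :
    mZ w (insert e (insert f S)) Q =
      mZ w S Q + w e * mZ w S (fun A => Q (insert e A)) + w f * mZ w S (fun A => Q (insert f A)) +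
      w e * w f * mZ w S (fun A => Q (insert e (insert f A))) := by
  have he' : e ∉ insert f S := by
    rw [Finset.mem_insert]; push Not; exact ⟨hef, he⟩
  simp only [mZ]
  rw [Finset.sum_powerset_insert he', Finset.sum_powerset_insert hf,
    Finset.sum_powerset_insert hf]
  simp only [Finset.mul_sum, ← Finset.sum_add_distrib]
  apply Finset.sum_congr rfl
  intro A hA
  have hA' := Finset.mem_powerset.1 hA
  have h1 : e ∉ A := fun h => he (hA' h)
  have h2 : f ∉ A := fun h => hf (hA' h)
  have h3 : e ∉ insert f A := by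
    rw [Finset.mem_insert]; push Not; exact ⟨hef, h1⟩
  rw [Finset.prod_insert h1, Finset.prod_insert h3, Finset.prod_insert h2]
  split_ifs <;> ring

theorem mZ_congr {R : Type*} [CommRing R] (w w' : ι → R) (S : Finset ι)
    (h : ∀ x ∈ S, w x = w' x) (Q : Finset ι → Prop) : mZ w S Q = mZ w' S Q := by
  apply Finset.sum_congr rfl
  intro A hA
  have hA' := Finset.mem_powerset.1 hA
  have : ∏ g ∈ A, w g = ∏ g ∈ A, w' g := Finset.prod_congr rfl (fun g hg => h g (hA' hg))
  rw [this]

theorem mZ_cast (p : ι → ℝ) (S : Finset ι) (Q : Finset ι → Prop) :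
    mZ (fun x => ((p x : ℝ) : ℂ)) S Q = ((mZ p S Q : ℝ) : ℂ) := by
  rw [mZ, mZ, Complex.ofReal_sum]
  apply Finset.sum_congr rfl
  intro A _
  split_ifs
  · rw [Complex.ofReal_prod]
  · simp

theorem mZ_zero {R : Type*} [CommRing R] (w : ι → R) (S : Finset ι)
    (Q : Finset ι → Prop) (h : ∀ A, A ⊆ S → ¬ Q A) : mZ w S Q = 0 := by
  apply Finset.sum_eq_zero
  intro A hA
  rw [if_neg (h A (Finset.mem_powerset.1 hA))]

variable [Fintype V]

theorem mT_congr (ends : ι → Sym2 V) (a : V) (w w' : ι → ℂ) (S : Finset ι)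
    (h : ∀ x ∈ S, w x = w' x) (N : Matrix V V ℂ) : mT ends a w S N = mT ends a w' S N := by
  apply Finset.sum_congr rfl
  intro A hA
  have hA' := Finset.mem_powerset.1 hA
  have : ∏ g ∈ A, w g = ∏ g ∈ A, w' g := Finset.prod_congr rfl (fun g hg => h g (hA' hg))
  rw [mterm, mterm, this]

theorem mT_Z (ends : ι → Sym2 V) (a : V) (w : ι → ℂ) (S : Finset ι) :
    mT ends a w S 0 = mZ w S (fun A => MF ends A) := by
  simp [mT, mterm, mZ]

theorem mT_continuous (ends : ι → Sym2 V) (a : V) (w : ι → ℂ) (S : Finset ι)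
    (N : ℝ → Matrix V V ℂ) (hN : Continuous N) : Continuous (fun ε => mT ends a w S (N ε)) := by
  unfold mT
  apply continuous_finsetSum
  intro A _
  unfold mterm
  split_ifs
  · exact continuous_const.mul ((continuous_const.add (hN.mul continuous_const)).matrix_det)
  · exact continuous_const

/-- the forest function with two free root edges -/
theorem mT_two (ends : ι → Sym2 V) (a b d : V) (hab : a ≠ b) (had : a ≠ d) (w : ι → ℂ)
    (S : Finset ι) (e f : ι) (hef : e ≠ f) (he : e ∉ S) (hf : f ∉ S) (hxe : ends e = s(a, b))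
    (hxf : ends f = s(a, d)) (s t : ℂ) :
    mT ends a w S (s • E b + t • E d) =
      mZ w S (fun A => MF ends A) +
      s * mZ w S (fun A => MF ends (insert e A)) +
      t * mZ w S (fun A => MF ends (insert f A)) +
      s * t * mZ w S (fun A => MF ends (insert e (insert f A))) := by
  obtain ⟨w', hw'⟩ : ∃ w' : ι → ℂ,
    w' = Function.update (Function.update w e s) f t := ⟨_, rfl⟩
  have hwe : w' e = s := by
    rw [hw', Function.update_of_ne hef, Function.update_self]
  have hwf : w' f = t := by
    rw [hw', Function.update_self]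
  have hwS : ∀ x ∈ S, w x = w' x := by
    intro x hx
    have h1 : x ≠ e := fun h => he (h ▸ hx)
    have h2 : x ≠ f := fun h => hf (h ▸ hx)
    rw [hw', Function.update_of_ne h2, Function.update_of_ne h1]
  have hbd' : e ∉ insert f S := by
    rw [Finset.mem_insert]; push Not; exact ⟨hef, he⟩
  have h1 := mT_star ends a w' (insert f S) 0 e b hxe hab hbd'
  have h2 := mT_star ends a w' S (0 + w' e • vecMulVec (Pi.single b 1) (Pi.single b 1)) f d hxf
    had hf
  rw [h2, mT_Z, hwe, hwf, zero_add, mZ_split w' S _ _ he hf hef, hwe, hwf,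
    ← mZ_congr w w' S hwS, ← mZ_congr w w' S hwS, ← mZ_congr w w' S hwS, ← mZ_congr w w' S hwS,
    ← mT_congr ends a w w' S hwS] at h1
  exact h1.symm

/-- the core inequality -/
theorem mcore (ends : ι → Sym2 V) (a b d : V) (hab : a ≠ b) (had : a ≠ d) (p : ι → ℝ)
    (S : Finset ι) (e f : ι) (hef : e ≠ f) (he : e ∉ S) (hf : f ∉ S) (hxe : ends e = s(a, b))
    (hxf : ends f = s(a, d)) (hp : ∀ g ∈ S, 0 ≤ p g) :
    mZ p S (fun A => MF ends A) *
      mZ p S (fun A => MF ends (insert e (insert f A))) ≤
      mZ p S (fun A => MF ends (insert e A)) *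
      mZ p S (fun A => MF ends (insert f A)) := by
  by_cases hbd : b = d
  · have : mZ p S (fun A => MF ends (insert e (insert f A))) = 0 := by
      apply mZ_zero
      rintro A _ ⟨h1, _, _⟩
      have := h1 (Finset.mem_coe.2 (Finset.mem_insert_self e (insert f A)))
        (Finset.mem_coe.2 (Finset.mem_insert_of_mem (Finset.mem_insert_self f A)))
        (by rw [hxe, hxf, hbd])
      exact hef this
    rw [this, mul_zero]
    apply mul_nonneg
    · apply Finset.sum_nonneg
      intro A hA
      split_ifs
      · exact Finset.prod_nonneg (fun g hg => hp g (Finset.mem_powerset.1 hA hg))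
      · exact le_refl _
    · apply Finset.sum_nonneg
      intro A hA
      split_ifs
      · exact Finset.prod_nonneg (fun g hg => hp g (Finset.mem_powerset.1 hA hg))
      · exact le_refl _
  obtain ⟨w, hw⟩ : ∃ w : ι → ℂ, w = fun x => ((p x : ℝ) : ℂ) := ⟨_, rfl⟩
  have hF := mT_two ends a b d hab had w S e f hef he hf hxe hxf
  rw [hw] at hF
  simp only [mZ_cast] at hF
  rw [← hw] at hF
  obtain ⟨a0, ha0⟩ : ∃ x : ℝ, x = mZ p S (fun A => MF ends A) := ⟨_, rfl⟩
  obtain ⟨a1, ha1⟩ : ∃ x : ℝ, x = mZ p S (fun A => MF ends (insert e A)) := ⟨_, rfl⟩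
  obtain ⟨a2, ha2⟩ : ∃ x : ℝ, x = mZ p S (fun A => MF ends (insert f A)) := ⟨_, rfl⟩
  obtain ⟨a3, ha3⟩ : ∃ x : ℝ, x = mZ p S
    (fun A => MF ends (insert e (insert f A))) := ⟨_, rfl⟩
  rw [← ha0, ← ha1, ← ha2, ← ha3]
  simp only [← ha0, ← ha1, ← ha2, ← ha3] at hF
  -- the perturbed function
  obtain ⟨z, hz⟩ : ∃ z : ℝ → ℂ → V → ℂ, z = fun (ε : ℝ) (t : ℂ) =>
    Function.update (Function.update (fun _ => (ε : ℂ) * Complex.I) b Complex.I) d t := ⟨_, rfl⟩
  obtain ⟨G, hG⟩ : ∃ G : ℝ → ℂ → ℂ, G = fun ε t => mT ends a w S (diagonal (z ε t)) := ⟨_, rfl⟩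
  have hcont : ∀ t, Continuous (fun ε => G ε t) := by
    intro t
    rw [hG]
    apply mT_continuous
    apply Continuous.matrix_diagonal
    rw [hz]
    apply continuous_pi
    intro k
    by_cases hkd : k = d
    · subst hkd
      simp only [Function.update_self]
      exact continuous_const
    · simp only [Function.update_of_ne hkd]
      by_cases hkb : k = b
      · subst hkb
        simp only [Function.update_self]
        exact continuous_const
      · simp only [Function.update_of_ne hkb]
        exact (Complex.continuous_ofReal).mul continuous_const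
  have haff : ∀ ε t, G ε t = G ε 0 + t * (G ε 1 - G ε 0) := by
    intro ε t
    have h1 : ∀ t, diagonal (z ε t) = diagonal (z ε 0) + t • E d := by
      intro t
      rw [hz]
      exact diag_update _ d t
    rw [hG]
    simp only
    rw [h1 t, h1 1, one_smul]
    exact mT_affine ends a w S (diagonal (z ε 0)) (Pi.single d 1) (Pi.single d 1) t
  have hzero : ∀ t, G 0 t = a0 + Complex.I * a1 + t * a2 + Complex.I * t * a3 := by
    intro t
    rw [← hF, hG]
    simp only
    congr 1
    rw [hz]
    ext k l
    rw [Matrix.add_apply, Matrix.smul_apply, Matrix.smul_apply, E, E, vecMulVec_apply,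
      vecMulVec_apply, diagonal_apply]
    by_cases hkl : k = l
    · subst hkl
      by_cases hkd : k = d
      · subst hkd; simp [Ne.symm hbd]
      · by_cases hkb : k = b
        · subst hkb; simp [hkd]
        · simp [hkd, hkb]
    · by_cases hkd : k = d
      · subst hkd; simp [hkl, Ne.symm hkl, Ne.symm hbd]
      · by_cases hkb : k = b
        · subst hkb; simp [hkl, Ne.symm hkl, hkd]
        · simp [hkd, hkb, hkl]
  have hne : ∀ ε : ℝ, 0 < ε → ∀ t : ℂ, 0 < t.im → G ε t ≠ 0 := by
    intro ε hε t ht
    rw [hG]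
    simp only
    have := mstable ends a w S (fun g hg hag => ⟨p g, hp g hg, by rw [hw]⟩)
      (fun g _ _ => by rw [hw]; simp) 0 isHermitian_zero (z ε t) (by
        intro k
        rw [hz]
        simp only
        by_cases hkd : k = d
        · subst hkd; simpa using ht
        · rw [Function.update_of_ne hkd]
          by_cases hkb : k = b
          · subst hkb; simp
          · rw [Function.update_of_ne hkb]; simpa using hε)
    rwa [zero_add] at this
  exact limit_rayleigh a0 a1 a2 a3 G hcont haff hzero hne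

end Pool.Agent.Work.MP_ec1f6a_co
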