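import Pool.Agent.Work.MP_ec1f6a_co.Adjacent

/-!
The forest function with a root for multigraphs (edges indexed by a type, loops and parallel
edges allowed).
-/

set_option autoImplicit false

namespace Pool.Agent.Work.MP_ec1f6a_co

open Matrix SimpleGraph Finset
open scoped Classical

variable {V ι : Type*}

/-- the simple graph on the endpoints of a set of edges -/
noncomputable def mgr (ends : ι → Sym2 V) (A : Finset ι) : SimpleGraph V :=
  fromEdgeSet (ends '' (A : Set ι))

/-- the edge set has no cycle (in particular no loop and no two parallel edges) -/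
def MF (ends : ι → Sym2 V) (A : Finset ι) : Prop :=
  Set.InjOn ends (A : Set ι) ∧ (∀ x ∈ A, ¬ (ends x).IsDiag) ∧ (mgr ends A).IsAcyclic

theorem mgr_insert (ends : ι → Sym2 V) (A : Finset ι) (x : ι) (i j : V) (hx : ends x = s(i, j)) :
    mgr ends (insert x A) = mgr ends A ⊔ edge i j := by
  rw [mgr, mgr, edge, ← fromEdgeSet_union, Finset.coe_insert, Set.image_insert_eq, hx,
    Set.insert_eq, Set.union_comm]

theorem MF_insert (ends : ι → Sym2 V) (A : Finset ι) (x : ι) (i j : V) (hx : ends x = s(i, j))
    (hA : x ∉ A) : MF ends (insert x A) ↔ MF ends A ∧ ¬ (mgr ends A).Reachable i j := by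
  constructor
  · rintro ⟨h1, h2, h3⟩
    have hij : i ≠ j := by
      have := h2 x (Finset.mem_insert_self _ _)
      rw [hx] at this
      simpa using this
    have h1' : Set.InjOn ends (A : Set ι) :=
      h1.mono (by rw [Finset.coe_insert]; exact Set.subset_insert _ _)
    have hnm : s(i, j) ∉ ends '' (A : Set ι) := by
      rintro ⟨y, hy, hyx⟩
      have := h1 (Finset.mem_coe.2 (Finset.mem_insert_of_mem hy))
        (Finset.mem_coe.2 (Finset.mem_insert_self x A)) (by rw [hyx, hx])
      rw [this] at hy
      exact hA hy
    rw [mgr_insert ends A x i j hx, isAcyclic_sup_fromEdgeSet_iff] at h3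
    have hadj : ¬ (mgr ends A).Adj i j := by
      rw [mgr, fromEdgeSet_adj]
      exact fun h => hnm h.1
    refine ⟨⟨h1', fun y hy => h2 y (Finset.mem_insert_of_mem hy), h3.1⟩, fun h => ?_⟩
    rcases h3.2 h with h | h
    · exact hij h
    · exact hadj h
  · rintro ⟨⟨h1, h2, h3⟩, h4⟩
    have hij : i ≠ j := fun h => h4 (h ▸ Reachable.refl _)
    have hnm : s(i, j) ∉ ends '' (A : Set ι) := by
      intro h
      apply h4
      apply Adj.reachable
      rw [mgr, fromEdgeSet_adj]
      exact ⟨h, hij⟩
    refine ⟨?_, ?_, ?_⟩
    · rw [Finset.coe_insert]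
      apply (Set.injOn_insert (by simpa using hA)).2
      refine ⟨h1, ?_⟩
      rw [hx]
      exact hnm
    · intro y hy
      rcases Finset.mem_insert.1 hy with rfl | hy
      · rw [hx]; simpa using hij
      · exact h2 y hy
    · rw [mgr_insert ends A x i j hx, isAcyclic_sup_fromEdgeSet_iff]
      exact ⟨h3, fun h => absurd h h4⟩

variable [Fintype V]

/-- summand of the rooted forest function -/
noncomputable def mterm (ends : ι → Sym2 V) (a : V) (w : ι → ℂ) (N : Matrix V V ℂ)
    (A : Finset ι) : ℂ :=
  if MF ends A then (∏ g ∈ A, w g) * (1 + N * Jm a (mgr ends A)).det else 0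

/-- the rooted forest function -/
noncomputable def mT (ends : ι → Sym2 V) (a : V) (w : ι → ℂ) (S : Finset ι)
    (N : Matrix V V ℂ) : ℂ :=
  ∑ A ∈ S.powerset, mterm ends a w N A

theorem mterm_rec (ends : ι → Sym2 V) (a : V) (w : ι → ℂ) (N : Matrix V V ℂ) (A : Finset ι)
    (x : ι) (i j : V) (hx : ends x = s(i, j))
    (hij : i ≠ j) (hA : x ∉ A) (c : ℂ) (hc : c ^ 2 = w x) :
    2 * (mterm ends a w N A + mterm ends a w N (insert x A)) =
      mterm ends a w (N + B i j (w x) c) A + mterm ends a w (N + B i j (w x) (-c)) A := by
  simp only [mterm]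
  by_cases hac : MF ends A
  · rw [if_pos hac, if_pos hac, if_pos hac]
    by_cases hr : (mgr ends A).Reachable i j
    · rw [if_neg (by rw [MF_insert ends A x i j hx hA]; tauto), add_zero]
      have := claim_same N (Jm a (mgr ends A)) i j (Jm_symm a _) (Jm_same a _ i j hr) (w x) c
      linear_combination (-(∏ g ∈ A, w g)) * this
    · rw [if_pos (by rw [MF_insert ends A x i j hx hA]; exact ⟨hac, hr⟩), Finset.prod_insert hA,
        mgr_insert ends A x i j hx]
      by_cases hi : (mgr ends A).Reachable i a
      · have hj : ¬ (mgr ends A).Reachable j a := fun h => hr (hi.trans h.symm)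
        have hB : ∀ c, B i j (w x) c = B j i (w x) (-c) := by
          intro c
          ext k l
          simp only [B, Matrix.add_apply, vecMulVec_apply, Pi.sub_apply, Pi.smul_apply,
            Pi.add_apply, Pi.neg_apply, smul_eq_mul]
          ring
        rw [hB c, hB (-c), edge_comm, Jm_merge_root a _ j i hj hi]
        have := claim_root N (Jm a (mgr ends A)) j i (Ne.symm hij) (Jm_symm a _) (Jm_self a _ j hj)
          (fun k => Jm_root a _ k i hi) (w x) (-c)
        linear_combination (-(∏ g ∈ A, w g)) * this
      · by_cases hj : (mgr ends A).Reachable j a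
        · rw [Jm_merge_root a _ i j hi hj]
          have := claim_root N (Jm a (mgr ends A)) i j hij (Jm_symm a _) (Jm_self a _ i hi)
            (fun k => Jm_root a _ k j hj) (w x) c
          linear_combination (-(∏ g ∈ A, w g)) * this
        · rw [Jm_merge a _ i j hr hi hj]
          have := claim_merge N (Jm a (mgr ends A)) i j hij (Jm_symm a _) (Jm_self a _ i hi)
            (Jm_self a _ j hj) (Jm_eq_zero a _ i j hr) (w x) c hc
          linear_combination (-(∏ g ∈ A, w g)) * this
  · rw [if_neg hac, if_neg hac, if_neg hac, if_neg (by rw [MF_insert ends A x i j hx hA]; tauto)]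
    ring

theorem mterm_star (ends : ι → Sym2 V) (a : V) (w : ι → ℂ) (N : Matrix V V ℂ) (A : Finset ι)
    (x : ι) (j : V) (hx : ends x = s(a, j)) (haj : a ≠ j) (hA : x ∉ A) :
    mterm ends a w N A + mterm ends a w N (insert x A) =
      mterm ends a w (N + w x • vecMulVec (Pi.single j 1) (Pi.single j 1)) A := by
  simp only [mterm]
  by_cases hac : MF ends A
  · rw [if_pos hac, if_pos hac]
    by_cases hr : (mgr ends A).Reachable a j
    · rw [if_neg (by rw [MF_insert ends A x a j hx hA]; tauto), add_zero,
        claim_star_zero N (Jm a (mgr ends A)) j (Jm_symm a _) (fun k => Jm_root a _ k j hr.symm)]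
    · have hj : ¬ (mgr ends A).Reachable j a := fun h => hr h.symm
      rw [if_pos (by rw [MF_insert ends A x a j hx hA]; exact ⟨hac, hr⟩), Finset.prod_insert hA,
        mgr_insert ends A x a j hx, claim_star N (Jm a (mgr ends A)) j (Jm_symm a _)
        (Jm_self a _ j hj), edge_comm, Jm_merge_root a _ j a hj (Reachable.refl _)]
      ring
  · rw [if_neg hac, if_neg hac, if_neg (by rw [MF_insert ends A x a j hx hA]; tauto)]
    ring

theorem mT_rec (ends : ι → Sym2 V) (a : V) (w : ι → ℂ) (S : Finset ι) (N : Matrix V V ℂ)
    (x : ι) (i j : V) (hx : ends x = s(i, j))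
    (hij : i ≠ j) (hS : x ∉ S) (c : ℂ) (hc : c ^ 2 = w x) :
    2 * mT ends a w (insert x S) N =
      mT ends a w S (N + B i j (w x) c) + mT ends a w S (N + B i j (w x) (-c)) := by
  rw [mT, Finset.sum_powerset_insert hS, mT, mT, ← Finset.sum_add_distrib,
    ← Finset.sum_add_distrib, Finset.mul_sum]
  apply Finset.sum_congr rfl
  intro A hA
  exact mterm_rec ends a w N A x i j hx hij (fun h => hS (Finset.mem_powerset.1 hA h)) c hc

theorem mT_star (ends : ι → Sym2 V) (a : V) (w : ι → ℂ) (S : Finset ι) (N : Matrix V V ℂ)
    (x : ι) (j : V) (hx : ends x = s(a, j)) (haj : a ≠ j) (hS : x ∉ S) :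
    mT ends a w (insert x S) N =
      mT ends a w S (N + w x • vecMulVec (Pi.single j 1) (Pi.single j 1)) := by
  rw [mT, Finset.sum_powerset_insert hS, mT, ← Finset.sum_add_distrib]
  apply Finset.sum_congr rfl
  intro A hA
  exact mterm_star ends a w N A x j hx haj (fun h => hS (Finset.mem_powerset.1 hA h))

theorem mT_loop (ends : ι → Sym2 V) (a : V) (w : ι → ℂ) (S : Finset ι) (N : Matrix V V ℂ)
    (x : ι) (hx : (ends x).IsDiag) (hS : x ∉ S) :
    mT ends a w (insert x S) N = mT ends a w S N := by
  rw [mT, Finset.sum_powerset_insert hS, mT]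
  have : ∑ A ∈ S.powerset, mterm ends a w N (insert x A) = 0 := by
    apply Finset.sum_eq_zero
    intro A _
    rw [mterm, if_neg]
    rintro ⟨_, h, _⟩
    exact h x (Finset.mem_insert_self _ _) hx
  rw [this, add_zero]

theorem mT_affine (ends : ι → Sym2 V) (a : V) (w : ι → ℂ) (S : Finset ι) (N : Matrix V V ℂ)
    (p q : V → ℂ) (t : ℂ) :
    mT ends a w S (N + t • vecMulVec p q) =
      mT ends a w S N + t * (mT ends a w S (N + vecMulVec p q) - mT ends a w S N) := by
  simp only [mT, ← Finset.sum_sub_distrib, Finset.mul_sum, ← Finset.sum_add_distrib]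
  apply Finset.sum_congr rfl
  intro A _
  simp only [mterm]
  split_ifs
  · have := det_affine (1 + N * Jm a (mgr ends A)) p (q ᵥ* Jm a (mgr ends A)) t
    have h1 : (1 : Matrix V V ℂ) + (N + t • vecMulVec p q) * Jm a (mgr ends A) =
        1 + N * Jm a (mgr ends A) + t • vecMulVec p (q ᵥ* Jm a (mgr ends A)) := by
      rw [add_mul, smul_mul_assoc, vecMulVec_mul, add_assoc]
    have h2 : (1 : Matrix V V ℂ) + (N + vecMulVec p q) * Jm a (mgr ends A) =
        1 + N * Jm a (mgr ends A) + vecMulVec p (q ᵥ* Jm a (mgr ends A)) := by
      rw [add_mul, vecMulVec_mul, add_assoc]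
    rw [h1, h2, this]
    ring
  · ring

theorem mT_biaffine (ends : ι → Sym2 V) (a : V) (w : ι → ℂ) (S : Finset ι) (N : Matrix V V ℂ)
    (i j : V) :
    ∃ α β γ δ : ℂ, ∀ s t : ℂ,
      mT ends a w S (N + s • E i + t • E j) = α + β * s + γ * t + δ * (s * t) := by
  refine ⟨mT ends a w S N, mT ends a w S (N + E i) - mT ends a w S N,
    mT ends a w S (N + E j) - mT ends a w S N,
    mT ends a w S (N + E j + E i) - mT ends a w S (N + E i) - mT ends a w S (N + E j) +
      mT ends a w S N, ?_⟩
  intro s t
  have h1 := mT_affine ends a w S (N + s • E i) (Pi.single j 1) (Pi.single j 1) t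
  have h2 := mT_affine ends a w S N (Pi.single i 1) (Pi.single i 1) s
  have h3 := mT_affine ends a w S (N + E j) (Pi.single i 1) (Pi.single i 1) s
  change mT ends a w S (N + s • E i + t • E j) =
    _ + t * (mT ends a w S (N + s • E i + E j) - _) at h1
  change mT ends a w S (N + s • E i) = _ + s * (mT ends a w S (N + E i) - _) at h2
  change mT ends a w S (N + E j + s • E i) = _ + s * (mT ends a w S (N + E j + E i) - _) at h3
  have e1 : N + s • E i + E j = N + E j + s • E i := by abel
  rw [h1, e1, h3, h2]
  ring

theorem mstable (ends : ι → Sym2 V) (a : V) (w : ι → ℂ) (S : Finset ι) :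
    (∀ g ∈ S, a ∉ ends g → ∃ r : ℝ, 0 ≤ r ∧ w g = r) →
    (∀ g ∈ S, a ∈ ends g → 0 ≤ (w g).im) →
    ∀ (X : Matrix V V ℂ), X.IsHermitian → ∀ z : V → ℂ, (∀ k, 0 < (z k).im) →
    mT ends a w S (X + diagonal z) ≠ 0 := by
  induction S using Finset.induction_on with
  | empty =>
    intro _ _ X hX z hz
    have h1 : mgr ends (∅ : Finset ι) = ⊥ := by simp [mgr]
    have h0 : MF ends (∅ : Finset ι) := by
      refine ⟨by simp, by simp, ?_⟩
      rw [h1]; exact isAcyclic_bot
    have h2 : mT ends a w ∅ (X + diagonal z) = (1 + (X + diagonal z) * Jm a ⊥).det := by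
      rw [mT, Finset.powerset_empty, Finset.sum_singleton, mterm, h1,
        if_pos h0, Finset.prod_empty, one_mul]
    rw [h2, Jm_bot]
    apply base_det_ne_zero _ _ X hX z hz
    intro k
    by_cases hk : k = a
    · left; simp [hk]
    · right; simp [hk]
  | @insert g S hg ih =>
    intro hpos hroot X hX z hz
    have ih' := ih (fun g hg => hpos g (Finset.mem_insert_of_mem hg))
      (fun g hg => hroot g (Finset.mem_insert_of_mem hg))
    by_cases hd : (ends g).IsDiag
    · rw [mT_loop ends a w S _ g hd hg]
      exact ih' X hX z hz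
    by_cases hag : a ∈ ends g
    · obtain ⟨j, hj⟩ := hag
      have haj : a ≠ j := by
        rw [hj] at hd
        simpa using hd
      have him := hroot _ (Finset.mem_insert_self _ _) (by rw [hj]; exact Sym2.mem_mk_left a j)
      rw [mT_star ends a w S _ g j hj haj hg]
      have e : X + diagonal z + w g • vecMulVec (Pi.single j 1) (Pi.single j 1) =
          X + diagonal (Function.update z j (z j + w g)) := by
        rw [add_assoc]
        congr 1
        ext k l
        rw [Matrix.add_apply, Matrix.smul_apply, vecMulVec_apply, diagonal_apply, diagonal_apply]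
        by_cases hkl : k = l
        · subst hkl
          by_cases hkj : k = j
          · subst hkj
            simp
          · simp [hkj]
        · by_cases hkj : k = j
          · subst hkj
            simp [hkl, Ne.symm hkl]
          · simp [hkj, hkl]
      rw [e]
      apply ih' X hX
      intro k
      by_cases hkj : k = j
      · subst hkj
        rw [Function.update_self, Complex.add_im]
        have := hz k
        linarith
      · rw [Function.update_of_ne hkj]
        exact hz k
    · obtain ⟨i, j, hx⟩ : ∃ i j : V, ends g = s(i, j) := by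
        induction h : ends g with
        | _ i j => exact ⟨i, j, rfl⟩
      have hij : i ≠ j := by
        rw [hx] at hd
        simpa using hd
      obtain ⟨r, hr, hwr⟩ := hpos _ (Finset.mem_insert_self _ _) hag
      have hc : ((Real.sqrt r : ℝ) : ℂ) ^ 2 = w g := by
        rw [hwr, ← Complex.ofReal_pow, Real.sq_sqrt hr]
      have hrec := mT_rec ends a w S (X + diagonal z) g i j hx hij hg _ hc
      obtain ⟨c, hcdef⟩ : ∃ c : ℂ, c = ((Real.sqrt r : ℝ) : ℂ) := ⟨_, rfl⟩
      rw [← hcdef] at hc hrec
      have hY : (X + B i j (w g) 0).IsHermitian := by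
        apply IsHermitian.add hX
        rw [hwr]
        ext k l
        rw [conjTranspose_apply]
        simp only [B, Matrix.add_apply, vecMulVec_apply, Pi.sub_apply, Pi.smul_apply,
          Pi.add_apply, Pi.neg_apply, smul_eq_mul, add_zero, sub_zero]
        simp only [Pi.single_apply]
        split_ifs <;> simp
      obtain ⟨z0, hz0⟩ : ∃ z0 : V → ℂ, z0 = Function.update (Function.update z i 0) j 0 :=
        ⟨_, rfl⟩
      obtain ⟨α, β, γ, δ, hF⟩ := mT_biaffine ends a w S (X + B i j (w g) 0 + diagonal z0) i j
      have hdec : ∀ s t : ℂ, X + B i j (w g) 0 + diagonal z0 + s • E i + t • E j =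
          X + B i j (w g) 0 + diagonal (Function.update (Function.update z i s) j t) := by
        intro s t
        rw [add_assoc, add_assoc, hz0]
        congr 1
        ext k l
        rw [Matrix.add_apply, Matrix.add_apply, Matrix.smul_apply, Matrix.smul_apply, E, E,
          vecMulVec_apply, vecMulVec_apply, diagonal_apply, diagonal_apply]
        by_cases hkl : k = l
        · subst hkl
          by_cases hkj : k = j
          · subst hkj
            simp [Ne.symm hij]
          · by_cases hki : k = i
            · subst hki
              simp [hkj]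
            · simp [hkj, hki]
        · by_cases hkj : k = j
          · subst hkj
            simp [hkl, Ne.symm hkl, Ne.symm hij]
          · by_cases hki : k = i
            · subst hki
              simp [hkl, hkj, Ne.symm hkl]
            · simp [hkj, hki, hkl]
      have hFne : ∀ s t : ℂ, 0 < s.im → 0 < t.im → α + β * s + γ * t + δ * (s * t) ≠ 0 := by
        intro s t hs ht
        rw [← hF, hdec]
        apply ih' _ hY
        intro k
        by_cases hkj : k = j
        · subst hkj; simpa using ht
        · rw [Function.update_of_ne hkj]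
          by_cases hki : k = i
          · subst hki; simpa using hs
          · rw [Function.update_of_ne hki]; exact hz k
      have hB : ∀ c : ℂ, X + diagonal z + B i j (w g) c =
          X + B i j (w g) 0 + diagonal z0 + (z i + c) • E i + (z j - c) • E j := by
        intro c
        have h1 : B i j (w g) c = B i j (w g) 0 + c • E i - c • E j := by
          rw [B, B, E, E]
          ext k l
          simp only [Matrix.add_apply, Matrix.sub_apply, Matrix.smul_apply, vecMulVec_apply,
            Pi.sub_apply, Pi.smul_apply, Pi.add_apply, Pi.neg_apply, smul_eq_mul]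
          ring
        have h2 : diagonal z = diagonal z0 + z i • E i + z j • E j := by
          have := hdec (z i) (z j)
          rw [Function.update_eq_self, Function.update_eq_self] at this
          have h3 := add_left_cancel (a := X + B i j (w g) 0)
            (b := diagonal z0 + z i • E i + z j • E j) (c := diagonal z) (by
              rw [← this]; abel)
          exact h3.symm
        rw [h1, h2, add_smul, sub_smul]
        abel
      rw [hB, hB, hF, hF] at hrec
      have key := biaffine_shift α β γ δ hFne r hr (z i) (z j) (hz i) (hz j)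
      intro h0
      apply key
      rw [h0] at hrec
      rw [hwr] at hc
      linear_combination (-(1 : ℂ) / 2) * hrec + δ * hc

end Pool.Agent.Work.MP_ec1f6a_co
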