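import Pool.Agent.Work.MP_ec1f6a_co.Adjacent

/-!
Forest sums of lists of weighted edges by deletion and contraction.
-/

set_option autoImplicit false
set_option linter.unusedSectionVars false

namespace Pool.Agent.Work.MP_ec1f6a_co

open Finset
open scoped Classical

section FS

variable {V : Type*} {R : Type*} [CommRing R]

/-- merge the class of `j` into the class of `i` -/
noncomputable def mrg (c : V → V) (i j : V) : V → V := fun v => if c v = c j then c i else c v

/-- forest sum of a list of weighted edges, vertices with equal labels being identified -/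
noncomputable def FS : List (V × V × R) → (V → V) → R
  | [], _ => 1
  | (i, j, w) :: l, c => FS l c + if c i = c j then 0 else w * FS l (mrg c i j)

theorem FS_nil (c : V → V) : FS ([] : List (V × V × R)) c = 1 := rfl

theorem FS_cons (i j : V) (w : R) (l : List (V × V × R)) (c : V → V) :
    FS ((i, j, w) :: l) c = FS l c + if c i = c j then 0 else w * FS l (mrg c i j) := rfl

theorem mrg_eq_iff (c : V → V) (i j v w : V) :
    mrg c i j v = mrg c i j w ↔
      c v = c w ∨ ((c v = c i ∨ c v = c j) ∧ (c w = c i ∨ c w = c j)) := by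
  unfold mrg
  split_ifs with h1 h2 h2 <;> grind

/-- `v` occurs in the list -/
def Occ (l : List (V × V × R)) (v : V) : Prop := ∃ e ∈ l, v = e.1 ∨ v = e.2.1

theorem Occ_cons (i j : V) (w : R) (l : List (V × V × R)) (v : V) :
    Occ ((i, j, w) :: l) v ↔ (v = i ∨ v = j) ∨ Occ l v := by
  simp [Occ]

theorem Occ_append (l l' : List (V × V × R)) (v : V) :
    Occ (l ++ l') v ↔ Occ l v ∨ Occ l' v := by
  simp only [Occ, List.mem_append]
  constructor
  · rintro ⟨e, h | h, h'⟩
    · exact Or.inl ⟨e, h, h'⟩
    · exact Or.inr ⟨e, h, h'⟩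
  · rintro (⟨e, h, h'⟩ | ⟨e, h, h'⟩)
    · exact ⟨e, Or.inl h, h'⟩
    · exact ⟨e, Or.inr h, h'⟩

theorem FS_congr_on (l : List (V × V × R)) (c c' : V → V)
    (h : ∀ v w, Occ l v → Occ l w → (c v = c w ↔ c' v = c' w)) : FS l c = FS l c' := by
  induction l generalizing c c' with
  | nil => rfl
  | cons e l ih =>
    obtain ⟨i, j, w⟩ := e
    have hi : Occ ((i, j, w) :: l) i := by rw [Occ_cons]; simp
    have hj : Occ ((i, j, w) :: l) j := by rw [Occ_cons]; simp
    have hl : ∀ v, Occ l v → Occ ((i, j, w) :: l) v := by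
      intro v hv; rw [Occ_cons]; exact Or.inr hv
    rw [FS_cons, FS_cons, ih c c' (fun v w hv hw => h v w (hl v hv) (hl w hw)),
      ih (mrg c i j) (mrg c' i j) (by
        intro v w hv hw
        rw [mrg_eq_iff, mrg_eq_iff, h v w (hl v hv) (hl w hw), h v i (hl v hv) hi,
          h v j (hl v hv) hj, h w i (hl w hw) hi, h w j (hl w hw) hj])]
    simp only [h i j hi hj]

theorem FS_congr (l : List (V × V × R)) (c c' : V → V)
    (h : ∀ v w, (c v = c w ↔ c' v = c' w)) : FS l c = FS l c' :=
  FS_congr_on l c c' (fun v w _ _ => h v w)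

theorem mrg_mrg (c : V → V) (i j k m v w : V) :
    mrg (mrg c i j) k m v = mrg (mrg c i j) k m w ↔
      mrg (mrg c k m) i j v = mrg (mrg c k m) i j w := by
  rw [mrg_eq_iff, mrg_eq_iff (mrg c k m)]
  simp only [mrg_eq_iff]
  grind (splits := 60)

theorem FS_swap (e f : V × V × R) (l : List (V × V × R)) (c : V → V) :
    FS (e :: f :: l) c = FS (f :: e :: l) c := by
  obtain ⟨i, j, w⟩ := e
  obtain ⟨k, m, w'⟩ := f
  simp only [FS_cons]
  rw [FS_congr l _ _ (mrg_mrg c i j k m)]
  have h1 := mrg_eq_iff c i j k m
  have h2 := mrg_eq_iff c k m i j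
  by_cases hij : c i = c j
  · by_cases hkm : c k = c m
    · simp [hij, hkm]
    · have : mrg c k m i = mrg c k m j := by rw [h2]; exact Or.inl hij
      simp only [hij, hkm, this, if_true, if_false]
      ring
  · by_cases hkm : c k = c m
    · have : mrg c i j k = mrg c i j m := by rw [h1]; exact Or.inl hkm
      simp only [hij, hkm, this, if_true, if_false]
      ring
    · have : mrg c i j k = mrg c i j m ↔ mrg c k m i = mrg c k m j := by
        rw [h1, h2]; grind
      simp only [hij, hkm, this, if_false]
      split_ifs <;> ring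

theorem FS_perm {l l' : List (V × V × R)} (h : l.Perm l') (c : V → V) : FS l c = FS l' c := by
  induction h generalizing c with
  | nil => rfl
  | cons e _ ih =>
    obtain ⟨i, j, w⟩ := e
    rw [FS_cons, FS_cons, ih, ih]
  | swap e f l => exact FS_swap f e l c
  | trans _ _ ih1 ih2 => rw [ih1, ih2]

theorem FS_append_comm (l l' : List (V × V × R)) (c : V → V) : FS (l ++ l') c = FS (l' ++ l) c :=
  FS_perm List.perm_append_comm c

theorem FS_par (i j : V) (w w' : R) (l : List (V × V × R)) (c : V → V) :
    FS ((i, j, w) :: (i, j, w') :: l) c = FS ((i, j, w + w') :: l) c := by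
  simp only [FS_cons]
  by_cases hij : c i = c j
  · simp [hij]
  · have : mrg c i j i = mrg c i j j := by
      rw [mrg_eq_iff]; right; simp
    simp only [hij, this, if_true, if_false]
    ring

theorem FS_zero (i j : V) (l : List (V × V × R)) (c : V → V) :
    FS ((i, j, 0) :: l) c = FS l c := by
  rw [FS_cons]; simp

theorem FS_loop (i j : V) (w : R) (l : List (V × V × R)) (c : V → V) (h : c i = c j) :
    FS ((i, j, w) :: l) c = FS l c := by
  rw [FS_cons]; simp [h]

/-- relabelling of the endpoints inside the classes -/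
theorem FS_map (ρ : V → V) (l : List (V × V × R)) (c : V → V) (h : ∀ v, c (ρ v) = c v) :
    FS (l.map (fun e => (ρ e.1, ρ e.2.1, e.2.2))) c = FS l c := by
  induction l generalizing c with
  | nil => rfl
  | cons e l ih =>
    obtain ⟨i, j, w⟩ := e
    rw [List.map_cons, FS_cons, FS_cons, ih c h]
    have h1 : mrg c (ρ i) (ρ j) = mrg c i j := by
      unfold mrg; simp only [h]
    rw [h1, ih (mrg c i j) (by intro v; unfold mrg; rw [h v])]
    simp only [h]

theorem FS_addW {ι : Type*} (L : List ι) (i j : ι → V) (f g : ι → R) (l : List (V × V × R))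
    (c : V → V) :
    FS (L.map (fun q => (i q, j q, f q)) ++ (L.map (fun q => (i q, j q, g q)) ++ l)) c =
      FS (L.map (fun q => (i q, j q, f q + g q)) ++ l) c := by
  induction L generalizing c with
  | nil => rfl
  | cons q L ih =>
    simp only [List.map_cons, List.cons_append]
    have hp : ((i q, j q, f q) :: (L.map (fun q => (i q, j q, f q)) ++
        ((i q, j q, g q) :: (L.map (fun q => (i q, j q, g q)) ++ l)))).Perm
        ((i q, j q, f q) :: (i q, j q, g q) :: (L.map (fun q => (i q, j q, f q)) ++
        (L.map (fun q => (i q, j q, g q)) ++ l))) :=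
      List.Perm.cons _ List.perm_middle
    rw [FS_perm hp, FS_par, FS_cons, FS_cons, ih, ih]

/-- a pendant isolated vertex -/
theorem FS_leaf (u o : V) (y : R) (l : List (V × V × R)) (c : V → V) (huo : c u ≠ c o)
    (h : ∀ v, Occ l v → c v ≠ c u) : FS ((u, o, y) :: l) c = (1 + y) * FS l c := by
  rw [FS_cons, if_neg huo, FS_congr_on l (mrg c u o) c]
  · ring
  · intro v w hv hw
    rw [mrg_eq_iff]
    have h1 := h v hv
    have h2 := h w hw
    grind

end FS

end Pool.Agent.Work.MP_ec1f6a_co
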