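import Pool.Agent.Work.MP_ec1f6a_co.RC9

/-!
The inequality in logarithmic coordinates.
-/

set_option autoImplicit false

namespace Pool.Agent.Work.MP_ec1f6a_co

open scoped Classical

/-- contribution of one block -/
noncomputable def pv (d : (Fin 4 → ℝ) × List ℝ) : Fin 8 → ℝ :=
  let x := d.1
  let V := sV (Rs d.1) d.2
  let S := s3 (Rs d.1) d.2
  ![x 0 * x 2 * (V + S * (x 0 + x 2)), x 1 * x 3 * (V + S * (x 1 + x 3)),
    x 0 * x 3 * (V + S * (x 0 + x 3)), x 1 * x 2 * (V + S * (x 1 + x 2)),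
    S * (x 0 * x 1 * x 2), S * (x 0 * x 1 * x 3), S * (x 0 * x 2 * x 3), S * (x 1 * x 2 * x 3)]

noncomputable def acc (dat : List ((Fin 4 → ℝ) × List ℝ)) (k : Fin 8) : ℝ :=
  (dat.map (fun d => pv d k)).sum

/-- bilinear form -/
def bil (P P' : Fin 8 → ℝ) : ℝ :=
  P 0 * P' 1 + P 1 * P' 0 + P 2 * P' 3 + P 3 * P' 2 - 2 * (P 4 * P' 5 + P 5 * P' 4) -
    2 * (P 6 * P' 7 + P 7 * P' 6)

def qud (P : Fin 8 → ℝ) : ℝ := P 0 * P 1 + P 2 * P 3 - 2 * P 4 * P 5 - 2 * P 6 * P 7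

noncomputable def e4 (d : (Fin 4 → ℝ) × List ℝ) : ℝ := d.1 0 * d.1 1 * d.1 2 * d.1 3

noncomputable def hh (d : (Fin 4 → ℝ) × List ℝ) : ℝ :=
  s3 (Rs d.1) d.2 ^ 2 * e4 d * ((d.1 0 + d.1 1) * (d.1 2 + d.1 3))

noncomputable def HH (dat : List ((Fin 4 → ℝ) × List ℝ)) : ℝ := (dat.map hh).sum

def GD (d : (Fin 4 → ℝ) × List ℝ) : Prop := (∀ i, 0 < d.1 i) ∧ ∀ y ∈ d.2, 0 ≤ y

theorem Rs_pos (d : (Fin 4 → ℝ) × List ℝ) (h : GD d) : 0 < Rs d.1 := by
  have := h.1 0; have := h.1 1; have := h.1 2; have := h.1 3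
  unfold Rs; positivity

theorem off_diag (x y : Fin 4 → ℝ) (hx : ∀ i, 0 ≤ x i) (hy : ∀ i, 0 ≤ y i) (V S V' S' : ℝ)
    (hV : 0 ≤ V) (hS : 0 ≤ S) (hV' : 0 ≤ V') (hS' : 0 ≤ S') :
    0 ≤ bil
      ![x 0 * x 2 * (V + S * (x 0 + x 2)), x 1 * x 3 * (V + S * (x 1 + x 3)),
        x 0 * x 3 * (V + S * (x 0 + x 3)), x 1 * x 2 * (V + S * (x 1 + x 2)),
        S * (x 0 * x 1 * x 2), S * (x 0 * x 1 * x 3), S * (x 0 * x 2 * x 3),
        S * (x 1 * x 2 * x 3)]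
      ![y 0 * y 2 * (V' + S' * (y 0 + y 2)), y 1 * y 3 * (V' + S' * (y 1 + y 3)),
        y 0 * y 3 * (V' + S' * (y 0 + y 3)), y 1 * y 2 * (V' + S' * (y 1 + y 2)),
        S' * (y 0 * y 1 * y 2), S' * (y 0 * y 1 * y 3), S' * (y 0 * y 2 * y 3),
        S' * (y 1 * y 2 * y 3)] := by
  have x0 := hx 0
  have x1 := hx 1
  have x2 := hx 2
  have x3 := hx 3
  have y0 := hy 0
  have y1 := hy 1
  have y2 := hy 2
  have y3 := hy 3
  simp only [bil, Matrix.cons_val]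
  generalize x 0 = a0 at *
  generalize x 1 = a1 at *
  generalize x 2 = a2 at *
  generalize x 3 = a3 at *
  generalize y 0 = b0 at *
  generalize y 1 = b1 at *
  generalize y 2 = b2 at *
  generalize y 3 = b3 at *
  have key : a0 * a2 * (V + S * (a0 + a2)) * (b1 * b3 * (V' + S' * (b1 + b3))) +
          a1 * a3 * (V + S * (a1 + a3)) * (b0 * b2 * (V' + S' * (b0 + b2))) +
          a0 * a3 * (V + S * (a0 + a3)) * (b1 * b2 * (V' + S' * (b1 + b2))) +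
          a1 * a2 * (V + S * (a1 + a2)) * (b0 * b3 * (V' + S' * (b0 + b3))) -
          2 * (S * (a0 * a1 * a2) * (S' * (b0 * b1 * b3)) +
            S * (a0 * a1 * a3) * (S' * (b0 * b1 * b2))) -
          2 * (S * (a0 * a2 * a3) * (S' * (b1 * b2 * b3)) +
            S * (a1 * a2 * a3) * (S' * (b0 * b2 * b3))) =
      S * S' * (a2 * b3 * (a0 * b1 - a1 * b0) ^ 2 + a3 * b2 * (a0 * b1 - a1 * b0) ^ 2 +
        a0 * b1 * (a2 * b3 - a3 * b2) ^ 2 + a1 * b0 * (a2 * b3 - a3 * b2) ^ 2 +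
        a0 ^ 2 * a2 * b1 * b3 ^ 2 + a0 * a2 ^ 2 * b1 ^ 2 * b3 +
        b0 ^ 2 * b2 * a1 * a3 ^ 2 + b0 * b2 ^ 2 * a1 ^ 2 * a3 +
        a0 ^ 2 * a3 * b1 * b2 ^ 2 + a0 * a3 ^ 2 * b1 ^ 2 * b2 +
        b0 ^ 2 * b3 * a1 * a2 ^ 2 + b0 * b3 ^ 2 * a1 ^ 2 * a2) +
      V * V' * (a0 * a2 * (b1 * b3) + a1 * a3 * (b0 * b2) + a0 * a3 * (b1 * b2) +
        a1 * a2 * (b0 * b3)) +
      V * S' * (a0 * a2 * (b1 * b3 * (b1 + b3)) + a1 * a3 * (b0 * b2 * (b0 + b2)) +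
        a0 * a3 * (b1 * b2 * (b1 + b2)) + a1 * a2 * (b0 * b3 * (b0 + b3))) +
      S * V' * (a0 * a2 * (a0 + a2) * (b1 * b3) + a1 * a3 * (a1 + a3) * (b0 * b2) +
        a0 * a3 * (a0 + a3) * (b1 * b2) + a1 * a2 * (a1 + a2) * (b0 * b3)) := by ring
  rw [key]
  positivity

theorem bil_pv (d d' : (Fin 4 → ℝ) × List ℝ) (h : GD d) (h' : GD d') :
    0 ≤ bil (pv d) (pv d') := by
  have a := s_nonneg (Rs d.1) (Rs_pos d h) d.2 h.2
  have b := s_nonneg (Rs d'.1) (Rs_pos d' h') d'.2 h'.2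
  exact off_diag d.1 d'.1 (fun i => (h.1 i).le) (fun i => (h'.1 i).le) _ _ _ _ a.1 a.2.1 b.1 b.2.1

theorem bil_acc (d : (Fin 4 → ℝ) × List ℝ) (h : GD d) (dat : List ((Fin 4 → ℝ) × List ℝ))
    (hd : ∀ d ∈ dat, GD d) : 0 ≤ bil (acc dat) (pv d) := by
  induction dat with
  | nil => simp [acc, bil]
  | cons e dat ih =>
    have h1 := ih (fun d hd' => hd d (by simp [hd']))
    have h2 := bil_pv e d (hd e (by simp)) h
    have h3 : bil (acc (e :: dat)) (pv d) = bil (pv e) (pv d) + bil (acc dat) (pv d) := by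
      simp only [bil, acc, List.map_cons, List.sum_cons]; ring
    rw [h3]; linarith

theorem qud_pv (d : (Fin 4 → ℝ) × List ℝ) (h : GD d) :
    2 * s4 (Rs d.1) d.2 * e4 d + hh d ≤ qud (pv d) := by
  have a := s_nonneg (Rs d.1) (Rs_pos d h) d.2 h.2
  have h4 := a.2.2.2.1
  have h0 := h.1 0
  have h1 := h.1 1
  have h2 := h.1 2
  have h3 := h.1 3
  have e : qud (pv d) - (2 * s4 (Rs d.1) d.2 * e4 d + hh d) =
      2 * e4 d * (sV (Rs d.1) d.2 * s2 (Rs d.1) d.2 - s4 (Rs d.1) d.2) := by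
    simp only [qud, pv, hh, e4, s2, Matrix.cons_val]
    simp only [Rs]
    ring
  have : 0 ≤ 2 * e4 d * (sV (Rs d.1) d.2 * s2 (Rs d.1) d.2 - s4 (Rs d.1) d.2) := by
    have : 0 < e4 d := by unfold e4; positivity
    have : 0 ≤ sV (Rs d.1) d.2 * s2 (Rs d.1) d.2 - s4 (Rs d.1) d.2 := by linarith
    positivity
  linarith

theorem qud_acc (dat : List ((Fin 4 → ℝ) × List ℝ)) (hd : ∀ d ∈ dat, GD d) :
    Q4 dat + HH dat ≤ qud (acc dat) := by
  induction dat with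
  | nil => simp [acc, qud, Q4, HH]
  | cons e dat ih =>
    have h1 := ih (fun d hd' => hd d (by simp [hd']))
    have h2 := qud_pv e (hd e (by simp))
    have h3 := bil_acc e (hd e (by simp)) dat (fun d hd' => hd d (by simp [hd']))
    have h4 : qud (acc (e :: dat)) = qud (pv e) + bil (acc dat) (pv e) + qud (acc dat) := by
      simp only [bil, qud, acc, List.map_cons, List.sum_cons]; ring
    have h5 : Q4 (e :: dat) = 2 * s4 (Rs e.1) e.2 * e4 e + Q4 dat := by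
      simp [Q4, e4]
    have h6 : HH (e :: dat) = hh e + HH dat := by simp [HH]
    rw [h4, h5, h6]; linarith

theorem acc_nonneg (dat : List ((Fin 4 → ℝ) × List ℝ)) (hd : ∀ d ∈ dat, GD d) (k : Fin 8) :
    0 ≤ acc dat k := by
  unfold acc
  apply List.sum_nonneg
  intro y hy
  rw [List.mem_map] at hy
  obtain ⟨d, hd', rfl⟩ := hy
  have h := hd d hd'
  have a := s_nonneg (Rs d.1) (Rs_pos d h) d.2 h.2
  have a1 := a.1
  have a2 := a.2.1
  have h0 := h.1 0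
  have h1 := h.1 1
  have h2 := h.1 2
  have h3 := h.1 3
  fin_cases k <;> simp only [pv, Matrix.cons_val, Fin.zero_eta, Fin.mk_one, Fin.reduceFinMk] <;>
    positivity

/-- the cubic part of one block -/
theorem cub_pv (d : (Fin 4 → ℝ) × List ℝ) (h : GD d) (A B C D : ℝ) :
    0 ≤ A ^ 2 * pv d 1 + D ^ 2 * pv d 0 + B ^ 2 * pv d 3 + C ^ 2 * pv d 2 -
      2 * pv d 4 * B * D - 2 * pv d 5 * A * C - 2 * pv d 6 * C * D - 2 * pv d 7 * A * B -
      2 * s4 (Rs d.1) d.2 * e4 d * (A + B + C + D) + hh d := by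
  have a := s_nonneg (Rs d.1) (Rs_pos d h) d.2 h.2
  obtain ⟨a1, a2, a3, _, a5⟩ := a
  have h0 := h.1 0
  have h1 := h.1 1
  have h2 := h.1 2
  have h3 := h.1 3
  simp only [pv, hh, e4, Matrix.cons_val]
  generalize sV (Rs d.1) d.2 = V at *
  generalize s3 (Rs d.1) d.2 = S at *
  generalize s4 (Rs d.1) d.2 = Q at *
  generalize d.1 0 = x0 at *
  generalize d.1 1 = x1 at *
  generalize d.1 2 = x2 at *
  generalize d.1 3 = x3 at *
  have hq : ∀ y Y : ℝ, 0 ≤ V * Y ^ 2 - 2 * Q * y * Y + S ^ 2 * y ^ 2 := by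
    intro y Y
    by_cases hV : V = 0
    · subst hV
      have : Q = 0 := by
        have : Q ^ 2 ≤ 0 := by linarith
        exact pow_eq_zero_iff (two_ne_zero) |>.1 (le_antisymm this (sq_nonneg Q))
      rw [this]
      have := mul_nonneg (sq_nonneg S) (sq_nonneg y)
      linarith
    · have hV' : 0 < V := lt_of_le_of_ne a1 (Ne.symm hV)
      have e : V * Y ^ 2 - 2 * Q * y * Y + S ^ 2 * y ^ 2 =
          ((V * Y - Q * y) ^ 2 + (V * S ^ 2 - Q ^ 2) * y ^ 2) / V := by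
        field_simp
        ring
      rw [e]
      have : 0 ≤ (V * S ^ 2 - Q ^ 2) * y ^ 2 := mul_nonneg (by linarith) (sq_nonneg y)
      positivity
  have e : A ^ 2 * (x1 * x3 * (V + S * (x1 + x3))) + D ^ 2 * (x0 * x2 * (V + S * (x0 + x2))) +
      B ^ 2 * (x1 * x2 * (V + S * (x1 + x2))) + C ^ 2 * (x0 * x3 * (V + S * (x0 + x3))) -
      2 * (S * (x0 * x1 * x2)) * B * D - 2 * (S * (x0 * x1 * x3)) * A * C -
      2 * (S * (x0 * x2 * x3)) * C * D - 2 * (S * (x1 * x2 * x3)) * A * B -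
      2 * Q * (x0 * x1 * x2 * x3) * (A + B + C + D) +
      S ^ 2 * (x0 * x1 * x2 * x3) * ((x0 + x1) * (x2 + x3)) =
      S * (x0 * (x2 * D - x3 * C) ^ 2 + x1 * (x3 * A - x2 * B) ^ 2 +
        x2 * (x0 * D - x1 * B) ^ 2 + x3 * (x1 * A - x0 * C) ^ 2) +
      (x0 * x2) * (V * D ^ 2 - 2 * Q * (x1 * x3) * D + S ^ 2 * (x1 * x3) ^ 2) +
      (x0 * x3) * (V * C ^ 2 - 2 * Q * (x1 * x2) * C + S ^ 2 * (x1 * x2) ^ 2) +
      (x1 * x3) * (V * A ^ 2 - 2 * Q * (x0 * x2) * A + S ^ 2 * (x0 * x2) ^ 2) +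
      (x1 * x2) * (V * B ^ 2 - 2 * Q * (x0 * x3) * B + S ^ 2 * (x0 * x3) ^ 2) := by ring
  rw [e]
  have q1 := hq (x1 * x3) D
  have q2 := hq (x1 * x2) C
  have q3 := hq (x0 * x2) A
  have q4 := hq (x0 * x3) B
  positivity

theorem cub_acc (dat : List ((Fin 4 → ℝ) × List ℝ)) (hd : ∀ d ∈ dat, GD d) (A B C D : ℝ) :
    0 ≤ A ^ 2 * acc dat 1 + D ^ 2 * acc dat 0 + B ^ 2 * acc dat 3 + C ^ 2 * acc dat 2 -
      2 * acc dat 4 * B * D - 2 * acc dat 5 * A * C - 2 * acc dat 6 * C * D -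
      2 * acc dat 7 * A * B - Q4 dat * (A + B + C + D) + HH dat := by
  induction dat with
  | nil => simp [acc, Q4, HH]
  | cons e dat ih =>
    have h1 := ih (fun d hd' => hd d (by simp [hd']))
    have h2 := cub_pv e (hd e (by simp)) A B C D
    have h5 : Q4 (e :: dat) = 2 * s4 (Rs e.1) e.2 * e4 e + Q4 dat := by
      simp [Q4, e4]
    have h6 : HH (e :: dat) = hh e + HH dat := by simp [HH]
    have h7 : ∀ k, acc (e :: dat) k = pv e k + acc dat k := by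
      intro k; simp [acc]
    simp only [h5, h6, h7]
    nlinarith

theorem A2_acc (dat : List ((Fin 4 → ℝ) × List ℝ)) :
    A2 dat (0, 2) = acc dat 0 + acc dat 4 + acc dat 6 ∧
    A2 dat (1, 3) = acc dat 1 + acc dat 5 + acc dat 7 ∧
    A2 dat (0, 3) = acc dat 2 + acc dat 5 + acc dat 6 ∧
    A2 dat (1, 2) = acc dat 3 + acc dat 4 + acc dat 7 ∧
    T3 dat 3 = acc dat 4 ∧ T3 dat 2 = acc dat 5 ∧ T3 dat 1 = acc dat 6 ∧ T3 dat 0 = acc dat 7 := by
  induction dat with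
  | nil => simp [A2, acc, T3]
  | cons e dat ih =>
    obtain ⟨i1, i2, i3, i4, i5, i6, i7, i8⟩ := ih
    have h7 : ∀ k, acc (e :: dat) k = pv e k + acc dat k := by
      intro k; simp [acc]
    have h8 : ∀ q, A2 (e :: dat) q = s2 (Rs e.1) e.2 * rk e.1 q + A2 dat q := by
      intro q; simp [A2]
    have h9 : ∀ k, T3 (e :: dat) k = s3 (Rs e.1) e.2 * pr e.1 k + T3 dat k := by
      intro k; simp [T3]
    simp only [h7, h8, h9, i1, i2, i3, i4, i5, i6, i7, i8, rk, pr, pv, s2, Matrix.cons_val]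
    refine ⟨?_, ?_, ?_, ?_, trivial, trivial, trivial, trivial⟩ <;> (simp only [Rs]; ring)

/-- the inequality -/
theorem ineq (dat : List ((Fin 4 → ℝ) × List ℝ)) (hd : ∀ d ∈ dat, GD d)
    (a : Fin 4 × Fin 4 → ℝ) (ha : ∀ q, 0 ≤ a q) :
    gid (fun q => a q + A2 dat q) (T3 dat) (Q4 dat) *
      gef (fun q => a q + A2 dat q) (T3 dat) (Q4 dat) ≤
    ge (fun q => a q + A2 dat q) (T3 dat) (Q4 dat) *
      gf (fun q => a q + A2 dat q) (T3 dat) (Q4 dat) := by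
  obtain ⟨i1, i2, i3, i4, i5, i6, i7, i8⟩ := A2_acc dat
  simp only [gid, ge, gf, gef, Gid, Ge, Gf, Gef, tri]
  rw [i1, i2, i3, i4, i5, i6, i7, i8]
  have hc := cub_acc dat hd (a (0, 2) + (acc dat 0 + acc dat 4 + acc dat 6))
    (a (0, 3) + (acc dat 2 + acc dat 5 + acc dat 6))
    (a (1, 2) + (acc dat 3 + acc dat 4 + acc dat 7))
    (a (1, 3) + (acc dat 1 + acc dat 5 + acc dat 7))
  have hq := qud_acc dat hd
  have n0 := acc_nonneg dat hd 0
  have n1 := acc_nonneg dat hd 1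
  have n2 := acc_nonneg dat hd 2
  have n3 := acc_nonneg dat hd 3
  have m02 := ha (0, 2)
  have m03 := ha (0, 3)
  have m12 := ha (1, 2)
  have m13 := ha (1, 3)
  simp only [qud] at hq
  generalize acc dat 0 = p0 at *
  generalize acc dat 1 = p1 at *
  generalize acc dat 2 = p2 at *
  generalize acc dat 3 = p3 at *
  generalize acc dat 4 = p4 at *
  generalize acc dat 5 = p5 at *
  generalize acc dat 6 = p6 at *
  generalize acc dat 7 = p7 at *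
  generalize Q4 dat = Q at *
  generalize HH dat = H at *
  generalize a (0, 1) + A2 dat (0, 1) = z01 at *
  generalize a (2, 3) + A2 dat (2, 3) = z23 at *
  generalize a (0, 2) = a02 at *
  generalize a (0, 3) = a03 at *
  generalize a (1, 2) = a12 at *
  generalize a (1, 3) = a13 at *
  rw [← sub_nonneg]
  obtain ⟨A, hA⟩ : ∃ A, A = a02 + (p0 + p4 + p6) := ⟨_, rfl⟩
  obtain ⟨B, hB⟩ : ∃ B, B = a03 + (p2 + p5 + p6) := ⟨_, rfl⟩
  obtain ⟨C, hC⟩ : ∃ C, C = a12 + (p3 + p4 + p7) := ⟨_, rfl⟩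
  obtain ⟨D, hD⟩ : ∃ D, D = a13 + (p1 + p5 + p7) := ⟨_, rfl⟩
  rw [← hA, ← hB, ← hC, ← hD] at hc ⊢
  have n4 : 0 ≤ (A * D - B * C) ^ 2 := sq_nonneg _
  have n5 : 0 ≤ a13 * A ^ 2 + a02 * D ^ 2 + a12 * B ^ 2 + a03 * C ^ 2 := by positivity
  have n6 : 0 ≤ a02 * a13 + a02 * p1 + a13 * p0 + a03 * a12 + a03 * p3 + a12 * p2 := by
    positivity
  have hp0 : p0 = A - a02 - p4 - p6 := by rw [hA]; ring
  have hp2 : p2 = B - a03 - p5 - p6 := by rw [hB]; ring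
  have hp3 : p3 = C - a12 - p4 - p7 := by rw [hC]; ring
  have hp1 : p1 = D - a13 - p5 - p7 := by rw [hD]; ring
  have key := add_nonneg (add_nonneg (add_nonneg (add_nonneg hc n4) n5) n6) (sub_nonneg.2 hq)
  refine key.trans (le_of_eq ?_)
  rw [hp0, hp1, hp2, hp3]
  ring

end Pool.Agent.Work.MP_ec1f6a_co
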