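import Pool.Agent.Work.MP_ec1f6a_co.RC10

/-!
The inequality for lists of blocks.
-/

set_option autoImplicit false

namespace Pool.Agent.Work.MP_ec1f6a_co

open scoped Classical

variable {V : Type*}

theorem Off_id (t : Fin 4 → V) : Off t id := fun _ _ _ h => h

theorem Off_mrg (t : Fin 4 → V) (c : V → V) (h : Off t c) (i j : Fin 4) :
    Off t (mrg c (t i) (t j)) := by
  intro v hv w hw
  rw [mrg_eq_iff] at hw
  rcases hw with hw | ⟨hw | hw, _⟩
  · exact h v hv w hw
  · exact absurd (h v hv _ hw) (hv i)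
  · exact absurd (h v hv _ hw) (hv j)

theorem KT_id (t : Fin 4 → V) (ht : Function.Injective t) (a : Fin 4 × Fin 4 → ℝ) :
    FS (KT t a) id = gid a (fun _ => 0) 0 := by
  have h : ∀ i j, i ≠ j → t i ≠ t j := fun i j hij h => hij (ht h)
  have h01 := h 0 1 (by decide)
  have h02 := h 0 2 (by decide)
  have h03 := h 0 3 (by decide)
  have h12 := h 1 2 (by decide)
  have h13 := h 1 3 (by decide)
  have h23 := h 2 3 (by decide)
  have h10 := h01.symm
  have h20 := h02.symm
  have h30 := h03.symm
  have h21 := h12.symm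
  have h31 := h13.symm
  have h32 := h23.symm
  simp only [KT, prs, List.map_cons, List.map_nil, FS_cons, FS_nil, mrg, gid, Gid, tri, id]
  generalize t 0 = a0 at *
  generalize t 1 = a1 at *
  generalize t 2 = a2 at *
  generalize t 3 = a3 at *
  simp [*]
  ring

theorem KT_e (t : Fin 4 → V) (ht : Function.Injective t) (a : Fin 4 × Fin 4 → ℝ) :
    FS (KT t a) (mrg id (t 0) (t 1)) = ge a (fun _ => 0) 0 := by
  have h : ∀ i j, i ≠ j → t i ≠ t j := fun i j hij h => hij (ht h)
  have h01 := h 0 1 (by decide)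
  have h02 := h 0 2 (by decide)
  have h03 := h 0 3 (by decide)
  have h12 := h 1 2 (by decide)
  have h13 := h 1 3 (by decide)
  have h23 := h 2 3 (by decide)
  have h10 := h01.symm
  have h20 := h02.symm
  have h30 := h03.symm
  have h21 := h12.symm
  have h31 := h13.symm
  have h32 := h23.symm
  simp only [KT, prs, List.map_cons, List.map_nil, FS_cons, FS_nil, mrg, ge, Ge, tri, id]
  generalize t 0 = a0 at *
  generalize t 1 = a1 at *
  generalize t 2 = a2 at *
  generalize t 3 = a3 at *
  simp [*]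
  ring

theorem KT_f (t : Fin 4 → V) (ht : Function.Injective t) (a : Fin 4 × Fin 4 → ℝ) :
    FS (KT t a) (mrg id (t 2) (t 3)) = gf a (fun _ => 0) 0 := by
  have h : ∀ i j, i ≠ j → t i ≠ t j := fun i j hij h => hij (ht h)
  have h01 := h 0 1 (by decide)
  have h02 := h 0 2 (by decide)
  have h03 := h 0 3 (by decide)
  have h12 := h 1 2 (by decide)
  have h13 := h 1 3 (by decide)
  have h23 := h 2 3 (by decide)
  have h10 := h01.symm
  have h20 := h02.symm
  have h30 := h03.symm
  have h21 := h12.symm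
  have h31 := h13.symm
  have h32 := h23.symm
  simp only [KT, prs, List.map_cons, List.map_nil, FS_cons, FS_nil, mrg, gf, Gf, tri, id]
  generalize t 0 = a0 at *
  generalize t 1 = a1 at *
  generalize t 2 = a2 at *
  generalize t 3 = a3 at *
  simp [*]
  ring

theorem KT_ef (t : Fin 4 → V) (ht : Function.Injective t) (a : Fin 4 × Fin 4 → ℝ) :
    FS (KT t a) (mrg (mrg id (t 0) (t 1)) (t 2) (t 3)) = gef a (fun _ => 0) 0 := by
  have h : ∀ i j, i ≠ j → t i ≠ t j := fun i j hij h => hij (ht h)
  have h01 := h 0 1 (by decide)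
  have h02 := h 0 2 (by decide)
  have h03 := h 0 3 (by decide)
  have h12 := h 1 2 (by decide)
  have h13 := h 1 3 (by decide)
  have h23 := h 2 3 (by decide)
  have h10 := h01.symm
  have h20 := h02.symm
  have h30 := h03.symm
  have h21 := h12.symm
  have h31 := h13.symm
  have h32 := h23.symm
  simp only [KT, prs, List.map_cons, List.map_nil, FS_cons, FS_nil, mrg, gef, Gef, id]
  generalize t 0 = a0 at *
  generalize t 1 = a1 at *
  generalize t 2 = a2 at *
  generalize t 3 = a3 at *
  simp [*]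
  ring

variable [Fintype V]

theorem main_pos (t : Fin 4 → V) (ht : Function.Injective t) (bs : List (Blk V))
    (hg : ∀ b ∈ bs, Good t b)
    (hp : bs.Pairwise (fun b b' => ∀ u ∈ b.us, ∀ v ∈ b'.us, u ≠ v))
    (a : Fin 4 × Fin 4 → ℝ) (ha : ∀ q, 0 ≤ a q) :
    FS (pre t bs ++ KT t a) id *
      FS (pre t bs ++ KT t a) (mrg (mrg id (t 0) (t 1)) (t 2) (t 3)) ≤
    FS (pre t bs ++ KT t a) (mrg id (t 0) (t 1)) *
      FS (pre t bs ++ KT t a) (mrg id (t 2) (t 3)) := by
  obtain ⟨W, dat, hW, hdat, h⟩ := multi t bs hg hp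
  rw [h gid id gid_step (Off_id t) (KT_id t ht) a,
    h gef _ gef_step (Off_mrg t _ (Off_mrg t _ (Off_id t) 0 1) 2 3) (KT_ef t ht) a,
    h ge _ ge_step (Off_mrg t _ (Off_id t) 0 1) (KT_e t ht) a,
    h gf _ gf_step (Off_mrg t _ (Off_id t) 2 3) (KT_f t ht) a]
  have h1 := ineq dat hdat a ha
  have h2 : 0 ≤ W ^ 2 := sq_nonneg W
  nlinarith [mul_le_mul_of_nonneg_left h1 h2]

/-- weak version of `Good` -/
def GoodW (t : Fin 4 → V) (b : Blk V) : Prop :=
  b.us.Nodup ∧ (∀ u ∈ b.us, 0 ≤ b.x u) ∧ (∀ i, 0 ≤ b.r i) ∧ (∀ u ∈ b.us, ∀ i, u ≠ t i) ∧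
    ∀ e ∈ b.lU, e.1 ∈ b.us ∧ e.2.1 ∈ b.us ∧ 0 ≤ e.2.2

/-- perturbed block -/
def pert (ε : ℝ) (b : Blk V) : Blk V := ⟨b.us, fun u => b.x u + ε, fun i => b.r i + ε, b.lU⟩

omit [Fintype V] in
/-- continuity of forest sums -/
theorem FS_cont (L : List (V × V × (ℝ → ℝ))) (hL : ∀ e ∈ L, Continuous e.2.2) (c : V → V) :
    Continuous (fun ε => FS (L.map (fun e => (e.1, e.2.1, e.2.2 ε))) c) := by
  induction L generalizing c with
  | nil => simp only [List.map_nil, FS_nil]; exact continuous_const
  | cons e L ih =>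
    obtain ⟨i, j, w⟩ := e
    simp only [List.map_cons, FS_cons]
    have h1 := ih (fun e he => hL e (by simp [he])) c
    have h2 := ih (fun e he => hL e (by simp [he])) (mrg c i j)
    have h3 := hL (i, j, w) (by simp)
    apply h1.add
    split_ifs
    · exact continuous_const
    · exact h3.mul h2

omit [Fintype V] in
theorem pre_cont (t : Fin 4 → V) (bs : List (Blk V)) (a : Fin 4 × Fin 4 → ℝ) (c : V → V) :
    Continuous (fun ε => FS (pre t (bs.map (pert ε)) ++ KT t a) c) := by
  have : ∃ L : List (V × V × (ℝ → ℝ)), (∀ e ∈ L, Continuous e.2.2) ∧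
      ∀ ε, pre t (bs.map (pert ε)) ++ KT t a = L.map (fun e => (e.1, e.2.1, e.2.2 ε)) := by
    have hst : ∀ (r : Fin 4 → ℝ) (x : V → ℝ) (us : List V),
        ∃ L : List (V × V × (ℝ → ℝ)), (∀ e ∈ L, Continuous e.2.2) ∧
        ∀ ε, stars t (fun i => r i + ε) (fun u => x u + ε) us =
          L.map (fun e => (e.1, e.2.1, e.2.2 ε)) := by
      intro r x us
      induction us with
      | nil => exact ⟨[], by simp, by intro ε; rfl⟩
      | cons u us ih =>
        obtain ⟨L, h1, h2⟩ := ih
        refine ⟨([0, 1, 2, 3] : List (Fin 4)).map (fun q => (u, t q, fun ε =>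
          (x u + ε) * (r q + ε))) ++ L, ?_, ?_⟩
        · intro e he
          rw [List.mem_append] at he
          rcases he with he | he
          · rw [List.mem_map] at he
            obtain ⟨q, _, rfl⟩ := he
            fun_prop
          · exact h1 e he
        · intro ε
          simp only [stars, star4]
          rw [h2 ε, List.map_append, List.map_map]
          rfl
    induction bs with
    | nil =>
      refine ⟨prs.map (fun q => (t q.1, t q.2, fun _ => a q)), ?_, ?_⟩
      · intro e he
        rw [List.mem_map] at he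
        obtain ⟨q, _, rfl⟩ := he
        exact continuous_const
      · intro ε
        simp only [List.map_nil, pre, List.nil_append, KT, List.map_map]
        rfl
    | cons b bs ih =>
      obtain ⟨L, h1, h2⟩ := ih
      obtain ⟨L', h3, h4⟩ := hst b.r b.x b.us
      refine ⟨b.lU.map (fun e => (e.1, e.2.1, fun _ => e.2.2)) ++ (L' ++ L), ?_, ?_⟩
      · intro e he
        rw [List.mem_append, List.mem_append] at he
        rcases he with he | he | he
        · rw [List.mem_map] at he
          obtain ⟨q, _, rfl⟩ := he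
          exact continuous_const
        · exact h3 e he
        · exact h1 e he
      · intro ε
        simp only [List.map_cons, pre, List.append_assoc, List.map_append, List.map_map]
        rw [h2 ε, ← h4 ε]
        congr 1
        simp only [pert]
        symm
        convert List.map_id _
        rfl
  obtain ⟨L, h1, h2⟩ := this
  simp only [h2]
  exact FS_cont L h1 c

theorem main_nonneg (t : Fin 4 → V) (ht : Function.Injective t) (bs : List (Blk V))
    (hg : ∀ b ∈ bs, GoodW t b)
    (hp : bs.Pairwise (fun b b' => ∀ u ∈ b.us, ∀ v ∈ b'.us, u ≠ v))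
    (a : Fin 4 × Fin 4 → ℝ) (ha : ∀ q, 0 ≤ a q) :
    FS (pre t bs ++ KT t a) id *
      FS (pre t bs ++ KT t a) (mrg (mrg id (t 0) (t 1)) (t 2) (t 3)) ≤
    FS (pre t bs ++ KT t a) (mrg id (t 0) (t 1)) *
      FS (pre t bs ++ KT t a) (mrg id (t 2) (t 3)) := by
  have h0 : bs.map (pert 0) = bs := by
    have : (pert 0 : Blk V → Blk V) = id := by
      funext b
      cases b
      simp [pert]
    rw [this, List.map_id]
  have hc1 := (pre_cont t bs a id).mul
    (pre_cont t bs a (mrg (mrg id (t 0) (t 1)) (t 2) (t 3)))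
  have hc2 := (pre_cont t bs a (mrg id (t 0) (t 1))).mul (pre_cont t bs a (mrg id (t 2) (t 3)))
  have hpos : ∀ ε : ℝ, 0 < ε →
      FS (pre t (bs.map (pert ε)) ++ KT t a) id *
        FS (pre t (bs.map (pert ε)) ++ KT t a) (mrg (mrg id (t 0) (t 1)) (t 2) (t 3)) ≤
      FS (pre t (bs.map (pert ε)) ++ KT t a) (mrg id (t 0) (t 1)) *
        FS (pre t (bs.map (pert ε)) ++ KT t a) (mrg id (t 2) (t 3)) := by
    intro ε hε
    apply main_pos t ht _ _ _ a ha
    · intro b hb
      rw [List.mem_map] at hb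
      obtain ⟨b', hb', rfl⟩ := hb
      obtain ⟨g1, g2, g3, g4, g5⟩ := hg b' hb'
      refine ⟨g1, fun u hu => ?_, fun i => ?_, g4, g5⟩
      · have := g2 u hu
        simp only [pert]; linarith
      · have := g3 i
        simp only [pert]; linarith
    · rw [List.pairwise_map]
      exact hp
  have hle : ∀ᶠ ε in nhdsWithin (0 : ℝ) (Set.Ioi 0), _ ≤ _ :=
    Filter.eventually_of_mem self_mem_nhdsWithin hpos
  have := le_of_tendsto_of_tendsto ((hc1.tendsto 0).mono_left nhdsWithin_le_nhds)
    ((hc2.tendsto 0).mono_left nhdsWithin_le_nhds) hle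
  simp only [Pi.mul_apply] at this
  rw [h0] at this
  exact this

end Pool.Agent.Work.MP_ec1f6a_co
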