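import Pool.Agent.Work.MP_ec1f6a_co.RC11

/-!
The inequality for graphs.
-/

set_option autoImplicit false

namespace Pool.Agent.Work.MP_ec1f6a_co

open Finset SimpleGraph
open scoped Classical

section kern

variable {V : Type*}

theorem kern_insert (c : V → V) (A0 : Finset (Sym2 V))
    (hc : ∀ v w, c v = c w ↔ (gr A0).Reachable v w) (i j v w : V) :
    mrg c i j v = mrg c i j w ↔ (gr (insert s(i, j) A0)).Reachable v w := by
  rw [mrg_eq_iff, gr_insert, reach_sup_edge, hc v w, hc v i, hc v j, hc w i, hc w j]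
  have hsym : ∀ a b, (gr A0).Reachable a b ↔ (gr A0).Reachable b a :=
    fun a b => ⟨Reachable.symm, Reachable.symm⟩
  rw [hsym w i, hsym w j]
  constructor
  · rintro (h | ⟨h1 | h1, h2 | h2⟩)
    · exact Or.inl h
    · exact Or.inl (h1.trans h2)
    · exact Or.inr (Or.inl ⟨h1, h2⟩)
    · exact Or.inr (Or.inr ⟨h1, h2⟩)
    · exact Or.inl (h1.trans h2)
  · rintro (h | ⟨h1, h2⟩ | ⟨h1, h2⟩)
    · exact Or.inl h
    · exact Or.inr ⟨Or.inl h1, Or.inr h2⟩
    · exact Or.inr ⟨Or.inr h1, Or.inl h2⟩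

theorem kern_empty (v w : V) : (id v : V) = id w ↔ (gr (∅ : Finset (Sym2 V))).Reachable v w := by
  simp [gr]

theorem Z_support {R : Type*} [CommRing R] (W : Sym2 V → R) (S S' : Finset (Sym2 V)) (h : S ⊆ S')
    (hW : ∀ s ∈ S', s ∉ S → W s = 0) (Q : Finset (Sym2 V) → Prop) : Z W S' Q = Z W S Q := by
  unfold Z
  symm
  apply Finset.sum_subset (Finset.powerset_mono.2 h)
  intro A hA hA'
  rw [Finset.mem_powerset] at hA hA'
  obtain ⟨s, hs, hs'⟩ := Finset.not_subset.1 hA'
  rw [Finset.prod_eq_zero hs (hW s (hA hs) hs')]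
  simp

end kern

variable {V : Type*} [Fintype V]

/-- forest sums of an edge set through lists -/
theorem FS_set (l : List (V × V × ℝ)) (p : Sym2 V → ℝ) (S : Finset (Sym2 V))
    (c : V → V) (A0 : Finset (Sym2 V)) (hA0 : (gr A0).IsAcyclic)
    (hc : ∀ v w, c v = c w ↔ (gr A0).Reachable v w)
    (hS : ∀ s ∈ S, ¬ s.IsDiag) (hd : ∀ s ∈ A0, s ∉ S)
    (h1 : ∀ s ∈ S, Wt l s = p s) (h2 : ∀ s, ¬ s.IsDiag → s ∉ S → Wt l s = 0) :
    FS l c = Z p S (fun A => (gr (A0 ∪ A)).IsAcyclic) := by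
  rw [FS_ZA l c A0 hA0 hc, ZA, Z_support (Wt l) S (E0 V \ A0)]
  · exact Z_congr _ _ S h1 _
  · intro s hs
    rw [Finset.mem_sdiff]
    refine ⟨by simp [E0, hS s hs], fun h => hd s h hs⟩
  · intro s hs hs'
    rw [Finset.mem_sdiff] at hs
    have := hs.1
    simp only [E0, Finset.mem_filter, Finset.mem_univ, true_and] at this
    exact h2 s this hs'

/-- the vertices of a block -/
noncomputable def Ub (t : Fin 4 → V) (β : V → V) (k : V) : Finset V :=
  univ.filter (fun u => (∀ i, u ≠ t i) ∧ β u = k)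

/-- the blocks of a graph -/
noncomputable def bk (t : Fin 4 → V) (β : V → V) (x : V → ℝ) (r : V → V → ℝ) (q : Sym2 V → ℝ)
    (k : V) : Blk V :=
  ⟨(Ub t β k).toList, x, fun i => r k (t i),
    ((Ub t β k) ×ˢ (Ub t β k)).toList.map (fun e => (e.1, e.2, q s(e.1, e.2) / 2))⟩

noncomputable def bks (t : Fin 4 → V) (β : V → V) (x : V → ℝ) (r : V → V → ℝ) (q : Sym2 V → ℝ) :
    List (Blk V) := (univ : Finset V).toList.map (bk t β x r q)

theorem Wt_lU (U : Finset V) (q : Sym2 V → ℝ) (v w : V) (hvw : v ≠ w) :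
    Wt ((U ×ˢ U).toList.map (fun e => (e.1, e.2, q s(e.1, e.2) / 2))) s(v, w) =
      if v ∈ U ∧ w ∈ U then q s(v, w) else 0 := by
  unfold Wt
  rw [List.map_map, Finset.sum_map_toList]
  simp only [Function.comp]
  have h : ∀ e : V × V, (if s(e.1, e.2) = s(v, w) then q s(e.1, e.2) / 2 else 0) =
      (if e = (v, w) then q s(v, w) / 2 else 0) + (if e = (w, v) then q s(v, w) / 2 else 0) := by
    rintro ⟨i, j⟩
    simp only [Prod.mk.injEq]
    by_cases h1 : i = v ∧ j = w
    · obtain ⟨rfl, rfl⟩ := h1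
      have : ¬ (i = j ∧ j = i) := fun h => hvw h.1
      simp [this]
    · by_cases h2 : i = w ∧ j = v
      · obtain ⟨rfl, rfl⟩ := h2
        rw [if_pos Sym2.eq_swap, if_neg h1, if_pos ⟨rfl, rfl⟩, Sym2.eq_swap, zero_add]
      · rw [if_neg, if_neg h1, if_neg h2, add_zero]
        rw [Sym2.eq_iff]
        tauto
  simp only [h]
  rw [Finset.sum_add_distrib, Finset.sum_ite_eq', Finset.sum_ite_eq']
  simp only [Finset.mem_product]
  by_cases h1 : v ∈ U ∧ w ∈ U
  · rw [if_pos h1, if_pos ⟨h1.2, h1.1⟩, if_pos h1]; ring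
  · rw [if_neg h1, if_neg (fun h => h1 ⟨h.2, h.1⟩), if_neg h1]; ring

theorem Wt_stars (t : Fin 4 → V) (r : Fin 4 → ℝ) (x : V → ℝ) (us : List V) (s : Sym2 V) :
    Wt (stars t r x us) s = (us.map (fun u => Wt (star4 t r u (x u)) s)).sum := by
  induction us with
  | nil => rfl
  | cons u us ih => rw [stars, Wt_append, ih]; simp

theorem Wt_star4 (t : Fin 4 → V) (ht : Function.Injective t) (r : Fin 4 → ℝ) (u v : V) (x : ℝ)
    (hu : ∀ i, u ≠ t i) (hv : ∀ i, v ≠ t i) (j : Fin 4) :
    Wt (star4 t r u x) s(v, t j) = if u = v then x * r j else 0 := by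
  have h : ∀ i, (s(u, t i) = s(v, t j)) ↔ (u = v ∧ i = j) := by
    intro i
    rw [Sym2.eq_iff]
    constructor
    · rintro (⟨h1, h2⟩ | ⟨h1, _⟩)
      · exact ⟨h1, ht h2⟩
      · exact absurd h1 (hu j)
    · rintro ⟨rfl, rfl⟩; exact Or.inl ⟨rfl, rfl⟩
  simp only [star4, Wt, List.map_cons, List.map_nil, List.sum_cons, List.sum_nil, h]
  by_cases huv : u = v
  · simp only [huv, true_and, if_true]
    fin_cases j <;> simp
  · simp [huv]

theorem Wt_star4_zero (t : Fin 4 → V) (r : Fin 4 → ℝ) (u : V) (x : ℝ) (s : Sym2 V)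
    (h : ∀ i, s(u, t i) ≠ s) : Wt (star4 t r u x) s = 0 := by
  simp [star4, Wt, h]

theorem Wt_pre (t : Fin 4 → V) (bs : List (Blk V)) (s : Sym2 V) :
    Wt (pre t bs) s = (bs.map (fun b => Wt b.lU s + Wt (stars t b.r b.x b.us) s)).sum := by
  induction bs with
  | nil => rfl
  | cons b bs ih => rw [pre, Wt_append, Wt_append, ih]; simp; ring

theorem Wt_KT_zero (t : Fin 4 → V) (a : Fin 4 × Fin 4 → ℝ) (s : Sym2 V)
    (h : ∀ i j, s(t i, t j) ≠ s) : Wt (KT t a) s = 0 := by
  simp [KT, prs, Wt, h]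

theorem Wt_KT (t : Fin 4 → V) (ht : Function.Injective t) (q : Sym2 V → ℝ) (i j : Fin 4)
    (hij : i ≠ j) : Wt (KT t (fun e => q s(t e.1, t e.2))) s(t i, t j) = q s(t i, t j) := by
  have h : ∀ a b c d : Fin 4, (s(t a, t b) = s(t c, t d)) ↔ (s(a, b) = s(c, d)) := by
    intro a b c d
    rw [Sym2.eq_iff, Sym2.eq_iff, ht.eq_iff, ht.eq_iff, ht.eq_iff, ht.eq_iff]
  have hs : ∀ a b : Fin 4, s(t a, t b) = s(t b, t a) := fun a b => Sym2.eq_swap
  simp only [KT, prs, Wt, List.map_cons, List.map_nil, List.sum_cons, List.sum_nil, h]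
  fin_cases i <;> fin_cases j <;> simp_all <;> exact congrArg q Sym2.eq_swap

theorem Wt_total (t : Fin 4 → V) (ht : Function.Injective t) (β : V → V) (x : V → ℝ)
    (r : V → V → ℝ) (q : Sym2 V → ℝ)
    (h1 : ∀ u v, (∀ i, u ≠ t i) → (∀ i, v ≠ t i) → β u ≠ β v → q s(u, v) = 0)
    (h2 : ∀ u, (∀ i, u ≠ t i) → ∀ j, q s(u, t j) = x u * r (β u) (t j)) (s : Sym2 V)
    (hs : ¬ s.IsDiag) :
    Wt (pre t (bks t β x r q) ++ KT t (fun e => q s(t e.1, t e.2))) s = q s := by
  have hU : ∀ k u, u ∈ Ub t β k ↔ (∀ i, u ≠ t i) ∧ β u = k := by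
    intro k u; simp [Ub]
  -- weights of the blocks
  have hpre : ∀ s, Wt (pre t (bks t β x r q)) s = ∑ k, (Wt (bk t β x r q k).lU s +
      ∑ u ∈ Ub t β k, Wt (star4 t (fun i => r k (t i)) u (x u)) s) := by
    intro s
    rw [Wt_pre, bks, List.map_map, Finset.sum_map_toList]
    apply Finset.sum_congr rfl
    intro k _
    simp only [Function.comp]
    rw [Wt_stars]
    simp only [bk]
    rw [Finset.sum_map_toList]
  have hmix : ∀ v j, (∀ i, v ≠ t i) →
      Wt (pre t (bks t β x r q) ++ KT t (fun e => q s(t e.1, t e.2))) s(v, t j) =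
        q s(v, t j) := by
    intro v j hv
    rw [Wt_append, Wt_KT_zero, add_zero, hpre, h2 v hv j]
    · have e1 : ∀ k, Wt (bk t β x r q k).lU s(v, t j) = 0 := by
        intro k
        rw [bk, Wt_lU _ _ _ _ (hv j), if_neg]
        rintro ⟨_, h⟩
        exact ((hU k _).1 h).1 j rfl
      have e2 : ∀ k, ∑ u ∈ Ub t β k, Wt (star4 t (fun i => r k (t i)) u (x u)) s(v, t j) =
          if k = β v then x v * r k (t j) else 0 := by
        intro k
        have : ∀ u ∈ Ub t β k, Wt (star4 t (fun i => r k (t i)) u (x u)) s(v, t j) =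
            if u = v then x v * r k (t j) else 0 := by
          intro u hu
          rw [Wt_star4 t ht _ u v (x u) ((hU k u).1 hu).1 hv j]
          by_cases huv : u = v
          · subst huv; simp
          · simp [huv]
        rw [Finset.sum_congr rfl this, Finset.sum_ite_eq']
        by_cases hk : k = β v
        · rw [if_pos hk, if_pos ((hU k v).2 ⟨hv, hk.symm⟩)]
        · rw [if_neg hk, if_neg (fun h => hk ((hU k v).1 h).2.symm)]
      simp only [e1, e2, zero_add]
      rw [Finset.sum_ite_eq']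
      simp
    · intro i k h
      rw [Sym2.eq_iff] at h
      rcases h with ⟨h, _⟩ | ⟨_, h⟩
      · exact hv i h.symm
      · exact hv k h.symm
  induction s with
  | _ v w =>
  have hvw : v ≠ w := by simpa using hs
  by_cases hv : ∀ i, v ≠ t i
  · by_cases hw : ∀ i, w ≠ t i
    · rw [Wt_append, Wt_KT_zero, add_zero, hpre]
      · have e2 : ∀ k, ∑ u ∈ Ub t β k, Wt (star4 t (fun i => r k (t i)) u (x u)) s(v, w) = 0 := by
          intro k
          apply Finset.sum_eq_zero
          intro u _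
          apply Wt_star4_zero
          intro i h
          rw [Sym2.eq_iff] at h
          rcases h with ⟨_, h⟩ | ⟨_, h⟩
          · exact hw i h.symm
          · exact hv i h.symm
        have e1 : ∀ k, Wt (bk t β x r q k).lU s(v, w) =
            if k = β v then (if β v = β w then q s(v, w) else 0) else 0 := by
          intro k
          have hiff : (v ∈ Ub t β k ∧ w ∈ Ub t β k) ↔ (k = β v ∧ β v = β w) := by
            rw [hU, hU]
            constructor
            · rintro ⟨⟨_, h3⟩, _, h4⟩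
              exact ⟨h3.symm, h3.trans h4.symm⟩
            · rintro ⟨h3, h4⟩
              exact ⟨⟨hv, h3.symm⟩, hw, (h3.trans h4).symm⟩
          rw [bk, Wt_lU _ _ _ _ hvw]
          by_cases hk : k = β v
          · by_cases hb : β v = β w
            · rw [if_pos (hiff.2 ⟨hk, hb⟩), if_pos hk, if_pos hb]
            · rw [if_neg (fun h => hb (hiff.1 h).2), if_pos hk, if_neg hb]
          · rw [if_neg (fun h => hk (hiff.1 h).1), if_neg hk]
        simp only [e1, e2, add_zero]
        rw [Finset.sum_ite_eq']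
        simp only [Finset.mem_univ, if_true]
        by_cases hb : β v = β w
        · rw [if_pos hb]
        · rw [if_neg hb, h1 v w hv hw hb]
      · intro i k h
        rw [Sym2.eq_iff] at h
        rcases h with ⟨h, _⟩ | ⟨_, h⟩
        · exact hv i h.symm
        · exact hv k h.symm
    · push Not at hw
      obtain ⟨j, rfl⟩ := hw
      exact hmix v j hv
  · push Not at hv
    obtain ⟨i, rfl⟩ := hv
    by_cases hw : ∀ i, w ≠ t i
    · rw [Sym2.eq_swap]
      exact hmix w i hw
    · push Not at hw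
      obtain ⟨j, rfl⟩ := hw
      have hij : i ≠ j := fun h => hvw (by rw [h])
      rw [Wt_append, Wt_KT t ht q i j hij, hpre]
      have e : ∑ k, (Wt (bk t β x r q k).lU s(t i, t j) +
          ∑ u ∈ Ub t β k, Wt (star4 t (fun i => r k (t i)) u (x u)) s(t i, t j)) = 0 := by
        apply Finset.sum_eq_zero
        intro k _
        have e1 : Wt (bk t β x r q k).lU s(t i, t j) = 0 := by
          rw [bk, Wt_lU _ _ _ _ hvw, if_neg]
          rintro ⟨h, _⟩
          exact ((hU k _).1 h).1 i rfl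
        rw [e1, zero_add]
        apply Finset.sum_eq_zero
        intro u hu
        apply Wt_star4_zero
        intro m h
        have hu' := ((hU k u).1 hu).1
        rw [Sym2.eq_iff] at h
        rcases h with ⟨h, _⟩ | ⟨h, _⟩
        · exact hu' i h
        · exact hu' j h
      rw [e, zero_add]

theorem core4 (t : Fin 4 → V) (ht : Function.Injective t) (β : V → V) (x : V → ℝ)
    (r : V → V → ℝ) (hx : ∀ u, 0 ≤ x u) (hr : ∀ k v, 0 ≤ r k v) (p : Sym2 V → ℝ)
    (S : Finset (Sym2 V)) (hS : ∀ s ∈ S, ¬ s.IsDiag) (hp : ∀ s ∈ S, 0 ≤ p s)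
    (he : s(t 0, t 1) ∉ S) (hf : s(t 2, t 3) ∉ S)
    (h1 : ∀ u v, (∀ i, u ≠ t i) → (∀ i, v ≠ t i) → β u ≠ β v → s(u, v) ∉ S)
    (h2 : ∀ u, (∀ i, u ≠ t i) → ∀ j, (if s(u, t j) ∈ S then p s(u, t j) else 0) =
      x u * r (β u) (t j)) :
    Z p S (fun A => (gr A).IsAcyclic) *
      Z p S (fun A => (gr (insert s(t 0, t 1) (insert s(t 2, t 3) A))).IsAcyclic) ≤
    Z p S (fun A => (gr (insert s(t 0, t 1) A)).IsAcyclic) *
      Z p S (fun A => (gr (insert s(t 2, t 3) A)).IsAcyclic) := by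
  obtain ⟨q, hq⟩ : ∃ q : Sym2 V → ℝ, q = fun s => if s ∈ S then p s else 0 := ⟨_, rfl⟩
  have hq0 : ∀ s, 0 ≤ q s := by
    intro s
    rw [hq]
    simp only
    split_ifs with h
    · exact hp s h
    · exact le_rfl
  obtain ⟨l, hl⟩ : ∃ l, l = pre t (bks t β x r q) ++ KT t (fun e => q s(t e.1, t e.2)) :=
    ⟨_, rfl⟩
  have hW : ∀ s, ¬ s.IsDiag → Wt l s = q s := by
    intro s hs
    rw [hl]
    apply Wt_total t ht β x r q _ _ s hs
    · intro u v hu hv hb
      rw [hq]
      exact if_neg (h1 u v hu hv hb)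
    · intro u hu j
      rw [hq]
      exact h2 u hu j
  have hW1 : ∀ s ∈ S, Wt l s = p s := by
    intro s hs
    rw [hW s (hS s hs), hq]
    exact if_pos hs
  have hW2 : ∀ s, ¬ s.IsDiag → s ∉ S → Wt l s = 0 := by
    intro s hd hs
    rw [hW s hd, hq]
    exact if_neg hs
  have t01 : t 0 ≠ t 1 := fun h => absurd (ht h) (by decide)
  have t02 : t 0 ≠ t 2 := fun h => absurd (ht h) (by decide)
  have t03 : t 0 ≠ t 3 := fun h => absurd (ht h) (by decide)
  have t12 : t 1 ≠ t 2 := fun h => absurd (ht h) (by decide)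
  have t13 : t 1 ≠ t 3 := fun h => absurd (ht h) (by decide)
  have t23 : t 2 ≠ t 3 := fun h => absurd (ht h) (by decide)
  have ac0 : (gr (∅ : Finset (Sym2 V))).IsAcyclic := by simp [gr]
  have k0 : ∀ v w : V, (id v : V) = id w ↔ (gr (∅ : Finset (Sym2 V))).Reachable v w := kern_empty
  have ke := kern_insert id ∅ k0 (t 0) (t 1)
  have kf := kern_insert id ∅ k0 (t 2) (t 3)
  have ace : (gr (insert s(t 0, t 1) (∅ : Finset (Sym2 V)))).IsAcyclic := by
    rw [acyclic_insert ∅ _ _ t01 (by simp)]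
    exact ⟨ac0, by rw [← k0]; exact t01⟩
  have acf : (gr (insert s(t 2, t 3) (∅ : Finset (Sym2 V)))).IsAcyclic := by
    rw [acyclic_insert ∅ _ _ t23 (by simp)]
    exact ⟨ac0, by rw [← k0]; exact t23⟩
  have hef : s(t 2, t 3) ∉ insert s(t 0, t 1) (∅ : Finset (Sym2 V)) := by
    rw [Finset.mem_insert]
    rintro (h | h)
    · rw [Sym2.eq_iff] at h
      rcases h with ⟨h, _⟩ | ⟨h, _⟩
      · exact t02 h.symm
      · exact t12 h.symm
    · simp at h
  have acef : (gr (insert s(t 2, t 3) (insert s(t 0, t 1) (∅ : Finset (Sym2 V))))).IsAcyclic := by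
    rw [acyclic_insert _ _ _ t23 hef]
    refine ⟨ace, ?_⟩
    rw [← ke, mrg_eq_iff]
    simp only [id]
    rintro (h | ⟨h | h, _⟩)
    · exact t23 h
    · exact t02 h.symm
    · exact t12 h.symm
  have kef := kern_insert _ _ ke (t 2) (t 3)
  have main := main_nonneg t ht (bks t β x r q) ?_ ?_ (fun e => q s(t e.1, t e.2))
    (fun e => hq0 _)
  · rw [← hl] at main
    rw [FS_set l p S id ∅ ac0 k0 hS (by simp) hW1 hW2,
      FS_set l p S _ _ ace ke hS (by simpa using he) hW1 hW2,
      FS_set l p S _ _ acf kf hS (by simpa using hf) hW1 hW2,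
      FS_set l p S _ _ acef kef hS (by
        intro s hs
        rw [Finset.mem_insert, Finset.mem_insert] at hs
        rcases hs with rfl | rfl | hs
        · exact hf
        · exact he
        · simp at hs) hW1 hW2] at main
    have u1 : ∀ A : Finset (Sym2 V), ∅ ∪ A = A := fun A => Finset.empty_union A
    have u2 : ∀ (e : Sym2 V) (A : Finset (Sym2 V)), insert e ∅ ∪ A = insert e A := by
      intro e A; ext y; simp
    have u3 : ∀ (e f : Sym2 V) (A : Finset (Sym2 V)),
        insert f (insert e ∅) ∪ A = insert e (insert f A) := by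
      intro e f A; ext y; simp; tauto
    simp only [u1, u2, u3] at main
    exact main
  · intro b hb
    rw [bks, List.mem_map] at hb
    obtain ⟨k, _, rfl⟩ := hb
    refine ⟨Finset.nodup_toList _, fun u _ => hx u, fun i => hr k (t i), ?_, ?_⟩
    · intro u hu i
      rw [bk, Finset.mem_toList] at hu
      simp only [Ub, Finset.mem_filter] at hu
      exact hu.2.1 i
    · intro e he
      rw [bk, List.mem_map] at he
      obtain ⟨y, hy, rfl⟩ := he
      rw [Finset.mem_toList, Finset.mem_product] at hy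
      refine ⟨?_, ?_, ?_⟩
      · exact Finset.mem_toList.2 hy.1
      · exact Finset.mem_toList.2 hy.2
      · exact div_nonneg (hq0 _) (by norm_num)
  · rw [bks, List.pairwise_map]
    apply List.Pairwise.imp_of_mem (R := fun a b => a ≠ b) _ (Finset.nodup_toList _)
    intro k k' _ _ hkk u hu v hv huv
    rw [bk, Finset.mem_toList] at hu hv
    simp only [Ub, Finset.mem_filter] at hu hv
    apply hkk
    rw [← hu.2.2, ← hv.2.2, huv]

end Pool.Agent.Work.MP_ec1f6a_co
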