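import Pool.Agent.Work.MP_ec1f6a_co.RC12

/-!
Disjoint edges whose complement consists of blocks attached with rank-one weights.
-/

set_option autoImplicit false

namespace Pool.Agent.Work.MP_ec1f6a_co

open Finset SimpleGraph
open scoped Classical

variable {V : Type*} [Fintype V]

theorem blocks_core (E : Finset (Sym2 V)) (hE : ∀ g ∈ E, ¬ g.IsDiag) (p : Sym2 V → ℝ)
    (hp : ∀ g ∈ E, 0 ≤ p g) (a b c d : V) (he : s(a, b) ∈ E) (hf : s(c, d) ∈ E)
    (hac : a ≠ c) (had : a ≠ d) (hbc : b ≠ c) (hbd : b ≠ d)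
    (β : V → V) (x : V → ℝ) (r : V → V → ℝ) (hx : ∀ u, 0 ≤ x u) (hr : ∀ k v, 0 ≤ r k v)
    (h1 : ∀ u v, u ∉ ({a, b, c, d} : Finset V) → v ∉ ({a, b, c, d} : Finset V) →
      s(u, v) ∈ E → β u = β v)
    (h2 : ∀ u v, u ∉ ({a, b, c, d} : Finset V) → v ∈ ({a, b, c, d} : Finset V) →
      (if s(u, v) ∈ E then p s(u, v) else 0) = x u * r (β u) v) :
    Z p E (fun A => s(a, b) ∈ A ∧ s(c, d) ∈ A ∧ (gr A).IsAcyclic) *
      Z p E (fun A => (gr A).IsAcyclic) ≤
    Z p E (fun A => s(a, b) ∈ A ∧ (gr A).IsAcyclic) *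
      Z p E (fun A => s(c, d) ∈ A ∧ (gr A).IsAcyclic) := by
  have hab : a ≠ b := by simpa using hE _ he
  have hcd : c ≠ d := by simpa using hE _ hf
  have hef : s(a, b) ≠ s(c, d) := by
    intro h
    rw [Sym2.eq_iff] at h
    rcases h with ⟨h, _⟩ | ⟨h, _⟩
    · exact hac h
    · exact had h
  obtain ⟨S, hS⟩ : ∃ S : Finset (Sym2 V), S = (E.erase s(a, b)).erase s(c, d) := ⟨_, rfl⟩
  have hfe : s(c, d) ∈ E.erase s(a, b) := Finset.mem_erase.2 ⟨hef.symm, hf⟩
  have hE0 : E = insert s(a, b) (insert s(c, d) S) := by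
    rw [hS, Finset.insert_erase hfe, Finset.insert_erase he]
  have hbS : s(a, b) ∉ S := by rw [hS]; simp
  have hdS : s(c, d) ∉ S := by rw [hS]; simp
  have hsub : ∀ g ∈ S, g ∈ E := by
    intro g hg
    rw [hE0]; simp [hg]
  have hmem : ∀ g, g ∈ S ↔ g ∈ E ∧ g ≠ s(a, b) ∧ g ≠ s(c, d) := by
    intro g
    rw [hS, Finset.mem_erase, Finset.mem_erase]
    tauto
  obtain ⟨t, ht⟩ : ∃ t : Fin 4 → V, t = ![a, b, c, d] := ⟨_, rfl⟩
  have htinj : Function.Injective t := by
    intro i j hij
    rw [ht] at hij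
    fin_cases i <;> fin_cases j <;> simp at hij ⊢ <;>
      first
      | exact hab hij | exact hab hij.symm | exact hac hij | exact hac hij.symm
      | exact had hij | exact had hij.symm | exact hbc hij | exact hbc hij.symm
      | exact hbd hij | exact hbd hij.symm | exact hcd hij | exact hcd hij.symm
  have hT : ∀ u, (∀ i, u ≠ t i) ↔ u ∉ ({a, b, c, d} : Finset V) := by
    intro u
    rw [ht]
    simp only [Finset.mem_insert, Finset.mem_singleton, not_or]
    constructor
    · intro h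
      exact ⟨h 0, h 1, h 2, h 3⟩
    · rintro ⟨k0, k1, k2, k3⟩ i
      fin_cases i
      · exact k0
      · exact k1
      · exact k2
      · exact k3
  have e0 : t 0 = a := by rw [ht]; rfl
  have e1 : t 1 = b := by rw [ht]; rfl
  have e2 : t 2 = c := by rw [ht]; rfl
  have e3 : t 3 = d := by rw [ht]; rfl
  have key := core4 t htinj β x r hx hr p S (fun g hg => hE g (hsub g hg))
    (fun g hg => hp g (hsub g hg)) (by rw [e0, e1]; exact hbS) (by rw [e2, e3]; exact hdS)
    (by
      intro u v hu hv hb hs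
      exact hb (h1 u v ((hT u).1 hu) ((hT v).1 hv) (hsub _ hs)))
    (by
      intro u hu j
      have hu' := (hT u).1 hu
      have hj : t j ∈ ({a, b, c, d} : Finset V) := by
        by_contra h
        exact (hT (t j)).2 h j rfl
      rw [← h2 u (t j) hu' hj]
      have : s(u, t j) ∈ S ↔ s(u, t j) ∈ E := by
        rw [hmem]
        constructor
        · exact fun h => h.1
        · intro h
          refine ⟨h, ?_, ?_⟩
          · intro h'
            rw [Sym2.eq_iff] at h'
            apply hu'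
            rcases h' with ⟨h', _⟩ | ⟨h', _⟩ <;> simp [h']
          · intro h'
            rw [Sym2.eq_iff] at h'
            apply hu'
            rcases h' with ⟨h', _⟩ | ⟨h', _⟩ <;> simp [h']
      simp only [this])
  rw [e0, e1, e2, e3] at key
  have hpp : 0 ≤ p s(a, b) * p s(c, d) := mul_nonneg (hp _ he) (hp _ hf)
  rw [hE0]
  rw [Z_split p S _ _ hbS hdS hef, Z_split p S _ _ hbS hdS hef,
    Z_split p S _ _ hbS hdS hef, Z_split p S _ _ hbS hdS hef]
  rw [Z_zero p S (fun A => s(a, b) ∈ A ∧ s(c, d) ∈ A ∧ (gr A).IsAcyclic)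
      (fun A hA h => hbS (hA h.1)),
    Z_zero p S (fun A => s(a, b) ∈ insert s(a, b) A ∧ s(c, d) ∈ insert s(a, b) A ∧
      (gr (insert s(a, b) A)).IsAcyclic) (fun A hA h => by
        rcases Finset.mem_insert.1 h.2.1 with h1 | h1
        · exact hef h1.symm
        · exact hdS (hA h1)),
    Z_zero p S (fun A => s(a, b) ∈ insert s(c, d) A ∧ s(c, d) ∈ insert s(c, d) A ∧
      (gr (insert s(c, d) A)).IsAcyclic) (fun A hA h => by
        rcases Finset.mem_insert.1 h.1 with h1 | h1
        · exact hef h1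
        · exact hbS (hA h1)),
    Z_zero p S (fun A => s(a, b) ∈ A ∧ (gr A).IsAcyclic) (fun A hA h => hbS (hA h.1)),
    Z_zero p S (fun A => s(a, b) ∈ insert s(c, d) A ∧ (gr (insert s(c, d) A)).IsAcyclic)
      (fun A hA h => by
        rcases Finset.mem_insert.1 h.1 with h1 | h1
        · exact hef h1
        · exact hbS (hA h1)),
    Z_zero p S (fun A => s(c, d) ∈ A ∧ (gr A).IsAcyclic) (fun A hA h => hdS (hA h.1)),
    Z_zero p S (fun A => s(c, d) ∈ insert s(a, b) A ∧ (gr (insert s(a, b) A)).IsAcyclic)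
      (fun A hA h => by
        rcases Finset.mem_insert.1 h.1 with h1 | h1
        · exact hef h1.symm
        · exact hdS (hA h1))]
  have m1 : ∀ A : Finset (Sym2 V), s(a, b) ∈ insert s(a, b) (insert s(c, d) A) := by
    intro A; simp
  have m2 : ∀ A : Finset (Sym2 V), s(c, d) ∈ insert s(a, b) (insert s(c, d) A) := by
    intro A; simp
  have m3 : ∀ A : Finset (Sym2 V), s(a, b) ∈ insert s(a, b) A := by
    intro A; simp
  have m4 : ∀ A : Finset (Sym2 V), s(c, d) ∈ insert s(c, d) A := by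
    intro A; simp
  simp only [m1, m2, m3, m4, true_and]
  nlinarith [mul_le_mul_of_nonneg_left key hpp]

end Pool.Agent.Work.MP_ec1f6a_co
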