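import Pool.Agent.Work.MP_ec1f6a_co.RC1

/-!
Star and rank-one complete graph on four terminals.
-/

set_option autoImplicit false

namespace Pool.Agent.Work.MP_ec1f6a_co

open Finset
open scoped Classical

variable {V : Type*}

/-- star at `u` with edges to the four terminals -/
def star4 (t : Fin 4 → V) (r : Fin 4 → ℝ) (u : V) (x : ℝ) : List (V × V × ℝ) :=
  ([0, 1, 2, 3] : List (Fin 4)).map (fun q => (u, t q, x * r q))

/-- the six pairs -/
def prs : List (Fin 4 × Fin 4) := [(0, 1), (0, 2), (0, 3), (1, 2), (1, 3), (2, 3)]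

/-- rank-one weights on the complete graph of the terminals -/
def TT (t : Fin 4 → V) (r : Fin 4 → ℝ) (τ : ℝ) : List (V × V × ℝ) :=
  prs.map (fun q => (t q.1, t q.2, τ * (r q.1 * r q.2)))

/-- indicator of different classes -/
noncomputable def dl (t : Fin 4 → V) (c : V → V) (i j : Fin 4) : ℝ :=
  if c (t i) = c (t j) then 0 else 1

noncomputable def E2 (t : Fin 4 → V) (r : Fin 4 → ℝ) (c : V → V) : ℝ :=
  dl t c 0 1 * (r 0 * r 1) + dl t c 0 2 * (r 0 * r 2) + dl t c 0 3 * (r 0 * r 3) +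
  dl t c 1 2 * (r 1 * r 2) + dl t c 1 3 * (r 1 * r 3) + dl t c 2 3 * (r 2 * r 3)

noncomputable def E3 (t : Fin 4 → V) (r : Fin 4 → ℝ) (c : V → V) : ℝ :=
  dl t c 0 1 * dl t c 0 2 * dl t c 1 2 * (r 0 * r 1 * r 2) +
  dl t c 0 1 * dl t c 0 3 * dl t c 1 3 * (r 0 * r 1 * r 3) +
  dl t c 0 2 * dl t c 0 3 * dl t c 2 3 * (r 0 * r 2 * r 3) +
  dl t c 1 2 * dl t c 1 3 * dl t c 2 3 * (r 1 * r 2 * r 3)

noncomputable def E4 (t : Fin 4 → V) (r : Fin 4 → ℝ) (c : V → V) : ℝ :=
  dl t c 0 1 * dl t c 0 2 * dl t c 0 3 * dl t c 1 2 * dl t c 1 3 * dl t c 2 3 *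
    (r 0 * r 1 * r 2 * r 3)

/-- total -/
def Rs (r : Fin 4 → ℝ) : ℝ := r 0 + r 1 + r 2 + r 3

theorem star_eval (t : Fin 4 → V) (r : Fin 4 → ℝ) (u : V) (x : ℝ) (c : V → V)
    (hu : ∀ i, c u ≠ c (t i)) :
    FS (star4 t r u x) c = 1 + x * Rs r + x ^ 2 * E2 t r c + x ^ 3 * E3 t r c +
      x ^ 4 * E4 t r c := by
  have u0 := hu 0
  have u1 := hu 1
  have u2 := hu 2
  have u3 := hu 3
  clear hu
  have u0' := u0.symm
  have u1' := u1.symm
  have u2' := u2.symm
  have u3' := u3.symm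
  simp only [star4, List.map_cons, List.map_nil, FS_cons, FS_nil, mrg, E2, E3, E4, dl, Rs]
  generalize c (t 0) = a0 at *
  generalize c (t 1) = a1 at *
  generalize c (t 2) = a2 at *
  generalize c (t 3) = a3 at *
  generalize c u = b at *
  have key : ∀ a b : V, (a = b) = (b = a) := fun a b => propext eq_comm
  by_cases h01 : a0 = a1 <;> by_cases h02 : a0 = a2 <;> by_cases h03 : a0 = a3 <;>
  by_cases h12 : a1 = a2 <;> by_cases h13 : a1 = a3 <;> by_cases h23 : a2 = a3 <;>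
  first
  | (exfalso; grind)
  | (have h10 := h01; have h20 := h02; have h30 := h03; have h21 := h12; have h31 := h13
     have h32 := h23
     rw [key] at h10 h20 h30 h21 h31 h32
     subst_vars
     simp [*]
     try ring)

theorem TT_eval (t : Fin 4 → V) (r : Fin 4 → ℝ) (τ : ℝ) (c : V → V) :
    FS (TT t r τ) c = 1 + τ * E2 t r c + τ ^ 2 * (Rs r * E3 t r c - E4 t r c) +
      τ ^ 3 * (Rs r ^ 2 * E4 t r c) := by
  simp only [TT, prs, List.map_cons, List.map_nil, FS_cons, FS_nil, mrg, E2, E3, E4, dl, Rs]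
  generalize c (t 0) = a0 at *
  generalize c (t 1) = a1 at *
  generalize c (t 2) = a2 at *
  generalize c (t 3) = a3 at *
  have key : ∀ a b : V, (a = b) = (b = a) := fun a b => propext eq_comm
  by_cases h01 : a0 = a1 <;> by_cases h02 : a0 = a2 <;> by_cases h03 : a0 = a3 <;>
  by_cases h12 : a1 = a2 <;> by_cases h13 : a1 = a3 <;> by_cases h23 : a2 = a3 <;>
  first
  | (exfalso; grind)
  | (have h10 := h01; have h20 := h02; have h30 := h03; have h21 := h12; have h31 := h13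
     have h32 := h23
     rw [key] at h10 h20 h30 h21 h31 h32
     subst_vars
     simp [*]
     try ring)

end Pool.Agent.Work.MP_ec1f6a_co
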