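import Pool.Agent.Work.MP_ec1f6a_co.RC2

/-!
A block attached to the terminals by rank-one weights acts like a random rank-one weighting of the
complete graph on the terminals.
-/

set_option autoImplicit false

namespace Pool.Agent.Work.MP_ec1f6a_co

open Finset
open scoped Classical

variable {V : Type*}

/-- cubic polynomial with given coefficients -/
def cub (K : Fin 4 → ℝ) (τ : ℝ) : ℝ := K 0 + K 1 * τ + K 2 * τ ^ 2 + K 3 * τ ^ 3

/-- pairing of coefficients and moments -/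
def dot (K m : Fin 4 → ℝ) : ℝ := K 0 * m 0 + K 1 * m 1 + K 2 * m 2 + K 3 * m 3

/-- convolution of moments -/
def conv (m m' : Fin 4 → ℝ) : Fin 4 → ℝ :=
  ![m 0 * m' 0, m 1 * m' 0 + m 0 * m' 1, m 2 * m' 0 + 2 * (m 1 * m' 1) + m 0 * m' 2,
    m 3 * m' 0 + 3 * (m 2 * m' 1) + 3 * (m 1 * m' 2) + m 0 * m' 3]

/-- moments of one vertex -/
noncomputable def m1 (R x : ℝ) : Fin 4 → ℝ :=
  ![1 + x * R, x ^ 2, x ^ 3 / R, x ^ 4 / R ^ 2 + x ^ 3 / R ^ 3]

/-- moments of a list of vertices -/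
noncomputable def mom (R : ℝ) : List ℝ → Fin 4 → ℝ
  | [] => ![1, 0, 0, 0]
  | x :: l => conv (m1 R x) (mom R l)

theorem cub_unique (K K' : Fin 4 → ℝ) (h : ∀ τ, cub K τ = cub K' τ) : K = K' := by
  have h0 := h 0
  have h1 := h 1
  have h2 := h 2
  have h3 := h 3
  simp only [cub] at h0 h1 h2 h3
  norm_num at h0 h1 h2 h3
  ext i
  fin_cases i <;> simp <;> linarith

theorem dot_add_smul (K K' m : Fin 4 → ℝ) (w : ℝ) :
    dot (fun i => K i + w * K' i) m = dot K m + w * dot K' m := by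
  simp only [dot]; ring

theorem cub_add_smul (K K' : Fin 4 → ℝ) (w τ : ℝ) :
    cub (fun i => K i + w * K' i) τ = cub K τ + w * cub K' τ := by
  simp only [cub]; ring

/-- `K` is the coefficient vector of the forest sum with random terminal weights -/
def Rep (t : Fin 4 → V) (r : Fin 4 → ℝ) (l : List (V × V × ℝ)) (c : V → V) (K : Fin 4 → ℝ) :
    Prop := ∀ τ, FS (TT t r τ ++ l) c = cub K τ

theorem Rep_unique {t : Fin 4 → V} {r : Fin 4 → ℝ} {l : List (V × V × ℝ)} {c : V → V}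
    {K K' : Fin 4 → ℝ} (h : Rep t r l c K) (h' : Rep t r l c K') : K = K' :=
  cub_unique K K' (fun τ => by rw [← h τ, ← h' τ])

/-- coefficients of the empty list -/
noncomputable def K0 (t : Fin 4 → V) (r : Fin 4 → ℝ) (c : V → V) : Fin 4 → ℝ :=
  ![1, E2 t r c, Rs r * E3 t r c - E4 t r c, Rs r ^ 2 * E4 t r c]

theorem Rep_nil (t : Fin 4 → V) (r : Fin 4 → ℝ) (c : V → V) : Rep t r [] c (K0 t r c) := by
  intro τ
  rw [List.append_nil, TT_eval]
  simp only [cub, K0, Matrix.cons_val]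
  ring

theorem Rep_cons (t : Fin 4 → V) (r : Fin 4 → ℝ) (i j : V) (w : ℝ) (l : List (V × V × ℝ))
    (c : V → V) (K K' : Fin 4 → ℝ) (h : Rep t r l c K) (h' : Rep t r l (mrg c i j) K') :
    Rep t r ((i, j, w) :: l) c (fun k => K k + (if c i = c j then 0 else w) * K' k) := by
  intro τ
  rw [FS_perm (List.perm_middle (l₁ := TT t r τ)), FS_cons, h τ, h' τ, cub_add_smul]
  split_ifs <;> ring

theorem Rep_exists (t : Fin 4 → V) (r : Fin 4 → ℝ) (l : List (V × V × ℝ)) (c : V → V) :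
    ∃ K, Rep t r l c K := by
  induction l generalizing c with
  | nil => exact ⟨_, Rep_nil t r c⟩
  | cons e l ih =>
    obtain ⟨i, j, w⟩ := e
    obtain ⟨K, hK⟩ := ih c
    obtain ⟨K', hK'⟩ := ih (mrg c i j)
    exact ⟨_, Rep_cons t r i j w l c K K' hK hK'⟩

/-- the class of `u` is separated from the terminals and from the list -/
def Sep (t : Fin 4 → V) (l : List (V × V × ℝ)) (c : V → V) (u : V) : Prop :=
  (∀ i, c u ≠ c (t i)) ∧ ∀ v, Occ l v → c u ≠ c v

theorem Sep_mrg {t : Fin 4 → V} {i j : V} {w : ℝ} {l : List (V × V × ℝ)} {c : V → V} {u : V}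
    (h : Sep t ((i, j, w) :: l) c u) : Sep t l (mrg c i j) u := by
  have hi : c u ≠ c i := h.2 i (by rw [Occ_cons]; simp)
  have hj : c u ≠ c j := h.2 j (by rw [Occ_cons]; simp)
  constructor
  · intro k
    rw [Ne, mrg_eq_iff]
    have := h.1 k
    tauto
  · intro v hv
    rw [Ne, mrg_eq_iff]
    have := h.2 v (by rw [Occ_cons]; exact Or.inr hv)
    tauto

theorem Sep_tail {t : Fin 4 → V} {e : V × V × ℝ} {l : List (V × V × ℝ)} {c : V → V} {u : V}
    (h : Sep t (e :: l) c u) : Sep t l c u := by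
  obtain ⟨i, j, w⟩ := e
  exact ⟨h.1, fun v hv => h.2 v (by rw [Occ_cons]; exact Or.inr hv)⟩

/-- a star at an isolated vertex -/
theorem star_step (t : Fin 4 → V) (r : Fin 4 → ℝ) (hR : Rs r ≠ 0) (u : V) (x : ℝ)
    (l : List (V × V × ℝ)) (c : V → V) (hu : Sep t l c u) (K : Fin 4 → ℝ)
    (hK : Rep t r l c K) :
    FS (star4 t r u x ++ l) c = dot K (m1 (Rs r) x) := by
  suffices h : ∀ (l : List (V × V × ℝ)) (c : V → V), Sep t l c u →
      ∃ K, Rep t r l c K ∧ FS (star4 t r u x ++ l) c = dot K (m1 (Rs r) x) by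
    obtain ⟨K', h1, h2⟩ := h l c hu
    rw [h2, Rep_unique hK h1]
  intro l
  induction l with
  | nil =>
    intro c hu
    refine ⟨_, Rep_nil t r c, ?_⟩
    rw [List.append_nil, star_eval t r u x c hu.1]
    simp only [dot, K0, m1, Matrix.cons_val]
    field_simp
    ring
  | cons e l ih =>
    intro c hu
    obtain ⟨i, j, w⟩ := e
    obtain ⟨K, hK, h1⟩ := ih c (Sep_tail hu)
    obtain ⟨K', hK', h2⟩ := ih (mrg c i j) (Sep_mrg hu)
    refine ⟨_, Rep_cons t r i j w l c K K' hK hK', ?_⟩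
    rw [FS_perm (List.perm_middle (l₁ := star4 t r u x)), FS_cons, h1, h2, dot_add_smul]
    split_ifs <;> ring

/-- adding up two rank-one weightings -/
theorem TT_add (t : Fin 4 → V) (r : Fin 4 → ℝ) (σ τ : ℝ) (l : List (V × V × ℝ)) (c : V → V) :
    FS (TT t r σ ++ (TT t r τ ++ l)) c = FS (TT t r (σ + τ) ++ l) c := by
  have h := FS_addW prs (fun q => t q.1) (fun q => t q.2) (fun q => σ * (r q.1 * r q.2))
    (fun q => τ * (r q.1 * r q.2)) l c
  have e : TT t r (σ + τ) = prs.map (fun q => (t q.1, t q.2, σ * (r q.1 * r q.2) +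
      τ * (r q.1 * r q.2))) := by
    unfold TT
    apply List.map_congr_left
    intro q _
    rw [add_mul]
  rw [e]
  exact h

/-- Taylor shift -/
def shift (K : Fin 4 → ℝ) (τ : ℝ) : Fin 4 → ℝ :=
  ![K 0 + K 1 * τ + K 2 * τ ^ 2 + K 3 * τ ^ 3, K 1 + 2 * K 2 * τ + 3 * K 3 * τ ^ 2,
    K 2 + 3 * K 3 * τ, K 3]

theorem cub_shift (K : Fin 4 → ℝ) (σ τ : ℝ) : cub (shift K τ) σ = cub K (σ + τ) := by
  simp only [cub, shift, Matrix.cons_val]; ring

theorem Rep_TT (t : Fin 4 → V) (r : Fin 4 → ℝ) (l : List (V × V × ℝ)) (c : V → V)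
    (K : Fin 4 → ℝ) (h : Rep t r l c K) (τ : ℝ) : Rep t r (TT t r τ ++ l) c (shift K τ) := by
  intro σ
  rw [TT_add, h, cub_shift]

/-- mixed coefficients -/
def mix (K m : Fin 4 → ℝ) : Fin 4 → ℝ :=
  ![dot K m, K 1 * m 0 + 2 * K 2 * m 1 + 3 * K 3 * m 2, K 2 * m 0 + 3 * K 3 * m 1, K 3 * m 0]

theorem dot_shift (K m : Fin 4 → ℝ) (τ : ℝ) : dot (shift K τ) m = cub (mix K m) τ := by
  simp only [cub, shift, mix, dot, Matrix.cons_val]; ring

theorem dot_mix (K m m' : Fin 4 → ℝ) : dot (mix K m') m = dot K (conv m m') := by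
  simp only [mix, conv, dot, Matrix.cons_val]; ring

end Pool.Agent.Work.MP_ec1f6a_co
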