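import Pool.Agent.Work.MP_ec1f6a_co.RC3

/-!
Expansion of a block attached with rank-one weights.
-/

set_option autoImplicit false

namespace Pool.Agent.Work.MP_ec1f6a_co

open Finset
open scoped Classical

variable {V : Type*}

/-- all stars of a list of vertices -/
def stars (t : Fin 4 → V) (r : Fin 4 → ℝ) (x : V → ℝ) : List V → List (V × V × ℝ)
  | [] => []
  | u :: us => star4 t r u (x u) ++ stars t r x us

/-- edges to a root -/
noncomputable def rt (o : V) (z : ℂ) (x : V → ℝ) (us : List V) : List (V × V × ℂ) :=
  us.map (fun u => (u, o, z * (x u : ℂ)))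

/-- complex weights -/
noncomputable def cst (l : List (V × V × ℝ)) : List (V × V × ℂ) :=
  l.map (fun e => (e.1, e.2.1, (e.2.2 : ℂ)))

theorem FS_rel {R : Type*} [CommRing R] {ι : Type*} (L : List ι) (u u' : V) (j : ι → V)
    (f : ι → R) (l : List (V × V × R)) (c : V → V) (h : c u = c u') :
    FS (L.map (fun q => (u, j q, f q)) ++ l) c = FS (L.map (fun q => (u', j q, f q)) ++ l) c := by
  induction L generalizing c with
  | nil => rfl
  | cons q L ih =>
    simp only [List.map_cons, List.cons_append]
    have h1 : mrg c u (j q) = mrg c u' (j q) := by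
      unfold mrg; rw [h]
    rw [FS_cons, FS_cons, ih c h, h1, ih (mrg c u' (j q)) (by unfold mrg; rw [h]), h]

theorem star4_rel (t : Fin 4 → V) (r : Fin 4 → ℝ) (u u' : V) (x : ℝ) (l : List (V × V × ℝ))
    (c : V → V) (h : c u = c u') :
    FS (star4 t r u x ++ l) c = FS (star4 t r u' x ++ l) c :=
  FS_rel _ u u' t (fun q => x * r q) l c h

theorem star4_add (t : Fin 4 → V) (r : Fin 4 → ℝ) (u : V) (x y : ℝ) (l : List (V × V × ℝ))
    (c : V → V) :
    FS (star4 t r u x ++ (star4 t r u y ++ l)) c = FS (star4 t r u (x + y) ++ l) c := by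
  have h := FS_addW ([0, 1, 2, 3] : List (Fin 4)) (fun _ => u) t (fun q => x * r q)
    (fun q => y * r q) l c
  have e : star4 t r u (x + y) = ([0, 1, 2, 3] : List (Fin 4)).map
      (fun q => (u, t q, x * r q + y * r q)) := by
    unfold star4
    apply List.map_congr_left
    intro q _
    rw [add_mul]
  rw [e]
  exact h

theorem stars_perm (t : Fin 4 → V) (r : Fin 4 → ℝ) (x : V → ℝ) {us us' : List V}
    (h : us.Perm us') : (stars t r x us).Perm (stars t r x us') := by
  induction h with
  | nil => exact List.Perm.refl _
  | cons u _ ih => exact List.Perm.append_left _ ih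
  | swap u v l =>
    simp only [stars]
    rw [← List.append_assoc, ← List.append_assoc]
    exact List.Perm.append_right _ List.perm_append_comm
  | trans _ _ ih1 ih2 => exact ih1.trans ih2

theorem stars_congr (t : Fin 4 → V) (r : Fin 4 → ℝ) (x y : V → ℝ) (us : List V)
    (h : ∀ u ∈ us, x u = y u) : stars t r x us = stars t r y us := by
  induction us with
  | nil => rfl
  | cons u us ih =>
    simp only [stars]
    rw [h u (by simp), ih (fun v hv => h v (by simp [hv]))]

theorem Occ_star4 (t : Fin 4 → V) (r : Fin 4 → ℝ) (u : V) (x : ℝ) (v : V)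
    (h : Occ (star4 t r u x) v) : v = u ∨ ∃ i, v = t i := by
  obtain ⟨e, he, hv⟩ := h
  simp only [star4, List.mem_map] at he
  obtain ⟨q, _, rfl⟩ := he
  rcases hv with hv | hv
  · exact Or.inl hv
  · exact Or.inr ⟨q, hv⟩

theorem Occ_stars (t : Fin 4 → V) (r : Fin 4 → ℝ) (x : V → ℝ) (us : List V) (v : V)
    (h : Occ (stars t r x us) v) : v ∈ us ∨ ∃ i, v = t i := by
  induction us with
  | nil => obtain ⟨e, he, _⟩ := h; simp [stars] at he
  | cons u us ih =>
    simp only [stars, Occ_append] at h
    rcases h with h | h
    · rcases Occ_star4 t r u (x u) v h with h | h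
      · left; simp [h]
      · right; exact h
    · rcases ih h with h | h
      · left; simp [h]
      · right; exact h

theorem Occ_TT (t : Fin 4 → V) (r : Fin 4 → ℝ) (τ : ℝ) (v : V)
    (h : Occ (TT t r τ) v) : ∃ i, v = t i := by
  obtain ⟨e, he, hv⟩ := h
  simp only [TT, List.mem_map] at he
  obtain ⟨q, _, rfl⟩ := he
  rcases hv with hv | hv
  · exact ⟨_, hv⟩
  · exact ⟨_, hv⟩

theorem Sep_TT {t : Fin 4 → V} {l : List (V × V × ℝ)} {c : V → V} {u : V} (h : Sep t l c u)
    (r : Fin 4 → ℝ) (τ : ℝ) : Sep t (TT t r τ ++ l) c u := by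
  refine ⟨h.1, fun v hv => ?_⟩
  rw [Occ_append] at hv
  rcases hv with hv | hv
  · obtain ⟨i, rfl⟩ := Occ_TT t r τ v hv
    exact h.1 i
  · exact h.2 v hv

theorem update_sum (x : V → ℝ) (u' : V) (y : ℝ) (us : List V) (hnd : us.Nodup) (hu : u' ∈ us) :
    (us.map (Function.update x u' (x u' + y))).sum = (us.map x).sum + y := by
  induction us with
  | nil => simp at hu
  | cons v us ih =>
    simp only [List.map_cons, List.sum_cons]
    rw [List.nodup_cons] at hnd
    by_cases hv : v = u'
    · subst hv
      rw [Function.update_self]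
      have : us.map (Function.update x v (x v + y)) = us.map x := by
        apply List.map_congr_left
        intro w hw
        rw [Function.update_of_ne]
        rintro rfl
        exact hnd.1 hw
      rw [this]; ring
    · rw [Function.update_of_ne hv]
      have : u' ∈ us := by
        rcases List.mem_cons.1 hu with h | h
        · exact absurd h.symm hv
        · exact h
      rw [ih hnd.2 this]; ring

theorem base (t : Fin 4 → V) (r : Fin 4 → ℝ) (hR : Rs r ≠ 0) (o : V) (us : List V) :
    us.Nodup → ∀ (x : V → ℝ) (_ : ∀ u ∈ us, 0 ≤ x u) (c : V → V) (_ : ∀ u ∈ us, c u ≠ c o),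
    ∃ ls : List ℝ, (∀ y ∈ ls, 0 ≤ y) ∧ ls.sum = (us.map x).sum ∧
      (∀ z : ℂ, FS (rt o z x us) c = (ls.map (fun y : ℝ => 1 + (y : ℂ) * z)).prod) ∧
      ∀ (l : List (V × V × ℝ)) (K : Fin 4 → ℝ), (∀ u ∈ us, Sep t l c u) → Rep t r l c K →
        FS (stars t r x us ++ l) c = dot K (mom (Rs r) ls) := by
  induction us with
  | nil =>
    intro _ x _ c _
    refine ⟨[], by simp, by simp, fun z => by simp [rt, FS_nil], ?_⟩
    intro l K _ hK
    have h := hK 0
    have h2 : ∀ (L : List (Fin 4 × Fin 4)), FS (L.map (fun q => (t q.1, t q.2,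
        (0 : ℝ) * (r q.1 * r q.2))) ++ l) c = FS l c := by
      intro L
      induction L with
      | nil => rfl
      | cons q L ih => rw [List.map_cons, List.cons_append, zero_mul, FS_zero, ih]
    simp only [stars, List.nil_append]
    rw [TT, h2] at h
    rw [h]
    simp only [cub, dot, mom, Matrix.cons_val]
    ring
  | cons u us ih =>
    intro hnd x hx c ho
    have hnd' := (List.nodup_cons.1 hnd)
    by_cases hcase : ∃ u' ∈ us, c u' = c u
    · obtain ⟨u', hu', hcu⟩ := hcase
      obtain ⟨x', hx'⟩ : ∃ x', x' = Function.update x u' (x u' + x u) := ⟨_, rfl⟩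
      have hpos : ∀ v ∈ us, 0 ≤ x' v := by
        intro v hv
        rw [hx']
        by_cases hvu : v = u'
        · subst hvu
          rw [Function.update_self]
          exact add_nonneg (hx v (by simp [hv])) (hx u (by simp))
        · rw [Function.update_of_ne hvu]
          exact hx v (by simp [hv])
      obtain ⟨ls, h1, h2, h3, h4⟩ := ih hnd'.2 x' hpos c (fun v hv => ho v (by simp [hv]))
      have hperm : us.Perm (u' :: us.erase u') := List.perm_cons_erase hu'
      have hnd'' : (u' :: us.erase u').Nodup := hperm.nodup_iff.1 hnd'.2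
      have hagree : ∀ v ∈ us.erase u', x v = x' v := by
        intro v hv
        rw [hx', Function.update_of_ne]
        rintro rfl
        exact (List.nodup_cons.1 hnd'').1 hv
      have hxu' : x' u' = x u + x u' := by
        rw [hx', Function.update_self, add_comm]
      refine ⟨ls, h1, ?_, ?_, ?_⟩
      · rw [h2, hx', update_sum x u' (x u) us hnd'.2 hu']
        simp only [List.map_cons, List.sum_cons]
        ring
      · intro z
        rw [← h3 z]
        have p1 : (rt o z x (u :: us)).Perm ((u, o, z * (x u : ℂ)) :: (u', o, z * (x u' : ℂ)) ::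
            rt o z x (us.erase u')) := by
          unfold rt
          rw [List.map_cons]
          apply List.Perm.cons
          rw [← List.map_cons (f := fun u => (u, o, z * (x u : ℂ)))]
          exact hperm.map _
        have p2 : (rt o z x' us).Perm ((u', o, z * (x' u' : ℂ)) :: rt o z x' (us.erase u')) := by
          unfold rt
          rw [← List.map_cons (f := fun u => (u, o, z * (x' u : ℂ)))]
          exact hperm.map _
        have p3 : rt o z x (us.erase u') = rt o z x' (us.erase u') := by
          unfold rt
          apply List.map_congr_left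
          intro v hv
          rw [hagree v hv]
        rw [FS_perm p1, FS_perm p2, p3]
        have h5 := FS_rel [()] u u' (fun _ => o) (fun _ => z * (x u : ℂ))
          ((u', o, z * (x u' : ℂ)) :: rt o z x' (us.erase u')) c hcu.symm
        simp only [List.map_cons, List.map_nil, List.singleton_append] at h5
        rw [h5, FS_par, hxu']
        congr 3
        push_cast
        ring
      · intro l K hsep hK
        rw [← h4 l K (fun v hv => hsep v (by simp [hv])) hK]
        simp only [stars]
        rw [FS_perm ((((stars_perm t r x hperm).append_left (star4 t r u (x u))).append_right l)),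
          FS_perm ((stars_perm t r x' hperm).append_right l)]
        simp only [stars]
        rw [stars_congr t r x x' (us.erase u') hagree, List.append_assoc, List.append_assoc,
          List.append_assoc, star4_rel t r u u' (x u) _ c hcu.symm, star4_add, hxu']
    · push Not at hcase
      obtain ⟨ls, h1, h2, h3, h4⟩ := ih hnd'.2 x (fun v hv => hx v (by simp [hv])) c
        (fun v hv => ho v (by simp [hv]))
      refine ⟨x u :: ls, ?_, ?_, ?_, ?_⟩
      · intro y hy
        rcases List.mem_cons.1 hy with h | h
        · rw [h]; exact hx u (by simp)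
        · exact h1 y h
      · simp [h2]
      · intro z
        have h5 : rt o z x (u :: us) = (u, o, z * (x u : ℂ)) :: rt o z x us := rfl
        rw [h5, FS_leaf u o _ _ c (ho u (by simp)), h3 z, List.map_cons, List.prod_cons]
        · ring
        · intro v hv
          obtain ⟨e, he, hve⟩ := hv
          simp only [rt, List.mem_map] at he
          obtain ⟨q, hq, rfl⟩ := he
          rcases hve with hve | hve
          · rw [hve]; exact hcase q hq
          · rw [hve]; exact (ho u (by simp)).symm
      · intro l K hsep hK
        have hs := hsep u (by simp)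
        simp only [stars, List.append_assoc]
        rw [star_step t r hR u (x u) (stars t r x us ++ l) c ?_ (mix K (mom (Rs r) ls)) ?_,
          dot_mix, mom]
        · refine ⟨hs.1, fun v hv => ?_⟩
          rw [Occ_append] at hv
          rcases hv with hv | hv
          · rcases Occ_stars t r x us v hv with hv | ⟨i, rfl⟩
            · exact (hcase v hv).symm
            · exact hs.1 i
          · exact hs.2 v hv
        · intro τ
          have p : (TT t r τ ++ (stars t r x us ++ l)).Perm (stars t r x us ++ (TT t r τ ++ l)) := by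
            rw [← List.append_assoc, ← List.append_assoc]
            exact List.perm_append_comm.append_right l
          rw [FS_perm p, h4 (TT t r τ ++ l) (shift K τ)
            (fun v hv => Sep_TT (hsep v (by simp [hv])) r τ) (Rep_TT t r l c K hK τ), dot_shift]

/-- expansion of a block over its forests -/
theorem block (t : Fin 4 → V) (r : Fin 4 → ℝ) (hR : Rs r ≠ 0) (o : V) (us : List V)
    (hnd : us.Nodup) (x : V → ℝ) (hx : ∀ u ∈ us, 0 ≤ x u) (lU : List (V × V × ℝ)) :
    (∀ e ∈ lU, e.1 ∈ us ∧ e.2.1 ∈ us ∧ 0 ≤ e.2.2) →
    ∀ (c : V → V) (_ : ∀ u ∈ us, c u ≠ c o),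
    ∃ D : List (ℝ × List ℝ), (∀ d ∈ D, 0 ≤ d.1 ∧ (∀ y ∈ d.2, 0 ≤ y) ∧
        d.2.sum = (us.map x).sum) ∧ 1 ≤ (D.map Prod.fst).sum ∧
      (∀ z : ℂ, FS (cst lU ++ rt o z x us) c =
        (D.map (fun d => (d.1 : ℂ) * (d.2.map (fun y : ℝ => 1 + (y : ℂ) * z)).prod)).sum) ∧
      ∀ (l : List (V × V × ℝ)) (K : Fin 4 → ℝ), (∀ u ∈ us, Sep t l c u) → Rep t r l c K →
        FS (lU ++ (stars t r x us ++ l)) c = (D.map (fun d => d.1 * dot K (mom (Rs r) d.2))).sum := by
  induction lU with
  | nil =>
    intro _ c ho
    obtain ⟨ls, h1, h2, h3, h4⟩ := base t r hR o us hnd x hx c ho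
    refine ⟨[(1, ls)], ?_, by simp, ?_, ?_⟩
    · intro d hd
      rw [List.mem_singleton] at hd
      subst hd
      exact ⟨zero_le_one, h1, h2⟩
    · intro z
      simp only [cst, List.map_nil, List.nil_append, List.map_cons, List.sum_cons, List.sum_nil]
      rw [h3 z]
      push_cast
      ring
    · intro l K hs hK
      simp only [List.nil_append, List.map_cons, List.map_nil, List.sum_cons, List.sum_nil]
      rw [h4 l K hs hK]
      ring
  | cons e lU ih =>
    intro hlU c ho
    obtain ⟨i, j, w⟩ := e
    have hlU' := fun e he => hlU e (List.mem_cons_of_mem _ he)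
    obtain ⟨hi, hj, hw⟩ := hlU (i, j, w) (by simp)
    simp only at hi hj hw
    obtain ⟨D1, a1, a2, a3, a4⟩ := ih hlU' c ho
    have hos : ∀ u ∈ us, mrg c i j u ≠ mrg c i j o := by
      intro u hu
      rw [Ne, mrg_eq_iff]
      have h1 := ho u hu
      have h2 := ho i hi
      have h3 := ho j hj
      grind
    obtain ⟨D2, b1, b2, b3, b4⟩ := ih hlU' (mrg c i j) hos
    have hrep : ∀ (l : List (V × V × ℝ)) (K : Fin 4 → ℝ), (∀ u ∈ us, Sep t l c u) →
        Rep t r l c K → Rep t r l (mrg c i j) K := by
      intro l K hs hK τ
      rw [← hK τ]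
      apply FS_congr_on
      intro v w hv hw
      rw [mrg_eq_iff]
      have h1 := (Sep_TT (hs i hi) r τ).2 v hv
      have h2 := (Sep_TT (hs j hj) r τ).2 v hv
      grind
    have hsep : ∀ (l : List (V × V × ℝ)), (∀ u ∈ us, Sep t l c u) →
        ∀ u ∈ us, Sep t l (mrg c i j) u := by
      intro l hs u hu
      refine ⟨fun k => ?_, fun v hv => ?_⟩
      · rw [Ne, mrg_eq_iff]
        have h1 := (hs i hi).1 k
        have h2 := (hs j hj).1 k
        have h3 := (hs u hu).1 k
        grind
      · rw [Ne, mrg_eq_iff]
        have h1 := (hs i hi).2 v hv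
        have h2 := (hs j hj).2 v hv
        have h3 := (hs u hu).2 v hv
        grind
    by_cases hij : c i = c j
    · refine ⟨D1, a1, a2, ?_, ?_⟩
      · intro z
        rw [← a3 z]
        exact FS_loop i j _ _ c hij
      · intro l K hs hK
        rw [← a4 l K hs hK]
        exact FS_loop i j _ _ c hij
    · refine ⟨D1 ++ D2.map (fun d => (w * d.1, d.2)), ?_, ?_, ?_, ?_⟩
      · intro d hd
        rw [List.mem_append] at hd
        rcases hd with hd | hd
        · exact a1 d hd
        · rw [List.mem_map] at hd
          obtain ⟨d', hd', rfl⟩ := hd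
          obtain ⟨h1, h2, h3⟩ := b1 d' hd'
          exact ⟨mul_nonneg hw h1, h2, h3⟩
      · rw [List.map_append, List.sum_append, List.map_map]
        have : 0 ≤ (D2.map (Prod.fst ∘ fun d => (w * d.1, d.2))).sum := by
          apply List.sum_nonneg
          intro y hy
          rw [List.mem_map] at hy
          obtain ⟨d', hd', rfl⟩ := hy
          exact mul_nonneg hw (b1 d' hd').1
        linarith
      · intro z
        have h5 : cst ((i, j, w) :: lU) ++ rt o z x us =
          (i, j, (w : ℂ)) :: (cst lU ++ rt o z x us) := rfl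
        rw [h5, FS_cons, if_neg hij, a3 z, b3 z, List.map_append, List.sum_append, List.map_map,
          ← List.sum_map_mul_left]
        congr 3
        funext d
        simp only [Function.comp]
        push_cast
        ring
      · intro l K hs hK
        rw [List.cons_append, FS_cons, if_neg hij, a4 l K hs hK,
          b4 l K (hsep l hs) (hrep l K hs hK), List.map_append, List.sum_append, List.map_map,
          ← List.sum_map_mul_left]
        congr 3
        funext d
        simp only [Function.comp]
        ring

end Pool.Agent.Work.MP_ec1f6a_co
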