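import Pool.Agent.Work.MP_ec1f6a_co.RC4

/-!
Moments of a block through its real-rooted forest polynomial.
-/

set_option autoImplicit false

namespace Pool.Agent.Work.MP_ec1f6a_co

open Polynomial

/-- polynomial of a list of vertices -/
noncomputable def poly (l : List ℝ) : ℝ[X] := (l.map (fun y => 1 + C y * X)).prod

/-- moments of a polynomial -/
noncomputable def MM (R p : ℝ) (P : ℝ[X]) : Fin 4 → ℝ :=
  ![P.eval R, (p * P.eval R - (derivative P).eval R) / R,
    (p ^ 2 * P.eval R - 2 * p * (derivative P).eval R + (derivative (derivative P)).eval R) / R ^ 2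
      + (p * P.eval R - (derivative P).eval R) / R ^ 3,
    (p ^ 3 * P.eval R - 3 * p ^ 2 * (derivative P).eval R
        + 3 * p * (derivative (derivative P)).eval R
        - (derivative (derivative (derivative P))).eval R) / R ^ 3
      + 3 * (p ^ 2 * P.eval R - 2 * p * (derivative P).eval R
        + (derivative (derivative P)).eval R) / R ^ 4
      + 3 * (p * P.eval R - (derivative P).eval R) / R ^ 5]

theorem poly_cons (y : ℝ) (l : List ℝ) : poly (y :: l) = (1 + C y * X) * poly l := by
  simp [poly]

theorem mom_eq (R : ℝ) (hR : R ≠ 0) (l : List ℝ) : mom R l = MM R l.sum (poly l) := by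
  induction l with
  | nil =>
    ext i
    fin_cases i <;> simp [mom, MM, poly]
  | cons y l ih =>
    rw [mom, ih, poly_cons, List.sum_cons]
    have d1 : derivative ((1 + C y * X) * poly l) =
        C y * poly l + (1 + C y * X) * derivative (poly l) := by
      simp [derivative_mul]
    have d2 : derivative (derivative ((1 + C y * X) * poly l)) =
        2 * C y * derivative (poly l) + (1 + C y * X) * derivative (derivative (poly l)) := by
      rw [d1]; simp [derivative_mul]; ring
    have d3 : derivative (derivative (derivative ((1 + C y * X) * poly l))) =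
        3 * C y * derivative (derivative (poly l)) +
          (1 + C y * X) * derivative (derivative (derivative (poly l))) := by
      rw [d2]; simp [derivative_mul]; ring
    have e1 := congrArg (eval R) d1
    have e2 := congrArg (eval R) d2
    have e3 := congrArg (eval R) d3
    simp only [eval_add, eval_mul, eval_C, eval_X, eval_one, eval_ofNat] at e1 e2 e3
    have e0 : eval R ((1 + C y * X) * poly l) = (1 + y * R) * eval R (poly l) := by simp
    ext i
    fin_cases i
    · simp [conv, m1, MM]
    · simp only [conv, m1, MM, Matrix.cons_val, e0, e1]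
      simp only [Fin.mk_one, Matrix.cons_val]
      field_simp
      ring
    · simp only [conv, m1, MM, e0, e1, e2]
      simp only [Fin.reduceFinMk, Matrix.cons_val]
      field_simp
      ring
    · simp only [conv, m1, MM, e0, e1, e2, e3]
      simp only [Fin.reduceFinMk, Matrix.cons_val]
      field_simp
      ring

theorem dot_MM_add (K : Fin 4 → ℝ) (R p : ℝ) (P Q : ℝ[X]) :
    dot K (MM R p (P + Q)) = dot K (MM R p P) + dot K (MM R p Q) := by
  simp only [dot, MM, Matrix.cons_val, derivative_add, eval_add]
  ring

theorem dot_MM_smul (K : Fin 4 → ℝ) (R p w : ℝ) (P : ℝ[X]) :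
    dot K (MM R p (C w * P)) = w * dot K (MM R p P) := by
  simp only [dot, MM, Matrix.cons_val, derivative_C_mul, eval_mul, eval_C]
  ring

theorem dot_MM_zero (K : Fin 4 → ℝ) (R p : ℝ) : dot K (MM R p 0) = 0 := by
  simp [dot, MM]

/-- polynomial of an expansion -/
noncomputable def polyD (D : List (ℝ × List ℝ)) : ℝ[X] :=
  (D.map (fun d => C d.1 * poly d.2)).sum

theorem sum_mom (R : ℝ) (hR : R ≠ 0) (K : Fin 4 → ℝ) (p : ℝ) (D : List (ℝ × List ℝ))
    (hD : ∀ d ∈ D, d.2.sum = p) :
    (D.map (fun d => d.1 * dot K (mom R d.2))).sum = dot K (MM R p (polyD D)) := by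
  induction D with
  | nil => simp [polyD, dot_MM_zero]
  | cons d D ih =>
    have h1 : polyD (d :: D) = C d.1 * poly d.2 + polyD D := by simp [polyD]
    rw [h1, dot_MM_add, dot_MM_smul, List.map_cons, List.sum_cons,
      ih (fun e he => hD e (by simp [he])), mom_eq R hR, hD d (by simp)]

/-- a real polynomial without zeros off the real line and on the nonnegative half-line -/
theorem factor (P : ℝ[X]) (h1 : ∀ z : ℂ, 0 < z.im → (P.map (algebraMap ℝ ℂ)).eval z ≠ 0)
    (h2 : ∀ v : ℝ, 0 ≤ v → 0 < P.eval v) :
    ∃ l : List ℝ, (∀ y ∈ l, 0 ≤ y) ∧ P = C (P.eval 0) * poly l := by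
  obtain ⟨Q, hQ⟩ : ∃ Q : ℂ[X], Q = P.map (algebraMap ℝ ℂ) := ⟨_, rfl⟩
  have hP0 : P ≠ 0 := by
    rintro rfl
    have := h2 0 le_rfl
    simp at this
  have hQ0 : Q ≠ 0 := by
    rw [hQ]
    exact (Polynomial.map_ne_zero_iff (algebraMap ℝ ℂ).injective).2 hP0
  have hs := (IsAlgClosed.splits Q).eq_prod_roots
  have hroot : ∀ a ∈ Q.roots, a.im = 0 ∧ a.re < 0 := by
    intro a ha
    have ha' : Q.eval a = 0 := (Polynomial.mem_roots hQ0).1 ha
    have him : a.im = 0 := by
      rcases lt_trichotomy a.im 0 with h | h | h
      · exfalso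
        apply h1 ((starRingEnd ℂ) a) (by simpa using h)
        have : (P.map (algebraMap ℝ ℂ)).eval ((starRingEnd ℂ) a) =
            (starRingEnd ℂ) ((P.map (algebraMap ℝ ℂ)).eval a) := by
          rw [Polynomial.eval_map_algebraMap, Polynomial.eval_map_algebraMap]
          exact Polynomial.aeval_conj P a
        rw [this, ← hQ, ha', map_zero]
      · exact h
      · exfalso
        apply h1 a h
        rw [← hQ, ha']
    refine ⟨him, ?_⟩
    by_contra hre
    push Not at hre
    have h3 := h2 a.re hre
    have h4 : a = ((a.re : ℝ) : ℂ) := by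
      apply Complex.ext <;> simp [him]
    have h5 : Q.eval a = ((P.eval a.re : ℝ) : ℂ) := by
      conv_lhs => rw [h4]
      rw [hQ, Polynomial.eval_map]
      exact Polynomial.eval₂_at_apply (algebraMap ℝ ℂ) a.re
    rw [ha'] at h5
    have : P.eval a.re = 0 := by exact_mod_cast h5.symm
    linarith
  refine ⟨(Q.roots.map (fun a => -1 / a.re)).toList, ?_, ?_⟩
  · intro y hy
    rw [Multiset.mem_toList, Multiset.mem_map] at hy
    obtain ⟨a, ha, rfl⟩ := hy
    have := (hroot a ha).2
    exact (div_pos_of_neg_of_neg (by norm_num) this).le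
  · apply Polynomial.map_injective (algebraMap ℝ ℂ) (algebraMap ℝ ℂ).injective
    rw [← hQ]
    have h6 : ((poly (Q.roots.map (fun a => -1 / a.re)).toList)).map (algebraMap ℝ ℂ) =
        (Q.roots.map (fun a => 1 + C (-1 / a) * X)).prod := by
      rw [poly, ← Multiset.prod_coe, ← Multiset.map_coe, Multiset.coe_toList,
        Polynomial.map_multiset_prod, Multiset.map_map, Multiset.map_map]
      congr 1
      apply Multiset.map_congr rfl
      intro a ha
      have h4 : a = ((a.re : ℝ) : ℂ) := by
        apply Complex.ext <;> simp [(hroot a ha).1]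
      simp only [Function.comp, Polynomial.map_add, Polynomial.map_one, Polynomial.map_mul,
        Polynomial.map_C, Polynomial.map_X]
      congr 3
      conv_rhs => rw [h4]
      simp
    rw [Polynomial.map_mul, Polynomial.map_C, h6]
    have h7 : (algebraMap ℝ ℂ) (P.eval 0) = Q.eval 0 := by
      rw [hQ, ← map_zero (algebraMap ℝ ℂ), Polynomial.eval_map, Polynomial.eval₂_at_apply]
    have h8 : Q.eval 0 = Q.leadingCoeff * (Q.roots.map (fun a => -a)).prod := by
      conv_lhs => rw [hs]
      rw [eval_mul, eval_C, Polynomial.eval_multiset_prod, Multiset.map_map]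
      congr 2
      apply Multiset.map_congr rfl
      intro a _
      simp
    rw [h7, h8]
    conv_lhs => rw [hs]
    rw [C_mul, mul_assoc]
    congr 1
    have h9 : C ((Q.roots.map (fun a => -a)).prod) = (Q.roots.map (fun a => C (-a))).prod := by
      rw [map_multiset_prod, Multiset.map_map]
      rfl
    rw [h9, ← Multiset.prod_map_mul]
    congr 1
    apply Multiset.map_congr rfl
    intro a ha
    have ha0 : a ≠ 0 := by
      rintro rfl
      have := (hroot 0 ha).2
      simp at this
    rw [mul_add, mul_one, ← mul_assoc, ← C_mul]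
    have : -a * (-1 / a) = 1 := by field_simp
    rw [this]
    simp
    ring

end Pool.Agent.Work.MP_ec1f6a_co
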