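import Pool.Agent.Work.MP_ec1f6a_co.RC5

/-!
Lists of edges and sums over edge sets; the forest polynomial of a block has only real zeros.
-/

set_option autoImplicit false
set_option linter.unusedSectionVars false

namespace Pool.Agent.Work.MP_ec1f6a_co

open Finset SimpleGraph
open scoped Classical

section W

variable {V : Type*} {R : Type*} [CommRing R]

/-- total weight of an edge in a list -/
noncomputable def Wt (l : List (V × V × R)) (s : Sym2 V) : R :=
  (l.map (fun e => if s(e.1, e.2.1) = s then e.2.2 else 0)).sum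

theorem Wt_nil (s : Sym2 V) : Wt ([] : List (V × V × R)) s = 0 := rfl

theorem Wt_cons (i j : V) (w : R) (l : List (V × V × R)) (s : Sym2 V) :
    Wt ((i, j, w) :: l) s = (if s(i, j) = s then w else 0) + Wt l s := by
  simp [Wt]

theorem Wt_append (l l' : List (V × V × R)) (s : Sym2 V) :
    Wt (l ++ l') s = Wt l s + Wt l' s := by
  simp [Wt]

variable [Fintype V]

/-- all non-diagonal pairs -/
noncomputable def E0 (V : Type*) [Fintype V] : Finset (Sym2 V) := univ.filter (fun s => ¬ s.IsDiag)

/-- sum over the forests containing `A0` -/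
noncomputable def ZA (W : Sym2 V → R) (A0 : Finset (Sym2 V)) : R :=
  Z W (E0 V \ A0) (fun A => (gr (A0 ∪ A)).IsAcyclic)

theorem Z_insert (W : Sym2 V → R) (S : Finset (Sym2 V)) (s : Sym2 V) (hs : s ∉ S)
    (Q : Finset (Sym2 V) → Prop) :
    Z W (insert s S) Q = Z W S Q + W s * Z W S (fun A => Q (insert s A)) := by
  simp only [Z]
  rw [Finset.sum_powerset_insert hs, Finset.mul_sum]
  congr 1
  apply Finset.sum_congr rfl
  intro A hA
  have hA' : s ∉ A := fun h => hs (Finset.mem_powerset.1 hA h)
  rw [Finset.prod_insert hA']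
  split_ifs <;> ring

theorem Z_Q_congr (W : Sym2 V → R) (S : Finset (Sym2 V)) (Q Q' : Finset (Sym2 V) → Prop)
    (h : ∀ A, A ⊆ S → (Q A ↔ Q' A)) : Z W S Q = Z W S Q' := by
  apply Finset.sum_congr rfl
  intro A hA
  simp only [h A (Finset.mem_powerset.1 hA)]

theorem ZA_update (W : Sym2 V → R) (A0 : Finset (Sym2 V)) (i j : V) (w : R)
    (hij : i ≠ j) (hA0 : (gr A0).IsAcyclic) :
    ZA (Function.update W s(i, j) (w + W s(i, j))) A0 =
      ZA W A0 + if (gr A0).Reachable i j then 0 else w * ZA W (insert s(i, j) A0) := by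
  by_cases hs : s(i, j) ∈ A0
  · have hadj : (gr A0).Adj i j := by
      rw [gr, fromEdgeSet_adj]; exact ⟨hs, hij⟩
    rw [if_pos hadj.reachable, add_zero]
    apply Z_congr
    intro x hx
    rw [Function.update_of_ne]
    rintro rfl
    exact (Finset.mem_sdiff.1 hx).2 hs
  · obtain ⟨S', hS'⟩ : ∃ S', S' = E0 V \ insert s(i, j) A0 := ⟨_, rfl⟩
    have hsE : s(i, j) ∈ E0 V := by simp [E0, hij]
    have hsS' : s(i, j) ∉ S' := by rw [hS']; simp
    have hE : E0 V \ A0 = insert s(i, j) S' := by
      rw [hS']
      ext x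
      simp only [Finset.mem_sdiff, Finset.mem_insert]
      constructor
      · rintro ⟨h1, h2⟩
        by_cases hx : x = s(i, j)
        · exact Or.inl hx
        · exact Or.inr ⟨h1, by tauto⟩
      · rintro (rfl | ⟨h1, h2⟩)
        · exact ⟨hsE, hs⟩
        · exact ⟨h1, by tauto⟩
    have hcongr : ∀ Q, Z (Function.update W s(i, j) (w + W s(i, j))) S' Q = Z W S' Q := by
      intro Q
      apply Z_congr
      intro x hx
      rw [Function.update_of_ne]
      rintro rfl
      exact hsS' hx
    rw [ZA, ZA, hE, Z_insert _ _ _ hsS', Z_insert _ _ _ hsS', hcongr, hcongr,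
      Function.update_self]
    have hun : Z W S' (fun A => (gr (A0 ∪ insert s(i, j) A)).IsAcyclic) =
        ZA W (insert s(i, j) A0) := by
      rw [ZA, ← hS']
      apply Z_Q_congr
      intro A _
      have : A0 ∪ insert s(i, j) A = insert s(i, j) A0 ∪ A := by
        rw [Finset.union_insert, Finset.insert_union]
      rw [this]
    rw [hun]
    split_ifs with hr
    · have : ZA W (insert s(i, j) A0) = 0 := by
        rw [ZA]
        apply Z_zero
        intro A _ hac
        have h1 : (gr (insert s(i, j) A0)).IsAcyclic := by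
          apply hac.anti
          apply fromEdgeSet_mono
          exact_mod_cast Finset.subset_union_left
        rw [acyclic_insert A0 i j hij hs] at h1
        exact h1.2 hr
      rw [this]; ring
    · ring

theorem FS_ZA (l : List (V × V × R)) (c : V → V) (A0 : Finset (Sym2 V))
    (hA0 : (gr A0).IsAcyclic) (hc : ∀ v w, c v = c w ↔ (gr A0).Reachable v w) :
    FS l c = ZA (Wt l) A0 := by
  induction l generalizing c A0 with
  | nil =>
    rw [FS_nil, ZA, Z]
    rw [Finset.sum_eq_single ∅]
    · simp [hA0]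
    · intro A _ hA
      have : ∏ x ∈ A, Wt ([] : List (V × V × R)) x = 0 := by
        obtain ⟨y, hy⟩ := Finset.nonempty_iff_ne_empty.2 hA
        exact Finset.prod_eq_zero hy (Wt_nil y)
      rw [this]; simp
    · intro h; simp at h
  | cons e l ih =>
    obtain ⟨i, j, w⟩ := e
    by_cases hij : i = j
    · subst hij
      rw [FS_loop i i w l c rfl, ih c A0 hA0 hc]
      apply Z_congr
      intro x hx
      rw [Wt_cons, if_neg, zero_add]
      rintro rfl
      have := (Finset.mem_sdiff.1 hx).1
      simp [E0] at this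
    · have hW : Wt ((i, j, w) :: l) = Function.update (Wt l) s(i, j) (w + Wt l s(i, j)) := by
        funext s
        rw [Wt_cons]
        by_cases hs : s(i, j) = s
        · subst hs; simp
        · rw [if_neg hs, Function.update_of_ne (Ne.symm hs), zero_add]
      rw [hW, ZA_update _ _ _ _ _ hij hA0, FS_cons, ih c A0 hA0 hc]
      congr 1
      by_cases hr : (gr A0).Reachable i j
      · rw [if_pos hr, if_pos ((hc i j).2 hr)]
      · rw [if_neg hr, if_neg (fun h => hr ((hc i j).1 h))]
        have hs : s(i, j) ∉ A0 := by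
          intro h
          apply hr
          apply Adj.reachable
          rw [gr, fromEdgeSet_adj]
          exact ⟨h, hij⟩
        rw [ih (mrg c i j) (insert s(i, j) A0) ((acyclic_insert A0 i j hij hs).2 ⟨hA0, hr⟩)]
        intro v w
        rw [mrg_eq_iff, gr_insert, reach_sup_edge, hc v w, hc v i, hc v j, hc w i, hc w j]
        have hsym : ∀ a b, (gr A0).Reachable a b ↔ (gr A0).Reachable b a :=
          fun a b => ⟨Reachable.symm, Reachable.symm⟩
        rw [hsym w i, hsym w j]
        constructor
        · rintro (h | ⟨h1 | h1, h2 | h2⟩)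
          · exact Or.inl h
          · exact Or.inl (h1.trans h2)
          · exact Or.inr (Or.inl ⟨h1, h2⟩)
          · exact Or.inr (Or.inr ⟨h1, h2⟩)
          · exact Or.inl (h1.trans h2)
        · rintro (h | ⟨h1, h2⟩ | ⟨h1, h2⟩)
          · exact Or.inl h
          · exact Or.inr ⟨Or.inl h1, Or.inr h2⟩
          · exact Or.inr ⟨Or.inr h1, Or.inl h2⟩

theorem FS_id (l : List (V × V × R)) : FS l id = Z (Wt l) (E0 V) (fun A => (gr A).IsAcyclic) := by
  rw [FS_ZA l id ∅]
  · rw [ZA]
    simp
  · simp [gr]
  · intro v w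
    simp [gr]

end W

section nonvan

open Matrix

variable {V : Type*} [Fintype V]

theorem T_stars (o : V) (w : Sym2 V → ℂ) (S : Finset (Sym2 V)) (hS : ∀ g ∈ S, o ∉ g)
    (K : Finset V) (hK : o ∉ K) (N : Matrix V V ℂ) :
    T o w (S ∪ K.image (fun k => s(o, k))) N = T o w S (N + ∑ k ∈ K, w s(o, k) • E k) := by
  induction K using Finset.induction_on generalizing N with
  | empty => simp
  | @insert k K hk ih =>
    have hk' : o ≠ k := fun h => hK (by rw [h]; simp)
    have hK' : o ∉ K := fun h => hK (Finset.mem_insert_of_mem h)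
    have h1 : S ∪ (insert k K).image (fun k => s(o, k)) =
        insert s(o, k) (S ∪ K.image (fun k => s(o, k))) := by
      rw [Finset.image_insert, Finset.union_insert]
    have h2 : s(o, k) ∉ S ∪ K.image (fun k => s(o, k)) := by
      rw [Finset.mem_union]
      rintro (h | h)
      · exact hS _ h (Sym2.mem_mk_left o k)
      · rw [Finset.mem_image] at h
        obtain ⟨m, hm, he⟩ := h
        rw [Sym2.eq_iff] at he
        rcases he with ⟨_, he⟩ | ⟨he, he2⟩
        · exact hk (he ▸ hm)
        · exact hk' he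
    rw [h1, T_star o w _ N k hk' h2, ih hK', Finset.sum_insert hk]
    congr 1
    rw [add_assoc]
    rfl

theorem T_root (o : V) (w : Sym2 V → ℂ) (S : Finset (Sym2 V)) (N : Matrix V V ℂ) (y : ℂ) :
    T o w S (N + y • E o) = T o w S N := by
  unfold T
  apply Finset.sum_congr rfl
  intro A _
  unfold term
  rw [E, claim_star_zero N (Jm o (gr A)) o (Jm_symm o _)
    (fun k => Jm_root o _ k o (Reachable.refl _)) y]

/-- a forest sum with all root weights in the upper half-plane -/
theorem Z_ne_zero (o : V) (w : Sym2 V → ℂ)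
    (h1 : ∀ g : Sym2 V, o ∉ g → ∃ r : ℝ, 0 ≤ r ∧ w g = r)
    (h2 : ∀ k, k ≠ o → 0 < (w s(o, k)).im) :
    Z w (E0 V) (fun A => (gr A).IsAcyclic) ≠ 0 := by
  obtain ⟨S1, hS1⟩ : ∃ S1, S1 = (E0 V).filter (fun g => o ∉ g) := ⟨_, rfl⟩
  have hE : E0 V = S1 ∪ (univ.erase o).image (fun k => s(o, k)) := by
    ext g
    rw [Finset.mem_union, hS1, Finset.mem_filter, Finset.mem_image]
    constructor
    · intro hg
      by_cases ho : o ∈ g
      · right
        obtain ⟨k, rfl⟩ := ho
        refine ⟨k, ?_, rfl⟩
        have : o ≠ k := by simpa [E0] using hg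
        simp [Ne.symm this]
      · exact Or.inl ⟨hg, ho⟩
    · rintro (⟨h, _⟩ | ⟨k, hk, rfl⟩)
      · exact h
      · have : k ≠ o := (Finset.mem_erase.1 hk).1
        simp [E0, Ne.symm this]
  rw [← T_Z o w, hE, T_stars o w S1 (fun g hg => by rw [hS1] at hg; exact (Finset.mem_filter.1 hg).2)
    (univ.erase o) (by simp), ← T_root o w S1 _ Complex.I]
  have hN : (0 : Matrix V V ℂ) + ∑ k ∈ univ.erase o, w s(o, k) • E k + Complex.I • E o =
      0 + diagonal (fun k => if k = o then Complex.I else w s(o, k)) := by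
    have h3 : ∀ z : V → ℂ, diagonal z = ∑ k, z k • E k := by
      intro z
      ext a b
      rw [Matrix.sum_apply]
      simp only [Matrix.smul_apply, E, vecMulVec_apply, Pi.single_apply, smul_eq_mul,
        diagonal_apply]
      rw [Finset.sum_eq_single a]
      · by_cases hab : a = b
        · simp [hab]
        · simp [hab, Ne.symm hab]
      · intro k _ hk
        simp [Ne.symm hk]
      · intro h; simp at h
    rw [h3, zero_add, zero_add, ← Finset.sum_erase_add univ _ (Finset.mem_univ o)]
    congr 1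
    · apply Finset.sum_congr rfl
      intro k hk
      rw [if_neg (Finset.mem_erase.1 hk).1]
    · simp
  rw [hN]
  apply stable o w S1
  · intro g hg
    rw [hS1] at hg
    have := (Finset.mem_filter.1 hg).1
    simpa [E0] using this
  · intro g _ hog
    exact h1 g hog
  · intro g hg hog
    rw [hS1] at hg
    exact absurd hog (Finset.mem_filter.1 hg).2
  · exact isHermitian_zero
  · intro k
    by_cases hk : k = o
    · simp [hk]
    · simp only [hk, if_false]
      exact h2 k hk

theorem Wt_root_of_not_mem (o : V) (z : ℂ) (x : V → ℝ) (us : List V) (g : Sym2 V) (h : o ∉ g) :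
    Wt (rt o z x us) g = 0 := by
  induction us with
  | nil => rfl
  | cons u us ih =>
    have : rt o z x (u :: us) = (u, o, z * (x u : ℂ)) :: rt o z x us := rfl
    rw [this, Wt_cons, ih, if_neg, add_zero]
    rintro rfl
    exact h (Sym2.mem_mk_right u o)

theorem Wt_cst (l : List (V × V × ℝ)) (g : Sym2 V) : Wt (cst l) g = ((Wt l g : ℝ) : ℂ) := by
  induction l with
  | nil => simp [cst, Wt]
  | cons e l ih =>
    obtain ⟨i, j, w⟩ := e
    have : cst ((i, j, w) :: l) = (i, j, (w : ℂ)) :: cst l := rfl
    rw [this, Wt_cons, Wt_cons, ih]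
    push_cast
    split_ifs <;> simp

theorem Wt_nonneg (l : List (V × V × ℝ)) (h : ∀ e ∈ l, 0 ≤ e.2.2) (g : Sym2 V) :
    0 ≤ Wt l g := by
  unfold Wt
  apply List.sum_nonneg
  intro y hy
  rw [List.mem_map] at hy
  obtain ⟨e, he, rfl⟩ := hy
  split_ifs
  · exact h e he
  · exact le_rfl

theorem Wt_rt_im (o : V) (z : ℂ) (hz : 0 < z.im) (x : V → ℝ) (us : List V)
    (hx : ∀ u ∈ us, 0 < x u) (k : V) : 0 ≤ (Wt (rt o z x us) s(o, k)).im ∧
      (k ∈ us → 0 < (Wt (rt o z x us) s(o, k)).im) := by
  induction us with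
  | nil => simp [rt, Wt]
  | cons u us ih =>
    have e : rt o z x (u :: us) = (u, o, z * (x u : ℂ)) :: rt o z x us := rfl
    obtain ⟨h1, h2⟩ := ih (fun v hv => hx v (by simp [hv]))
    rw [e, Wt_cons, Complex.add_im]
    have h3 : 0 < (z * (x u : ℂ)).im := by
      rw [Complex.im_mul_ofReal]
      exact mul_pos hz (hx u (by simp))
    constructor
    · split_ifs
      · linarith
      · simpa using h1
    · intro hk
      rcases List.mem_cons.1 hk with rfl | hk
      · rw [if_pos Sym2.eq_swap]
        linarith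
      · have := h2 hk
        split_ifs
        · linarith
        · simpa using this

theorem FS_leaves (o : V) (z : ℂ) (ks : List V) (hnd : ks.Nodup) (l : List (V × V × ℂ))
    (hk : ∀ k ∈ ks, k ≠ o ∧ ∀ v, Occ l v → v ≠ k) :
    FS (rt o z (fun _ => 1) ks ++ l) id = (1 + z) ^ ks.length * FS l id := by
  induction ks with
  | nil => simp [rt]
  | cons k ks ih =>
    have e : rt o z (fun _ => 1) (k :: ks) ++ l =
      (k, o, z * ((1 : ℝ) : ℂ)) :: (rt o z (fun _ => 1) ks ++ l) := rfl
    rw [List.nodup_cons] at hnd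
    rw [e, FS_leaf k o _ _ id (hk k (by simp)).1, ih hnd.2 (fun m hm => hk m (by simp [hm]))]
    · simp only [List.length_cons, Complex.ofReal_one, mul_one]
      ring
    · intro v hv
      rw [Occ_append] at hv
      rcases hv with hv | hv
      · obtain ⟨e, he, hve⟩ := hv
        simp only [rt, List.mem_map] at he
        obtain ⟨q, hq, rfl⟩ := he
        rcases hve with rfl | rfl
        · simp only [id]
          rintro rfl
          exact hnd.1 hq
        · simp only [id]
          exact (hk k (by simp)).1.symm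
      · exact (hk k (by simp)).2 v hv

theorem nonvan (o : V) (us : List V) (x : V → ℝ) (hx : ∀ u ∈ us, 0 < x u)
    (lU : List (V × V × ℝ)) (h : ∀ e ∈ lU, e.1 ∈ us ∧ e.2.1 ∈ us ∧ 0 ≤ e.2.2)
    (ho : o ∉ us) (z : ℂ) (hz : 0 < z.im) : FS (cst lU ++ rt o z x us) id ≠ 0 := by
  obtain ⟨ks, hks⟩ : ∃ ks : List V, ks = ((univ.erase o).filter (fun k => k ∉ us)).toList :=
    ⟨_, rfl⟩
  have hnd : ks.Nodup := by rw [hks]; exact Finset.nodup_toList _
  have hmem : ∀ k, k ∈ ks ↔ k ≠ o ∧ k ∉ us := by
    intro k; rw [hks]; simp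
  have hocc : ∀ v, Occ (cst lU ++ rt o z x us) v → v ∈ us ∨ v = o := by
    intro v hv
    rw [Occ_append] at hv
    rcases hv with hv | hv
    · obtain ⟨e, he, hve⟩ := hv
      rw [cst, List.mem_map] at he
      obtain ⟨e', he', rfl⟩ := he
      rcases hve with rfl | rfl
      · exact Or.inl (h e' he').1
      · exact Or.inl (h e' he').2.1
    · obtain ⟨e, he, hve⟩ := hv
      rw [rt, List.mem_map] at he
      obtain ⟨q, hq, rfl⟩ := he
      rcases hve with rfl | rfl
      · exact Or.inl hq
      · exact Or.inr rfl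
  have h1 := FS_leaves o z ks hnd (cst lU ++ rt o z x us) (by
    intro k hk
    obtain ⟨h1, h2⟩ := (hmem k).1 hk
    refine ⟨h1, fun v hv => ?_⟩
    rintro rfl
    rcases hocc v hv with h | h
    · exact h2 h
    · exact h1 h)
  intro h0
  rw [h0, mul_zero, FS_id] at h1
  revert h1
  apply Z_ne_zero o
  · intro g hg
    refine ⟨Wt lU g, Wt_nonneg lU (fun e he => (h e he).2.2) g, ?_⟩
    rw [Wt_append, Wt_append, Wt_root_of_not_mem o z _ ks g hg, Wt_root_of_not_mem o z x us g hg,
      Wt_cst]
    simp
  · intro k hk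
    rw [Wt_append, Wt_append, Complex.add_im, Complex.add_im, Wt_cst, Complex.ofReal_im]
    have a1 := Wt_rt_im o z hz (fun _ => 1) ks (fun _ _ => one_pos) k
    have a2 := Wt_rt_im o z hz x us hx k
    by_cases hku : k ∈ us
    · have := a2.2 hku
      linarith [a1.1]
    · have := a1.2 ((hmem k).2 ⟨hk, hku⟩)
      linarith [a2.1]

end nonvan

end Pool.Agent.Work.MP_ec1f6a_co
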