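import Pool.Agent.Work.MP_ec1f6a_co.RC6

/-!
A block is equivalent to a virtual independent set.
-/

set_option autoImplicit false

namespace Pool.Agent.Work.MP_ec1f6a_co

open Polynomial
open scoped Classical

theorem poly_eval_C (l : List ℝ) (z : ℂ) :
    ((poly l).map (algebraMap ℝ ℂ)).eval z = (l.map (fun y : ℝ => 1 + (y : ℂ) * z)).prod := by
  induction l with
  | nil => simp [poly]
  | cons y l ih =>
    rw [poly_cons, Polynomial.map_mul, eval_mul, ih, List.map_cons, List.prod_cons]
    simp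

theorem polyD_cons (d : ℝ × List ℝ) (D : List (ℝ × List ℝ)) :
    polyD (d :: D) = C d.1 * poly d.2 + polyD D := by simp [polyD]

theorem polyD_eval_C (D : List (ℝ × List ℝ)) (z : ℂ) :
    ((polyD D).map (algebraMap ℝ ℂ)).eval z =
      (D.map (fun d => (d.1 : ℂ) * (d.2.map (fun y : ℝ => 1 + (y : ℂ) * z)).prod)).sum := by
  induction D with
  | nil => simp [polyD]
  | cons d D ih =>
    rw [polyD_cons, Polynomial.map_add, eval_add, ih, Polynomial.map_mul, eval_mul, poly_eval_C,
      List.map_cons, List.sum_cons]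
    simp

theorem poly_eval_zero (l : List ℝ) : (poly l).eval 0 = 1 := by
  induction l with
  | nil => simp [poly]
  | cons y l ih => rw [poly_cons, eval_mul, ih]; simp

theorem poly_deriv_zero (l : List ℝ) : (derivative (poly l)).eval 0 = l.sum := by
  induction l with
  | nil => simp [poly]
  | cons y l ih =>
    rw [poly_cons, derivative_mul, eval_add, eval_mul, eval_mul, ih, poly_eval_zero]
    simp

theorem poly_ge_one (l : List ℝ) (h : ∀ y ∈ l, 0 ≤ y) (v : ℝ) (hv : 0 ≤ v) :
    1 ≤ (poly l).eval v := by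
  induction l with
  | nil => simp [poly]
  | cons y l ih =>
    have h1 := ih (fun z hz => h z (by simp [hz]))
    have h2 := h y (by simp)
    rw [poly_cons, eval_mul]
    simp only [eval_add, eval_one, eval_mul, eval_C, eval_X]
    nlinarith [mul_nonneg h2 hv]

theorem polyD_eval_zero (D : List (ℝ × List ℝ)) : (polyD D).eval 0 = (D.map Prod.fst).sum := by
  induction D with
  | nil => simp [polyD]
  | cons d D ih => rw [polyD_cons, eval_add, ih, eval_mul, poly_eval_zero]; simp

theorem polyD_deriv_zero (D : List (ℝ × List ℝ)) (p : ℝ) (h : ∀ d ∈ D, d.2.sum = p) :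
    (derivative (polyD D)).eval 0 = p * (D.map Prod.fst).sum := by
  induction D with
  | nil => simp [polyD]
  | cons d D ih =>
    rw [polyD_cons, derivative_add, eval_add, ih (fun e he => h e (by simp [he])),
      derivative_C_mul, eval_mul, poly_deriv_zero, h d (by simp)]
    simp
    ring

theorem polyD_pos (D : List (ℝ × List ℝ)) (h : ∀ d ∈ D, 0 ≤ d.1 ∧ ∀ y ∈ d.2, 0 ≤ y)
    (v : ℝ) (hv : 0 ≤ v) : (D.map Prod.fst).sum ≤ (polyD D).eval v := by
  induction D with
  | nil => simp [polyD]
  | cons d D ih =>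
    rw [polyD_cons, eval_add, eval_mul, eval_C, List.map_cons, List.sum_cons]
    have h1 := ih (fun e he => h e (by simp [he]))
    obtain ⟨h2, h3⟩ := h d (by simp)
    have h4 := poly_ge_one d.2 h3 v hv
    nlinarith

variable {V : Type*} [Fintype V]

theorem block_real (t : Fin 4 → V) (r : Fin 4 → ℝ) (hR : Rs r ≠ 0) (o : V) (us : List V)
    (hnd : us.Nodup) (x : V → ℝ) (hx : ∀ u ∈ us, 0 < x u) (lU : List (V × V × ℝ))
    (hlU : ∀ e ∈ lU, e.1 ∈ us ∧ e.2.1 ∈ us ∧ 0 ≤ e.2.2) (ho : o ∉ us) :
    ∃ (F : ℝ) (ls : List ℝ), 0 < F ∧ (∀ y ∈ ls, 0 ≤ y) ∧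
      ∀ (c : V → V), (∀ u ∈ us, ∀ v ∈ us, c u = c v → u = v) → (∀ u ∈ us, c u ≠ c o) →
      ∀ (l : List (V × V × ℝ)) (K : Fin 4 → ℝ), (∀ u ∈ us, Sep t l c u) → Rep t r l c K →
        FS (lU ++ (stars t r x us ++ l)) c = F * dot K (mom (Rs r) ls) := by
  have hx' : ∀ u ∈ us, 0 ≤ x u := fun u hu => (hx u hu).le
  obtain ⟨D, a1, a2, a3, _⟩ := block t r hR o us hnd x hx' lU hlU id (by
    intro u hu h
    simp only [id] at h
    exact ho (h ▸ hu))
  obtain ⟨P, hP⟩ : ∃ P, P = polyD D := ⟨_, rfl⟩
  have hPz : ∀ z : ℂ, (P.map (algebraMap ℝ ℂ)).eval z = FS (cst lU ++ rt o z x us) id := by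
    intro z
    rw [hP, polyD_eval_C, a3]
  have hP0 : P.eval 0 = (D.map Prod.fst).sum := by rw [hP, polyD_eval_zero]
  obtain ⟨ls, b1, b2⟩ := factor P (by
    intro z hz
    rw [hPz]
    exact nonvan o us x hx lU hlU ho z hz) (by
    intro v hv
    have := polyD_pos D (fun d hd => ⟨(a1 d hd).1, (a1 d hd).2.1⟩) v hv
    rw [hP]
    linarith)
  have hF : 0 < P.eval 0 := by rw [hP0]; linarith
  refine ⟨P.eval 0, ls, hF, b1, ?_⟩
  intro c hc hco l K hs hK
  obtain ⟨D', c1, c2, c3, c4⟩ := block t r hR o us hnd x hx' lU hlU c hco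
  have hPP : polyD D' = P := by
    apply Polynomial.map_injective (algebraMap ℝ ℂ) (algebraMap ℝ ℂ).injective
    apply Polynomial.funext
    intro z
    rw [hPz, polyD_eval_C, ← c3 z]
    apply FS_congr_on
    have hocc : ∀ v, Occ (cst lU ++ rt o z x us) v → v ∈ us ∨ v = o := by
      intro v hv
      rw [Occ_append] at hv
      rcases hv with hv | hv
      · obtain ⟨e, he, hve⟩ := hv
        rw [cst, List.mem_map] at he
        obtain ⟨e', he', rfl⟩ := he
        rcases hve with rfl | rfl
        · exact Or.inl (hlU e' he').1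
        · exact Or.inl (hlU e' he').2.1
      · obtain ⟨e, he, hve⟩ := hv
        rw [rt, List.mem_map] at he
        obtain ⟨q, hq, rfl⟩ := he
        rcases hve with rfl | rfl
        · exact Or.inl hq
        · exact Or.inr rfl
    intro v w hv hw
    simp only [id]
    constructor
    · intro h
      rcases hocc v hv with h1 | h1 <;> rcases hocc w hw with h2 | h2
      · exact hc v h1 w h2 h
      · rw [h2] at h; exact absurd h (hco v h1)
      · rw [h1] at h; exact absurd h.symm (hco w h2)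
      · rw [h1, h2]
    · intro h; rw [h]
  have hsum : ls.sum = (us.map x).sum := by
    have h1 : (derivative P).eval 0 = (us.map x).sum * P.eval 0 := by
      rw [hP0, hP, polyD_deriv_zero D _ (fun d hd => (a1 d hd).2.2)]
    have h2 : (derivative P).eval 0 = P.eval 0 * ls.sum := by
      conv_lhs => rw [b2]
      rw [derivative_C_mul, eval_mul, eval_C, poly_deriv_zero]
    have h3 : P.eval 0 * (ls.sum - (us.map x).sum) = 0 := by linarith
    rcases mul_eq_zero.1 h3 with h4 | h4
    · exact absurd h4 hF.ne'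
    · linarith
  rw [c4 l K hs hK, sum_mom (Rs r) hR K (us.map x).sum D' (fun d hd => (c1 d hd).2.2), hPP]
  conv_lhs => rw [b2]
  rw [dot_MM_smul, mom_eq (Rs r) hR, hsum]

end Pool.Agent.Work.MP_ec1f6a_co
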