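import Pool.Agent.Work.MP_ec1f6a_co.RC7

/-!
Moments of a block in closed form and their action on four-terminal states.
-/

set_option autoImplicit false

namespace Pool.Agent.Work.MP_ec1f6a_co

open scoped Classical

/-- sums over a list of vertices -/
noncomputable def sV (R : ℝ) (l : List ℝ) : ℝ := (l.map (fun y => y ^ 2 / (1 + y * R) ^ 2)).sum
noncomputable def s3 (R : ℝ) (l : List ℝ) : ℝ := (l.map (fun y => y ^ 3 / (1 + y * R) ^ 2)).sum
noncomputable def s4 (R : ℝ) (l : List ℝ) : ℝ := (l.map (fun y => y ^ 4 / (1 + y * R) ^ 3)).sum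
noncomputable def s2 (R : ℝ) (l : List ℝ) : ℝ := sV R l + R * s3 R l
noncomputable def w0 (R : ℝ) (l : List ℝ) : ℝ := (l.map (fun y => 1 + y * R)).prod

theorem w0_pos (R : ℝ) (hR : 0 < R) (l : List ℝ) (h : ∀ y ∈ l, 0 ≤ y) : 0 < w0 R l := by
  induction l with
  | nil => simp [w0]
  | cons y l ih =>
    have h1 := ih (fun z hz => h z (by simp [hz]))
    have h2 := h y (by simp)
    have e : w0 R (y :: l) = (1 + y * R) * w0 R l := by simp [w0]
    rw [e]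
    have : 0 < 1 + y * R := by nlinarith [mul_nonneg h2 hR.le]
    exact mul_pos this h1

theorem mom_closed (R : ℝ) (hR : 0 < R) (l : List ℝ) (h : ∀ y ∈ l, 0 ≤ y) :
    mom R l = ![w0 R l, w0 R l * s2 R l, w0 R l * ((s2 R l) ^ 2 + s3 R l / R),
      w0 R l * ((s3 R l + 2 * R * s4 R l) / R ^ 3 + 3 * s2 R l * (s3 R l / R) + (s2 R l) ^ 3)] := by
  induction l with
  | nil => ext i; fin_cases i <;> simp [mom, w0, s2, sV, s3, s4]
  | cons y l ih =>
    have h2 := h y (by simp)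
    have hy : 0 < 1 + y * R := by nlinarith [mul_nonneg h2 hR.le]
    rw [mom, ih (fun z hz => h z (by simp [hz]))]
    have e0 : w0 R (y :: l) = (1 + y * R) * w0 R l := by simp [w0]
    have e1 : sV R (y :: l) = y ^ 2 / (1 + y * R) ^ 2 + sV R l := by simp [sV]
    have e3 : s3 R (y :: l) = y ^ 3 / (1 + y * R) ^ 2 + s3 R l := by simp [s3]
    have e4 : s4 R (y :: l) = y ^ 4 / (1 + y * R) ^ 3 + s4 R l := by simp [s4]
    have e2 : s2 R (y :: l) = y ^ 2 / (1 + y * R) + s2 R l := by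
      rw [s2, e1, e3, s2]
      field_simp
      ring
    rw [e0, e2, e3, e4]
    generalize w0 R l = w
    generalize s2 R l = a
    generalize s3 R l = b
    generalize s4 R l = d
    have hy' : 1 + y * R ≠ 0 := hy.ne'
    have hR' : R ≠ 0 := hR.ne'
    ext i
    fin_cases i
    · simp [conv, m1]
    · simp only [conv, m1, Matrix.cons_val, Fin.mk_one]
      field_simp
    · simp only [conv, m1, Matrix.cons_val, Fin.reduceFinMk]
      field_simp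
      ring
    · simp only [conv, m1, Matrix.cons_val, Fin.reduceFinMk]
      field_simp
      ring

theorem s_nonneg (R : ℝ) (hR : 0 < R) (l : List ℝ) (h : ∀ y ∈ l, 0 ≤ y) :
    0 ≤ sV R l ∧ 0 ≤ s3 R l ∧ 0 ≤ s4 R l ∧ s4 R l ≤ sV R l * s2 R l ∧
      s4 R l ^ 2 ≤ sV R l * s3 R l ^ 2 := by
  induction l with
  | nil => simp [sV, s3, s4]
  | cons y l ih =>
    obtain ⟨a1, a2, a3, a4, a5⟩ := ih (fun z hz => h z (by simp [hz]))
    have h2 := h y (by simp)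
    have hy : 0 < 1 + y * R := by nlinarith [mul_nonneg h2 hR.le]
    have e1 : sV R (y :: l) = y ^ 2 / (1 + y * R) ^ 2 + sV R l := by simp [sV]
    have e3 : s3 R (y :: l) = y ^ 3 / (1 + y * R) ^ 2 + s3 R l := by simp [s3]
    have e4 : s4 R (y :: l) = y ^ 4 / (1 + y * R) ^ 3 + s4 R l := by simp [s4]
    have e2 : s2 R (y :: l) = y ^ 2 / (1 + y * R) + s2 R l := by
      rw [s2, e1, e3, s2]
      field_simp
      ring
    have b0 : 0 ≤ y ^ 2 / (1 + y * R) ^ 2 := by positivity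
    have b2 : 0 ≤ y ^ 2 / (1 + y * R) := by positivity
    have b3 : 0 ≤ y ^ 3 / (1 + y * R) ^ 2 := by positivity
    have b4 : 0 ≤ y ^ 4 / (1 + y * R) ^ 3 := by positivity
    have b5 : y ^ 4 / (1 + y * R) ^ 3 = (y ^ 2 / (1 + y * R) ^ 2) * (y ^ 2 / (1 + y * R)) := by
      field_simp
    have b6 : (y ^ 4 / (1 + y * R) ^ 3) ^ 2 =
        (y ^ 2 / (1 + y * R) ^ 2) * (y ^ 3 / (1 + y * R) ^ 2) ^ 2 := by
      field_simp
    have a6 : 0 ≤ s2 R l := by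
      rw [s2]; positivity
    rw [e1, e2, e3, e4]
    revert a1 a2 a3 a4 a5 a6 b0 b2 b3 b4 b5 b6
    generalize sV R l = V
    generalize s2 R l = S2
    generalize s3 R l = S3
    generalize s4 R l = S4
    generalize y ^ 2 / (1 + y * R) ^ 2 = v
    generalize y ^ 2 / (1 + y * R) = p
    generalize y ^ 3 / (1 + y * R) ^ 2 = q
    generalize y ^ 4 / (1 + y * R) ^ 3 = s
    intro a1 a2 a3 a4 a5 b0 b2 b3 b4 b5 b6 a6
    refine ⟨by positivity, by positivity, by positivity, ?_, ?_⟩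
    · nlinarith [mul_nonneg b0 a6, mul_nonneg a1 b2]
    · have hcross : s * S4 ≤ (v + V) * (q * S3) := by
        apply le_of_sq_le_sq _ (by positivity)
        have h3 : (s * S4) ^ 2 ≤ (v * q ^ 2) * (V * S3 ^ 2) := by
          rw [mul_pow, b6]
          exact mul_le_mul_of_nonneg_left a5 (by positivity)
        have h4 : (v * q ^ 2) * (V * S3 ^ 2) ≤ ((v + V) * (q * S3)) ^ 2 := by
          have : ((v + V) * (q * S3)) ^ 2 - (v * q ^ 2) * (V * S3 ^ 2) =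
            (v ^ 2 + v * V + V ^ 2) * (q * S3) ^ 2 := by ring
          have h5 : 0 ≤ (v ^ 2 + v * V + V ^ 2) * (q * S3) ^ 2 := by positivity
          linarith
        exact h3.trans h4
      nlinarith [mul_nonneg b0 (sq_nonneg S3), mul_nonneg a1 (sq_nonneg q)]

/-- triangle -/
def tri (x y z : ℝ) : ℝ := 1 + x + y + z + x * y + y * z + z * x

/-- forest sum of the terminals in logarithmic coordinates -/
def Gid (a01 a02 a03 a12 a13 a23 T012 T013 T023 T123 Q : ℝ) : ℝ :=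
  (1 + a02) * (1 + a03) * (1 + a12) * (1 + a13) - a02 * a03 * a12 * a13 +
    a23 * (1 + a02 + a03) * (1 + a12 + a13) + a01 * tri (a02 + a12) (a03 + a13) a23 +
    T012 * (1 + a03 + a13 + a23) + T013 * (1 + a02 + a12 + a23) +
    T023 * (1 + a01 + a12 + a13) + T123 * (1 + a01 + a02 + a03) + Q

def Ge (a02 a03 a12 a13 a23 T023 T123 : ℝ) : ℝ :=
  tri (a02 + a12) (a03 + a13) a23 + T023 + T123

def Gf (a01 a02 a03 a12 a13 T012 T013 : ℝ) : ℝ :=
  tri (a02 + a03) (a12 + a13) a01 + T012 + T013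

def Gef (a02 a03 a12 a13 : ℝ) : ℝ := 1 + a02 + a03 + a12 + a13

theorem dot_of_cub (K m : Fin 4 → ℝ) (g : ℝ → ℝ) (h : ∀ τ, g τ = cub K τ) :
    dot K m = g 0 * (m 0 - 11 / 6 * m 1 + m 2 - m 3 / 6) +
      g 1 * (3 * m 1 - 5 / 2 * m 2 + m 3 / 2) + g 2 * (-(3 / 2) * m 1 + 2 * m 2 - m 3 / 2) +
      g 3 * (m 1 / 3 - m 2 / 2 + m 3 / 6) := by
  rw [h 0, h 1, h 2, h 3]
  simp only [dot, cub]
  ring

theorem Gef_step (r0 r1 r2 r3 a02 a03 a12 a13 w S2 k2 k3 : ℝ) (K : Fin 4 → ℝ)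
    (h : ∀ τ, Gef (a02 + τ * (r0 * r2)) (a03 + τ * (r0 * r3)) (a12 + τ * (r1 * r2))
      (a13 + τ * (r1 * r3)) = cub K τ) :
    dot K ![w, w * S2, w * (S2 ^ 2 + k2), w * (k3 + 3 * S2 * k2 + S2 ^ 3)] =
      w * Gef (a02 + S2 * (r0 * r2)) (a03 + S2 * (r0 * r3)) (a12 + S2 * (r1 * r2))
      (a13 + S2 * (r1 * r3)) := by
  rw [dot_of_cub K _ _ h]
  simp only [Gef, Matrix.cons_val]
  ring

theorem Ge_step (r0 r1 r2 r3 a02 a03 a12 a13 a23 T023 T123 w S2 k2 k3 : ℝ) (K : Fin 4 → ℝ)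
    (h : ∀ τ, Ge (a02 + τ * (r0 * r2)) (a03 + τ * (r0 * r3)) (a12 + τ * (r1 * r2))
      (a13 + τ * (r1 * r3)) (a23 + τ * (r2 * r3)) T023 T123 = cub K τ) :
    dot K ![w, w * S2, w * (S2 ^ 2 + k2), w * (k3 + 3 * S2 * k2 + S2 ^ 3)] =
      w * Ge (a02 + S2 * (r0 * r2)) (a03 + S2 * (r0 * r3)) (a12 + S2 * (r1 * r2))
      (a13 + S2 * (r1 * r3)) (a23 + S2 * (r2 * r3))
      (T023 + (r0 + r1 + r2 + r3) * k2 * (r0 * r2 * r3))
      (T123 + (r0 + r1 + r2 + r3) * k2 * (r1 * r2 * r3)) := by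
  rw [dot_of_cub K _ _ h]
  simp only [Ge, tri, Matrix.cons_val]
  ring

theorem Gf_step (r0 r1 r2 r3 a01 a02 a03 a12 a13 T012 T013 w S2 k2 k3 : ℝ) (K : Fin 4 → ℝ)
    (h : ∀ τ, Gf (a01 + τ * (r0 * r1)) (a02 + τ * (r0 * r2)) (a03 + τ * (r0 * r3))
      (a12 + τ * (r1 * r2)) (a13 + τ * (r1 * r3)) T012 T013 = cub K τ) :
    dot K ![w, w * S2, w * (S2 ^ 2 + k2), w * (k3 + 3 * S2 * k2 + S2 ^ 3)] =
      w * Gf (a01 + S2 * (r0 * r1)) (a02 + S2 * (r0 * r2)) (a03 + S2 * (r0 * r3))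
      (a12 + S2 * (r1 * r2)) (a13 + S2 * (r1 * r3))
      (T012 + (r0 + r1 + r2 + r3) * k2 * (r0 * r1 * r2))
      (T013 + (r0 + r1 + r2 + r3) * k2 * (r0 * r1 * r3)) := by
  rw [dot_of_cub K _ _ h]
  simp only [Gf, tri, Matrix.cons_val]
  ring

theorem Gid_step (r0 r1 r2 r3 a01 a02 a03 a12 a13 a23 T012 T013 T023 T123 Q w S2 k2 k3 : ℝ)
    (K : Fin 4 → ℝ)
    (h : ∀ τ, Gid (a01 + τ * (r0 * r1)) (a02 + τ * (r0 * r2)) (a03 + τ * (r0 * r3))
      (a12 + τ * (r1 * r2)) (a13 + τ * (r1 * r3)) (a23 + τ * (r2 * r3)) T012 T013 T023 T123 Q =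
      cub K τ) :
    dot K ![w, w * S2, w * (S2 ^ 2 + k2), w * (k3 + 3 * S2 * k2 + S2 ^ 3)] =
      w * Gid (a01 + S2 * (r0 * r1)) (a02 + S2 * (r0 * r2)) (a03 + S2 * (r0 * r3))
      (a12 + S2 * (r1 * r2)) (a13 + S2 * (r1 * r3)) (a23 + S2 * (r2 * r3))
      (T012 + (r0 + r1 + r2 + r3) * k2 * (r0 * r1 * r2))
      (T013 + (r0 + r1 + r2 + r3) * k2 * (r0 * r1 * r3))
      (T023 + (r0 + r1 + r2 + r3) * k2 * (r0 * r2 * r3))
      (T123 + (r0 + r1 + r2 + r3) * k2 * (r1 * r2 * r3))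
      (Q + ((r0 + r1 + r2 + r3) ^ 2 * k3 - k2) * (r0 * r1 * r2 * r3)) := by
  rw [dot_of_cub K _ _ h]
  simp only [Gid, tri, Matrix.cons_val]
  ring

end Pool.Agent.Work.MP_ec1f6a_co
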