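import Pool.Agent.Work.MP_ec1f6a_co.RC8

/-!
Several blocks.
-/

set_option autoImplicit false

namespace Pool.Agent.Work.MP_ec1f6a_co

open scoped Classical

/-- a block with its attachment data -/
structure Blk (V : Type*) where
  us : List V
  x : V → ℝ
  r : Fin 4 → ℝ
  lU : List (V × V × ℝ)

/-- product of the three weights other than the `k`-th -/
def pr (r : Fin 4 → ℝ) : Fin 4 → ℝ :=
  ![r 1 * r 2 * r 3, r 0 * r 2 * r 3, r 0 * r 1 * r 3, r 0 * r 1 * r 2]

/-- rank-one matrix -/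
def rk (r : Fin 4 → ℝ) (q : Fin 4 × Fin 4) : ℝ := r q.1 * r q.2

def gid (a : Fin 4 × Fin 4 → ℝ) (T : Fin 4 → ℝ) (Q : ℝ) : ℝ :=
  Gid (a (0, 1)) (a (0, 2)) (a (0, 3)) (a (1, 2)) (a (1, 3)) (a (2, 3)) (T 3) (T 2) (T 1) (T 0) Q

def ge (a : Fin 4 × Fin 4 → ℝ) (T : Fin 4 → ℝ) (_Q : ℝ) : ℝ :=
  Ge (a (0, 2)) (a (0, 3)) (a (1, 2)) (a (1, 3)) (a (2, 3)) (T 1) (T 0)

def gf (a : Fin 4 × Fin 4 → ℝ) (T : Fin 4 → ℝ) (_Q : ℝ) : ℝ :=
  Gf (a (0, 1)) (a (0, 2)) (a (0, 3)) (a (1, 2)) (a (1, 3)) (T 3) (T 2)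

def gef (a : Fin 4 × Fin 4 → ℝ) (_T : Fin 4 → ℝ) (_Q : ℝ) : ℝ :=
  Gef (a (0, 2)) (a (0, 3)) (a (1, 2)) (a (1, 3))

/-- compatibility of a state function with blocks -/
def StepProp (g : (Fin 4 × Fin 4 → ℝ) → (Fin 4 → ℝ) → ℝ → ℝ) : Prop :=
  ∀ (r : Fin 4 → ℝ) (a : Fin 4 × Fin 4 → ℝ) (T : Fin 4 → ℝ) (Q w S2 k2 k3 : ℝ) (K : Fin 4 → ℝ),
    (∀ τ, g (fun q => a q + τ * rk r q) T Q = cub K τ) →
    dot K ![w, w * S2, w * (S2 ^ 2 + k2), w * (k3 + 3 * S2 * k2 + S2 ^ 3)] =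
      w * g (fun q => a q + S2 * rk r q) (fun k => T k + Rs r * k2 * pr r k)
        (Q + (Rs r ^ 2 * k3 - k2) * (r 0 * r 1 * r 2 * r 3))

theorem gid_step : StepProp gid := by
  intro r a T Q w S2 k2 k3 K h
  exact Gid_step (r 0) (r 1) (r 2) (r 3) _ _ _ _ _ _ _ _ _ _ Q w S2 k2 k3 K h

theorem ge_step : StepProp ge := by
  intro r a T Q w S2 k2 k3 K h
  exact Ge_step (r 0) (r 1) (r 2) (r 3) _ _ _ _ _ _ _ w S2 k2 k3 K h

theorem gf_step : StepProp gf := by
  intro r a T Q w S2 k2 k3 K h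
  exact Gf_step (r 0) (r 1) (r 2) (r 3) _ _ _ _ _ _ _ w S2 k2 k3 K h

theorem gef_step : StepProp gef := by
  intro r a T Q w S2 k2 k3 K h
  exact Gef_step (r 0) (r 1) (r 2) (r 3) _ _ _ _ w S2 k2 k3 K h

variable {V : Type*}

/-- edges between terminals -/
def KT (t : Fin 4 → V) (a : Fin 4 × Fin 4 → ℝ) : List (V × V × ℝ) :=
  prs.map (fun q => (t q.1, t q.2, a q))

/-- edges of the blocks -/
def pre (t : Fin 4 → V) : List (Blk V) → List (V × V × ℝ)
  | [] => []
  | b :: bs => b.lU ++ (stars t b.r b.x b.us ++ pre t bs)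

def Good (t : Fin 4 → V) (b : Blk V) : Prop :=
  b.us.Nodup ∧ (∀ u ∈ b.us, 0 < b.x u) ∧ (∀ i, 0 < b.r i) ∧ (∀ u ∈ b.us, ∀ i, u ≠ t i) ∧
    ∀ e ∈ b.lU, e.1 ∈ b.us ∧ e.2.1 ∈ b.us ∧ 0 ≤ e.2.2

/-- labels are trivial away from the terminals -/
def Off (t : Fin 4 → V) (c : V → V) : Prop :=
  ∀ v, (∀ i, v ≠ t i) → ∀ w, c v = c w → v = w

theorem Occ_KT (t : Fin 4 → V) (a : Fin 4 × Fin 4 → ℝ) (v : V)
    (h : Occ (KT t a) v) : ∃ i, v = t i := by
  obtain ⟨e, he, hv⟩ := h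
  simp only [KT, List.mem_map] at he
  obtain ⟨q, _, rfl⟩ := he
  rcases hv with hv | hv
  · exact ⟨_, hv⟩
  · exact ⟨_, hv⟩

theorem Occ_pre (t : Fin 4 → V) (bs : List (Blk V)) (hg : ∀ b ∈ bs, Good t b) (v : V)
    (h : Occ (pre t bs) v) : (∃ b ∈ bs, v ∈ b.us) ∨ ∃ i, v = t i := by
  induction bs with
  | nil => obtain ⟨e, he, _⟩ := h; simp [pre] at he
  | cons b bs ih =>
    simp only [pre, Occ_append] at h
    rcases h with h | h | h
    · obtain ⟨e, he, hv⟩ := h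
      have h1 := (hg b (by simp)).2.2.2.2 e he
      left
      refine ⟨b, by simp, ?_⟩
      rcases hv with rfl | rfl
      · exact h1.1
      · exact h1.2.1
    · rcases Occ_stars t b.r b.x b.us v h with h | h
      · exact Or.inl ⟨b, by simp, h⟩
      · exact Or.inr h
    · rcases ih (fun b hb => hg b (by simp [hb])) h with ⟨b', hb', h'⟩ | h
      · exact Or.inl ⟨b', by simp [hb'], h'⟩
      · exact Or.inr h

theorem TT_KT (t : Fin 4 → V) (r : Fin 4 → ℝ) (τ : ℝ) (a : Fin 4 × Fin 4 → ℝ)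
    (l : List (V × V × ℝ)) (c : V → V) :
    FS (TT t r τ ++ (l ++ KT t a)) c = FS (l ++ KT t (fun q => a q + τ * rk r q)) c := by
  have h1 : (TT t r τ ++ (l ++ KT t a)).Perm (TT t r τ ++ (KT t a ++ l)) :=
    List.Perm.append_left _ List.perm_append_comm
  rw [FS_perm h1]
  have h := FS_addW prs (fun q => t q.1) (fun q => t q.2) (fun q => τ * (r q.1 * r q.2))
    a l c
  have e : KT t (fun q => a q + τ * rk r q) = prs.map (fun q => (t q.1, t q.2,
      τ * (r q.1 * r q.2) + a q)) := by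
    unfold KT
    apply List.map_congr_left
    intro q _
    change (t q.1, t q.2, a q + τ * (r q.1 * r q.2)) = _
    rw [add_comm]
  rw [FS_append_comm l, e]
  exact h

/-- accumulated logarithmic coordinates -/
noncomputable def A2 (dat : List ((Fin 4 → ℝ) × List ℝ)) (q : Fin 4 × Fin 4) : ℝ :=
  (dat.map (fun d => s2 (Rs d.1) d.2 * rk d.1 q)).sum
noncomputable def T3 (dat : List ((Fin 4 → ℝ) × List ℝ)) (k : Fin 4) : ℝ :=
  (dat.map (fun d => s3 (Rs d.1) d.2 * pr d.1 k)).sum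
noncomputable def Q4 (dat : List ((Fin 4 → ℝ) × List ℝ)) : ℝ :=
  (dat.map (fun d => 2 * s4 (Rs d.1) d.2 * (d.1 0 * d.1 1 * d.1 2 * d.1 3))).sum

variable [Fintype V]

theorem multi (t : Fin 4 → V) (bs : List (Blk V)) :
    (∀ b ∈ bs, Good t b) → bs.Pairwise (fun b b' => ∀ u ∈ b.us, ∀ v ∈ b'.us, u ≠ v) →
    ∃ (W : ℝ) (dat : List ((Fin 4 → ℝ) × List ℝ)), 0 < W ∧
      (∀ d ∈ dat, (∀ i, 0 < d.1 i) ∧ ∀ y ∈ d.2, 0 ≤ y) ∧
      ∀ (g : (Fin 4 × Fin 4 → ℝ) → (Fin 4 → ℝ) → ℝ → ℝ) (c : V → V), StepProp g → Off t c →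
        (∀ a, FS (KT t a) c = g a (fun _ => 0) 0) →
        ∀ a, FS (pre t bs ++ KT t a) c = W * g (fun q => a q + A2 dat q) (T3 dat) (Q4 dat) := by
  induction bs with
  | nil =>
    intro _ _
    refine ⟨1, [], one_pos, by simp, ?_⟩
    intro g c _ _ h a
    simp only [pre, List.nil_append, h, one_mul]
    congr 1
    funext q; simp [A2]
  | cons b bs ih =>
    intro hg hp
    rw [List.pairwise_cons] at hp
    have hg' := fun b hb => hg b (List.mem_cons_of_mem _ hb)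
    obtain ⟨W, dat, hW, hdat, hmain⟩ := ih hg' hp.2
    obtain ⟨g1, g2, g3, g4, g5⟩ := hg b (by simp)
    have hR : 0 < Rs b.r := by
      have := g3 0; have := g3 1; have := g3 2; have := g3 3
      unfold Rs; positivity
    obtain ⟨F, ls, hF, hls, hblk⟩ := block_real t b.r hR.ne' (t 0) b.us g1 b.x g2 b.lU g5
      (fun h => g4 _ h 0 rfl)
    refine ⟨W * (F * w0 (Rs b.r) ls), (b.r, ls) :: dat, ?_, ?_, ?_⟩
    · have := w0_pos (Rs b.r) hR ls hls
      positivity
    · intro d hd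
      rcases List.mem_cons.1 hd with rfl | hd
      · exact ⟨g3, hls⟩
      · exact hdat d hd
    · intro g c hstep hoff hbase a
      have hIH := hmain g c hstep hoff hbase
      simp only [pre, List.append_assoc]
      obtain ⟨K, hK⟩ := Rep_exists t b.r (pre t bs ++ KT t a) c
      rw [hblk c (fun u hu v _ h => hoff u (g4 u hu) v h)
        (fun u hu h => g4 u hu 0 (hoff u (g4 u hu) _ h)) (pre t bs ++ KT t a) K ?_ hK]
      · have hcub : ∀ τ, g (fun q => (a q + A2 dat q) + τ * rk b.r q) (T3 dat) (Q4 dat) =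
            cub (fun i => K i / W) τ := by
          intro τ
          have h1 := hK τ
          rw [TT_KT, hIH] at h1
          have h2 : cub (fun i => K i / W) τ = cub K τ / W := by
            simp only [cub]; ring
          rw [h2, ← h1, mul_div_cancel_left₀ _ hW.ne']
          congr 1
          funext q
          ring
        have h3 := hstep b.r (fun q => a q + A2 dat q) (T3 dat) (Q4 dat) (w0 (Rs b.r) ls)
          (s2 (Rs b.r) ls) (s3 (Rs b.r) ls / Rs b.r)
          ((s3 (Rs b.r) ls + 2 * Rs b.r * s4 (Rs b.r) ls) / Rs b.r ^ 3) _ hcub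
        have h4 : dot K (mom (Rs b.r) ls) = W * dot (fun i => K i / W) (mom (Rs b.r) ls) := by
          simp only [dot]
          field_simp
        rw [h4, mom_closed (Rs b.r) hR ls hls, h3]
        have e1 : (fun q => a q + A2 dat q + s2 (Rs b.r) ls * rk b.r q) =
            (fun q => a q + A2 ((b.r, ls) :: dat) q) := by
          funext q
          simp only [A2, List.map_cons, List.sum_cons]
          ring
        have e2 : (fun k => T3 dat k + Rs b.r * (s3 (Rs b.r) ls / Rs b.r) * pr b.r k) =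
            T3 ((b.r, ls) :: dat) := by
          funext k
          simp only [T3, List.map_cons, List.sum_cons]
          rw [mul_div_cancel₀ _ hR.ne']
          ring
        have e3 : Q4 dat + (Rs b.r ^ 2 * ((s3 (Rs b.r) ls + 2 * Rs b.r * s4 (Rs b.r) ls) /
            Rs b.r ^ 3) - s3 (Rs b.r) ls / Rs b.r) * (b.r 0 * b.r 1 * b.r 2 * b.r 3) =
            Q4 ((b.r, ls) :: dat) := by
          simp only [Q4, List.map_cons, List.sum_cons]
          field_simp
          ring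
        rw [e1, e2, e3]
        ring
      · intro u hu
        refine ⟨fun i h => g4 u hu i (hoff u (g4 u hu) _ h), ?_⟩
        intro v hv h
        have huv := hoff u (g4 u hu) _ h
        rw [Occ_append] at hv
        rcases hv with hv | hv
        · rcases Occ_pre t bs hg' v hv with ⟨b', hb', hv'⟩ | ⟨i, rfl⟩
          · exact hp.1 b' hb' u hu v hv' huv
          · exact g4 u hu i huv
        · obtain ⟨i, rfl⟩ := Occ_KT t a v hv
          exact g4 u hu i huv

end Pool.Agent.Work.MP_ec1f6a_co
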