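import Pool.Agent.Work.MP_ec1f6a_co.Forest

/-!
The rooted forest function does not vanish when the diagonal entries lie in the upper half-plane.
-/

set_option autoImplicit false

namespace Pool.Agent.Work.MP_ec1f6a_co

open Matrix SimpleGraph Finset
open scoped Classical

/-- A biaffine polynomial without zeros in the square of the upper half-plane: subtracting a
nonnegative multiple of its mixed derivative creates no zeros there. -/
theorem biaffine_shift (α β γ δ : ℂ)
    (h : ∀ s t : ℂ, 0 < s.im → 0 < t.im → α + β * s + γ * t + δ * (s * t) ≠ 0)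
    (r : ℝ) (hr : 0 ≤ r) (s t : ℂ) (hs : 0 < s.im) (ht : 0 < t.im) :
    α + β * s + γ * t + δ * (s * t - r) ≠ 0 := by
  by_cases hδ : δ = 0
  · have := h s t hs ht
    subst hδ
    simpa using this
  obtain ⟨σ, hσ⟩ : ∃ σ : ℂ, σ = s + γ / δ := ⟨_, rfl⟩
  have hσpos : 0 < σ.im := by
    by_contra hneg
    push Not at hneg
    obtain ⟨s1, hs1⟩ : ∃ s1 : ℂ, s1 = -(γ / δ) := ⟨_, rfl⟩
    have hs1pos : 0 < s1.im := by
      have : σ.im = s.im - s1.im := by rw [hσ, hs1, Complex.add_im, Complex.neg_im]; ring
      linarith
    obtain ⟨κ, hκ⟩ : ∃ κ : ℂ, κ = α + β * s1 := ⟨_, rfl⟩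
    have hκ0 : κ ≠ 0 := by
      have := h s1 Complex.I hs1pos (by simp)
      have e : α + β * s1 + γ * Complex.I + δ * (s1 * Complex.I) = κ := by
        rw [hκ, hs1]; field_simp; ring
      rwa [e] at this
    obtain ⟨ζ, hζ⟩ : ∃ ζ : ℂ, ζ = Complex.I * κ / δ := ⟨_, rfl⟩
    obtain ⟨K, hK⟩ : ∃ K : ℝ, K = |ζ.im| / s1.im + |(β / δ).im| + 1 := ⟨_, rfl⟩
    have hKpos : 0 < K := by rw [hK]; positivity
    have hK1 : |ζ.im| < K * s1.im := by
      rw [hK, add_mul, add_mul, div_mul_cancel₀ _ hs1pos.ne']
      have : 0 ≤ |(β / δ).im| * s1.im := by positivity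
      linarith
    have hK2 : |(β / δ).im| < K := by
      rw [hK]
      have : 0 ≤ |ζ.im| / s1.im := by positivity
      linarith
    have hKc : (K : ℂ) ≠ 0 := by exact_mod_cast hKpos.ne'
    have h1 := h (s1 + ζ / K) (Complex.I * K - β / δ) (by
        rw [Complex.add_im, Complex.div_ofReal_im]
        have : -(|ζ.im|) ≤ ζ.im := neg_abs_le _
        have h2 : - s1.im < ζ.im / K := by
          rw [lt_div_iff₀ hKpos]; nlinarith
        linarith) (by
        rw [Complex.sub_im, Complex.mul_im]
        simp only [Complex.I_re, Complex.I_im, Complex.ofReal_re, Complex.ofReal_im]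
        have : (β / δ).im ≤ |(β / δ).im| := le_abs_self _
        linarith)
    apply h1
    have hα : α = κ - β * s1 := by rw [hκ]; ring
    rw [hα, hζ, hs1]
    field_simp
    ring_nf
    simp only [Complex.I_sq]
    ring
  have hσ0 : σ ≠ 0 := by
    intro h0
    rw [h0] at hσpos
    simp at hσpos
  have h1 := h s (t - r / σ) hs (by
    rw [Complex.sub_im]
    have : ((r : ℂ) / σ).im = - (r * σ.im / Complex.normSq σ) := by
      rw [Complex.div_im]
      simp
    rw [this]
    have h2 : 0 ≤ r * σ.im / Complex.normSq σ := by
      have := Complex.normSq_nonneg σ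
      positivity
    linarith)
  have e : α + β * s + γ * (t - r / σ) + δ * (s * (t - r / σ)) =
      α + β * s + γ * t + δ * (s * t - r) := by
    have hγ : γ = δ * (σ - s) := by rw [hσ]; field_simp; ring
    rw [hγ]
    field_simp
    ring
  rwa [e] at h1

variable {V : Type*} [Fintype V]

/-- diagonal unit -/
noncomputable def E (i : V) : Matrix V V ℂ := vecMulVec (Pi.single i 1) (Pi.single i 1)

theorem T_biaffine (a : V) (w : Sym2 V → ℂ) (S : Finset (Sym2 V)) (N : Matrix V V ℂ) (i j : V) :
    ∃ α β γ δ : ℂ, ∀ s t : ℂ,
      T a w S (N + s • E i + t • E j) = α + β * s + γ * t + δ * (s * t) := by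
  refine ⟨T a w S N, T a w S (N + E i) - T a w S N, T a w S (N + E j) - T a w S N,
    T a w S (N + E j + E i) - T a w S (N + E i) - T a w S (N + E j) + T a w S N, ?_⟩
  intro s t
  have h1 := T_affine a w S (N + s • E i) (Pi.single j 1) (Pi.single j 1) t
  have h2 := T_affine a w S N (Pi.single i 1) (Pi.single i 1) s
  have h3 := T_affine a w S (N + E j) (Pi.single i 1) (Pi.single i 1) s
  change T a w S (N + s • E i + t • E j) = _ + t * (T a w S (N + s • E i + E j) - _) at h1
  change T a w S (N + s • E i) = _ + s * (T a w S (N + E i) - _) at h2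
  change T a w S (N + E j + s • E i) = _ + s * (T a w S (N + E j + E i) - _) at h3
  have e1 : N + s • E i + E j = N + E j + s • E i := by abel
  rw [h1, e1, h3, h2]
  ring

theorem base_det_ne_zero (J : V → ℂ) (hJ : ∀ k, J k = 0 ∨ J k = 1) (X : Matrix V V ℂ)
    (hX : X.IsHermitian) (z : V → ℂ) (hz : ∀ k, 0 < (z k).im) :
    (1 + (X + diagonal z) * diagonal J).det ≠ 0 := by
  intro h0
  obtain ⟨p, hp0, hp⟩ := Matrix.exists_mulVec_eq_zero_iff.2 h0
  obtain ⟨x, hx⟩ : ∃ x : V → ℂ, x = diagonal J *ᵥ p := ⟨_, rfl⟩
  have hxk : ∀ k, x k = J k * p k := by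
    intro k; rw [hx, mulVec_diagonal]
  have h1 : p + (X *ᵥ x + diagonal z *ᵥ x) = 0 := by
    rw [← hp, add_mulVec, one_mulVec, ← mulVec_mulVec, ← hx, add_mulVec]
  have h2 : star x ⬝ᵥ p = ((∑ k, Complex.normSq (x k) : ℝ) : ℂ) := by
    rw [dotProduct, Complex.ofReal_sum]
    apply Finset.sum_congr rfl
    intro k _
    rw [Pi.star_apply, Complex.star_def, Complex.normSq_eq_conj_mul_self, hxk]
    rcases hJ k with h | h <;> rw [h] <;> simp
  have h3 : (star x ⬝ᵥ (X *ᵥ x)).im = 0 := hX.im_star_dotProduct_mulVec_self x
  have h4 : (star x ⬝ᵥ (diagonal z *ᵥ x)).im = ∑ k, (z k).im * Complex.normSq (x k) := by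
    rw [dotProduct, Complex.im_sum]
    apply Finset.sum_congr rfl
    intro k _
    rw [Pi.star_apply, mulVec_diagonal, Complex.star_def]
    have : (starRingEnd ℂ) (x k) * (z k * x k) = z k * ((starRingEnd ℂ) (x k) * x k) := by ring
    rw [this, ← Complex.normSq_eq_conj_mul_self, Complex.mul_im]
    simp
  have h5 : ∑ k, (z k).im * Complex.normSq (x k) = 0 := by
    have := congrArg (fun y => (star x ⬝ᵥ y).im) h1
    simp only [dotProduct_add, Complex.add_im, h2, h3, h4, dotProduct_zero, Complex.zero_im,
      Complex.ofReal_im, zero_add] at this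
    exact this
  have h6 : ∀ k, x k = 0 := by
    intro k
    have h7 := (Finset.sum_eq_zero_iff_of_nonneg (fun k _ =>
      mul_nonneg (hz k).le (Complex.normSq_nonneg (x k)))).1 h5 k (Finset.mem_univ k)
    rcases mul_eq_zero.1 h7 with h8 | h8
    · exact absurd h8 (hz k).ne'
    · exact Complex.normSq_eq_zero.1 h8
  have h9 : x = 0 := funext h6
  rw [h9] at h1
  simp only [mulVec_zero, add_zero] at h1
  exact hp0 h1

omit [Fintype V] in
theorem Jm_bot (a : V) : Jm a (⊥ : SimpleGraph V) = diagonal (fun k => if k = a then 0 else 1) := by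
  ext k l
  rw [Jm, Matrix.of_apply, diagonal_apply]
  simp only [reachable_bot]
  by_cases hkl : k = l
  · subst hkl
    by_cases hka : k = a
    · simp [hka]
    · simp [hka]
  · simp [hkl]

theorem stable (a : V) (w : Sym2 V → ℂ) (S : Finset (Sym2 V)) :
    (∀ g ∈ S, ¬ g.IsDiag) → (∀ g ∈ S, a ∉ g → ∃ r : ℝ, 0 ≤ r ∧ w g = r) →
    (∀ g ∈ S, a ∈ g → 0 ≤ (w g).im) →
    ∀ (X : Matrix V V ℂ), X.IsHermitian → ∀ z : V → ℂ, (∀ k, 0 < (z k).im) →
    T a w S (X + diagonal z) ≠ 0 := by
  induction S using Finset.induction_on with
  | empty =>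
    intro _ _ _ X hX z hz
    have h1 : gr (∅ : Finset (Sym2 V)) = ⊥ := by simp [gr]
    have h2 : T a w ∅ (X + diagonal z) = (1 + (X + diagonal z) * Jm a ⊥).det := by
      rw [T, Finset.powerset_empty, Finset.sum_singleton, term, h1,
        if_pos isAcyclic_bot, Finset.prod_empty, one_mul]
    rw [h2, Jm_bot]
    apply base_det_ne_zero _ _ X hX z hz
    intro k
    by_cases hk : k = a
    · left; simp [hk]
    · right; simp [hk]
  | @insert g S hg ih =>
    intro hdiag hpos hroot X hX z hz
    have ih' := ih (fun g hg => hdiag g (Finset.mem_insert_of_mem hg))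
      (fun g hg => hpos g (Finset.mem_insert_of_mem hg))
      (fun g hg => hroot g (Finset.mem_insert_of_mem hg))
    by_cases hag : a ∈ g
    · obtain ⟨j, rfl⟩ := hag
      have haj : a ≠ j := by
        have := hdiag _ (Finset.mem_insert_self _ _)
        simpa using this
      have him := hroot _ (Finset.mem_insert_self _ _) (Sym2.mem_mk_left a j)
      rw [T_star a w S _ j haj hg]
      have e : X + diagonal z + w s(a, j) • vecMulVec (Pi.single j 1) (Pi.single j 1) =
          X + diagonal (Function.update z j (z j + w s(a, j))) := by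
        rw [add_assoc]
        congr 1
        ext k l
        rw [Matrix.add_apply, Matrix.smul_apply, vecMulVec_apply, diagonal_apply, diagonal_apply]
        by_cases hkl : k = l
        · subst hkl
          by_cases hkj : k = j
          · subst hkj
            simp
          · simp [hkj]
        · by_cases hkj : k = j
          · subst hkj
            simp [hkl, Ne.symm hkl]
          · simp [hkj, hkl]
      rw [e]
      apply ih' X hX
      intro k
      by_cases hkj : k = j
      · subst hkj
        rw [Function.update_self, Complex.add_im]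
        have := hz k
        linarith
      · rw [Function.update_of_ne hkj]
        exact hz k
    · induction g with
      | _ i j =>
      have hij : i ≠ j := by
        have := hdiag _ (Finset.mem_insert_self _ _)
        simpa using this
      obtain ⟨r, hr, hwr⟩ := hpos _ (Finset.mem_insert_self _ _) hag
      have hc : ((Real.sqrt r : ℝ) : ℂ) ^ 2 = w s(i, j) := by
        rw [hwr, ← Complex.ofReal_pow, Real.sq_sqrt hr]
      have hrec := T_rec a w S (X + diagonal z) i j hij hg _ hc
      obtain ⟨c, hcdef⟩ : ∃ c : ℂ, c = ((Real.sqrt r : ℝ) : ℂ) := ⟨_, rfl⟩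
      rw [← hcdef] at hc hrec
      -- the Hermitian part
      have hY : (X + B i j (w s(i, j)) 0).IsHermitian := by
        apply IsHermitian.add hX
        rw [hwr]
        ext k l
        rw [conjTranspose_apply]
        simp only [B, Matrix.add_apply, vecMulVec_apply, Pi.sub_apply, Pi.smul_apply,
          Pi.add_apply, Pi.neg_apply, smul_eq_mul, add_zero, sub_zero]
        simp only [Pi.single_apply]
        split_ifs <;> simp
      obtain ⟨z0, hz0⟩ : ∃ z0 : V → ℂ, z0 = Function.update (Function.update z i 0) j 0 :=
        ⟨_, rfl⟩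
      obtain ⟨α, β, γ, δ, hF⟩ := T_biaffine a w S (X + B i j (w s(i, j)) 0 + diagonal z0) i j
      have hdec : ∀ s t : ℂ, X + B i j (w s(i, j)) 0 + diagonal z0 + s • E i + t • E j =
          X + B i j (w s(i, j)) 0 + diagonal (Function.update (Function.update z i s) j t) := by
        intro s t
        rw [add_assoc, add_assoc, hz0]
        congr 1
        ext k l
        rw [Matrix.add_apply, Matrix.add_apply, Matrix.smul_apply, Matrix.smul_apply, E, E,
          vecMulVec_apply, vecMulVec_apply, diagonal_apply, diagonal_apply]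
        by_cases hkl : k = l
        · subst hkl
          by_cases hkj : k = j
          · subst hkj
            simp [Ne.symm hij]
          · by_cases hki : k = i
            · subst hki
              simp [hkj]
            · simp [hkj, hki]
        · by_cases hkj : k = j
          · subst hkj
            simp [hkl, Ne.symm hkl, Ne.symm hij]
          · by_cases hki : k = i
            · subst hki
              simp [hkl, hkj, Ne.symm hkl]
            · simp [hkj, hki, hkl]
      have hFne : ∀ s t : ℂ, 0 < s.im → 0 < t.im → α + β * s + γ * t + δ * (s * t) ≠ 0 := by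
        intro s t hs ht
        rw [← hF, hdec]
        apply ih' _ hY
        intro k
        by_cases hkj : k = j
        · subst hkj; simpa using ht
        · rw [Function.update_of_ne hkj]
          by_cases hki : k = i
          · subst hki; simpa using hs
          · rw [Function.update_of_ne hki]; exact hz k
      have hB : ∀ c : ℂ, X + diagonal z + B i j (w s(i, j)) c =
          X + B i j (w s(i, j)) 0 + diagonal z0 + (z i + c) • E i + (z j - c) • E j := by
        intro c
        have h1 : B i j (w s(i, j)) c = B i j (w s(i, j)) 0 + c • E i - c • E j := by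
          rw [B, B, E, E]
          ext k l
          simp only [Matrix.add_apply, Matrix.sub_apply, Matrix.smul_apply, vecMulVec_apply,
            Pi.sub_apply, Pi.smul_apply, Pi.add_apply, Pi.neg_apply, smul_eq_mul]
          ring
        have h2 : diagonal z = diagonal z0 + z i • E i + z j • E j := by
          have := hdec (z i) (z j)
          rw [Function.update_eq_self, Function.update_eq_self] at this
          have h3 := add_left_cancel (a := X + B i j (w s(i, j)) 0)
            (b := diagonal z0 + z i • E i + z j • E j) (c := diagonal z) (by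
              rw [← this]; abel)
          exact h3.symm
        rw [h1, h2, add_smul, sub_smul]
        abel
      rw [hB, hB, hF, hF] at hrec
      have key := biaffine_shift α β γ δ hFne r hr (z i) (z j) (hz i) (hz j)
      intro h0
      apply key
      rw [h0] at hrec
      rw [hwr] at hc
      linear_combination (-(1 : ℂ) / 2) * hrec + δ * hc

end Pool.Agent.Work.MP_ec1f6a_co
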